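import Mathlib

/-!
# Predicates on letters closed under transpositions
-/

set_option autoImplicit false

namespace Pool.Agent.H1.Mal

lemma alt3_P {P : Fin 4 → Fin 4 → Fin 4 → Prop} (s12 : ∀ {x y z}, P x y z → P y x z)
    (s23 : ∀ {x y z}, P x y z → P x z y) (heq : ∀ x z, P x x z)
    (h0 : P 1 3 2) (h1 : P 0 2 3) (h2 : P 0 3 1) (h3 : P 0 1 2) (x y z : Fin 4) : P x y z := by
  fin_cases x <;> fin_cases y <;> fin_cases z <;>
  first
  | exact heq _ _ | exact s23 (heq _ _) | exact s12 (s23 (heq _ _))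
  | exact h0 | exact s12 h0 | exact s23 h0 | exact s12 (s23 h0) | exact s23 (s12 h0)
  | exact s12 (s23 (s12 h0))
  | exact h1 | exact s12 h1 | exact s23 h1 | exact s12 (s23 h1) | exact s23 (s12 h1)
  | exact s12 (s23 (s12 h1))
  | exact h2 | exact s12 h2 | exact s23 h2 | exact s12 (s23 h2) | exact s23 (s12 h2)
  | exact s12 (s23 (s12 h2))
  | exact h3 | exact s12 h3 | exact s23 h3 | exact s12 (s23 h3) | exact s23 (s12 h3)
  | exact s12 (s23 (s12 h3))

/-- all different -/
def Dist4 (a b c d : Fin 4) : Prop := a ≠ b ∧ a ≠ c ∧ a ≠ d ∧ b ≠ c ∧ b ≠ d ∧ c ≠ d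

instance (a b c d : Fin 4) : Decidable (Dist4 a b c d) := by unfold Dist4; infer_instance

lemma alt4_from {P : Fin 4 → Fin 4 → Fin 4 → Fin 4 → Prop}
    (s12 : ∀ {x y z u}, P x y z u → P y x z u) (s23 : ∀ {x y z u}, P x y z u → P x z y u)
    (s34 : ∀ {x y z u}, P x y z u → P x y u z)
    (h : P 0 1 2 3) {a b c d : Fin 4} (hd : Dist4 a b c d) : P a b c d := by
  have h3 : ∀ a b c : Fin 4, Dist4 a b c 3 → P a b c 3 := by
    intro a b c hd
    fin_cases a <;> fin_cases b <;> fin_cases c <;>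
    first
    | exact h | exact s12 h | exact s23 h | exact s12 (s23 h) | exact s23 (s12 h)
    | exact s12 (s23 (s12 h)) | (exact absurd hd (by decide))
  by_cases e : d = 3
  · subst e; exact h3 _ _ _ hd
  by_cases e2 : c = 3
  · subst e2; exact s34 (h3 _ _ _ (by revert a b d; decide))
  by_cases e3 : b = 3
  · subst e3; exact s23 (s34 (h3 _ _ _ (by revert a c d; decide)))
  by_cases e4 : a = 3
  · subst e4; exact s12 (s23 (s34 (h3 _ _ _ (by revert b c d; decide))))
  · exact absurd hd (by revert a b c d; decide)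

lemma alt4_to {P : Fin 4 → Fin 4 → Fin 4 → Fin 4 → Prop}
    (s12 : ∀ {x y z u}, P x y z u → P y x z u) (s23 : ∀ {x y z u}, P x y z u → P x z y u)
    (s34 : ∀ {x y z u}, P x y z u → P x y u z)
    {a b c d : Fin 4} (hd : Dist4 a b c d) (h : P a b c d) : P 0 1 2 3 := by
  by_contra h0
  exact alt4_from (P := fun x y z u => ¬ P x y z u) (fun h1 h2 => h1 (s12 h2))
    (fun h1 h2 => h1 (s23 h2)) (fun h1 h2 => h1 (s34 h2)) h0 hd h

lemma alt4_tt {P : Fin 4 → Fin 4 → Fin 4 → Fin 4 → Prop}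
    (s12 : ∀ {x y z u}, P x y z u → P y x z u) (s23 : ∀ {x y z u}, P x y z u → P x z y u)
    (s34 : ∀ {x y z u}, P x y z u → P x y u z)
    {a b c d : Fin 4} (hd : Dist4 a b c d) (h : P a b c d)
    {a' b' c' d' : Fin 4} (hd' : Dist4 a' b' c' d') : P a' b' c' d' :=
  alt4_from (P := P) s12 s23 s34 (alt4_to (P := P) s12 s23 s34 hd h) hd'

/-- all letters, distinct or not -/
lemma alt4_all {P : Fin 4 → Fin 4 → Fin 4 → Fin 4 → Prop}
    (s12 : ∀ {x y z u}, P x y z u → P y x z u) (s23 : ∀ {x y z u}, P x y z u → P x z y u)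
    (s34 : ∀ {x y z u}, P x y z u → P x y u z) (heq : ∀ x z u, P x x z u)
    {a b c d : Fin 4} (hd : Dist4 a b c d) (h : P a b c d) (x y z u : Fin 4) : P x y z u := by
  by_cases e : Dist4 x y z u
  · exact alt4_tt (P := P) s12 s23 s34 hd h e
  · have : x = y ∨ x = z ∨ x = u ∨ y = z ∨ y = u ∨ z = u := by
      clear heq h hd a b c d; revert x y z u; decide
    rcases this with rfl | rfl | rfl | rfl | rfl | rfl
    · exact heq _ _ _
    · exact s23 (heq _ _ _)
    · exact s34 (s23 (heq _ _ _))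
    · exact s12 (s23 (heq _ _ _))
    · exact s34 (s12 (s23 (heq _ _ _)))
    · exact s23 (s34 (s12 (s23 (heq _ _ _))))

end Pool.Agent.H1.Mal
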