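import Mathlib

/-!
# Malcev algebras over `ℚ`: basic identities
-/

set_option autoImplicit false

namespace Pool.Agent.H1.Mal

variable {A : Type} [NonUnitalNonAssocRing A]

/-- The Jacobian. -/
def J (x y z : A) : A := x * y * z + y * z * x + z * x * y

/-- Malcev algebras. -/
class IsMal (A : Type) [NonUnitalNonAssocRing A] : Prop where
  sq : ∀ x : A, x * x = 0
  mal : ∀ x y z : A, J x y (x * z) = J x y z * x

section Lin

lemma J_cyc (x y z : A) : J x y z = J y z x := by
  unfold J; abel

lemma J_add_left (x x' y z : A) : J (x + x') y z = J x y z + J x' y z := by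
  unfold J; simp only [add_mul, mul_add]; abel

lemma J_add_mid (x y y' z : A) : J x (y + y') z = J x y z + J x y' z := by
  unfold J; simp only [add_mul, mul_add]; abel

lemma J_add_right (x y z z' : A) : J x y (z + z') = J x y z + J x y z' := by
  unfold J; simp only [add_mul, mul_add]; abel

lemma J_neg_left (x y z : A) : J (-x) y z = -J x y z := by
  unfold J; simp only [neg_mul, mul_neg]; abel

lemma J_neg_mid (x y z : A) : J x (-y) z = -J x y z := by
  unfold J; simp only [neg_mul, mul_neg]; abel

lemma J_neg_right (x y z : A) : J x y (-z) = -J x y z := by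
  unfold J; simp only [neg_mul, mul_neg]; abel

lemma J_zero_left (y z : A) : J 0 y z = 0 := by
  unfold J; simp

lemma J_zero_mid (x z : A) : J x 0 z = 0 := by
  unfold J; simp

lemma J_zero_right (x y : A) : J x y 0 = 0 := by
  unfold J; simp

variable [Module ℚ A] [IsScalarTower ℚ A A] [SMulCommClass ℚ A A]

lemma J_smul_left (c : ℚ) (x y z : A) : J (c • x) y z = c • J x y z := by
  unfold J; simp only [smul_mul_assoc, mul_smul_comm, smul_add]

lemma J_smul_mid (c : ℚ) (x y z : A) : J x (c • y) z = c • J x y z := by
  unfold J; simp only [smul_mul_assoc, mul_smul_comm, smul_add]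

lemma J_smul_right (c : ℚ) (x y z : A) : J x y (c • z) = c • J x y z := by
  unfold J; simp only [smul_mul_assoc, mul_smul_comm, smul_add]

end Lin

section Mal

variable [IsMal A]

lemma mul_self' (x : A) : x * x = 0 := IsMal.sq x

lemma anti (x y : A) : x * y = -(y * x) := by
  have h := mul_self' (x + y)
  rw [mul_add, add_mul, add_mul, mul_self' x, mul_self' y, zero_add, add_zero] at h
  exact eq_neg_of_add_eq_zero_right h

lemma J_swap (x y z : A) : J x y z = -J y x z := by
  unfold J
  rw [anti y x, anti x z, anti z y]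
  simp only [neg_mul]
  abel

lemma J_swap' (x y z : A) : J x y z = -J x z y := by
  rw [J_cyc, J_cyc y z x, J_swap, J_cyc]

lemma J_self (x z : A) : J x x z = 0 := by
  unfold J
  rw [mul_self', anti z x]
  simp

lemma J_self' (x y : A) : J x y y = 0 := by
  rw [J_cyc, J_self]

lemma J_self'' (x y : A) : J x y x = 0 := by
  rw [J_cyc, J_cyc, J_self]

/-- linearised Malcev identity -/
lemma mal_lin (x y w z : A) :
    J x y (w * z) + J w y (x * z) = J x y z * w + J w y z * x := by
  have h := IsMal.mal (x + w) y z
  have h1 := IsMal.mal x y z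
  have h2 := IsMal.mal w y z
  simp only [J_add_left, J_add_right, add_mul, mul_add] at h
  rw [h1, h2] at h
  have h3 : J x y (w * z) + J w y (x * z) = (J x y z * x + J w y (x * z) + (J x y (w * z) + J w y z * w))
    - J x y z * x - J w y z * w := by abel
  rw [h3, h]
  abel

lemma Jp_eq (a b c d : A) : J a b (c * d) = a * b * (c * d) - c * d * b * a + c * d * a * b := by
  unfold J
  rw [anti b (c * d), neg_mul]
  abel

variable [Module ℚ A]

lemma J_prod (w x y z : A) :
    (3 : ℚ) • J (w * x) y z
      = J x y z * w - J y z w * x - (2 : ℚ) • (J z w x * y) + (2 : ℚ) • (J w x y * z) := by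
  have h1 := mal_lin w x y z
  have h2 := mal_lin w x z y
  have h3 := mal_lin w y x z
  have h4 := mal_lin w y z x
  have h5 := mal_lin w z x y
  rw [J_cyc (w * x) y z]
  simp only [Jp_eq] at *
  simp only [J, add_mul] at *
  simp only [anti x w, anti y w, anti z w, anti y x, anti z x, anti z y, neg_mul, mul_neg,
    neg_neg, anti (y * z) (w * x), anti (x * z) (w * y), anti (x * y) (w * z)] at *
  linear_combination (norm := module) (-3/2 : ℚ) • h1 + (-1 : ℚ) • h2 + (-2 : ℚ) • h3
    + (-5/2 : ℚ) • h4 + (-1/2 : ℚ) • h5

lemma op_prod (w x y z : A) :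
    w * (x * y * z) = w * x * y * z - w * z * x * y - w * (y * z) * x - w * y * (x * z) := by
  have h1 := mal_lin w x y z
  have h2 := mal_lin w x z y
  have h3 := mal_lin w y x z
  have h4 := mal_lin w y z x
  have h5 := mal_lin w z x y
  rw [anti w (x * y * z), anti w (y * z)]
  simp only [Jp_eq] at *
  simp only [J, add_mul] at *
  simp only [anti x w, anti y w, anti z w, anti y x, anti z x, anti z y, neg_mul, mul_neg,
    neg_neg, anti (y * z) (w * x), anti (x * z) (w * y), anti (x * y) (w * z)] at *
  linear_combination (norm := module) (1/2 : ℚ) • h1 + (1 : ℚ) • h2 + (1 : ℚ) • h3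
    + (1/2 : ℚ) • h4 + (1/2 : ℚ) • h5

end Mal

end Pool.Agent.H1.Mal
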