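import Pool.Agent.H1.Mal.Final

/-!
# Extension to all fields of characteristic zero
-/

set_option autoImplicit false
set_option linter.unusedSectionVars false
set_option linter.unusedSimpArgs false
set_option linter.unusedVariables false

namespace Pool.Agent.H1.Mal

open MvPolynomial TensorProduct

/-! ### tensor products -/

section tm

variable {P K M A : Type} [CommRing P] [Algebra ℚ P] [CommRing K] [Algebra ℚ K]
  [NonUnitalNonAssocRing M] [Module ℚ M] [IsScalarTower ℚ M M] [SMulCommClass ℚ M M]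
  [NonUnitalNonAssocRing A] [Module ℚ A] [IsScalarTower ℚ A A] [SMulCommClass ℚ A A]
  [Module K A] [IsScalarTower K A A] [SMulCommClass K A A] [IsScalarTower ℚ K A]

/-- linear map `p ⊗ m ↦ α(p) φ(m)` -/
noncomputable def tmL (α : P →ₐ[ℚ] K) (φ : M →ₙₐ[ℚ] A) : P ⊗[ℚ] M →ₗ[ℚ] A :=
  TensorProduct.lift (LinearMap.mk₂ ℚ (fun p m => α p • φ m)
    (fun p p' m => by rw [map_add, add_smul])
    (fun c p m => by rw [map_smul, smul_assoc])
    (fun p m m' => by rw [map_add, smul_add])
    (fun c p m => by rw [map_smul, smul_algebra_smul_comm]))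

lemma tmL_tmul (α : P →ₐ[ℚ] K) (φ : M →ₙₐ[ℚ] A) (p : P) (m : M) :
    tmL α φ (p ⊗ₜ m) = α p • φ m := rfl

/-- homomorphism `p ⊗ m ↦ α(p) φ(m)` -/
noncomputable def tm (α : P →ₐ[ℚ] K) (φ : M →ₙₐ[ℚ] A) : P ⊗[ℚ] M →ₙₐ[ℚ] A :=
  { tmL α φ with
    map_smul' := fun c a => (tmL α φ).map_smul c a
    map_zero' := (tmL α φ).map_zero
    map_add' := (tmL α φ).map_add
    map_mul' := by
      intro x y
      show tmL α φ (x * y) = tmL α φ x * tmL α φ y
      induction x with
      | zero => rw [zero_mul, map_zero, zero_mul]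
      | add x x' hx hx' => rw [add_mul, map_add, map_add, add_mul, hx, hx']
      | tmul p m =>
        induction y with
        | zero => rw [mul_zero, map_zero, mul_zero]
        | add x x' hx hx' => rw [mul_add, map_add, map_add, mul_add, hx, hx']
        | tmul q n =>
          rw [Algebra.TensorProduct.tmul_mul_tmul, tmL_tmul, tmL_tmul, tmL_tmul, map_mul, map_mul,
            smul_mul_smul_comm] }

lemma tm_tmul (α : P →ₐ[ℚ] K) (φ : M →ₙₐ[ℚ] A) (p : P) (m : M) :
    tm α φ (p ⊗ₜ m) = α p • φ m := rfl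

end tm

/-! ### persistence of identities -/

/-- an identity over `ℚ` of an algebra `M` is an identity of every algebra spanned over an extension
of `ℚ` by the image of `M` -/
theorem ext_van {K M A : Type} [CommRing K] [Algebra ℚ K]
    [NonUnitalNonAssocRing M] [Module ℚ M] [IsScalarTower ℚ M M] [SMulCommClass ℚ M M]
    [NonUnitalNonAssocRing A] [Module ℚ A] [IsScalarTower ℚ A A] [SMulCommClass ℚ A A]
    [Module K A] [IsScalarTower K A A] [SMulCommClass K A A] [IsScalarTower ℚ K A]
    (φ : M →ₙₐ[ℚ] A) (hspan : ∀ x : A, x ∈ Submodule.span K (Set.range φ))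
    {g : FA ℕ} (hg : ∀ v : ℕ → M, liftA v g = 0) (v : ℕ → A) : liftA v g = 0 := by
  have hex : ∀ n, ∃ c : M →₀ K, (c.sum fun m k => k • φ m) = v n := fun n =>
    Finsupp.mem_span_range_iff_exists_finsupp.1 (hspan (v n))
  choose c hc using hex
  let P := MvPolynomial (ℕ × M) ℚ
  let u : ℕ → P ⊗[ℚ] M := fun n => ∑ m ∈ (c n).support, (X (n, m) : P) ⊗ₜ[ℚ] m
  let α : P →ₐ[ℚ] K := aeval (fun t : ℕ × M => c t.1 t.2)
  have hu : (fun n => tm α φ (u n)) = v := by
    funext n
    rw [← hc n, Finsupp.sum, map_sum]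
    refine Finset.sum_congr rfl fun m _ => ?_
    rw [tm_tmul, aeval_X]
  have h0 : liftA u g = 0 := by
    let b := Module.Basis.ofVectorSpace ℚ M
    let B := Algebra.TensorProduct.basis P b
    refine B.repr.map_eq_zero_iff.1 ?_
    ext1 i
    rw [Finsupp.coe_zero, Pi.zero_apply]
    refine MvPolynomial.funext fun t => ?_
    rw [map_zero]
    let ε : P →ₐ[ℚ] ℚ := aeval t
    have h1 : tm ε (NonUnitalAlgHom.id ℚ M) (liftA u g) = 0 := by
      rw [liftA_nat]; exact hg _
    have h2 : ∀ x : P ⊗[ℚ] M, b.repr (tm ε (NonUnitalAlgHom.id ℚ M) x) i = ε (B.repr x i) := by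
      intro x
      induction x with
      | zero => simp
      | add x y hx hy => rw [map_add, map_add, Finsupp.add_apply, hx, hy, map_add,
          Finsupp.add_apply, map_add]
      | tmul p m =>
        rw [tm_tmul]
        show b.repr (ε p • m) i = ε ((Algebra.TensorProduct.basis P b).repr (p ⊗ₜ m) i)
        rw [Algebra.TensorProduct.basis_repr_tmul, map_smul]
        simp
    have h3 := h2 (liftA u g)
    rw [h1, map_zero, Finsupp.coe_zero, Pi.zero_apply] at h3
    rw [h3]
    show eval t _ = aeval t _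
    rw [aeval_def, eval, coe_eval₂Hom]; rfl
  rw [← hu, ← liftA_nat, h0, map_zero]

/-! ### scalar extension of Malcev algebras -/

section ext

variable {K B : Type} [Field K] [Algebra ℚ K]
  [NonUnitalNonAssocRing B] [Module ℚ B] [IsScalarTower ℚ B B] [SMulCommClass ℚ B B]

lemma tens_anti [IsMal B] (x y : K ⊗[ℚ] B) : x * y = -(y * x) := by
  induction x with
  | zero => simp
  | add x x' hx hx' => rw [add_mul, hx, hx', mul_add, neg_add]
  | tmul p m =>
    induction y with
    | zero => simp
    | add x x' hx hx' => rw [mul_add, hx, hx', add_mul, neg_add]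
    | tmul q n =>
      rw [Algebra.TensorProduct.tmul_mul_tmul, Algebra.TensorProduct.tmul_mul_tmul,
        anti m n, TensorProduct.tmul_neg, mul_comm]

lemma tens_mal [IsMal B] (x y w z : K ⊗[ℚ] B) :
    J x y (w * z) + J w y (x * z) = J x y z * w + J w y z * x := by
  induction x with
  | zero => simp [J_zero_left, J_zero_mid, J_zero_right]
  | add x x' hx hx' =>
    simp only [J_add_left, J_add_right, add_mul, mul_add] at *
    linear_combination (norm := module) hx + hx'
  | tmul a x =>
  induction y with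
  | zero => simp [J_zero_left, J_zero_mid, J_zero_right]
  | add y y' hx hx' =>
    simp only [J_add_mid, add_mul, mul_add] at *
    linear_combination (norm := module) hx + hx'
  | tmul b y =>
  induction w with
  | zero => simp [J_zero_left, J_zero_mid, J_zero_right]
  | add w w' hx hx' =>
    simp only [J_add_left, J_add_right, add_mul, mul_add] at *
    linear_combination (norm := module) hx + hx'
  | tmul c w =>
  induction z with
  | zero => simp [J_zero_left, J_zero_mid, J_zero_right]
  | add z z' hx hx' =>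
    simp only [J_add_left, J_add_right, add_mul, mul_add] at *
    linear_combination (norm := module) hx + hx'
  | tmul d z =>
  have h := mal_lin x y w z
  have hJ : ∀ (a b c : K) (x y z : B), J (a ⊗ₜ[ℚ] x) (b ⊗ₜ[ℚ] y) (c ⊗ₜ[ℚ] z)
      = (a * b * c) ⊗ₜ[ℚ] J x y z := by
    intro a b c x y z
    unfold J
    simp only [Algebra.TensorProduct.tmul_mul_tmul, TensorProduct.tmul_add]
    rw [show b * c * a = a * b * c by ring, show c * a * b = a * b * c by ring]
  simp only [Algebra.TensorProduct.tmul_mul_tmul, hJ]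
  rw [show c * b * (a * d) = a * b * (c * d) by ring, show a * b * d * c = a * b * (c * d) by ring,
    show c * b * d * a = a * b * (c * d) by ring, ← TensorProduct.tmul_add,
    ← TensorProduct.tmul_add, h]

instance [IsMal B] : IsMal (K ⊗[ℚ] B) where
  sq := by
    intro x
    have h := tens_anti x x
    have h2 : (2 : ℚ) • (x * x) = 0 := by
      rw [two_smul]; nth_rw 2 [h]; abel
    exact (smul_eq_zero.1 h2).resolve_left (by norm_num)
  mal := by
    intro x y z
    have h := tens_mal x y x z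
    have h2 : (2 : ℚ) • (J x y (x * z) - J x y z * x) = 0 := by
      linear_combination (norm := module) h
    exact sub_eq_zero.1 ((smul_eq_zero.1 h2).resolve_left (by norm_num))

lemma tens_gen {k : ℕ} {a : Fin k → B} (ha : NonUnitalAlgebra.adjoin ℚ (Set.range a) = ⊤) :
    NonUnitalAlgebra.adjoin K (Set.range fun i => (1 : K) ⊗ₜ[ℚ] a i) = ⊤ := by
  have h1 : ∀ b : B, (1 : K) ⊗ₜ[ℚ] b
      ∈ NonUnitalAlgebra.adjoin K (Set.range fun i => (1 : K) ⊗ₜ[ℚ] a i) := by
    intro b
    have hb : b ∈ NonUnitalAlgebra.adjoin ℚ (Set.range a) := by rw [ha]; trivial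
    induction hb using NonUnitalAlgebra.adjoin_induction with
    | mem x hx =>
      obtain ⟨i, rfl⟩ := hx
      exact NonUnitalAlgebra.subset_adjoin K ⟨i, rfl⟩
    | add x y _ _ hx hy => rw [TensorProduct.tmul_add]; exact add_mem hx hy
    | zero => rw [TensorProduct.tmul_zero]; exact zero_mem _
    | mul x y _ _ hx hy =>
      have : (1 : K) ⊗ₜ[ℚ] (x * y) = ((1 : K) ⊗ₜ[ℚ] x) * ((1 : K) ⊗ₜ[ℚ] y) := by
        rw [Algebra.TensorProduct.tmul_mul_tmul, one_mul]
      rw [this]; exact mul_mem hx hy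
    | smul r x _ hx =>
      have : (1 : K) ⊗ₜ[ℚ] (r • x) = (algebraMap ℚ K r) • ((1 : K) ⊗ₜ[ℚ] x) := by
        rw [TensorProduct.tmul_smul, ← algebraMap_smul K]
      rw [this]; exact SMulMemClass.smul_mem _ hx
  rw [eq_top_iff]
  intro x _
  induction x with
  | zero => exact zero_mem _
  | add x y hx hy => exact add_mem (hx trivial) (hy trivial)
  | tmul k b =>
    have : k ⊗ₜ[ℚ] b = k • ((1 : K) ⊗ₜ[ℚ] b) := by
      rw [TensorProduct.smul_tmul', smul_eq_mul, mul_one]
    rw [this]; exact SMulMemClass.smul_mem _ (h1 b)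

end ext

/-! ### the theorem over a field of characteristic zero -/

/-- evaluation of nonassociative polynomials with coefficients in `K` -/
noncomputable abbrev liftK {K A : Type} [Field K] [NonUnitalNonAssocRing A] [Module K A]
    [IsScalarTower K A A] [SMulCommClass K A A] (v : ℕ → A) (f : MonoidAlgebra K (FreeMagma ℕ)) : A :=
  MonoidAlgebra.liftMagma K (FreeMagma.lift v) f

lemma liftK_eq {K A : Type} [Field K] [NonUnitalNonAssocRing A] [Module K A]
    [IsScalarTower K A A] [SMulCommClass K A A] (v : ℕ → A) (f : MonoidAlgebra K (FreeMagma ℕ)) :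
    liftK v f = f.coeff.sum fun w k => k • FreeMagma.lift v w := by
  unfold liftK
  rw [MonoidAlgebra.liftMagma_apply_apply]
  rfl

/-- a functional applied to the coefficients -/
noncomputable def coefMap {K : Type} [Field K] [Algebra ℚ K] (μ : K →ₗ[ℚ] ℚ)
    (f : MonoidAlgebra K (FreeMagma ℕ)) : FA ℕ :=
  f.coeff.sum fun w k => MonoidAlgebra.single w (μ k)

lemma liftA_coefMap {K B : Type} [Field K] [Algebra ℚ K]
    [NonUnitalNonAssocRing B] [Module ℚ B] [IsScalarTower ℚ B B] [SMulCommClass ℚ B B]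
    (μ : K →ₗ[ℚ] ℚ) (f : MonoidAlgebra K (FreeMagma ℕ)) (v : ℕ → B) :
    liftA v (coefMap μ f) = f.coeff.sum fun w k => μ k • FreeMagma.lift v w := by
  unfold coefMap
  rw [map_finsuppSum]
  refine Finset.sum_congr rfl fun w _ => ?_
  have : (MonoidAlgebra.single w (μ (f.coeff w)) : FA ℕ)
      = (μ (f.coeff w)) • MonoidAlgebra.single w (1 : ℚ) := by
    rw [MonoidAlgebra.smul_single, smul_eq_mul, mul_one]
  show liftA v (MonoidAlgebra.single w (μ (f.coeff w))) = μ (f.coeff w) • FreeMagma.lift v w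
  rw [this, map_smul, liftA_single]

lemma lift_one_tmul {K B : Type} [Field K] [Algebra ℚ K]
    [NonUnitalNonAssocRing B] [Module ℚ B] [IsScalarTower ℚ B B] [SMulCommClass ℚ B B]
    (v : ℕ → B) (w : FreeMagma ℕ) :
    FreeMagma.lift (fun n => (1 : K) ⊗ₜ[ℚ] v n) w = (1 : K) ⊗ₜ[ℚ] FreeMagma.lift v w := by
  induction w using FreeMagma.recOnMul with
  | ih1 x => rw [FreeMagma.lift_of, FreeMagma.lift_of]
  | ih2 a b ha hb =>
    rw [map_mul, map_mul, ha, hb, Algebra.TensorProduct.tmul_mul_tmul, one_mul]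

/-- `f` is an identity of all Malcev `K`-algebras generated by `k` elements -/
def IdK (K : Type) [Field K] (k : ℕ) (f : MonoidAlgebra K (FreeMagma ℕ)) : Prop :=
  ∀ (A : Type) [NonUnitalNonAssocRing A] [Module K A] [IsScalarTower K A A]
    [SMulCommClass K A A] [IsMal A] (a : Fin k → A),
    NonUnitalAlgebra.adjoin K (Set.range a) = ⊤ → ∀ v : ℕ → A, liftK v f = 0

lemma coef_id {K : Type} [Field K] [Algebra ℚ K] {f : MonoidAlgebra K (FreeMagma ℕ)}
    (hf : IdK K 3 f) (μ : K →ₗ[ℚ] ℚ) : IdG 3 (coefMap μ f) := by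
  intro B _ _ _ _ _ b hb v
  let θ : K ⊗[ℚ] B →ₗ[ℚ] B := TensorProduct.lift (LinearMap.mk₂ ℚ (fun k b => μ k • b)
    (fun p p' m => by rw [map_add, add_smul])
    (fun c p m => by rw [map_smul, smul_assoc])
    (fun p m m' => by rw [smul_add])
    (fun c p m => by rw [smul_comm]))
  have hθ : ∀ k b, θ (k ⊗ₜ b) = μ k • b := fun k b => rfl
  have h := hf (K ⊗[ℚ] B) (fun i => (1 : K) ⊗ₜ[ℚ] b i) (tens_gen hb) (fun n => (1 : K) ⊗ₜ[ℚ] v n)
  rw [liftK_eq] at h
  have h2 := congrArg θ h
  rw [map_zero, map_finsuppSum] at h2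
  rw [liftA_coefMap, ← h2]
  refine Finset.sum_congr rfl fun w _ => ?_
  simp only []
  rw [lift_one_tmul, TensorProduct.smul_tmul', smul_eq_mul, mul_one, hθ]

lemma coef_zero {K A : Type} [Field K] [Algebra ℚ K] [AddCommGroup A] [Module K A] [Module ℚ A]
    [IsScalarTower ℚ K A] {I : Type} (s : Finset I) (k : I → K) (x : I → A)
    (h : ∀ μ : K →ₗ[ℚ] ℚ, ∑ w ∈ s, μ (k w) • x w = 0) : ∑ w ∈ s, k w • x w = 0 := by
  classical
  let κ := Module.Basis.ofVectorSpace ℚ K
  let T := s.biUnion fun w => (κ.repr (k w)).support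
  have hk : ∀ w ∈ s, k w = ∑ i ∈ T, κ.repr (k w) i • κ i := by
    intro w hw
    conv_lhs => rw [← κ.linearCombination_repr (k w)]
    rw [Finsupp.linearCombination_apply]
    refine Finsupp.sum_of_support_subset _ ?_ _ (fun i _ => zero_smul _ _)
    exact Finset.subset_biUnion_of_mem (fun w => (κ.repr (k w)).support) hw
  have h1 : ∑ w ∈ s, k w • x w = ∑ w ∈ s, ∑ i ∈ T, κ i • (κ.repr (k w) i • x w) := by
    refine Finset.sum_congr rfl fun w hw => ?_
    conv_lhs => rw [hk w hw]
    rw [Finset.sum_smul]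
    refine Finset.sum_congr rfl fun i _ => ?_
    rw [smul_assoc, ← smul_algebra_smul_comm]
  rw [h1, Finset.sum_comm]
  refine Finset.sum_eq_zero fun i _ => ?_
  rw [← Finset.smul_sum]
  have := h (κ.coord i)
  simp only [Module.Basis.coord_apply] at this
  rw [this, smul_zero]

/-- **Main theorem over fields of characteristic zero.** -/
theorem main_K {K : Type} [Field K] [CharZero K] {f : MonoidAlgebra K (FreeMagma ℕ)}
    (hf : IdK K 3 f) : IdK K 4 f := by
  intro A _ _ _ _ _ a ha v
  let _ : Algebra ℚ K := DivisionRing.toRatAlgebra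
  let _ : Module ℚ A := Module.compHom A (algebraMap ℚ K)
  have hcomp : ∀ (q : ℚ) (x : A), q • x = algebraMap ℚ K q • x := fun _ _ => rfl
  have : IsScalarTower ℚ K A := ⟨fun q k x => by rw [hcomp, Algebra.smul_def, mul_smul]⟩
  have : IsScalarTower ℚ A A := ⟨fun q x y => by
    rw [hcomp, hcomp, smul_eq_mul, smul_eq_mul, smul_mul_assoc]⟩
  have : SMulCommClass ℚ A A := ⟨fun q x y => by
    rw [hcomp, hcomp, smul_eq_mul, smul_eq_mul, mul_smul_comm]⟩
  have hmul : ∀ x ∈ Submodule.span K (Set.range (lift a : M4 →ₙₐ[ℚ] A)),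
      ∀ y ∈ Submodule.span K (Set.range (lift a : M4 →ₙₐ[ℚ] A)),
      x * y ∈ Submodule.span K (Set.range (lift a : M4 →ₙₐ[ℚ] A)) := by
    intro x hx y hy
    induction hx using Submodule.span_induction with
    | zero => rw [zero_mul]; exact Submodule.zero_mem _
    | add p q _ _ hp hq => rw [add_mul]; exact Submodule.add_mem _ hp hq
    | smul c p _ hp => rw [smul_mul_assoc]; exact Submodule.smul_mem _ _ hp
    | mem x hx =>
      obtain ⟨m, rfl⟩ := hx
      induction hy using Submodule.span_induction with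
      | zero => rw [mul_zero]; exact Submodule.zero_mem _
      | add p q _ _ hp hq => rw [mul_add]; exact Submodule.add_mem _ hp hq
      | smul c p _ hp => rw [mul_smul_comm]; exact Submodule.smul_mem _ _ hp
      | mem x hx =>
        obtain ⟨m', rfl⟩ := hx
        exact Submodule.subset_span ⟨m * m', map_mul _ _ _⟩
  have hspan : ∀ x : A, x ∈ Submodule.span K (Set.range (lift a : M4 →ₙₐ[ℚ] A)) := by
    intro x
    have hx : x ∈ NonUnitalAlgebra.adjoin K (Set.range a) := by rw [ha]; trivial
    induction hx using NonUnitalAlgebra.adjoin_induction with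
    | mem x hx =>
      obtain ⟨i, rfl⟩ := hx
      exact Submodule.subset_span ⟨gen i, lift_gen a i⟩
    | add x y _ _ hx hy => exact Submodule.add_mem _ hx hy
    | zero => exact Submodule.zero_mem _
    | mul x y _ _ hx hy => exact hmul x hx y hy
    | smul r x _ hx => exact Submodule.smul_mem _ _ hx
  have hμ : ∀ μ : K →ₗ[ℚ] ℚ, liftA v (coefMap μ f) = 0 := by
    intro μ
    have h4 := main_thm (coef_id hf μ)
    have hM : ∀ v : ℕ → M4, liftA v (coefMap μ f) = 0 := by
      refine h4 M4 gen ?_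
      rw [eq_top_iff]
      intro x _
      induction x using FMal.ind with
      | hmon w =>
        induction w using FreeMagma.recOnMul with
        | ih1 i => exact NonUnitalAlgebra.subset_adjoin ℚ ⟨i, rfl⟩
        | ih2 a b ha hb => rw [mon_mul]; exact mul_mem (ha trivial) (hb trivial)
      | hzero => exact zero_mem _
      | hadd x y hx hy => exact add_mem (hx trivial) (hy trivial)
      | hsmul c x hx => exact SMulMemClass.smul_mem _ (hx trivial)
    exact ext_van (lift a : M4 →ₙₐ[ℚ] A) hspan hM v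
  rw [liftK_eq, Finsupp.sum]
  refine coef_zero _ _ _ fun μ => ?_
  have := hμ μ
  rw [liftA_coefMap, Finsupp.sum] at this
  exact this

/-- the easy direction -/
theorem easy_K {K : Type} [Field K] {f : MonoidAlgebra K (FreeMagma ℕ)}
    (hf : IdK K 4 f) : IdK K 3 f := by
  intro A _ _ _ _ _ a ha v
  refine hf A ![a 0, a 1, a 2, 0] ?_ v
  rw [eq_top_iff, ← ha]
  refine NonUnitalAlgebra.adjoin_le ?_
  rintro _ ⟨i, rfl⟩
  refine NonUnitalAlgebra.subset_adjoin K ?_
  fin_cases i
  · exact ⟨0, rfl⟩
  · exact ⟨1, rfl⟩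
  · exact ⟨2, rfl⟩

end Pool.Agent.H1.Mal
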