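import Pool.Agent.H1.Mal.Basic

/-!
# The ideal of Jacobians, and the forms `E`, `G`
-/

set_option autoImplicit false
set_option linter.unusedSectionVars false
set_option linter.unusedSimpArgs false

namespace Pool.Agent.H1.Mal

variable {A : Type} [NonUnitalNonAssocRing A] [Module ℚ A]

/-- The span of the Jacobians. -/
def NN (A : Type) [NonUnitalNonAssocRing A] [Module ℚ A] : Submodule ℚ A :=
  Submodule.span ℚ {a | ∃ x y z : A, a = J x y z}

lemma J_mem (x y z : A) : J x y z ∈ NN A := Submodule.subset_span ⟨x, y, z, rfl⟩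

lemma J_mul_eq [IsMal A] (x y z w : A) :
    J x y z * w = (-1/2 : ℚ) • J (w * x) y z + (1/2 : ℚ) • J (x * y) z w
      + (1/2 : ℚ) • J (w * y) z x + (-1 : ℚ) • J (y * z) w x := by
  have h1 := J_prod w x y z
  have h2 := J_prod x y z w
  have h3 := J_prod w y z x
  have h4 := J_prod y z w x
  rw [show J y z x = J x y z from (J_cyc x y z).symm,
    show J z x w = -J z w x from J_swap' z x w,
    show J x w y = -J w x y from J_swap x w y,
    show J w y z = J y z w from J_cyc w y z] at h3
  simp only [neg_mul, smul_neg] at h3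
  linear_combination (norm := module) (1/6 : ℚ) • h1 + (-1/6 : ℚ) • h2 + (-1/6 : ℚ) • h3
    + (1/3 : ℚ) • h4

lemma NN_mul [IsMal A] [IsScalarTower ℚ A A] {n : A} (hn : n ∈ NN A) (w : A) : n * w ∈ NN A := by
  induction hn using Submodule.span_induction with
  | mem x h =>
    obtain ⟨x, y, z, rfl⟩ := h
    rw [J_mul_eq]
    exact Submodule.add_mem _ (Submodule.add_mem _ (Submodule.add_mem _
      (Submodule.smul_mem _ _ (J_mem _ _ _)) (Submodule.smul_mem _ _ (J_mem _ _ _)))
      (Submodule.smul_mem _ _ (J_mem _ _ _))) (Submodule.smul_mem _ _ (J_mem _ _ _))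
  | zero => rw [zero_mul]; exact Submodule.zero_mem _
  | add x y _ _ hx hy => rw [add_mul]; exact Submodule.add_mem _ hx hy
  | smul c x _ hx => rw [smul_mul_assoc]; exact Submodule.smul_mem _ _ hx

lemma mul_NN [IsMal A] [IsScalarTower ℚ A A] {n : A} (hn : n ∈ NN A) (w : A) : w * n ∈ NN A := by
  rw [anti]; exact Submodule.neg_mem _ (NN_mul hn w)

/-- auxiliary expression in `E` -/
def e3 (t u x y z : A) : A :=
  J x y t * z * u + J x y u * z * t + (3 : ℚ) • (J x y t * u * z) + (3 : ℚ) • (J x y u * t * z)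

/-- The polarised form `E_{t,u}(x,y,z)`; `⟨t,u⟩ J(x,y,z)`. -/
def E2 (t u x y z : A) : A :=
  (-1/18 : ℚ) • ((5 : ℚ) • (J x y z * t * u) + (5 : ℚ) • (J x y z * u * t)
    + e3 t u x y z + e3 t u y z x + e3 t u z x y)

/-- The polarised form `G_{t,u}(n,v)`; `⟨t,u⟩ n v`. -/
def G2 (t u n v : A) : A :=
  (-1/6 : ℚ) • (n * t * u * v + n * u * t * v + n * t * v * u + n * u * v * t
    + n * v * t * u + n * v * u * t + (2 : ℚ) • (n * (v * t * u)) + (2 : ℚ) • (n * (v * u * t)))

variable [IsScalarTower ℚ A A] [SMulCommClass ℚ A A]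

lemma e3_swap (t u x y z : A) : e3 t u x y z = e3 u t x y z := by
  unfold e3; abel

lemma E2_symm (t u x y z : A) : E2 t u x y z = E2 u t x y z := by
  unfold E2; rw [e3_swap t u x, e3_swap t u y, e3_swap t u z]; abel_nf

lemma G2_symm (t u n v : A) : G2 t u n v = G2 u t n v := by
  unfold G2; congr 1; abel

lemma E2_cyc (t u x y z : A) : E2 t u x y z = E2 t u y z x := by
  unfold E2; rw [J_cyc x y z]; congr 1; abel

section lin

lemma E2_add_left (t u x x' y z : A) : E2 t u (x + x') y z = E2 t u x y z + E2 t u x' y z := by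
  unfold E2 e3
  simp only [J_add_left, J_add_mid, J_add_right, add_mul, mul_add, smul_add]
  module

lemma E2_smul_left (c : ℚ) (t u x y z : A) : E2 t u (c • x) y z = c • E2 t u x y z := by
  unfold E2 e3
  simp only [J_smul_left, J_smul_mid, J_smul_right, smul_mul_assoc, mul_smul_comm, smul_add]
  module

lemma E2_add_mid (t u x y y' z : A) : E2 t u x (y + y') z = E2 t u x y z + E2 t u x y' z := by
  rw [E2_cyc t u x, E2_add_left, ← E2_cyc t u x y, ← E2_cyc t u x y']

lemma E2_smul_mid (c : ℚ) (t u x y z : A) : E2 t u x (c • y) z = c • E2 t u x y z := by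
  rw [E2_cyc, E2_smul_left, ← E2_cyc]

lemma E2_add_right (t u x y z z' : A) : E2 t u x y (z + z') = E2 t u x y z + E2 t u x y z' := by
  rw [← E2_cyc, E2_add_left, E2_cyc, E2_cyc t u z']

lemma E2_smul_right (c : ℚ) (t u x y z : A) : E2 t u x y (c • z) = c • E2 t u x y z := by
  rw [← E2_cyc, E2_smul_left, E2_cyc]

lemma E2_add_t (t t' u x y z : A) : E2 (t + t') u x y z = E2 t u x y z + E2 t' u x y z := by
  unfold E2 e3
  simp only [J_add_left, J_add_mid, J_add_right, add_mul, mul_add, smul_add]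
  module

lemma E2_smul_t (c : ℚ) (t u x y z : A) : E2 (c • t) u x y z = c • E2 t u x y z := by
  unfold E2 e3
  simp only [J_smul_left, J_smul_mid, J_smul_right, smul_mul_assoc, mul_smul_comm, smul_add]
  module

lemma E2_add_u (t u u' x y z : A) : E2 t (u + u') x y z = E2 t u x y z + E2 t u' x y z := by
  rw [E2_symm, E2_add_t, E2_symm, E2_symm u' t]

lemma E2_smul_u (c : ℚ) (t u x y z : A) : E2 t (c • u) x y z = c • E2 t u x y z := by
  rw [E2_symm, E2_smul_t, E2_symm]

lemma G2_add_n (t u n n' v : A) : G2 t u (n + n') v = G2 t u n v + G2 t u n' v := by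
  unfold G2
  simp only [add_mul, smul_add]
  module

lemma G2_smul_n (c : ℚ) (t u n v : A) : G2 t u (c • n) v = c • G2 t u n v := by
  unfold G2
  simp only [smul_mul_assoc, smul_add]
  module

lemma G2_add_v (t u n v v' : A) : G2 t u n (v + v') = G2 t u n v + G2 t u n v' := by
  unfold G2
  simp only [add_mul, mul_add, smul_add]
  module

lemma G2_smul_v (c : ℚ) (t u n v : A) : G2 t u n (c • v) = c • G2 t u n v := by
  unfold G2
  simp only [smul_mul_assoc, mul_smul_comm, smul_add]
  module

lemma G2_add_t (t t' u n v : A) : G2 (t + t') u n v = G2 t u n v + G2 t' u n v := by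
  unfold G2
  simp only [add_mul, mul_add, smul_add]
  module

lemma G2_smul_t (c : ℚ) (t u n v : A) : G2 (c • t) u n v = c • G2 t u n v := by
  unfold G2
  simp only [smul_mul_assoc, mul_smul_comm, smul_add]
  module

lemma G2_add_u (t u u' n v : A) : G2 t (u + u') n v = G2 t u n v + G2 t u' n v := by
  rw [G2_symm, G2_add_t, G2_symm, G2_symm u' t]

lemma G2_smul_u (c : ℚ) (t u n v : A) : G2 t (c • u) n v = c • G2 t u n v := by
  rw [G2_symm, G2_smul_t, G2_symm]

end lin

end Pool.Agent.H1.Mal
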