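import Pool.Agent.H1.Mal.Dual

/-!
# The degree derivation of the free Malcev algebra
-/

set_option autoImplicit false
set_option linter.unusedSectionVars false
set_option linter.unusedSimpArgs false

namespace Pool.Agent.H1.Mal

variable {X : Type}

/-- degree derivation -/
noncomputable def DD (X : Type) : FMal X →ₗ[ℚ] FMal X := (exists_der (gen (X := X))).choose

lemma DD_gen (x : X) : DD X (gen x) = gen x := (exists_der (gen (X := X))).choose_spec.1 x

lemma DD_mul (a b : FMal X) : DD X (a * b) = DD X a * b + a * DD X b :=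
  (exists_der (gen (X := X))).choose_spec.2 a b

lemma DD_mon (w : FreeMagma X) : DD X (mon w) = (w.length : ℚ) • mon w := by
  induction w using FreeMagma.recOnMul with
  | ih1 x => rw [mon_of, DD_gen]; simp [FreeMagma.length]
  | ih2 a b ha hb =>
    have : (a * b).length = a.length + b.length := rfl
    rw [mon_mul, DD_mul, ha, hb, this]
    simp only [smul_mul_assoc, mul_smul_comm]
    push_cast
    module

lemma DD_J (x y z : FMal X) : DD X (J x y z) = J (DD X x) y z + J x (DD X y) z + J x y (DD X z) := by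
  unfold J
  simp only [map_add, DD_mul, add_mul]
  abel

lemma DD_NN {n : FMal X} (hn : n ∈ NN (FMal X)) : DD X n ∈ NN (FMal X) := by
  induction hn using Submodule.span_induction with
  | mem x hx =>
    obtain ⟨a, b, c, rfl⟩ := hx
    rw [DD_J]
    exact Submodule.add_mem _ (Submodule.add_mem _ (J_mem _ _ _) (J_mem _ _ _)) (J_mem _ _ _)
  | zero => rw [map_zero]; exact Submodule.zero_mem _
  | add p q _ _ hp hq => rw [map_add]; exact Submodule.add_mem _ hp hq
  | smul c p _ hp => rw [map_smul]; exact Submodule.smul_mem _ _ hp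

/-- span of the monomials of length at least `k` -/
noncomputable def Gr (X : Type) (k : ℕ) : Submodule ℚ (FMal X) :=
  Submodule.span ℚ {a | ∃ w : FreeMagma X, k ≤ w.length ∧ a = mon w}

lemma mem_Gr1 (a : FMal X) : a ∈ Gr X 1 := by
  induction a using FMal.ind with
  | hmon w => exact Submodule.subset_span ⟨w, w.length_pos, rfl⟩
  | hzero => exact Submodule.zero_mem _
  | hadd x y hx hy => exact Submodule.add_mem _ hx hy
  | hsmul c x hx => exact Submodule.smul_mem _ _ hx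

lemma Gr_mul {i j : ℕ} {a b : FMal X} (ha : a ∈ Gr X i) (hb : b ∈ Gr X j) :
    a * b ∈ Gr X (i + j) := by
  induction ha using Submodule.span_induction with
  | zero => rw [zero_mul]; exact Submodule.zero_mem _
  | add p q _ _ hp hq => rw [add_mul]; exact Submodule.add_mem _ hp hq
  | smul c p _ hp => rw [smul_mul_assoc]; exact Submodule.smul_mem _ _ hp
  | mem x hx =>
    obtain ⟨w, hw, rfl⟩ := hx
    induction hb using Submodule.span_induction with
    | zero => rw [mul_zero]; exact Submodule.zero_mem _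
    | add p q _ _ hp hq => rw [mul_add]; exact Submodule.add_mem _ hp hq
    | smul c p _ hp => rw [mul_smul_comm]; exact Submodule.smul_mem _ _ hp
    | mem x hx =>
      obtain ⟨v, hv, rfl⟩ := hx
      refine Submodule.subset_span ⟨w * v, ?_, (mon_mul w v).symm⟩
      have : (w * v).length = w.length + v.length := rfl
      omega

lemma Gr_mono {i j : ℕ} (h : i ≤ j) {a : FMal X} (ha : a ∈ Gr X j) : a ∈ Gr X i := by
  refine Submodule.span_mono ?_ ha
  rintro a ⟨w, hw, rfl⟩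
  exact ⟨w, h.trans hw, rfl⟩

open Polynomial in
lemma Gr_poly {k s : ℕ} (hs : s < k) {a : FMal X} (ha : a ∈ Gr X k) :
    ∃ p : ℚ[X], aeval (DD X : Module.End ℚ (FMal X)) p a = 0 ∧ p.eval (s : ℚ) ≠ 0 := by
  induction ha using Submodule.span_induction with
  | zero => exact ⟨1, by rw [map_zero], by simp⟩
  | add x y _ _ hx hy =>
    obtain ⟨p, hp, hp'⟩ := hx
    obtain ⟨q, hq, hq'⟩ := hy
    refine ⟨p * q, ?_, by rw [eval_mul]; exact mul_ne_zero hp' hq'⟩
    rw [map_add]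
    have h1 : (aeval (DD X : Module.End ℚ (FMal X)) (p * q)) x = 0 := by
      rw [mul_comm, map_mul, Module.End.mul_apply, hp, map_zero]
    have h2 : (aeval (DD X : Module.End ℚ (FMal X)) (p * q)) y = 0 := by
      rw [map_mul, Module.End.mul_apply, hq, map_zero]
    rw [h1, h2, add_zero]
  | smul c x _ hx =>
    obtain ⟨p, hp, hp'⟩ := hx
    exact ⟨p, by rw [map_smul, hp, smul_zero], hp'⟩
  | mem x hx =>
    obtain ⟨w, hw, rfl⟩ := hx
    refine ⟨Polynomial.X - C (w.length : ℚ), ?_, ?_⟩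
    · rw [map_sub, aeval_X, aeval_C, LinearMap.sub_apply, DD_mon, Module.algebraMap_end_apply,
        sub_self]
    · rw [eval_sub, eval_X, eval_C, sub_ne_zero]
      exact_mod_cast (by omega : s ≠ w.length)

lemma Gr_inj {k s : ℕ} (hs : s < k) {a : FMal X} (ha : a ∈ Gr X k)
    (h : DD X a = (s : ℚ) • a) : a = 0 := by
  by_contra h0
  obtain ⟨p, hp, hp'⟩ := Gr_poly hs ha
  have hv : Module.End.HasEigenvector (DD X : Module.End ℚ (FMal X)) (s : ℚ) a :=
    ⟨Module.End.mem_eigenspace_iff.2 h, h0⟩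
  rw [Module.End.aeval_apply_of_hasEigenvector hv] at hp
  exact (smul_eq_zero.1 hp).elim hp' h0

lemma exists_linv {k s : ℕ} (hs : s < k) :
    ∃ L : FMal X →ₗ[ℚ] FMal X, ∀ a ∈ Gr X k, L (DD X a - (s : ℚ) • a) = a := by
  let g : Gr X k →ₗ[ℚ] FMal X := (DD X - (s : ℚ) • LinearMap.id) ∘ₗ (Gr X k).subtype
  have hg : ∀ a, g a = DD X a - (s : ℚ) • (a : FMal X) := fun a => rfl
  have hinj : Function.Injective g := by
    rw [injective_iff_map_eq_zero]
    intro a ha
    rw [hg, sub_eq_zero] at ha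
    exact Subtype.ext (Gr_inj hs a.2 ha)
  obtain ⟨L, hL⟩ := LinearMap.exists_leftInverse_of_injective g (LinearMap.ker_eq_bot.2 hinj)
  refine ⟨(Gr X k).subtype ∘ₗ L, fun a ha => ?_⟩
  have h1 : L (g ⟨a, ha⟩) = ⟨a, ha⟩ := by
    rw [← LinearMap.comp_apply, hL, LinearMap.id_apply]
  rw [hg] at h1
  show ((L (DD X a - (s : ℚ) • a) : Gr X k) : FMal X) = a
  rw [h1]

/-- homogeneous-like elements -/
structure Hom (X : Type) (s : ℕ) (t : FMal X) : Prop where
  d : DD X t = (s : ℚ) • t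
  g : t ∈ Gr X s

lemma Hom.gen (x : X) : Hom X 1 (gen x) := ⟨by rw [DD_gen]; simp, mem_Gr1 _⟩

lemma Hom.mul {i j : ℕ} {a b : FMal X} (ha : Hom X i a) (hb : Hom X j b) : Hom X (i + j) (a * b) :=
  ⟨by
    rw [DD_mul, ha.d, hb.d, smul_mul_assoc, mul_smul_comm]; push_cast; module, Gr_mul ha.g hb.g⟩

lemma Hom.add {i : ℕ} {a b : FMal X} (ha : Hom X i a) (hb : Hom X i b) : Hom X i (a + b) :=
  ⟨by rw [map_add, ha.d, hb.d, smul_add], Submodule.add_mem _ ha.g hb.g⟩

lemma Hom.smul {i : ℕ} {a : FMal X} (c : ℚ) (ha : Hom X i a) : Hom X i (c • a) :=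
  ⟨by rw [map_smul, ha.d, smul_comm], Submodule.smul_mem _ _ ha.g⟩

lemma DD_e3 {i j : ℕ} {t u : FMal X} (ht : Hom X i t) (hu : Hom X j u) (x y z : FMal X) :
    DD X (e3 t u x y z) = e3 t u (DD X x) y z + e3 t u x (DD X y) z + e3 t u x y (DD X z)
      + ((i : ℚ) + j) • e3 t u x y z := by
  unfold e3
  simp only [map_add, map_smul, DD_mul, DD_J, ht.d, hu.d, add_mul, smul_mul_assoc, mul_smul_comm,
    J_smul_right]
  module

lemma DD_E2 {i j : ℕ} {t u : FMal X} (ht : Hom X i t) (hu : Hom X j u) (x y z : FMal X) :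
    DD X (E2 t u x y z) = E2 t u (DD X x) y z + E2 t u x (DD X y) z + E2 t u x y (DD X z)
      + ((i : ℚ) + j) • E2 t u x y z := by
  unfold E2
  rw [map_smul, map_add, map_add, map_add, map_add, DD_e3 ht hu, DD_e3 ht hu, DD_e3 ht hu]
  simp only [map_add, map_smul, DD_mul, DD_J, ht.d, hu.d, add_mul, smul_mul_assoc, mul_smul_comm]
  module

lemma DD_G2 {i j : ℕ} {t u : FMal X} (ht : Hom X i t) (hu : Hom X j u) (n v : FMal X) :
    DD X (G2 t u n v) = G2 t u (DD X n) v + G2 t u n (DD X v) + ((i : ℚ) + j) • G2 t u n v := by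
  unfold G2
  simp only [map_add, map_smul, DD_mul, ht.d, hu.d, add_mul, mul_add, smul_mul_assoc,
    mul_smul_comm]
  module

lemma J_Gr (x y z : FMal X) : J x y z ∈ Gr X 3 := by
  unfold J
  have h := fun a b c : FMal X => Gr_mul (Gr_mul (mem_Gr1 a) (mem_Gr1 b)) (mem_Gr1 c)
  exact Submodule.add_mem _ (Submodule.add_mem _ (h _ _ _) (h _ _ _)) (h _ _ _)

lemma J_Gr' {i : ℕ} (x y : FMal X) {t : FMal X} (ht : t ∈ Gr X i) : J x y t ∈ Gr X (i + 2) := by
  unfold J
  have h1 := Gr_mul (Gr_mul (mem_Gr1 x) (mem_Gr1 y)) ht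
  have h2 := Gr_mul (Gr_mul (mem_Gr1 y) ht) (mem_Gr1 x)
  have h3 := Gr_mul (Gr_mul ht (mem_Gr1 x)) (mem_Gr1 y)
  exact Submodule.add_mem _ (Submodule.add_mem _ (Gr_mono (by omega) h1) (Gr_mono (by omega) h2))
    (Gr_mono (by omega) h3)

lemma e3_Gr {i j : ℕ} {t u : FMal X} (ht : t ∈ Gr X i) (hu : u ∈ Gr X j) (x y z : FMal X) :
    e3 t u x y z ∈ Gr X (i + j + 1) := by
  unfold e3
  refine Submodule.add_mem _ (Submodule.add_mem _ (Submodule.add_mem _ ?_ ?_)
    (Submodule.smul_mem _ _ ?_)) (Submodule.smul_mem _ _ ?_)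
  · exact Gr_mono (by omega) (Gr_mul (Gr_mul (J_Gr' x y ht) (mem_Gr1 z)) hu)
  · exact Gr_mono (by omega) (Gr_mul (Gr_mul (J_Gr' x y hu) (mem_Gr1 z)) ht)
  · exact Gr_mono (by omega) (Gr_mul (Gr_mul (J_Gr' x y ht) hu) (mem_Gr1 z))
  · exact Gr_mono (by omega) (Gr_mul (Gr_mul (J_Gr' x y hu) ht) (mem_Gr1 z))

lemma E2_Gr {i j : ℕ} {t u : FMal X} (ht : t ∈ Gr X i) (hu : u ∈ Gr X j) (x y z : FMal X) :
    E2 t u x y z ∈ Gr X (i + j + 1) := by
  unfold E2
  refine Submodule.smul_mem _ _ (Submodule.add_mem _ (Submodule.add_mem _ (Submodule.add_mem _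
    (Submodule.add_mem _ (Submodule.smul_mem _ _ ?_) (Submodule.smul_mem _ _ ?_))
    (e3_Gr ht hu _ _ _)) (e3_Gr ht hu _ _ _)) (e3_Gr ht hu _ _ _))
  · exact Gr_mono (by omega) (Gr_mul (Gr_mul (J_Gr x y z) ht) hu)
  · exact Gr_mono (by omega) (Gr_mul (Gr_mul (J_Gr x y z) hu) ht)

lemma G2_Gr {i j : ℕ} {t u : FMal X} (ht : t ∈ Gr X i) (hu : u ∈ Gr X j) (n v : FMal X) :
    G2 t u n v ∈ Gr X (i + j + 1) := by
  unfold G2
  have hn := mem_Gr1 n
  have hv := mem_Gr1 v
  refine Submodule.smul_mem _ _ ?_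
  refine Submodule.add_mem _ (Submodule.add_mem _ (Submodule.add_mem _ (Submodule.add_mem _
    (Submodule.add_mem _ (Submodule.add_mem _ (Submodule.add_mem _ ?_ ?_) ?_) ?_) ?_) ?_)
    (Submodule.smul_mem _ _ ?_)) (Submodule.smul_mem _ _ ?_)
  · exact Gr_mono (by omega) (Gr_mul (Gr_mul (Gr_mul hn ht) hu) hv)
  · exact Gr_mono (by omega) (Gr_mul (Gr_mul (Gr_mul hn hu) ht) hv)
  · exact Gr_mono (by omega) (Gr_mul (Gr_mul (Gr_mul hn ht) hv) hu)
  · exact Gr_mono (by omega) (Gr_mul (Gr_mul (Gr_mul hn hu) hv) ht)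
  · exact Gr_mono (by omega) (Gr_mul (Gr_mul (Gr_mul hn hv) ht) hu)
  · exact Gr_mono (by omega) (Gr_mul (Gr_mul (Gr_mul hn hv) hu) ht)
  · exact Gr_mono (by omega) (Gr_mul hn (Gr_mul (Gr_mul hv ht) hu))
  · exact Gr_mono (by omega) (Gr_mul hn (Gr_mul (Gr_mul hv hu) ht))

end Pool.Agent.H1.Mal
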