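import Pool.Agent.H1.Mal.Free

/-!
# Null extensions of Malcev algebras
-/

set_option autoImplicit false
set_option linter.unusedSectionVars false
set_option linter.unusedSimpArgs false

namespace Pool.Agent.H1.Mal

variable {M P : Type} [NonUnitalNonAssocRing M] [Module ℚ M] [IsScalarTower ℚ M M]
  [SMulCommClass ℚ M M] [AddCommGroup P] [Module ℚ P]

/-- The null extension `M × P` with right action `act` and cocycle `om`. -/
def Ex (_act : P →ₗ[ℚ] M →ₗ[ℚ] P) (_om : M →ₗ[ℚ] M →ₗ[ℚ] P) : Type := M × P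

variable (act : P →ₗ[ℚ] M →ₗ[ℚ] P) (om : M →ₗ[ℚ] M →ₗ[ℚ] P)

instance : AddCommGroup (Ex act om) := inferInstanceAs (AddCommGroup (M × P))
instance : Module ℚ (Ex act om) := inferInstanceAs (Module ℚ (M × P))
instance : Mul (Ex act om) :=
  ⟨fun a b => (a.1 * b.1, act a.2 b.1 - act b.2 a.1 + om a.1 b.1)⟩

lemma Ex.mul_def (a b : Ex act om) :
    a * b = ((a.1 * b.1, act a.2 b.1 - act b.2 a.1 + om a.1 b.1) : M × P) := rfl

lemma Ex.ext' {a b : Ex act om} (h1 : a.1 = b.1) (h2 : a.2 = b.2) : a = b := Prod.ext h1 h2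

@[simp] lemma Ex.add_fst (a b : Ex act om) : (a + b).1 = a.1 + b.1 := rfl
@[simp] lemma Ex.add_snd (a b : Ex act om) : (a + b).2 = a.2 + b.2 := rfl
@[simp] lemma Ex.smul_fst (c : ℚ) (a : Ex act om) : (c • a).1 = c • a.1 := rfl
@[simp] lemma Ex.smul_snd (c : ℚ) (a : Ex act om) : (c • a).2 = c • a.2 := rfl
@[simp] lemma Ex.zero_fst : (0 : Ex act om).1 = 0 := rfl
@[simp] lemma Ex.zero_snd : (0 : Ex act om).2 = 0 := rfl
@[simp] lemma Ex.mul_fst (a b : Ex act om) : (a * b).1 = a.1 * b.1 := rfl
@[simp] lemma Ex.mul_snd (a b : Ex act om) :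
    (a * b).2 = act a.2 b.1 - act b.2 a.1 + om a.1 b.1 := rfl

instance : NonUnitalNonAssocRing (Ex act om) :=
  { (inferInstance : AddCommGroup (Ex act om)), (inferInstance : Mul (Ex act om)) with
    left_distrib := by
      intro a b c
      apply Ex.ext'
      · simp [mul_add]
      · simp only [Ex.mul_snd, Ex.add_fst, Ex.add_snd, map_add, LinearMap.add_apply]; abel
    right_distrib := by
      intro a b c
      apply Ex.ext'
      · simp [add_mul]
      · simp only [Ex.mul_snd, Ex.add_fst, Ex.add_snd, map_add, LinearMap.add_apply]; abel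
    zero_mul := by
      intro a
      apply Ex.ext' <;> simp
    mul_zero := by
      intro a
      apply Ex.ext' <;> simp }

instance : IsScalarTower ℚ (Ex act om) (Ex act om) := ⟨by
  intro c a b
  apply Ex.ext'
  · simp [smul_mul_assoc]
  · simp only [smul_eq_mul, Ex.mul_snd, Ex.smul_fst, Ex.smul_snd, map_smul, LinearMap.smul_apply]
    module⟩

instance : SMulCommClass ℚ (Ex act om) (Ex act om) := ⟨by
  intro c a b
  apply Ex.ext'
  · simp [mul_smul_comm]
  · simp only [smul_eq_mul, Ex.mul_snd, Ex.smul_fst, Ex.smul_snd, map_smul, LinearMap.smul_apply]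
    module⟩

/-- `J(p,y,z)` -/
def jp (p : P) (y z : M) : P := act (act p y) z - act (act p z) y - act p (y * z)

/-- cocycle part of the Jacobian -/
def jom (x y z : M) : P :=
  act (om x y) z + act (om y z) x + act (om z x) y + om (x * y) z + om (y * z) x + om (z * x) y

lemma Ex.J_fst (a b c : Ex act om) : (J a b c).1 = J a.1 b.1 c.1 := by
  simp only [J, Ex.add_fst, Ex.mul_fst]

lemma Ex.J_snd (a b c : Ex act om) : (J a b c).2
    = jp act a.2 b.1 c.1 + jp act b.2 c.1 a.1 + jp act c.2 a.1 b.1 + jom act om a.1 b.1 c.1 := by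
  simp only [J, Ex.add_snd, Ex.mul_snd, Ex.mul_fst, jp, jom, map_add, map_sub,
    LinearMap.add_apply, LinearMap.sub_apply]
  abel

/-- Conditions for an extension to be a Malcev algebra. -/
structure ExOK : Prop where
  self : ∀ x, om x x = 0
  pp : ∀ p x y z, jp act p y (x * z) + jp act (act p z) x y = act (jp act p y z) x - act p (J x y z)
  qq : ∀ p x z, jp act p (x * z) x = act (jp act p z x) x
  rr : ∀ p x y, -jp act (act p x) x y = act (jp act p x y) x
  cc : ∀ x y z, jom act om x y (x * z) + jp act (om x z) x y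
    = act (jom act om x y z) x + om (J x y z) x

theorem Ex.isMal [IsMal M] (h : ExOK act om) : IsMal (Ex act om) where
  sq := by
    intro a
    apply Ex.ext'
    · simp [mul_self']
    · simp [h.self]
  mal := by
    intro a b c
    apply Ex.ext'
    · rw [Ex.J_fst, Ex.mul_fst, Ex.mul_fst, Ex.J_fst, IsMal.mal]
    · rw [Ex.J_snd, Ex.mul_snd, Ex.mul_snd, Ex.mul_fst, Ex.J_snd, Ex.J_fst]
      have h1 := h.pp a.2 a.1 b.1 c.1
      have h2 := h.qq b.2 a.1 c.1
      have h3 := h.rr c.2 a.1 b.1
      have h4 := h.cc a.1 b.1 c.1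
      have h5 : ∀ p q : P, ∀ x y : M, jp act (p + q) x y = jp act p x y + jp act q x y := by
        intro p q x y
        simp only [jp, map_add, LinearMap.add_apply]; abel
      have h6 : ∀ p q : P, ∀ x y : M, jp act (p - q) x y = jp act p x y - jp act q x y := by
        intro p q x y
        simp only [jp, map_sub, LinearMap.sub_apply]; abel
      simp only [h5, h6, map_add, LinearMap.add_apply]
      rw [h2, ← h3]
      have h1' : jp act a.2 b.1 (a.1 * c.1) = act (jp act a.2 b.1 c.1) a.1 - act a.2 (J a.1 b.1 c.1)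
        - jp act (act a.2 c.1) a.1 b.1 := by rw [← h1]; abel
      have h4' : jom act om a.1 b.1 (a.1 * c.1) = act (jom act om a.1 b.1 c.1) a.1
        + om (J a.1 b.1 c.1) a.1 - jp act (om a.1 c.1) a.1 b.1 := by rw [← h4]; abel
      rw [h1', h4']
      abel

/-- first projection -/
def Ex.fstH : Ex act om →ₙₐ[ℚ] M :=
  { toFun := fun a => a.1
    map_smul' := fun _ _ => rfl
    map_zero' := rfl
    map_add' := fun _ _ => rfl
    map_mul' := fun _ _ => rfl }

/-! ### Derivations of the free Malcev algebra -/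

/-- the regular action -/
noncomputable def regAct (M : Type) [NonUnitalNonAssocRing M] [Module ℚ M] [IsScalarTower ℚ M M]
    [SMulCommClass ℚ M M] : M →ₗ[ℚ] M →ₗ[ℚ] M :=
  LinearMap.mk₂ ℚ (fun p y => p * y) (fun a b c => add_mul a b c)
    (fun c a b => smul_mul_assoc c a b) (fun a b c => mul_add a b c)
    (fun c a b => mul_smul_comm c a b)

lemma regAct_apply (p y : M) : regAct M p y = p * y := rfl

lemma jp_reg [IsMal M] (p y z : M) : jp (regAct M) p y z = J p y z := by
  simp only [jp, regAct_apply, J]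
  rw [anti z p, anti p (y * z)]
  simp only [neg_mul]
  abel

lemma reg_ok [IsMal M] : ExOK (regAct M) (0 : M →ₗ[ℚ] M →ₗ[ℚ] M) where
  self := by intro x; rfl
  pp := by
    intro p x y z
    simp only [jp_reg, regAct_apply]
    have h := mal_lin p y x z
    rw [J_cyc (p * z), anti p (J x y z)]
    rw [h]
    abel
  qq := by
    intro p x z
    simp only [jp_reg, regAct_apply]
    rw [← J_cyc x p (x * z), IsMal.mal, J_cyc x p z]
  rr := by
    intro p x y
    simp only [jp_reg, regAct_apply]
    rw [J_cyc (p * x) x y, anti p x, J_neg_right, neg_neg, IsMal.mal, ← J_cyc p x y]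
  cc := by
    intro x y z
    simp [jom, jp]

/-- Crossed homomorphisms from the free Malcev algebra. -/
theorem exists_crossed {X : Type} (act : P →ₗ[ℚ] FMal X →ₗ[ℚ] P)
    (om : FMal X →ₗ[ℚ] FMal X →ₗ[ℚ] P) (h : ExOK act om) (g : X → P) :
    ∃ b : FMal X →ₗ[ℚ] P, (∀ x, b (gen x) = g x) ∧
      (∀ a c, b (a * c) = act (b a) c - act (b c) a + om a c) ∧
      ∀ x y z, b (J x y z) = jp act (b x) y z + jp act (b y) z x + jp act (b z) x y
        + jom act om x y z := by
  have inst : IsMal (Ex act om) := Ex.isMal _ _ h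
  let g' : X → Ex act om := fun x => ((gen x, g x) : FMal X × P)
  let F := lift (X := X) (B := Ex act om) g'
  have h0 : ∀ x, F (gen x) = g' x := fun x => lift_gen (B := Ex act om) g' x
  have h1 : ∀ a, (F a).1 = a := by
    intro a
    induction a using FMal.ind with
    | hmon w =>
      induction w using FreeMagma.recOnMul with
      | ih1 x =>
        rw [mon_of, h0]
      | ih2 a b ha hb =>
        rw [mon_mul, map_mul, Ex.mul_fst, ha, hb]
    | hzero => rw [map_zero]; rfl
    | hadd x y hx hy => rw [map_add, Ex.add_fst, hx, hy]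
    | hsmul c x hx => rw [map_smul, Ex.smul_fst, hx]
  refine ⟨{ toFun := fun a => (F a).2, map_add' := fun a b => by rw [map_add]; rfl,
            map_smul' := fun c a => by rw [map_smul]; rfl }, ?_, ?_, ?_⟩
  · intro x
    show (F (gen x)).2 = g x
    rw [h0]
  · intro a b
    show (F (a * b)).2 = act (F a).2 b - act (F b).2 a + om a b
    rw [map_mul, Ex.mul_snd, h1, h1]
  · intro x y z
    show (F (J x y z)).2 = _
    rw [map_J, Ex.J_snd, h1, h1, h1]
    rfl

/-- Every map on generators extends to a derivation. -/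
theorem exists_der {X : Type} (g : X → FMal X) :
    ∃ D : FMal X →ₗ[ℚ] FMal X, (∀ x, D (gen x) = g x) ∧
      ∀ a b, D (a * b) = D a * b + a * D b := by
  obtain ⟨D, h1, h2, -⟩ := exists_crossed (regAct (FMal X)) 0 reg_ok g
  refine ⟨D, h1, fun a b => ?_⟩
  rw [h2, regAct_apply, regAct_apply, anti (D b) a]
  simp

end Pool.Agent.H1.Mal
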