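import Pool.Agent.H1.Mal.IdentP
import Pool.Agent.H1.Mal.Ext

/-!
# The extension of the free Malcev algebra by the dual regular module
-/

set_option autoImplicit false
set_option linter.unusedSectionVars false
set_option linter.unusedSimpArgs false

namespace Pool.Agent.H1.Mal

section general

variable {A : Type} [NonUnitalNonAssocRing A] [Module ℚ A] [IsScalarTower ℚ A A]
  [SMulCommClass ℚ A A]

/-- right multiplication -/
def Rm (y : A) : A →ₗ[ℚ] A where
  toFun w := w * y
  map_add' a b := add_mul a b y
  map_smul' c a := smul_mul_assoc c a y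

lemma Rm_apply (y w : A) : Rm y w = w * y := rfl

/-- `α ↦ -α(·y)` -/
def dAct (A : Type) [NonUnitalNonAssocRing A] [Module ℚ A] [IsScalarTower ℚ A A]
    [SMulCommClass ℚ A A] : (A →ₗ[ℚ] A) →ₗ[ℚ] A →ₗ[ℚ] (A →ₗ[ℚ] A) :=
  LinearMap.mk₂ ℚ (fun α y => -(α.comp (Rm y)))
    (fun a b c => by rw [LinearMap.add_comp, neg_add])
    (fun c a b => by rw [LinearMap.smul_comp, smul_neg])
    (fun a b c => by
      ext w; simp only [LinearMap.neg_apply, LinearMap.comp_apply, Rm_apply, LinearMap.add_apply,
        mul_add, map_add, neg_add])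
    (fun c a b => by
      ext w; simp only [LinearMap.neg_apply, LinearMap.comp_apply, Rm_apply, LinearMap.smul_apply,
        mul_smul_comm, map_smul, smul_neg])

lemma dAct_apply (α : A →ₗ[ℚ] A) (y w : A) : dAct A α y w = -α (w * y) := rfl

/-- `w ↦ E2 t u x y w` -/
def E2l (t u x y : A) : A →ₗ[ℚ] A where
  toFun w := E2 t u x y w
  map_add' a b := E2_add_right t u x y a b
  map_smul' c a := E2_smul_right c t u x y a

/-- the cocycle -/
def dOm (t u : A) : A →ₗ[ℚ] A →ₗ[ℚ] (A →ₗ[ℚ] A) :=
  LinearMap.mk₂ ℚ (fun x y => E2l t u x y)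
    (fun a b c => by ext w; exact E2_add_left t u a b c w)
    (fun c a b => by ext w; exact E2_smul_left c t u a b w)
    (fun a b c => by ext w; exact E2_add_mid t u a b c w)
    (fun c a b => by ext w; exact E2_smul_mid c t u a b w)

lemma dOm_apply (t u x y w : A) : dOm t u x y w = E2 t u x y w := rfl

variable [IsMal A]

lemma jp_dAct (α : A →ₗ[ℚ] A) (y z w : A) : jp (dAct A) α y z w = -α (J w y z) := by
  unfold jp
  simp only [LinearMap.sub_apply, dAct_apply, LinearMap.neg_apply, neg_neg]
  rw [J, anti (y * z) w, anti z w, map_add, map_add]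
  simp only [neg_mul, map_neg, map_sub]
  abel

lemma jom_dual (t u x y z w : A) : jom (dAct A) (dOm t u) x y z w = Lam t u x y z w := by
  unfold jom Lam
  simp only [LinearMap.add_apply, dAct_apply, dOm_apply]
  abel

lemma dual_ok (t u : A) : ExOK (dAct A) (dOm t u) where
  self := by
    intro x
    ext w
    exact E2_self t u x w
  pp := by
    intro α x y z
    ext w
    simp only [LinearMap.add_apply, LinearMap.sub_apply, jp_dAct, dAct_apply, neg_neg]
    have h := mal_lin z y w x
    rw [J_swap z y (w * x), J_swap' w y (z * x), J_swap z y x, J_swap' w y x] at h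
    rw [show (z * x : A) = -(x * z) from anti z x] at h
    have h1 : J (w * x) y z = J y z (w * x) := J_cyc _ _ _
    have h2 : J x y z = J y z x := J_cyc _ _ _
    have h3 : J w y (x * z) = -J w (x * z) y := J_swap' _ _ _
    rw [J_neg_mid] at h
    simp only [neg_mul, neg_neg] at h
    have h4 : J (w * x) y z + J w y (x * z) = J w x y * z + J x y z * w := by
      rw [h1, h2, h3]
      linear_combination (norm := abel) -h
    have h5 : w * J x y z = -(J x y z * w) := anti _ _
    rw [h5, map_neg]
    have h6 := congrArg α h4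
    rw [map_add, map_add] at h6
    linear_combination (norm := abel) -h6
  qq := by
    intro α x z
    ext w
    simp only [jp_dAct, dAct_apply, neg_neg]
    have h1 : J w (x * z) x = J x w z * x := by rw [← J_cyc x w (x * z), IsMal.mal]
    have h2 : J (w * x) z x = -(J x w z * x) := by
      rw [anti w x, J_neg_left, J_cyc, J_swap z x (x * w), neg_neg, IsMal.mal, J_swap' x z w,
        neg_mul]
    rw [h1, h2, map_neg]
  rr := by
    intro α x y
    ext w
    simp only [LinearMap.neg_apply, jp_dAct, dAct_apply, neg_neg]
    have h2 : J (w * x) x y = -(J w x y * x) := by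
      rw [anti w x, J_neg_left, J_cyc, IsMal.mal, ← J_cyc w x y]
    rw [h2, map_neg]
  cc := by
    intro x y z
    ext w
    simp only [LinearMap.add_apply, jp_dAct, dAct_apply, dOm_apply, jom_dual]
    have h := H1p t u x y z w
    linear_combination (norm := abel) h

end general

end Pool.Agent.H1.Mal
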