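import Pool.Agent.H1.Mal.InjN1

/-!
# Injectivity of the evaluations on the Jacobian ideal
-/

set_option autoImplicit false
set_option linter.unusedSectionVars false
set_option linter.unusedSimpArgs false
set_option linter.unusedVariables false

namespace Pool.Agent.H1.Mal

open MvPolynomial

/-- integer coordinates of `e2` -/
def e2c (a b : Fin 4) (j : Fin 6) : ℤ :=
  if pr j = (a, b) then 1 else if pr j = (b, a) then -1 else 0

lemma eP_inr (k j : Fin 6) : eP R0 k (Sum.inr j) = if j = k then 1 else 0 := by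
  unfold eP
  by_cases h : j = k
  · subst h; rw [Pi.single_eq_same, if_pos rfl]
  · rw [Pi.single_eq_of_ne (fun h' => h (Sum.inr.inj h')), if_neg h]

lemma eP_inl (k : Fin 6) (w : Fin 4) : eP R0 k (Sum.inl w) = 0 := by
  unfold eP
  rw [Pi.single_eq_of_ne (by simp)]

lemma e2_inl (a b w : Fin 4) : e2 R0 a b (Sum.inl w) = 0 := by
  rcases e2_cases a b with h | ⟨k, h⟩ | ⟨k, h⟩
  · rw [h]; rfl
  · rw [h, eP_inl]
  · rw [h, Pi.neg_apply, eP_inl, neg_zero]

lemma e2_inr (a b : Fin 4) (j : Fin 6) : e2 R0 a b (Sum.inr j) = ((e2c a b j : ℤ) : R0) := by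
  have hk : ∀ k : Fin 6, ∀ j : Fin 6, eP R0 k (Sum.inr j) = ((e2c (pr k).1 (pr k).2 j : ℤ) : R0) := by
    intro k j
    rw [eP_inr]
    have : e2c (pr k).1 (pr k).2 j = if j = k then 1 else 0 := by
      revert k j; decide
    rw [this]
    split_ifs <;> simp
  fin_cases a <;> fin_cases b
  · show (0 : R0) = ((e2c 0 0 j : ℤ) : R0); rw [show e2c 0 0 j = 0 by revert j; decide]; simp
  · exact hk 0 j
  · exact hk 1 j
  · exact hk 2 j
  · show -eP R0 0 (Sum.inr j) = _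
    rw [hk 0 j]; push_cast [show e2c 1 0 j = -e2c 0 1 j by revert j; decide]; rfl
  · show (0 : R0) = ((e2c 1 1 j : ℤ) : R0); rw [show e2c 1 1 j = 0 by revert j; decide]; simp
  · exact hk 3 j
  · exact hk 4 j
  · show -eP R0 1 (Sum.inr j) = _
    rw [hk 1 j]; push_cast [show e2c 2 0 j = -e2c 0 2 j by revert j; decide]; rfl
  · show -eP R0 3 (Sum.inr j) = _
    rw [hk 3 j]; push_cast [show e2c 2 1 j = -e2c 1 2 j by revert j; decide]; rfl
  · show (0 : R0) = ((e2c 2 2 j : ℤ) : R0); rw [show e2c 2 2 j = 0 by revert j; decide]; simp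
  · exact hk 5 j
  · show -eP R0 2 (Sum.inr j) = _
    rw [hk 2 j]; push_cast [show e2c 3 0 j = -e2c 0 3 j by revert j; decide]; rfl
  · show -eP R0 4 (Sum.inr j) = _
    rw [hk 4 j]; push_cast [show e2c 3 1 j = -e2c 1 3 j by revert j; decide]; rfl
  · show -eP R0 5 (Sum.inr j) = _
    rw [hk 5 j]; push_cast [show e2c 3 2 j = -e2c 2 3 j by revert j; decide]; rfl
  · show (0 : R0) = ((e2c 3 3 j : ℤ) : R0); rw [show e2c 3 3 j = 0 by revert j; decide]; simp

lemma e1_inr (a : Fin 4) (j : Fin 6) : e1 R0 a (Sum.inr j) = 0 := by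
  unfold e1
  rw [Pi.single_eq_of_ne (by simp)]

def e1c (a w : Fin 4) : ℤ := if w = a then 1 else 0

lemma e1_inl (a w : Fin 4) : e1 R0 a (Sum.inl w) = ((e1c a w : ℤ) : R0) := by
  unfold e1 e1c
  by_cases h : w = a
  · subst h; rw [Pi.single_eq_same, if_pos rfl, Int.cast_one]
  · rw [Pi.single_eq_of_ne (fun h' => h (Sum.inl.inj h')), if_neg h, Int.cast_zero]

/-- specialisation at the identity Gram matrix -/
noncomputable def phI : R0 →+* ℚ := eval₂Hom (RingHom.id ℚ)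
  (fun s => Sym2.lift ⟨fun i j : Fin 4 => if i = j then (1 : ℚ) else 0,
    fun i j => if_congr eq_comm rfl rfl⟩ s)

def dl (i j : Fin 4) : ℤ := if i = j then 1 else 0

lemma phI_qx (i j : Fin 4) : phI (qx i j) = ((dl i j : ℤ) : ℚ) := by
  unfold phI qx
  rw [eval₂Hom_X', Sym2.lift_mk]
  unfold dl
  by_cases h : i = j
  · rw [if_pos h]; simp [h]
  · rw [if_neg h]; simp [h]

/-- integer minors -/
def mI (p r v w : Fin 4) : ℤ := dl r w * dl p v - dl r v * dl p w

lemma phI_mn (p r v w : Fin 4) : phI (mn p r v w) = ((mI p r v w : ℤ) : ℚ) := by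
  unfold mn mI
  rw [map_sub, map_mul, map_mul, phI_qx, phI_qx, phI_qx, phI_qx]; push_cast; ring

/-- first matrix -/
noncomputable def MB : Matrix (Fin 6) (Fin 6) R0 := fun k j =>
  bt 0 1 2 3 (e2 R0 (pr k).1 (pr k).2) (Sum.inr j)

def fBi (v w : Fin 4) (j : Fin 6) : ℤ :=
  -(mI 0 1 v w * e2c 2 3 j + mI 1 2 v w * e2c 0 3 j + mI 2 0 v w * e2c 1 3 j
      + mI 0 3 v w * e2c 1 2 j + mI 1 3 v w * e2c 2 0 j + mI 2 3 v w * e2c 0 1 j)

def MBi : Matrix (Fin 6) (Fin 6) ℤ := fun k j => fBi (pr k).1 (pr k).2 j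

lemma MB_map : phI.mapMatrix MB = (Int.castRingHom ℚ).mapMatrix MBi := by
  ext k j
  show phI (MB k j) = ((MBi k j : ℤ) : ℚ)
  unfold MB MBi fBi
  rw [bt_e2]
  simp only [Pi.neg_apply, Pi.add_apply, Pi.smul_apply, smul_eq_mul, e2_inr, map_neg, map_add,
    map_mul, phI_mn, map_intCast]
  push_cast
  ring

lemma MBi_sq : MBi * MBi = 1 := by decide

lemma det_ne_zero_of {n : ℕ} (M : Matrix (Fin n) (Fin n) R0) (Mi : Matrix (Fin n) (Fin n) ℤ)
    (h : phI.mapMatrix M = (Int.castRingHom ℚ).mapMatrix Mi) (h2 : Mi * Mi = 1) : M.det ≠ 0 := by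
  intro h0
  have h3 : phI M.det = 0 := by rw [h0, map_zero]
  rw [RingHom.map_det, h, ← RingHom.map_det] at h3
  have h4 : Mi.det * Mi.det = 1 := by rw [← Matrix.det_mul, h2, Matrix.det_one]
  have h5 : Mi.det = 0 := by
    have : ((Mi.det : ℤ) : ℚ) = 0 := h3
    exact_mod_cast this
  rw [h5] at h4
  norm_num at h4

lemma MB_det : MB.det ≠ 0 := det_ne_zero_of MB MBi MB_map MBi_sq

/-- second matrix -/
noncomputable def MC : Matrix (Fin 4) (Fin 4) R0 := fun k j =>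
  mmu qx (tr k).2.2 (bt 0 1 2 3 (e2 R0 (tr k).1 (tr k).2.1)) (Sum.inl j)

def mmc (u v w j : Fin 4) : ℤ := dl v u * e1c w j - dl w u * e1c v j

def fCi (v w n j : Fin 4) : ℤ :=
  -(mI 0 1 v w * mmc n 2 3 j + mI 1 2 v w * mmc n 0 3 j + mI 2 0 v w * mmc n 1 3 j
      + mI 0 3 v w * mmc n 1 2 j + mI 1 3 v w * mmc n 2 0 j + mI 2 3 v w * mmc n 0 1 j)

def MCi : Matrix (Fin 4) (Fin 4) ℤ := fun k j => fCi (tr k).1 (tr k).2.1 (tr k).2.2 j

lemma MC_map : phI.mapMatrix MC = (Int.castRingHom ℚ).mapMatrix MCi := by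
  ext k j
  show phI (MC k j) = ((MCi k j : ℤ) : ℚ)
  unfold MC MCi fCi mmc
  rw [bt_e2]
  simp only [map_neg, map_add, map_smul, mmu_e2, Pi.neg_apply, Pi.add_apply, Pi.smul_apply,
    Pi.sub_apply, smul_eq_mul, e1_inl, map_sub, map_mul, phI_mn, phI_qx, map_intCast]
  push_cast
  ring

lemma MCi_sq : MCi * MCi = 1 := by decide

lemma MC_det : MC.det ≠ 0 := det_ne_zero_of MC MCi MC_map MCi_sq

lemma bt_inl (x y z u v w j : Fin 4) : bt x y z u (e2 R0 v w) (Sum.inl j) = 0 := by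
  rw [bt_e2]
  simp only [Pi.neg_apply, Pi.add_apply, Pi.smul_apply, e2_inl, smul_zero, add_zero, neg_zero]

lemma mbt_inr (x y z u v w n : Fin 4) (j : Fin 6) :
    mmu qx n (bt x y z u (e2 R0 v w)) (Sum.inr j) = 0 := by
  rw [bt_e2]
  simp only [map_neg, map_add, map_smul, mmu_e2, Pi.neg_apply, Pi.add_apply, Pi.smul_apply,
    Pi.sub_apply, e1_inr, smul_zero, sub_zero, add_zero, neg_zero]

lemma vecMul_C {n : ℕ} {M : Matrix (Fin n) (Fin n) R0} (hM : M.det ≠ 0) (b : Fin n → S4)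
    (h : ∀ j, ∑ k, b k * (C (M k j) : S4) = 0) : b = 0 := by
  have hdet : ((C : R0 →+* S4).mapMatrix M).det ≠ 0 := by
    rw [← RingHom.map_det]
    intro h0
    exact hM (C_injective _ _ (by rw [h0, map_zero]))
  refine Matrix.eq_zero_of_vecMul_eq_zero hdet ?_
  funext j
  exact h j

/-- **Injectivity.** -/
theorem Vn_inj {n : Nn} (h : ∀ p, Vn p n = 0) : n = 0 := by
  have hn := mem_Nf h
  unfold Nf at hn
  rw [Submodule.span_union] at hn
  obtain ⟨x, hx, y, hy, rfl⟩ := Submodule.mem_sup.1 hn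
  obtain ⟨b, rfl⟩ := (Submodule.mem_span_range_iff_exists_fun S4).1 hx
  obtain ⟨c, rfl⟩ := (Submodule.mem_span_range_iff_exists_fun S4).1 hy
  set F : P4 := ∑ k, b k • io (bt 0 1 2 3 (e2 R0 (pr k).1 (pr k).2)) with hF
  set G : P4 := ∑ k, c k • io (mmu qx (tr k).2.2 (bt 0 1 2 3 (e2 R0 (tr k).1 (tr k).2.1))) with hG
  have hsumV : ∀ p, ∀ m : ℕ, ∀ g : Fin m → Nn, Vn p (∑ l, g l) = ∑ l, Vn p (g l) := by
    intro p m g
    let φ : Nn →+ O7 ℂ := ⟨⟨Vn p, Vn_zero p⟩, Vn_add p⟩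
    exact map_sum φ g Finset.univ
  have hsumv : ∀ p, ∀ m : ℕ, ∀ g : Fin m → P4, val p (∑ l, g l) = ∑ l, val p (g l) := by
    intro p m g
    let φ : P4 →+ O7 ℂ := ⟨⟨val p, val_zero p⟩, val_add p⟩
    exact map_sum φ g Finset.univ
  have h9 : ∀ p, (9 : ℂ) • val p (F + G) = (9 : ℂ) • val p 0 := by
    intro p
    rw [val_zero, smul_zero, ← h p, Vn_add, hsumV, hsumV, val_add, hF, hG, hsumv, hsumv, smul_add,
      Finset.smul_sum, Finset.smul_sum]
    congr 1
    · refine Finset.sum_congr rfl fun k _ => ?_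
      rw [val_smul, val_iota, smul_comm, ← Vn_Bm, Bm_e2, Vn_smul]; rfl
    · refine Finset.sum_congr rfl fun k _ => ?_
      rw [val_smul, val_iota, smul_comm, ← Vn_Cn, Vn_smul]; rfl
  have h0 : F + G = 0 := val9_inj h9
  have hb : b = 0 := by
    refine vecMul_C MB_det b fun j => ?_
    have := congrFun h0 (Sum.inr j)
    rw [Pi.add_apply, hF, hG, Finset.sum_apply, Finset.sum_apply] at this
    rw [← show (0 : P4) (Sum.inr j) = 0 from rfl, ← this]
    have h2 : ∑ k, (c k • io (mmu qx (tr k).2.2 (bt 0 1 2 3 (e2 R0 (tr k).1 (tr k).2.1))))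
        (Sum.inr j) = 0 := by
      refine Finset.sum_eq_zero fun k _ => ?_
      rw [Pi.smul_apply]
      show c k • (C (mmu qx (tr k).2.2 (bt 0 1 2 3 (e2 R0 (tr k).1 (tr k).2.1)) (Sum.inr j)) : S4)
        = 0
      rw [mbt_inr, C_0, smul_zero]
    rw [h2, add_zero]
    rfl
  have hc : c = 0 := by
    refine vecMul_C MC_det c fun j => ?_
    have := congrFun h0 (Sum.inl j)
    rw [Pi.add_apply, hF, hG, Finset.sum_apply, Finset.sum_apply] at this
    rw [← show (0 : P4) (Sum.inl j) = 0 from rfl, ← this]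
    have h2 : ∑ k, (b k • io (bt 0 1 2 3 (e2 R0 (pr k).1 (pr k).2))) (Sum.inl j) = 0 := by
      refine Finset.sum_eq_zero fun k _ => ?_
      rw [Pi.smul_apply]
      show b k • (C (bt 0 1 2 3 (e2 R0 (pr k).1 (pr k).2) (Sum.inl j)) : S4) = 0
      rw [bt_inl, C_0, smul_zero]
    rw [h2, zero_add]
    rfl
  rw [hb, hc]
  simp

/-- elements of the Jacobian ideal of the free Malcev algebra of rank four that vanish under all
homomorphisms into the cross product algebra are zero -/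
theorem inj_main {m : M4} (hm : m ∈ NN M4) (h : ∀ p : Pt, ev p m = 0) : m = 0 := by
  have := Vn_inj (n := mkN m hm) h
  have h2 := congrArg inN this
  rw [inN_mk, map_zero] at h2
  exact h2

end Pool.Agent.H1.Mal
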