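import Pool.Agent.H1.Mal.LieP
import Pool.Agent.H1.Mal.InjN2

/-!
# Identities of three-generated Malcev algebras hold in four-generated ones
-/

set_option autoImplicit false

namespace Pool.Agent.H1.Mal

/-- **Main theorem**: an identity of all Malcev algebras over `ℚ` generated by three elements is
an identity of all Malcev algebras over `ℚ` generated by four elements. -/
theorem main_thm {f : FA ℕ} (hf : IdG 3 f) : IdG 4 f := by
  intro A _ _ _ _ _ a ha v
  have hM : ∀ v : ℕ → M4, liftA v f = 0 := by
    intro v
    refine inj_main (lie_zero hf v) fun p => ?_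
    rw [liftA_nat]
    exact O7_zero hf _
  have hsurj : ∀ x : A, ∃ m : M4, lift a m = x := by
    intro x
    have hx : x ∈ NonUnitalAlgebra.adjoin ℚ (Set.range a) := by rw [ha]; trivial
    have hle : NonUnitalAlgebra.adjoin ℚ (Set.range a) ≤ NonUnitalAlgHom.range (lift a) := by
      rw [NonUnitalAlgebra.adjoin_le_iff]
      rintro _ ⟨i, rfl⟩
      exact ⟨gen i, lift_gen a i⟩
    exact hle hx
  choose s hs using hsurj
  have h1 := liftA_nat (lift a) (fun n => s (v n)) f
  rw [hM, map_zero] at h1
  have h2 : (fun n => lift a (s (v n))) = v := by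
    funext n; exact hs (v n)
  rw [h2] at h1
  exact h1.symm

end Pool.Agent.H1.Mal
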