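import Pool.Agent.H1.Mal.Sound
import Pool.Agent.H1.Mal.Defs

/-!
# Formal combinations and the soundness of `check`
-/

set_option autoImplicit false
set_option linter.unusedSectionVars false
set_option linter.unusedSimpArgs false

namespace Pool.Agent.H1.Mal

variable {A : Type} [NonUnitalNonAssocRing A] [Module ℚ A] [IsScalarTower ℚ A A]
  [SMulCommClass ℚ A A] [IsMal A]

/-- `φ` acts on the Jacobian ideal as multiplication by `⟨t,u⟩`. -/
structure IsQ (t u : A) (φ : A →ₗ[ℚ] A) : Prop where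
  J : ∀ x y z : A, φ (J x y z) = E2 t u x y z
  lin : ∀ n ∈ NN A, ∀ w : A, φ (n * w) = φ n * w

lemma e3_mem (t u x y z : A) : e3 t u x y z ∈ NN A := by
  unfold e3
  have h := fun a b c d e : A => NN_mul (NN_mul (J_mem a b c) d) e
  exact Submodule.add_mem _ (Submodule.add_mem _ (Submodule.add_mem _ (h _ _ _ _ _)
    (h _ _ _ _ _)) (Submodule.smul_mem _ _ (h _ _ _ _ _))) (Submodule.smul_mem _ _ (h _ _ _ _ _))

lemma E2_mem (t u x y z : A) : E2 t u x y z ∈ NN A := by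
  unfold E2
  have h := fun a b c d e : A => NN_mul (NN_mul (J_mem a b c) d) e
  exact Submodule.smul_mem _ _ (Submodule.add_mem _ (Submodule.add_mem _ (Submodule.add_mem _
    (Submodule.add_mem _ (Submodule.smul_mem _ _ (h _ _ _ _ _))
      (Submodule.smul_mem _ _ (h _ _ _ _ _)))
    (e3_mem _ _ _ _ _)) (e3_mem _ _ _ _ _)) (e3_mem _ _ _ _ _))

lemma IsQ.mem {t u : A} {φ : A →ₗ[ℚ] A} (h : IsQ t u φ) {n : A} (hn : n ∈ NN A) : φ n ∈ NN A := by
  induction hn using Submodule.span_induction with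
  | mem x hx => obtain ⟨x, y, z, rfl⟩ := hx; rw [h.J]; exact E2_mem _ _ _ _ _
  | zero => rw [map_zero]; exact Submodule.zero_mem _
  | add x y _ _ hx hy => rw [map_add]; exact Submodule.add_mem _ hx hy
  | smul c x _ hx => rw [map_smul]; exact Submodule.smul_mem _ _ hx

/-- apply a list of `Q` operators -/
def qv (e : ℕ → A) (Q : A → A → (A →ₗ[ℚ] A)) : List (Tr × Tr) → A → A
  | [], x => x
  | tu :: qs, x => qv e Q qs (Q (tu.1.ev e) (tu.2.ev e) x)

def qsOK (e : ℕ → A) (Q : A → A → (A →ₗ[ℚ] A)) (qs : List (Tr × Tr)) : Prop :=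
  ∀ tu ∈ qs, IsQ (tu.1.ev e) (tu.2.ev e) (Q (tu.1.ev e) (tu.2.ev e))

lemma qv_add (e : ℕ → A) (Q : A → A → (A →ₗ[ℚ] A)) (qs : List (Tr × Tr)) :
    ∀ x y : A, qv e Q qs (x + y) = qv e Q qs x + qv e Q qs y := by
  induction qs with
  | nil => intro x y; rfl
  | cons t ts ih => intro x y; simp only [qv, map_add, ih]

lemma qv_smul (e : ℕ → A) (Q : A → A → (A →ₗ[ℚ] A)) (qs : List (Tr × Tr)) (c : ℚ) :
    ∀ x : A, qv e Q qs (c • x) = c • qv e Q qs x := by
  induction qs with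
  | nil => intro x; rfl
  | cons t ts ih => intro x; simp only [qv, map_smul, ih]

lemma qv_append (e : ℕ → A) (Q : A → A → (A →ₗ[ℚ] A)) (qs rs : List (Tr × Tr)) :
    ∀ x : A, qv e Q (qs ++ rs) x = qv e Q rs (qv e Q qs x) := by
  induction qs with
  | nil => intro x; rfl
  | cons t ts ih => intro x; simp only [qv, List.cons_append, ih]

lemma qsOK_cons {e : ℕ → A} {Q : A → A → (A →ₗ[ℚ] A)} {tu : Tr × Tr} {qs : List (Tr × Tr)} :
    qsOK e Q (tu :: qs) ↔ IsQ (tu.1.ev e) (tu.2.ev e) (Q (tu.1.ev e) (tu.2.ev e)) ∧ qsOK e Q qs := by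
  simp [qsOK]

lemma qv_mul (e : ℕ → A) (Q : A → A → (A →ₗ[ℚ] A)) (qs : List (Tr × Tr)) (h : qsOK e Q qs)
    (w : A) : ∀ n ∈ NN A, qv e Q qs (n * w) = qv e Q qs n * w ∧ qv e Q qs n ∈ NN A := by
  induction qs with
  | nil => intro x hx; exact ⟨rfl, hx⟩
  | cons t ts ih =>
    intro x hx
    rw [qsOK_cons] at h
    have := ih h.2 _ (h.1.mem hx)
    simp only [qv, h.1.lin x hx, this, and_self]

lemma opv_mem (e : ℕ → A) (ts : List Tr) : ∀ n ∈ NN A, opv e n ts ∈ NN A := by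
  induction ts with
  | nil => intro n hn; exact hn
  | cons t ts ih => intro n hn; exact ih _ (NN_mul hn _)

lemma qv_opv (e : ℕ → A) (Q : A → A → (A →ₗ[ℚ] A)) (qs : List (Tr × Tr)) (h : qsOK e Q qs)
    (ts : List Tr) : ∀ n ∈ NN A, qv e Q qs (opv e n ts) = opv e (qv e Q qs n) ts := by
  induction ts with
  | nil => intro n _; rfl
  | cons t ts ih =>
    intro n hn
    simp only [opv]
    rw [ih _ (NN_mul hn _), (qv_mul e Q qs h _ n hn).1]

/-- value of a target entry -/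
def Tm.val (e : ℕ → A) (Q : A → A → (A →ₗ[ℚ] A)) : Tm → A
  | .mk p n qs a b d ops =>
    ((p : ℤ) - n) • qv e Q qs (opv e (Mal.J (a.ev e) (b.ev e) (d.ev e)) ops)

def Tm.qsOK (e : ℕ → A) (Q : A → A → (A →ₗ[ℚ] A)) : Tm → Prop
  | .mk _ _ qs _ _ _ _ => Mal.qsOK e Q qs

def fval (e : ℕ → A) (Q : A → A → (A →ₗ[ℚ] A)) : List Tm → A
  | [] => 0
  | t :: ts => t.val e Q + fval e Q ts

/-! ### soundness of `check` -/

lemma Tr.ok_of_okb {t : Tr} (h : t.okb = true) : t.ok := by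
  induction t with
  | v n => exact Nat.lt_succ_of_le (Nat.le_of_ble_eq_true h)
  | m a b iha ihb =>
    rw [Tr.okb, Bool.and_eq_true] at h
    exact ⟨iha h.1, ihb h.2⟩

lemma okL_of_okb {l : List Tr} (h : l.all Tr.okb = true) : okL l := by
  intro t ht
  rw [List.all_eq_true] at h
  exact Tr.ok_of_okb (h t ht)

/-- adds zero -/
def Same (e : ℕ → A) (acc acc' : Acc) : Prop := acc'.sum (dec e) = acc.sum (dec e)

lemma runE_sound (e : ℕ → A) (F : ℕ) (c : Ce) (hc : c.okb = true) (acc : Acc) (K : Acc → Bool)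
    (h : runE F c acc K = true) :
    ∃ acc' : Acc, acc'.sum (dec e) = acc.sum (dec e) ∧ K acc' = true := by
  cases c with
  | cyc p n a b d suf =>
    simp only [Ce.okb, Bool.and_eq_true] at hc
    obtain ⟨⟨⟨ha, hb⟩, hd⟩, hs⟩ := hc
    replace ha := Tr.ok_of_okb ha
    replace hb := Tr.ok_of_okb hb
    replace hd := Tr.ok_of_okb hd
    replace hs := okL_of_okb hs
    obtain ⟨a1, h1, h⟩ := redJ_sound e F _ _ _ _ _ _ _ _ ha hb hd hs h
    obtain ⟨a2, h2, h⟩ := redJ_sound e F _ _ _ _ _ _ _ _ hb hd ha hs h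
    refine ⟨a2, ?_, h⟩
    rw [h2, h1, J_cyc (a.ev e), add_assoc, ← add_smul]
    simp
  | flipA p n a b d pre x y z suf =>
    simp only [Ce.okb, Bool.and_eq_true] at hc
    obtain ⟨⟨⟨⟨⟨⟨⟨ha, hb⟩, hd⟩, hp⟩, hx⟩, hy⟩, hz⟩, hs⟩ := hc
    replace ha := Tr.ok_of_okb ha
    replace hb := Tr.ok_of_okb hb
    replace hd := Tr.ok_of_okb hd
    replace hx := Tr.ok_of_okb hx
    replace hy := Tr.ok_of_okb hy
    replace hz := Tr.ok_of_okb hz
    replace hs := okL_of_okb hs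
    replace hp := okL_of_okb hp
    obtain ⟨a1, h1, h⟩ := redJ_sound e F _ _ _ _ _ _ _ _ ha hb hd
      (by simp [okL_append, okL_cons, Tr.ok, *]) h
    obtain ⟨a2, h2, h⟩ := redJ_sound e F _ _ _ _ _ _ _ _ ha hb hd
      (by simp [okL_append, okL_cons, Tr.ok, *]) h
    refine ⟨a2, ?_, h⟩
    rw [h2, h1, opv_append, opv_append]
    simp only [opv, Tr.ev]
    rw [anti (y.ev e) (x.ev e), neg_mul, mul_neg, opv_neg, smul_neg]
    abel
  | flipB p n a b d pre x y suf =>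
    simp only [Ce.okb, Bool.and_eq_true] at hc
    obtain ⟨⟨⟨⟨⟨⟨ha, hb⟩, hd⟩, hp⟩, hx⟩, hy⟩, hs⟩ := hc
    replace ha := Tr.ok_of_okb ha
    replace hb := Tr.ok_of_okb hb
    replace hd := Tr.ok_of_okb hd
    replace hx := Tr.ok_of_okb hx
    replace hy := Tr.ok_of_okb hy
    replace hs := okL_of_okb hs
    replace hp := okL_of_okb hp
    obtain ⟨a1, h1, h⟩ := redJ_sound e F _ _ _ _ _ _ _ _ ha hb hd
      (by simp [okL_append, okL_cons, Tr.ok, *]) h
    obtain ⟨a2, h2, h⟩ := redJ_sound e F _ _ _ _ _ _ _ _ ha hb hd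
      (by simp [okL_append, okL_cons, Tr.ok, *]) h
    refine ⟨a2, ?_, h⟩
    rw [h2, h1, opv_append, opv_append]
    simp only [opv, Tr.ev]
    rw [anti (y.ev e) (x.ev e), mul_neg, opv_neg, smul_neg]
    abel

lemma runC_sound (e : ℕ → A) (F : ℕ) (l : List Ce) : l.all Ce.okb = true →
    ∀ (acc : Acc) (K : Acc → Bool), runC F l acc K = true →
    ∃ acc' : Acc, acc'.sum (dec e) = acc.sum (dec e) ∧ K acc' = true := by
  induction l with
  | nil => intro _ acc K h; exact ⟨acc, rfl, h⟩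
  | cons c l ih =>
    intro hl acc K h
    rw [List.all_cons, Bool.and_eq_true] at hl
    obtain ⟨a1, h1, h⟩ := runE_sound e F c hl.1 acc _ h
    obtain ⟨a2, h2, h⟩ := ih hl.2 _ _ h
    exact ⟨a2, h2.trans h1, h⟩

/-- specification of `JF` functions with `Q` operators -/
def QFok (e : ℕ → A) (Q : A → A → (A →ₗ[ℚ] A)) (s : ℕ) (qs : List (Tr × Tr)) (ih : JF) : Prop :=
  ∀ (a b d : Tr) (ops : List Tr) (p n : ℕ) (acc : Acc) (K : Acc → Bool), a.ok → b.ok → d.ok →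
    okL ops → ih a b d ops p n acc K = true →
    ∃ acc' : Acc, acc'.sum (dec e) = acc.sum (dec e)
      + (((s : ℤ) * p) - (s : ℤ) * n) • qv e Q qs (opv e (Mal.J (a.ev e) (b.ev e) (d.ev e)) ops) ∧
      K acc' = true

lemma qv_zsmul (e : ℕ → A) (Q : A → A → (A →ₗ[ℚ] A)) (qs : List (Tr × Tr)) (c : ℤ) (x : A) :
    qv e Q qs (c • x) = c • qv e Q qs x := by
  rw [← Int.cast_smul_eq_zsmul ℚ, qv_smul, Int.cast_smul_eq_zsmul ℚ]

lemma opv_smul (e : ℕ → A) (ts : List Tr) (c : ℚ) : ∀ x : A,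
    opv e (c • x) ts = c • opv e x ts := by
  induction ts with
  | nil => intro x; rfl
  | cons t ts ih => intro x; simp only [opv, smul_mul_assoc, ih]

lemma qstep3_sound (e : ℕ → A) (Q : A → A → (A →ₗ[ℚ] A)) (s : ℕ) (qs : List (Tr × Tr)) (ih : JF)
    (hih : QFok e Q s qs ih) (t u x y z : Tr) (ht : t.ok) (hu : u.ok) (hx : x.ok) (hy : y.ok)
    (hz : z.ok) (ops : List Tr) (hops : okL ops) (p n : ℕ) (acc : Acc) (K : Acc → Bool)
    (h : qstep3 ih t u x y z ops p n acc K = true) :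
    ∃ acc' : Acc, acc'.sum (dec e) = acc.sum (dec e)
      - (((s : ℤ) * p) - (s : ℤ) * n) • qv e Q qs (opv e
          (e3 (t.ev e) (u.ev e) (x.ev e) (y.ev e) (z.ev e)) ops) ∧
      K acc' = true := by
  unfold qstep3 at h
  obtain ⟨a1, h1, h⟩ := hih _ _ _ _ _ _ _ _ hx hy ht (by simp [okL_cons, *]) h
  obtain ⟨a2, h2, h⟩ := hih _ _ _ _ _ _ _ _ hx hy hu (by simp [okL_cons, *]) h
  obtain ⟨a3, h3, h⟩ := hih _ _ _ _ _ _ _ _ hx hy ht (by simp [okL_cons, *]) h
  obtain ⟨a4, h4, h⟩ := hih _ _ _ _ _ _ _ _ hx hy hu (by simp [okL_cons, *]) h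
  refine ⟨a4, ?_, h⟩
  rw [h4, h3, h2, h1]
  unfold e3
  simp only [opv, opv_add, opv_smul, qv_add, qv_smul, Nat.mul_eq]
  push_cast
  module

lemma qstep_sound (e : ℕ → A) (Q : A → A → (A →ₗ[ℚ] A)) (s : ℕ) (tu : Tr × Tr)
    (qs : List (Tr × Tr)) (hq : qsOK e Q (tu :: qs)) (ih : JF)
    (ht : tu.1.ok) (hu : tu.2.ok)
    (hih : QFok e Q s qs ih) : QFok e Q (18 * s) (tu :: qs) (qstep ih tu.1 tu.2) := by
  intro a b d ops p n acc K ha hb hd hops h
  unfold qstep at h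
  obtain ⟨a1, h1, h⟩ := hih _ _ _ _ _ _ _ _ ha hb hd (by simp [okL_cons, *]) h
  obtain ⟨a2, h2, h⟩ := hih _ _ _ _ _ _ _ _ ha hb hd (by simp [okL_cons, *]) h
  obtain ⟨a3, h3, h⟩ := qstep3_sound e Q s qs ih hih _ _ _ _ _ ht hu ha hb hd ops hops _ _ _ _ h
  obtain ⟨a4, h4, h⟩ := qstep3_sound e Q s qs ih hih _ _ _ _ _ ht hu hb hd ha ops hops _ _ _ _ h
  obtain ⟨a5, h5, h⟩ := qstep3_sound e Q s qs ih hih _ _ _ _ _ ht hu hd ha hb ops hops _ _ _ _ h
  refine ⟨a5, ?_, h⟩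
  rw [h5, h4, h3, h2, h1]
  rw [qsOK_cons] at hq
  have key : qv e Q (tu :: qs) (opv e (Mal.J (a.ev e) (b.ev e) (d.ev e)) ops)
      = qv e Q qs (opv e (E2 (tu.1.ev e) (tu.2.ev e) (a.ev e) (b.ev e) (d.ev e)) ops) := by
    rw [← hq.1.J]
    have h2 := qv_opv e Q [tu] (by rw [qsOK_cons]; exact ⟨hq.1, by simp [qsOK]⟩) ops
      (Mal.J (a.ev e) (b.ev e) (d.ev e)) (J_mem _ _ _)
    simp only [qv] at h2 ⊢
    rw [h2]
  rw [key]
  unfold E2
  simp only [opv, opv_add, opv_smul, qv_add, qv_smul, Nat.mul_eq]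
  push_cast
  module

lemma runQ_sound (e : ℕ → A) (Q : A → A → (A →ₗ[ℚ] A)) (F g : ℕ) : ∀ (qs : List (Tr × Tr)),
    qsOK e Q qs → (∀ q ∈ qs, q.1.ok ∧ q.2.ok) → QFok e Q (18 ^ g * 3 ^ F) qs (runQ F g qs) := by
  induction g with
  | zero =>
    intro qs _ _
    cases qs with
    | nil =>
      intro a b d ops p n acc K ha hb hd hops h
      obtain ⟨a1, h1, h⟩ := redJ_sound e F _ _ _ _ _ _ _ _ ha hb hd hops h
      refine ⟨a1, ?_, h⟩
      rw [h1, pow_zero, one_mul]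
      rfl
    | cons q qs =>
      intro a b d ops p n acc K ha hb hd hops h
      cases h
  | succ g ih =>
    intro qs hqs hok
    cases qs with
    | nil =>
      intro a b d ops p n acc K ha hb hd hops h
      obtain ⟨a1, h1, h⟩ := ih [] hqs hok _ _ _ _ _ _ _ _ ha hb hd hops h
      refine ⟨a1, ?_, h⟩
      rw [h1]
      congr 2
      simp only [Nat.mul_eq]
      push_cast
      ring
    | cons q qs =>
      have hh := ih qs (qsOK_cons.1 hqs).2 (fun r hr => hok r (List.mem_cons_of_mem _ hr))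
      have := qstep_sound e Q _ q qs hqs _ (hok q List.mem_cons_self).1
        (hok q List.mem_cons_self).2 hh
      rw [pow_succ, mul_comm (18 ^ g) 18, mul_assoc]
      exact this

lemma runT_sound (e : ℕ → A) (Q : A → A → (A →ₗ[ℚ] A)) (F g : ℕ) (l : List Tm) :
    l.all Tm.okb = true → (∀ t ∈ l, t.qsOK e Q) →
    ∀ (acc : Acc) (K : Acc → Bool), runT F g l acc K = true →
    ∃ acc' : Acc, acc'.sum (dec e)
      = acc.sum (dec e) + ((18 ^ g * 3 ^ F : ℕ) : ℤ) • fval e Q l ∧ K acc' = true := by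
  induction l with
  | nil => intro _ _ acc K h; exact ⟨acc, by simp [fval], h⟩
  | cons c l ih =>
    intro hl hq acc K h
    rw [List.all_cons, Bool.and_eq_true] at hl
    cases c with
    | mk p n qs a b d ops =>
      have hl1 := hl.1
      simp only [Tm.okb, Bool.and_eq_true] at hl1
      obtain ⟨⟨⟨⟨hqs, ha⟩, hb⟩, hd⟩, hops⟩ := hl1
      replace ha := Tr.ok_of_okb ha
      replace hb := Tr.ok_of_okb hb
      replace hd := Tr.ok_of_okb hd
      replace hops := okL_of_okb hops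
      have hqs' : ∀ q ∈ qs, q.1.ok ∧ q.2.ok := by
        intro q hq
        rw [List.all_eq_true] at hqs
        have := hqs q hq
        rw [Bool.and_eq_true] at this
        exact ⟨Tr.ok_of_okb this.1, Tr.ok_of_okb this.2⟩
      obtain ⟨a1, h1, h⟩ := runQ_sound e Q F g qs (hq _ List.mem_cons_self) hqs'
        _ _ _ _ _ _ _ _ ha hb hd hops h
      obtain ⟨a2, h2, h⟩ := ih hl.2 (fun t ht => hq t (List.mem_cons_of_mem _ ht)) _ _ h
      refine ⟨a2, ?_, h⟩
      rw [h2, h1]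
      simp only [fval, Tm.val]
      push_cast
      module

theorem check_sound (e : ℕ → A) (Q : A → A → (A →ₗ[ℚ] A)) (F g : ℕ) (target : List Tm)
    (cert : List Ce) (h : check F g target cert = true) (hq : ∀ t ∈ target, t.qsOK e Q) :
    fval e Q target = 0 := by
  unfold check at h
  rw [Bool.and_eq_true, Bool.and_eq_true] at h
  obtain ⟨h1, h2, h3⟩ := h
  obtain ⟨a1, e1, h⟩ := runT_sound e Q F g target h1 hq _ _ h3
  obtain ⟨a2, e2, h⟩ := runC_sound e F cert h2 _ _ h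
  have h0 := zero_sound (dec e) a2 h
  rw [e2, e1] at h0
  simp only [Acc.sum, zero_add] at h0
  rw [← Int.cast_smul_eq_zsmul ℚ] at h0
  have hne : (((18 ^ g * 3 ^ F : ℕ) : ℤ) : ℚ) ≠ 0 := by
    rw [Int.cast_ne_zero, Nat.cast_ne_zero]
    positivity
  exact (smul_eq_zero.1 h0).resolve_left hne

end Pool.Agent.H1.Mal
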