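import Pool.Agent.H1.Mal.Formal

/-!
# Operations on formal combinations
-/

set_option autoImplicit false
set_option linter.unusedSectionVars false
set_option linter.unusedSimpArgs false

namespace Pool.Agent.H1.Mal

/-- formal Jacobian -/
def fJ (a b d : Tr) : List Tm := [.mk 1 0 [] a b d []]

def Tm.mulR (t : Tr) : Tm → Tm
  | .mk p n qs a b d ops => .mk p n qs a b d (ops ++ [t])

/-- right multiplication -/
def fmul (l : List Tm) (t : Tr) : List Tm := l.map (Tm.mulR t)

def Tm.qq (t u : Tr) : Tm → Tm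
  | .mk p n qs a b d ops => .mk p n (qs ++ [(t, u)]) a b d ops

/-- application of `Q_{t,u}` -/
def fq (l : List Tm) (t u : Tr) : List Tm := l.map (Tm.qq t u)

def Tm.ng : Tm → Tm
  | .mk p n qs a b d ops => .mk n p qs a b d ops

def fneg (l : List Tm) : List Tm := l.map Tm.ng

def Tm.sc (c : ℕ) : Tm → Tm
  | .mk p n qs a b d ops => .mk (Nat.mul c p) (Nat.mul c n) qs a b d ops

def fsc (c : ℕ) (l : List Tm) : List Tm := l.map (Tm.sc c)

def fe3 (t u x y z : Tr) : List Tm :=
  [.mk 1 0 [] x y t [z, u], .mk 1 0 [] x y u [z, t], .mk 3 0 [] x y t [u, z],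
    .mk 3 0 [] x y u [t, z]]

/-- `18 • E2` -/
def fE (t u x y z : Tr) : List Tm :=
  fneg ([.mk 5 0 [] x y z [t, u], .mk 5 0 [] x y z [u, t]] ++ (fe3 t u x y z ++
    (fe3 t u y z x ++ fe3 t u z x y)))

/-- `6 • G2` -/
def fG (t u : Tr) (l : List Tm) (v : Tr) : List Tm :=
  fneg (fmul (fmul (fmul l t) u) v ++ (fmul (fmul (fmul l u) t) v ++ (fmul (fmul (fmul l t) v) u ++
    (fmul (fmul (fmul l u) v) t ++ (fmul (fmul (fmul l v) t) u ++ (fmul (fmul (fmul l v) u) t ++
    (fsc 2 (fmul l (.m (.m v t) u)) ++ fsc 2 (fmul l (.m (.m v u) t)))))))))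

variable {A : Type} [NonUnitalNonAssocRing A] [Module ℚ A] [IsScalarTower ℚ A A]
  [SMulCommClass ℚ A A] [IsMal A]

def LOK (e : ℕ → A) (Q : A → A → (A →ₗ[ℚ] A)) (l : List Tm) : Prop := ∀ t ∈ l, t.qsOK e Q

variable {e : ℕ → A} {Q : A → A → (A →ₗ[ℚ] A)}

lemma LOK_append {l k : List Tm} (h1 : LOK e Q l) (h2 : LOK e Q k) : LOK e Q (l ++ k) := by
  intro t ht
  rcases List.mem_append.1 ht with h | h
  · exact h1 t h
  · exact h2 t h

lemma LOK_map {l : List Tm} (f : Tm → Tm) (hf : ∀ t, t.qsOK e Q → (f t).qsOK e Q)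
    (h1 : LOK e Q l) : LOK e Q (l.map f) := by
  intro t ht
  obtain ⟨s, hs, rfl⟩ := List.mem_map.1 ht
  exact hf s (h1 s hs)

lemma LOK_fmul {l : List Tm} (h1 : LOK e Q l) (t : Tr) : LOK e Q (fmul l t) :=
  LOK_map _ (fun s hs => by cases s; exact hs) h1

lemma LOK_fneg {l : List Tm} (h1 : LOK e Q l) : LOK e Q (fneg l) :=
  LOK_map _ (fun s hs => by cases s; exact hs) h1

lemma LOK_fsc {l : List Tm} (h1 : LOK e Q l) (c : ℕ) : LOK e Q (fsc c l) :=
  LOK_map _ (fun s hs => by cases s; exact hs) h1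

lemma LOK_fq {l : List Tm} (h1 : LOK e Q l) (t u : Tr)
    (h : IsQ (t.ev e) (u.ev e) (Q (t.ev e) (u.ev e))) : LOK e Q (fq l t u) := by
  refine LOK_map _ (fun s hs => ?_) h1
  cases s with
  | mk p n qs a b d ops =>
    intro tu htu
    rcases List.mem_append.1 htu with h' | h'
    · exact hs tu h'
    · rw [List.mem_singleton] at h'
      subst h'; exact h

lemma LOK_fJ (a b d : Tr) : LOK e Q (fJ a b d) := by
  intro t ht
  rw [fJ, List.mem_singleton] at ht
  subst ht
  intro tu htu; cases htu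

lemma LOK_fe3 (t u x y z : Tr) : LOK e Q (fe3 t u x y z) := by
  intro s hs
  simp only [fe3, List.mem_cons, List.not_mem_nil, or_false] at hs
  rcases hs with rfl | rfl | rfl | rfl <;> (intro tu htu; cases htu)

lemma LOK_fE (t u x y z : Tr) : LOK e Q (fE t u x y z) := by
  refine LOK_fneg (LOK_append ?_ (LOK_append (LOK_fe3 _ _ _ _ _) (LOK_append (LOK_fe3 _ _ _ _ _)
    (LOK_fe3 _ _ _ _ _))))
  intro s hs
  simp only [List.mem_cons, List.not_mem_nil, or_false] at hs
  rcases hs with rfl | rfl <;> (intro tu htu; cases htu)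

lemma LOK_fG {l : List Tm} (h : LOK e Q l) (t u v : Tr) : LOK e Q (fG t u l v) := by
  unfold fG
  refine LOK_fneg (LOK_append (LOK_fmul (LOK_fmul (LOK_fmul h _) _) _)
    (LOK_append (LOK_fmul (LOK_fmul (LOK_fmul h _) _) _)
    (LOK_append (LOK_fmul (LOK_fmul (LOK_fmul h _) _) _)
    (LOK_append (LOK_fmul (LOK_fmul (LOK_fmul h _) _) _)
    (LOK_append (LOK_fmul (LOK_fmul (LOK_fmul h _) _) _)
    (LOK_append (LOK_fmul (LOK_fmul (LOK_fmul h _) _) _)
    (LOK_append (LOK_fsc (LOK_fmul h _) _) (LOK_fsc (LOK_fmul h _) _))))))))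

/-! ### values -/

lemma fval_append (l k : List Tm) : fval e Q (l ++ k) = fval e Q l + fval e Q k := by
  induction l with
  | nil => simp [fval]
  | cons t l ih => simp only [List.cons_append, fval, ih, add_assoc]

lemma fval_fneg (l : List Tm) : fval e Q (fneg l) = -fval e Q l := by
  induction l with
  | nil => simp [fval, fneg]
  | cons t l ih =>
    cases t with
    | mk p n qs a b d ops =>
      have : fneg (.mk p n qs a b d ops :: l) = .mk n p qs a b d ops :: fneg l := rfl
      rw [this]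
      simp only [fval, Tm.val, ih]
      module

lemma fval_fsc (c : ℕ) (l : List Tm) : fval e Q (fsc c l) = (c : ℚ) • fval e Q l := by
  induction l with
  | nil => simp [fval, fsc]
  | cons t l ih =>
    cases t with
    | mk p n qs a b d ops =>
      have : fsc c (.mk p n qs a b d ops :: l) = .mk (Nat.mul c p) (Nat.mul c n) qs a b d ops :: fsc c l := rfl
      rw [this]
      simp only [fval, Tm.val, ih, Nat.mul_eq]
      push_cast
      module

lemma fval_fmul {l : List Tm} (h : LOK e Q l) (t : Tr) :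
    fval e Q (fmul l t) = fval e Q l * t.ev e := by
  induction l with
  | nil => simp [fval, fmul]
  | cons s l ih =>
    have hs := h s List.mem_cons_self
    have hl : LOK e Q l := fun t ht => h t (List.mem_cons_of_mem _ ht)
    cases s with
    | mk p n qs a b d ops =>
      have : fmul (.mk p n qs a b d ops :: l) t = .mk p n qs a b d (ops ++ [t]) :: fmul l t := rfl
      rw [this]
      simp only [fval, Tm.val, ih hl, add_mul, smul_mul_assoc]
      rw [opv_append]
      simp only [opv]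
      rw [(qv_mul e Q qs hs (t.ev e) _ (opv_mem e ops _ (J_mem _ _ _))).1]

lemma fval_fq (l : List Tm) (t u : Tr) :
    fval e Q (fq l t u) = Q (t.ev e) (u.ev e) (fval e Q l) := by
  induction l with
  | nil => simp [fval, fq]
  | cons s l ih =>
    cases s with
    | mk p n qs a b d ops =>
      have : fq (.mk p n qs a b d ops :: l) t u = .mk p n (qs ++ [(t, u)]) a b d ops :: fq l t u := rfl
      rw [this]
      simp only [fval, Tm.val, ih, map_add, map_zsmul]
      rw [qv_append]
      simp only [qv]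

lemma fval_fJ (a b d : Tr) : fval e Q (fJ a b d) = J (a.ev e) (b.ev e) (d.ev e) := by
  simp [fval, fJ, Tm.val, opv, qv]

lemma fval_fe3 (t u x y z : Tr) :
    fval e Q (fe3 t u x y z) = e3 (t.ev e) (u.ev e) (x.ev e) (y.ev e) (z.ev e) := by
  simp only [fval, fe3, Tm.val, opv, qv, e3]
  push_cast
  module

lemma fval_fE (t u x y z : Tr) :
    fval e Q (fE t u x y z) = (18 : ℚ) • E2 (t.ev e) (u.ev e) (x.ev e) (y.ev e) (z.ev e) := by
  unfold fE
  rw [fval_fneg, fval_append, fval_append, fval_append, fval_fe3, fval_fe3, fval_fe3]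
  simp only [fval, Tm.val, opv, qv, E2]
  push_cast
  module

lemma fval_fG {l : List Tm} (h : LOK e Q l) (t u v : Tr) :
    fval e Q (fG t u l v) = (6 : ℚ) • G2 (t.ev e) (u.ev e) (fval e Q l) (v.ev e) := by
  unfold fG
  have h1 := LOK_fmul h
  have h2 := fun a b => LOK_fmul (h1 a) b
  simp only [fval_fneg, fval_append, fval_fsc, fval_fmul h, fval_fmul (h1 _), fval_fmul (h2 _ _),
    Tr.ev, G2]
  push_cast
  module

/-- environment given by a list -/
def env (l : List A) (n : ℕ) : A := l.getD n 0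

end Pool.Agent.H1.Mal
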