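import Pool.Agent.H1.Mal.Formal2

/-!
# The elements `g`, `h`, `B`, `C` (scaled by 9) formally
-/

set_option autoImplicit false
set_option linter.unusedSectionVars false
set_option linter.unusedSimpArgs false

namespace Pool.Agent.H1.Mal

open Tr

def fg (x y z w : Tr) : List Tm :=
  fsc 2 (fmul (fJ x y z) w) ++ (fmul (fJ y z w) x ++ (fneg (fmul (fJ z w x) y) ++
    fmul (fJ w x y) z))

def fh (x y z v w : Tr) : List Tm :=
  fmul (fg x y z v) w ++ fsc 3 (fq (fJ y z w) x v ++ (fq (fJ z x w) y v ++ fq (fJ x y w) z v))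

def fB (x y z v w u : Tr) : List Tm :=
  fmul (fh x y z v w) u ++ (fneg (fsc 3 (fq (fJ v w u) (m x y) z)) ++
    (fneg (fq (fg x y z w) v u) ++ fq (fg x y z v) w u))

def fM (l : List Tm) (p r v w : Tr) : List Tm :=
  fq (fq l p v) r w ++ fneg (fq (fq l p w) r v)

def fC (x y z u v w n : Tr) : List Tm :=
  fmul (fB x y z v w u) n ++ fsc 3 (fM (fJ z u n) x y v w ++ (fM (fJ x u n) y z v w ++
    (fM (fJ y u n) z x v w ++ (fM (fJ y z n) x u v w ++ (fM (fJ z x n) y u v w ++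
      fM (fJ x y n) z u v w)))))

def fKh (p r l n w : Tr) : List Tm :=
  fq (fg p r n w) (m p r) l ++ fneg (fq (fh p r n r l) p w ++ (fq (fh p r n l p) r w ++
    fq (fh p r n p r) l w))

def fK (p r l n w : Tr) : List Tm := fKh p r l n w ++ fneg (fKh p r n l w)

variable {A : Type} [NonUnitalNonAssocRing A] [Module ℚ A] [IsScalarTower ℚ A A]
  [SMulCommClass ℚ A A] [IsMal A]

/-- `9 g` -/
def gg (x y z w : A) : A :=
  (2 : ℚ) • (J x y z * w) + J y z w * x - J z w x * y + J w x y * z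

/-- `9 h` -/
def hh (Q : A → A → (A →ₗ[ℚ] A)) (x y z v w : A) : A :=
  gg x y z v * w + (3 : ℚ) • (Q x v (J y z w) + Q y v (J z x w) + Q z v (J x y w))

/-- `9 B` -/
def BB (Q : A → A → (A →ₗ[ℚ] A)) (x y z v w u : A) : A :=
  hh Q x y z v w * u - (3 : ℚ) • Q (x * y) z (J v w u) - Q v u (gg x y z w) + Q w u (gg x y z v)

def MM (Q : A → A → (A →ₗ[ℚ] A)) (l : A) (p r v w : A) : A :=
  Q r w (Q p v l) - Q r v (Q p w l)

/-- `9 C` -/
def CC (Q : A → A → (A →ₗ[ℚ] A)) (x y z u v w n : A) : A :=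
  BB Q x y z v w u * n + (3 : ℚ) • (MM Q (J z u n) x y v w + MM Q (J x u n) y z v w
    + MM Q (J y u n) z x v w + MM Q (J y z n) x u v w + MM Q (J z x n) y u v w
    + MM Q (J x y n) z u v w)

def KKh (Q : A → A → (A →ₗ[ℚ] A)) (p r l n w : A) : A :=
  Q (p * r) l (gg p r n w) - (Q p w (hh Q p r n r l) + Q r w (hh Q p r n l p)
    + Q l w (hh Q p r n p r))

/-- `9 κ` -/
def KK (Q : A → A → (A →ₗ[ℚ] A)) (p r l n w : A) : A := KKh Q p r l n w - KKh Q p r n l w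

variable {e : ℕ → A} {Q : A → A → (A →ₗ[ℚ] A)}

/-- `Q t u` is good for the values of two trees -/
def QOK (e : ℕ → A) (Q : A → A → (A →ₗ[ℚ] A)) (t u : Tr) : Prop :=
  IsQ (t.ev e) (u.ev e) (Q (t.ev e) (u.ev e))

lemma LOK_fg (x y z w : Tr) : LOK e Q (fg x y z w) :=
  LOK_append (LOK_fsc (LOK_fmul (LOK_fJ _ _ _) _) _) (LOK_append (LOK_fmul (LOK_fJ _ _ _) _)
    (LOK_append (LOK_fneg (LOK_fmul (LOK_fJ _ _ _) _)) (LOK_fmul (LOK_fJ _ _ _) _)))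

lemma fval_fg (x y z w : Tr) :
    fval e Q (fg x y z w) = gg (x.ev e) (y.ev e) (z.ev e) (w.ev e) := by
  unfold fg gg
  simp only [fval_append, fval_fsc, fval_fneg, fval_fmul (LOK_fJ _ _ _), fval_fJ]
  push_cast
  abel

lemma LOK_fh (x y z v w : Tr) (h1 : QOK e Q x v) (h2 : QOK e Q y v) (h3 : QOK e Q z v) :
    LOK e Q (fh x y z v w) :=
  LOK_append (LOK_fmul (LOK_fg _ _ _ _) _) (LOK_fsc (LOK_append (LOK_fq (LOK_fJ _ _ _) _ _ h1)
    (LOK_append (LOK_fq (LOK_fJ _ _ _) _ _ h2) (LOK_fq (LOK_fJ _ _ _) _ _ h3))) _)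

lemma fval_fh (x y z v w : Tr) :
    fval e Q (fh x y z v w) = hh Q (x.ev e) (y.ev e) (z.ev e) (v.ev e) (w.ev e) := by
  unfold fh hh
  simp only [fval_append, fval_fsc, fval_fneg, fval_fmul (LOK_fg _ _ _ _), fval_fJ, fval_fg,
    fval_fq]
  push_cast
  rw [add_assoc (Q (x.ev e) (v.ev e) _)]

lemma LOK_fB (x y z v w u : Tr) (h1 : QOK e Q x v) (h2 : QOK e Q y v) (h3 : QOK e Q z v)
    (h4 : QOK e Q (m x y) z) (h5 : QOK e Q v u) (h6 : QOK e Q w u) :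
    LOK e Q (fB x y z v w u) :=
  LOK_append (LOK_fmul (LOK_fh _ _ _ _ _ h1 h2 h3) _) (LOK_append (LOK_fneg (LOK_fsc
    (LOK_fq (LOK_fJ _ _ _) _ _ h4) _)) (LOK_append (LOK_fneg (LOK_fq (LOK_fg _ _ _ _) _ _ h5))
      (LOK_fq (LOK_fg _ _ _ _) _ _ h6)))

lemma fval_fB (x y z v w u : Tr) (h1 : QOK e Q x v) (h2 : QOK e Q y v) (h3 : QOK e Q z v) :
    fval e Q (fB x y z v w u) = BB Q (x.ev e) (y.ev e) (z.ev e) (v.ev e) (w.ev e) (u.ev e) := by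
  unfold fB BB
  simp only [fval_append, fval_fsc, fval_fneg, fval_fmul (LOK_fh _ _ _ _ _ h1 h2 h3), fval_fJ,
    fval_fg, fval_fh, fval_fq, Tr.ev]
  push_cast
  abel

lemma LOK_fM (l : List Tm) (hl : LOK e Q l) (p r v w : Tr) (h1 : QOK e Q p v) (h2 : QOK e Q r w)
    (h3 : QOK e Q p w) (h4 : QOK e Q r v) : LOK e Q (fM l p r v w) :=
  LOK_append (LOK_fq (LOK_fq hl _ _ h1) _ _ h2) (LOK_fneg (LOK_fq (LOK_fq hl _ _ h3) _ _ h4))

lemma fval_fM (l : List Tm) (p r v w : Tr) :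
    fval e Q (fM l p r v w) = MM Q (fval e Q l) (p.ev e) (r.ev e) (v.ev e) (w.ev e) := by
  unfold fM MM
  simp only [fval_append, fval_fneg, fval_fq]
  abel

/-- all `Q` for letters among a set -/
structure AllQ (e : ℕ → A) (Q : A → A → (A →ₗ[ℚ] A)) : Prop where
  q : ∀ i j : ℕ, i < 4 → j < 4 → IsQ (e i) (e j) (Q (e i) (e j))
  t : ∀ i j k : ℕ, i < 4 → j < 4 → k < 4 → IsQ (e i * e j) (e k) (Q (e i * e j) (e k))

/-- a letter `< 4` -/
def L4 (t : Tr) : Prop := ∃ i < 4, t = v i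

lemma AllQ.qok (h : AllQ e Q) {t u : Tr} (ht : L4 t) (hu : L4 u) : QOK e Q t u := by
  obtain ⟨i, hi, rfl⟩ := ht
  obtain ⟨j, hj, rfl⟩ := hu
  exact h.q i j hi hj

lemma AllQ.tok (h : AllQ e Q) {t u w : Tr} (ht : L4 t) (hu : L4 u) (hw : L4 w) :
    QOK e Q (m t u) w := by
  obtain ⟨i, hi, rfl⟩ := ht
  obtain ⟨j, hj, rfl⟩ := hu
  obtain ⟨k, hk, rfl⟩ := hw
  exact h.t i j k hi hj hk

section allq
variable (H : AllQ e Q)
include H

lemma LOK_fh' {x y z v w : Tr} (hx : L4 x) (hy : L4 y) (hz : L4 z) (hv : L4 v) :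
    LOK e Q (fh x y z v w) :=
  LOK_fh _ _ _ _ _ (H.qok hx hv) (H.qok hy hv) (H.qok hz hv)

lemma LOK_fB' {x y z v w u : Tr} (hx : L4 x) (hy : L4 y) (hz : L4 z) (hv : L4 v) (hw : L4 w)
    (hu : L4 u) : LOK e Q (fB x y z v w u) :=
  LOK_fB _ _ _ _ _ _ (H.qok hx hv) (H.qok hy hv) (H.qok hz hv) (H.tok hx hy hz) (H.qok hv hu)
    (H.qok hw hu)

lemma fval_fB' {x y z v w u : Tr} (hx : L4 x) (hy : L4 y) (hz : L4 z) (hv : L4 v) :
    fval e Q (fB x y z v w u) = BB Q (x.ev e) (y.ev e) (z.ev e) (v.ev e) (w.ev e) (u.ev e) :=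
  fval_fB _ _ _ _ _ _ (H.qok hx hv) (H.qok hy hv) (H.qok hz hv)

lemma LOK_fM' {l : List Tm} (hl : LOK e Q l) {p r v w : Tr} (hp : L4 p) (hr : L4 r) (hv : L4 v)
    (hw : L4 w) : LOK e Q (fM l p r v w) :=
  LOK_fM _ hl _ _ _ _ (H.qok hp hv) (H.qok hr hw) (H.qok hp hw) (H.qok hr hv)

lemma LOK_fC {x y z u v w n : Tr} (hx : L4 x) (hy : L4 y) (hz : L4 z) (hu : L4 u) (hv : L4 v)
    (hw : L4 w) : LOK e Q (fC x y z u v w n) := by
  unfold fC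
  refine LOK_append (LOK_fmul (LOK_fB' H hx hy hz hv hw hu) _) (LOK_fsc ?_ _)
  refine LOK_append (LOK_fM' H (LOK_fJ _ _ _) hx hy hv hw) (LOK_append (LOK_fM' H (LOK_fJ _ _ _)
    hy hz hv hw) (LOK_append (LOK_fM' H (LOK_fJ _ _ _) hz hx hv hw) (LOK_append
    (LOK_fM' H (LOK_fJ _ _ _) hx hu hv hw) (LOK_append (LOK_fM' H (LOK_fJ _ _ _) hy hu hv hw)
    (LOK_fM' H (LOK_fJ _ _ _) hz hu hv hw)))))

lemma fval_fC {x y z u v w n : Tr} (hx : L4 x) (hy : L4 y) (hz : L4 z) (hu : L4 u) (hv : L4 v)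
    (hw : L4 w) : fval e Q (fC x y z u v w n)
      = CC Q (x.ev e) (y.ev e) (z.ev e) (u.ev e) (v.ev e) (w.ev e) (n.ev e) := by
  unfold fC CC
  simp only [fval_append, fval_fsc, fval_fmul (LOK_fB' H hx hy hz hv hw hu),
    fval_fB' H hx hy hz hv, fval_fM, fval_fJ]
  push_cast
  congr 2
  abel

lemma LOK_fK {p r l n w : Tr} (hp : L4 p) (hr : L4 r) (hl : L4 l) (hn : L4 n) (hw : L4 w) :
    LOK e Q (fK p r l n w) := by
  unfold fK fKh
  refine LOK_append (LOK_append (LOK_fq (LOK_fg _ _ _ _) _ _ (H.tok hp hr hl)) (LOK_fneg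
    (LOK_append (LOK_fq (LOK_fh' H hp hr hn hr) _ _ (H.qok hp hw)) (LOK_append
    (LOK_fq (LOK_fh' H hp hr hn hl) _ _ (H.qok hr hw))
    (LOK_fq (LOK_fh' H hp hr hn hp) _ _ (H.qok hl hw)))))) (LOK_fneg ?_)
  exact LOK_append (LOK_fq (LOK_fg _ _ _ _) _ _ (H.tok hp hr hn)) (LOK_fneg
    (LOK_append (LOK_fq (LOK_fh' H hp hr hl hr) _ _ (H.qok hp hw)) (LOK_append
    (LOK_fq (LOK_fh' H hp hr hl hn) _ _ (H.qok hr hw))
    (LOK_fq (LOK_fh' H hp hr hl hp) _ _ (H.qok hn hw)))))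

omit H in
lemma fval_fK (p r l n w : Tr) : fval e Q (fK p r l n w)
      = KK Q (p.ev e) (r.ev e) (l.ev e) (n.ev e) (w.ev e) := by
  unfold fK fKh KK KKh
  simp only [fval_append, fval_fneg, fval_fq, fval_fg, fval_fh, Tr.ev]
  abel

end allq

end Pool.Agent.H1.Mal
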