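import Pool.Agent.H1.Mal.Defs

/-!
# Quotients by ideals and the free Malcev algebra
-/

set_option autoImplicit false
set_option linter.unusedSectionVars false
set_option linter.unusedSimpArgs false

namespace Pool.Agent.H1.Mal

/-- Two-sided ideals of nonassociative algebras. -/
structure Idl (A : Type) [NonUnitalNonAssocRing A] [Module ℚ A] extends Submodule ℚ A where
  mul_left : ∀ a b : A, b ∈ carrier → a * b ∈ carrier
  mul_right : ∀ a b : A, a ∈ carrier → a * b ∈ carrier

section Quo

variable {A : Type} [NonUnitalNonAssocRing A] [Module ℚ A] [IsScalarTower ℚ A A]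
  [SMulCommClass ℚ A A]

/-- Quotient algebra. -/
def Idl.Quo (I : Idl A) : Type := A ⧸ I.toSubmodule

variable (I : Idl A)

instance : AddCommGroup I.Quo := inferInstanceAs (AddCommGroup (A ⧸ I.toSubmodule))
instance : Module ℚ I.Quo := inferInstanceAs (Module ℚ (A ⧸ I.toSubmodule))

/-- the quotient map -/
def Idl.pr : A →ₗ[ℚ] I.Quo := Submodule.mkQ I.toSubmodule

lemma Idl.pr_surj : Function.Surjective I.pr := Submodule.mkQ_surjective _

lemma Idl.pr_eq_zero {a : A} : I.pr a = 0 ↔ a ∈ I.toSubmodule :=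
  Submodule.Quotient.mk_eq_zero _

lemma Idl.pr_eq {a b : A} : I.pr a = I.pr b ↔ a - b ∈ I.toSubmodule :=
  Submodule.Quotient.eq _

def Idl.qmul : I.Quo → I.Quo → I.Quo :=
  Quotient.map₂ (fun a b : A => a * b) (by
    intro a a' h b b' h'
    have h1 : a - a' ∈ I.toSubmodule := by
      have := (Submodule.quotientRel_def I.toSubmodule).1 h; exact this
    have h2 : b - b' ∈ I.toSubmodule := by
      have := (Submodule.quotientRel_def I.toSubmodule).1 h'; exact this
    refine (Submodule.quotientRel_def I.toSubmodule).2 ?_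
    have h3 : a * b - a' * b' = (a - a') * b + a' * (b - b') := by
      rw [sub_mul, mul_sub]; abel
    rw [h3]
    exact Submodule.add_mem _ (I.mul_right _ _ h1) (I.mul_left _ _ h2))

instance : Mul I.Quo := ⟨I.qmul⟩

lemma Idl.pr_mul (a b : A) : I.pr (a * b) = I.pr a * I.pr b := rfl

instance : NonUnitalNonAssocRing I.Quo :=
  { (inferInstance : AddCommGroup I.Quo), (inferInstance : Mul I.Quo) with
    left_distrib := by
      intro a b c
      obtain ⟨a, rfl⟩ := I.pr_surj a
      obtain ⟨b, rfl⟩ := I.pr_surj b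
      obtain ⟨c, rfl⟩ := I.pr_surj c
      rw [← map_add, ← I.pr_mul, ← I.pr_mul, ← I.pr_mul, mul_add, map_add]
    right_distrib := by
      intro a b c
      obtain ⟨a, rfl⟩ := I.pr_surj a
      obtain ⟨b, rfl⟩ := I.pr_surj b
      obtain ⟨c, rfl⟩ := I.pr_surj c
      rw [← map_add, ← I.pr_mul, ← I.pr_mul, ← I.pr_mul, add_mul, map_add]
    zero_mul := by
      intro a
      obtain ⟨a, rfl⟩ := I.pr_surj a
      rw [← map_zero I.pr, ← I.pr_mul, zero_mul]
    mul_zero := by
      intro a
      obtain ⟨a, rfl⟩ := I.pr_surj a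
      rw [← map_zero I.pr, ← I.pr_mul, mul_zero] }

instance : IsScalarTower ℚ I.Quo I.Quo := ⟨by
  intro c a b
  obtain ⟨a, rfl⟩ := I.pr_surj a
  obtain ⟨b, rfl⟩ := I.pr_surj b
  rw [smul_eq_mul, smul_eq_mul, ← map_smul, ← I.pr_mul, ← I.pr_mul, ← map_smul, smul_mul_assoc]⟩

instance : SMulCommClass ℚ I.Quo I.Quo := ⟨by
  intro c a b
  obtain ⟨a, rfl⟩ := I.pr_surj a
  obtain ⟨b, rfl⟩ := I.pr_surj b
  rw [smul_eq_mul, smul_eq_mul, ← map_smul, ← I.pr_mul, ← I.pr_mul, ← map_smul, mul_smul_comm]⟩

/-- the quotient map as an algebra homomorphism -/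
def Idl.prH : A →ₙₐ[ℚ] I.Quo :=
  { I.pr with
    map_smul' := fun c a => I.pr.map_smul c a
    map_zero' := I.pr.map_zero
    map_add' := I.pr.map_add
    map_mul' := I.pr_mul }

lemma Idl.prH_apply (a : A) : I.prH a = I.pr a := rfl

lemma map_J {A B : Type} [NonUnitalNonAssocRing A] [NonUnitalNonAssocRing B]
    [Module ℚ A] [Module ℚ B] (f : A →ₙₐ[ℚ] B) (x y z : A) : f (J x y z) = J (f x) (f y) (f z) := by
  simp only [J, map_add, map_mul]

end Quo

/-- The free nonassociative algebra. -/
abbrev FA (X : Type) : Type := MonoidAlgebra ℚ (FreeMagma X)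

/-- Malcev ideals: quotient is a Malcev algebra. -/
def MalIdl {A : Type} [NonUnitalNonAssocRing A] [Module ℚ A] (I : Idl A) : Prop :=
  (∀ x : A, x * x ∈ I.carrier) ∧ ∀ x y z : A, J x y (x * z) - J x y z * x ∈ I.carrier

/-- The smallest Malcev ideal. -/
def malI (X : Type) : Idl (FA X) where
  carrier := {a | ∀ I : Idl (FA X), MalIdl I → a ∈ I.carrier}
  add_mem' := fun ha hb I hI => I.add_mem' (ha I hI) (hb I hI)
  zero_mem' := fun I _ => I.zero_mem'
  smul_mem' := fun c _ ha I hI => I.smul_mem' c (ha I hI)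
  mul_left := fun a _ hb I hI => I.mul_left a _ (hb I hI)
  mul_right := fun _ b ha I hI => I.mul_right _ b (ha I hI)

/-- The free Malcev algebra. -/
abbrev FMal (X : Type) : Type := (malI X).Quo

instance (X : Type) : IsMal (FMal X) where
  sq := by
    intro x
    obtain ⟨x, rfl⟩ := (malI X).pr_surj x
    rw [← Idl.pr_mul, Idl.pr_eq_zero]
    exact fun I hI => hI.1 x
  mal := by
    intro x y z
    obtain ⟨x, rfl⟩ := (malI X).pr_surj x
    obtain ⟨y, rfl⟩ := (malI X).pr_surj y
    obtain ⟨z, rfl⟩ := (malI X).pr_surj z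
    rw [← Idl.prH_apply, ← Idl.prH_apply, ← Idl.prH_apply, ← map_mul, ← map_J, ← map_J, ← map_mul,
      Idl.prH_apply, Idl.prH_apply, Idl.pr_eq]
    exact fun I hI => hI.2 x y z

/-- monomials -/
noncomputable def mon {X : Type} (w : FreeMagma X) : FMal X :=
  (malI X).pr (MonoidAlgebra.single w (1 : ℚ))

/-- generators -/
noncomputable def gen {X : Type} (x : X) : FMal X := mon (FreeMagma.of x)

lemma mon_of {X : Type} (x : X) : mon (FreeMagma.of x) = gen x := rfl

lemma mon_mul {X : Type} (a b : FreeMagma X) : mon (a * b) = mon a * mon b := by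
  unfold mon
  rw [← Idl.pr_mul, MonoidAlgebra.single_mul_single, one_mul]

lemma span_mon (X : Type) : Submodule.span ℚ (Set.range (mon : FreeMagma X → FMal X)) = ⊤ := by
  rw [eq_top_iff]
  rintro x -
  obtain ⟨x, rfl⟩ := (malI X).pr_surj x
  induction x using MonoidAlgebra.induction_linear with
  | zero => rw [map_zero]; exact Submodule.zero_mem _
  | add f g hf hg => rw [map_add]; exact Submodule.add_mem _ hf hg
  | single a b =>
    have : MonoidAlgebra.single a b = b • MonoidAlgebra.single a (1 : ℚ) := by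
      rw [MonoidAlgebra.smul_single, smul_eq_mul, mul_one]
    rw [this, map_smul]
    exact Submodule.smul_mem _ _ (Submodule.subset_span ⟨a, rfl⟩)

/-- linear induction on the free Malcev algebra -/
lemma FMal.ind {X : Type} {P : FMal X → Prop} (hmon : ∀ w, P (mon w)) (hzero : P 0)
    (hadd : ∀ x y, P x → P y → P (x + y)) (hsmul : ∀ (c : ℚ) x, P x → P (c • x)) (x : FMal X) :
    P x := by
  have hx : x ∈ Submodule.span ℚ (Set.range (mon : FreeMagma X → FMal X)) := by
    rw [span_mon]; trivial
  induction hx using Submodule.span_induction with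
  | mem x h => obtain ⟨w, rfl⟩ := h; exact hmon w
  | zero => exact hzero
  | add x y _ _ hx hy => exact hadd x y hx hy
  | smul c x _ hx => exact hsmul c x hx

section lift
variable {X : Type} {B : Type} [NonUnitalNonAssocRing B] [Module ℚ B] [IsScalarTower ℚ B B]
  [SMulCommClass ℚ B B] [IsMal B]

/-- kernel of a homomorphism as an ideal -/
def kerI {A : Type} [NonUnitalNonAssocRing A] [Module ℚ A] {B : Type} [NonUnitalNonAssocRing B]
    [Module ℚ B] (f : A →ₙₐ[ℚ] B) : Idl A where
  carrier := {a | f a = 0}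
  add_mem' := fun {a b} ha hb => by
    show f (a + b) = 0
    rw [map_add, show f a = 0 from ha, show f b = 0 from hb, add_zero]
  zero_mem' := map_zero f
  smul_mem' := fun c a ha => by
    show f (c • a) = 0
    rw [map_smul, show f a = 0 from ha, smul_zero]
  mul_left := fun a b hb => by
    show f (a * b) = 0
    rw [map_mul, show f b = 0 from hb, mul_zero]
  mul_right := fun a b ha => by
    show f (a * b) = 0
    rw [map_mul, show f a = 0 from ha, zero_mul]

lemma malIdl_kerI {A : Type} [NonUnitalNonAssocRing A] [Module ℚ A] [IsScalarTower ℚ A A]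
    [SMulCommClass ℚ A A] (f : A →ₙₐ[ℚ] B) : MalIdl (kerI f) := by
  constructor
  · intro x
    show f (x * x) = 0
    rw [map_mul, mul_self']
  · intro x y z
    show f (J x y (x * z) - J x y z * x) = 0
    rw [map_sub, map_mul, map_J, map_J, map_mul, IsMal.mal, sub_self]

/-- the homomorphism on the free nonassociative algebra -/
noncomputable def liftA (g : X → B) : FA X →ₙₐ[ℚ] B :=
  MonoidAlgebra.liftMagma ℚ (FreeMagma.lift g)

lemma malI_le (g : X → B) : (malI X).toSubmodule ≤ LinearMap.ker (liftA g : FA X →ₗ[ℚ] B) := by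
  intro a ha
  exact ha (kerI (liftA g)) (malIdl_kerI (liftA g))

/-- linear version of the lift -/
noncomputable def liftL (g : X → B) : FMal X →ₗ[ℚ] B :=
  Submodule.liftQ (malI X).toSubmodule (liftA g : FA X →ₗ[ℚ] B) (malI_le g)

/-- universal property -/
noncomputable def lift (g : X → B) : FMal X →ₙₐ[ℚ] B :=
  { toFun := liftL g
    map_smul' := fun c a => (liftL g).map_smul c a
    map_zero' := (liftL g).map_zero
    map_add' := (liftL g).map_add
    map_mul' := by
      intro a b
      obtain ⟨a, rfl⟩ := (malI X).pr_surj a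
      obtain ⟨b, rfl⟩ := (malI X).pr_surj b
      exact map_mul (liftA g) a b }

lemma lift_pr (g : X → B) (a : FA X) : lift g ((malI X).pr a) = liftA g a := rfl

lemma lift_mon (g : X → B) (w : FreeMagma X) : lift g (mon w) = FreeMagma.lift g w := by
  unfold mon
  rw [lift_pr, liftA, MonoidAlgebra.liftMagma_apply_apply]
  simp

lemma lift_gen (g : X → B) (x : X) : lift g (gen x) = g x := by
  rw [← mon_of, lift_mon, FreeMagma.lift_of]

end lift

end Pool.Agent.H1.Mal
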