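import Pool.Agent.H1.Mal.O7E
import Pool.Agent.H1.Mal.Ext

/-!
# Identities of three-generated Malcev algebras: the cross product algebra and Lie algebras
-/

set_option autoImplicit false
set_option linter.unusedSectionVars false
set_option linter.unusedSimpArgs false
set_option linter.unusedVariables false

namespace Pool.Agent.H1.Mal

open MvPolynomial

/-- `f` is an identity of all Malcev algebras generated by `k` elements -/
def IdG (k : ℕ) (f : FA ℕ) : Prop :=
  ∀ (A : Type) [NonUnitalNonAssocRing A] [Module ℚ A] [IsScalarTower ℚ A A]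
    [SMulCommClass ℚ A A] [IsMal A] (a : Fin k → A),
    NonUnitalAlgebra.adjoin ℚ (Set.range a) = ⊤ → ∀ v : ℕ → A, liftA v f = 0

/-! ### naturality -/

lemma liftA_single {X A : Type} [NonUnitalNonAssocRing A] [Module ℚ A] [IsScalarTower ℚ A A]
    [SMulCommClass ℚ A A] (v : X → A) (w : FreeMagma X) :
    liftA v (MonoidAlgebra.single w (1 : ℚ)) = FreeMagma.lift v w := by
  rw [liftA, MonoidAlgebra.liftMagma_apply_apply]
  simp

lemma liftA_nat {X A B : Type} [NonUnitalNonAssocRing A] [Module ℚ A] [IsScalarTower ℚ A A]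
    [SMulCommClass ℚ A A] [NonUnitalNonAssocRing B] [Module ℚ B] [IsScalarTower ℚ B B]
    [SMulCommClass ℚ B B] (φ : A →ₙₐ[ℚ] B) (v : X → A) (f : FA X) :
    φ (liftA v f) = liftA (fun x => φ (v x)) f := by
  have h : φ.comp (liftA v) = liftA (fun x => φ (v x)) := by
    refine MonoidAlgebra.nonUnitalAlgHom_ext ℚ fun w => ?_
    show φ (liftA v (MonoidAlgebra.single w 1)) = _
    rw [liftA_single, liftA_single]
    induction w using FreeMagma.recOnMul with
    | ih1 x => rw [FreeMagma.lift_of, FreeMagma.lift_of]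
    | ih2 a b ha hb => rw [map_mul, map_mul, map_mul, ha, hb]
  rw [← h]; rfl

/-! ### the cross product algebra is generated by three elements -/

/-- unit vectors -/
def ee (k : Fin 7) : O7 ℚ := fun j => if j = k then 1 else 0

lemma ee_mul (a b c : Fin 7) (h : ∀ k : Fin 7,
    (if k + 1 = a then (1 : ℤ) else 0) * (if k + 3 = b then 1 else 0)
    - (if k + 3 = a then 1 else 0) * (if k + 1 = b then 1 else 0)
    + ((if k + 2 = a then 1 else 0) * (if k + 6 = b then 1 else 0)
    - (if k + 6 = a then 1 else 0) * (if k + 2 = b then 1 else 0))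
    + ((if k + 4 = a then 1 else 0) * (if k + 5 = b then 1 else 0)
    - (if k + 5 = a then 1 else 0) * (if k + 4 = b then 1 else 0))
    = if k = c then 1 else 0) : ee a * ee b = ee c := by
  apply O7.ext; intro k
  rw [O7.mul_app]
  have h2 : (((if k + 1 = a then (1 : ℤ) else 0) * (if k + 3 = b then 1 else 0)
    - (if k + 3 = a then 1 else 0) * (if k + 1 = b then 1 else 0)
    + ((if k + 2 = a then 1 else 0) * (if k + 6 = b then 1 else 0)
    - (if k + 6 = a then 1 else 0) * (if k + 2 = b then 1 else 0))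
    + ((if k + 4 = a then 1 else 0) * (if k + 5 = b then 1 else 0)
    - (if k + 5 = a then 1 else 0) * (if k + 4 = b then 1 else 0)) : ℤ) : ℚ)
    = ((if k = c then (1 : ℤ) else 0 : ℤ) : ℚ) := congrArg _ (h k)
  push_cast at h2
  exact h2

def ge3 : Fin 3 → O7 ℚ := ![ee 0, ee 1, ee 2]

lemma ee_mem (k : Fin 7) : ee k ∈ NonUnitalAlgebra.adjoin ℚ (Set.range ge3) := by
  have h0 : ee 0 ∈ NonUnitalAlgebra.adjoin ℚ (Set.range ge3) :=
    NonUnitalAlgebra.subset_adjoin ℚ ⟨0, rfl⟩
  have h1 : ee 1 ∈ NonUnitalAlgebra.adjoin ℚ (Set.range ge3) :=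
    NonUnitalAlgebra.subset_adjoin ℚ ⟨1, rfl⟩
  have h2 : ee 2 ∈ NonUnitalAlgebra.adjoin ℚ (Set.range ge3) :=
    NonUnitalAlgebra.subset_adjoin ℚ ⟨2, rfl⟩
  have h3 : ee 3 ∈ NonUnitalAlgebra.adjoin ℚ (Set.range ge3) := by
    rw [← ee_mul 0 1 3 (by decide)]; exact mul_mem h0 h1
  have h4 : ee 4 ∈ NonUnitalAlgebra.adjoin ℚ (Set.range ge3) := by
    rw [← ee_mul 1 2 4 (by decide)]; exact mul_mem h1 h2
  have h5 : ee 5 ∈ NonUnitalAlgebra.adjoin ℚ (Set.range ge3) := by
    rw [← ee_mul 2 3 5 (by decide)]; exact mul_mem h2 h3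
  have h6 : ee 6 ∈ NonUnitalAlgebra.adjoin ℚ (Set.range ge3) := by
    rw [← ee_mul 0 2 6 (by decide)]; exact mul_mem h0 h2
  fin_cases k
  exacts [h0, h1, h2, h3, h4, h5, h6]

lemma ge3_gen : NonUnitalAlgebra.adjoin ℚ (Set.range ge3) = ⊤ := by
  rw [eq_top_iff]
  intro x _
  have hx : x = ∑ k, x k • ee k := by
    have h : ∀ j, (∑ k, x k • ee k : O7 ℚ) j = ∑ k, (x k • ee k) j := by
      intro j
      exact Finset.sum_apply j Finset.univ (fun k => (x k • ee k : Fin 7 → ℚ))
    apply O7.ext; intro j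
    rw [h, Finset.sum_eq_single j]
    · show x j = x j * (if j = j then 1 else 0)
      rw [if_pos rfl, mul_one]
    · intro k _ hk
      show x k * (if j = k then 1 else 0) = 0
      rw [if_neg (Ne.symm hk), mul_zero]
    · intro h; exact absurd (Finset.mem_univ j) h
  rw [hx]
  exact sum_mem fun k _ => SMulMemClass.smul_mem _ (ee_mem k)

/-! ### functoriality -/

section functor
variable {R S : Type} [CommRing R] [CommRing S] [Algebra ℚ R] [Algebra ℚ S]

/-- change of scalars -/
def O7map (φ : R →ₐ[ℚ] S) : O7 R →ₙₐ[ℚ] O7 S where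
  toFun x k := φ (x k)
  map_smul' c x := by
    apply O7.ext; intro k
    exact map_smul φ c (x k)
  map_zero' := by
    apply O7.ext; intro k
    exact map_zero φ
  map_add' x y := by
    apply O7.ext; intro k
    exact map_add φ _ _
  map_mul' x y := by
    apply O7.ext; intro k
    show φ ((x * y) k) = _
    rw [O7.mul_app]
    simp only [map_add, map_sub, map_mul]
    rfl

lemma O7map_apply (φ : R →ₐ[ℚ] S) (x : O7 R) (k : Fin 7) : O7map φ x k = φ (x k) := rfl

end functor

/-- the ring of generic coordinates -/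
abbrev PG : Type := MvPolynomial (ℕ × Fin 7) ℚ

noncomputable def gel (n : ℕ) : O7 PG := fun k => X (n, k)

/-- part (a) -/
theorem O7_zero {f : FA ℕ} (hf : IdG 3 f) (w : ℕ → O7 ℂ) : liftA w f = 0 := by
  have hQ : ∀ v : ℕ → O7 ℚ, liftA v f = 0 := hf (O7 ℚ) ge3 ge3_gen
  have hG : liftA gel f = 0 := by
    apply O7.ext; intro k
    show (liftA gel f : O7 PG) k = 0
    refine MvPolynomial.funext fun v => ?_
    have h1 := liftA_nat (O7map (aeval v : PG →ₐ[ℚ] ℚ)) gel f
    have h2 : liftA (fun n => O7map (aeval v : PG →ₐ[ℚ] ℚ) (gel n)) f = 0 := hQ _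
    rw [h2] at h1
    have h3 := congrFun h1 k
    rw [map_zero]
    have h4 : (aeval v : PG →ₐ[ℚ] ℚ) ((liftA gel f : O7 PG) k) = 0 := h3
    rw [← h4, aeval_def, eval, coe_eval₂Hom]; rfl
  let φ : PG →ₐ[ℚ] ℂ := aeval (fun p : ℕ × Fin 7 => w p.1 p.2)
  have h1 := liftA_nat (O7map φ) gel f
  rw [hG, map_zero] at h1
  have h2 : (fun n => O7map φ (gel n)) = w := by
    funext n
    apply O7.ext; intro k
    rw [O7map_apply]
    exact aeval_X _ _
  rw [h2] at h1
  exact h1.symm

end Pool.Agent.H1.Mal
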