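import Pool.Agent.H1.Mal.Formal2
import Pool.Agent.H1.Mal.Cert.H4
import Pool.Agent.H1.Mal.Cert.F1
import Pool.Agent.H1.Mal.Cert.H3
import Pool.Agent.H1.Mal.Cert.H1
import Pool.Agent.H1.Mal.Cert.H2
import Pool.Agent.H1.Mal.Cert.K1
import Pool.Agent.H1.Mal.Cert.Comm
import Pool.Agent.H1.Mal.Cert.B2
import Pool.Agent.H1.Mal.Cert.c11

/-!
# Identities of Malcev algebras
-/

set_option autoImplicit false
set_option linter.unusedSectionVars false
set_option linter.unusedSimpArgs false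

namespace Pool.Agent.H1.Mal

variable {A : Type} [NonUnitalNonAssocRing A] [Module ℚ A] [IsScalarTower ℚ A A]
  [SMulCommClass ℚ A A] [IsMal A]

lemma fval_of_check {F g : ℕ} {D : ℕ} {l : List Tm} {c : List Ce} (e : ℕ → A)
    (Q : A → A → (A →ₗ[ℚ] A)) (hD : D ≠ 0)
    (h : check F g (fsc D l) c = true) (hl : LOK e Q l) : fval e Q l = 0 := by
  have h1 := check_sound e Q F g _ _ h (LOK_fsc hl D)
  rw [fval_fsc] at h1
  exact (smul_eq_zero.1 h1).resolve_left (by exact_mod_cast hD)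

/-- zero operators -/
def Q0 : A → A → (A →ₗ[ℚ] A) := fun _ _ => 0

lemma LOK_Q0 {e : ℕ → A} {l : List Tm} (h : ∀ t ∈ l, ∃ p n a b d ops, t = Tm.mk p n [] a b d ops) :
    LOK e Q0 l := by
  intro t ht
  obtain ⟨p, n, a, b, d, ops, rfl⟩ := h t ht
  intro tu htu; cases htu

theorem H4_id (t x y z : A) : E2 t t x y (x * z) = G2 t t (J x y z) x := by
  have h := fval_of_check (env [x, y, z, t]) Q0 (by norm_num) chk_H4 (by
    refine LOK_append (LOK_fE _ _ _ _ _) (LOK_fneg (LOK_fsc (LOK_fG (LOK_fJ _ _ _) _ _ _) _)))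
  simp only [tgt_H4, fval_append, fval_fneg, fval_fsc, fval_fG (LOK_fJ _ _ _), fval_fE, fval_fJ,
    Tr.ev] at h
  simp only [env, List.getD_cons_zero, List.getD_cons_succ] at h
  push_cast at h
  linear_combination (norm := module) (1/18 : ℚ) • h

theorem F1_id (t x y z : A) : E2 t t x y (x * z) = E2 t t x y z * x := by
  have h := fval_of_check (env [x, y, z, t]) Q0 (by norm_num) chk_F1 (by
    refine LOK_append (LOK_fE _ _ _ _ _) (LOK_fneg (LOK_fmul (LOK_fE _ _ _ _ _) _)))
  simp only [tgt_F1, fval_append, fval_fneg, fval_fmul (LOK_fE _ _ _ _ _), fval_fE, Tr.ev] at h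
  simp only [env, List.getD_cons_zero, List.getD_cons_succ, smul_mul_assoc] at h
  linear_combination (norm := module) (1/18 : ℚ) • h

theorem H3_id (t x y z w : A) :
    E2 t t (x * y) z w + E2 t t (y * z) x w + E2 t t (z * x) y w
      - E2 t t x y (w * z) - E2 t t y z (w * x) - E2 t t z x (w * y)
      = G2 t t (J x y z) w - G2 t t (J w y z) x - G2 t t (J w z x) y - G2 t t (J w x y) z := by
  have h := fval_of_check (env [x, y, z, t, w]) Q0 (by norm_num) chk_H3 (by
    repeat' (first | exact LOK_fE _ _ _ _ _ | exact LOK_fsc (LOK_fG (LOK_fJ _ _ _) _ _ _) _ |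
      refine LOK_append ?_ ?_ | refine LOK_fneg ?_))
  simp only [tgt_H3, fval_append, fval_fneg, fval_fsc, fval_fG (LOK_fJ _ _ _), fval_fE, fval_fJ,
    Tr.ev] at h
  simp only [env, List.getD_cons_zero, List.getD_cons_succ] at h
  push_cast at h
  linear_combination (norm := module) (1/18 : ℚ) • h

/-- the coboundary of `E2 t t` -/
def Lam (t u x y z w : A) : A :=
  E2 t u (x * y) z w + E2 t u (y * z) x w + E2 t u (z * x) y w
      - E2 t u x y (w * z) - E2 t u y z (w * x) - E2 t u z x (w * y)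

theorem H1_id (t x y z w : A) :
    Lam t t x y (x * z) w + Lam t t x y z (w * x)
      = E2 t t (J x y z) x w + E2 t t x z (J w x y) := by
  have h := fval_of_check (env [x, y, z, t, w]) Q0 (by norm_num) chk_H1 (by
    repeat' (first | exact LOK_fE _ _ _ _ _ | refine LOK_append ?_ ?_ | refine LOK_fneg ?_))
  simp only [tgt_H1, fval_append, fval_fneg, fval_fE, Tr.ev] at h
  simp only [env, List.getD_cons_zero, List.getD_cons_succ] at h
  have h1 : E2 t t (J x y z) x w = E2 t t (x * y * z) x w + E2 t t (y * z * x) x w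
      + E2 t t (z * x * y) x w := by rw [J, E2_add_left, E2_add_left]
  have h2 : E2 t t x z (J w x y) = E2 t t x z (w * x * y) + E2 t t x z (x * y * w)
      + E2 t t x z (y * w * x) := by rw [J, E2_add_right, E2_add_right]
  rw [h1, h2, Lam, Lam]
  linear_combination (norm := module) (1/18 : ℚ) • h

theorem H2_id (t a b c y z : A) :
    E2 t t (J a b c) y z = G2 t t (J a b c * y) z - G2 t t (J a b c) (y * z)
      - G2 t t (J a b c * z) y := by
  have h := fval_of_check (env [a, b, c, y, z, t]) Q0 (by norm_num) chk_H2 (by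
    repeat' (first | exact LOK_fE _ _ _ _ _ |
      exact LOK_fsc (LOK_fG (LOK_fJ _ _ _) _ _ _) _ |
      exact LOK_fsc (LOK_fG (LOK_fmul (LOK_fJ _ _ _) _) _ _ _) _ |
      refine LOK_append ?_ ?_ | refine LOK_fneg ?_))
  simp only [tgt_H2, fval_append, fval_fneg, fval_fsc, fval_fG (LOK_fJ _ _ _),
    fval_fG (LOK_fmul (LOK_fJ _ _ _) _), fval_fmul (LOK_fJ _ _ _), fval_fE, fval_fJ,
    Tr.ev] at h
  simp only [env, List.getD_cons_zero, List.getD_cons_succ] at h
  push_cast at h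
  have h1 : E2 t t (J a b c) y z = E2 t t (a * b * c) y z + E2 t t (b * c * a) y z
      + E2 t t (c * a * b) y z := by rw [J, E2_add_left, E2_add_left]
  rw [h1]
  linear_combination (norm := module) (1/18 : ℚ) • h

/-- `k`, the obstruction to linearity -/
def kk (t u w x y z : A) : A := E2 t u x y z * w - G2 t u (J x y z) w

theorem K1_id (t u v y z : A) : kk t t (u * v) v y z + kk t t u v y z * v = 0 := by
  have h := fval_of_check (env [u, v, y, z, t]) Q0 (by norm_num) chk_K1 (by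
    refine LOK_append (LOK_fmul (LOK_fE _ _ _ _ _) _) (LOK_append (LOK_fneg (LOK_fsc
      (LOK_fG (LOK_fJ _ _ _) _ _ _) _)) (LOK_append (LOK_fmul (LOK_fmul (LOK_fE _ _ _ _ _) _) _)
      (LOK_fmul (LOK_fneg (LOK_fsc (LOK_fG (LOK_fJ _ _ _) _ _ _) _)) _))))
  simp only [tgt_K1, fval_append, fval_fneg, fval_fsc, fval_fG (LOK_fJ _ _ _),
    fval_fmul (LOK_fE _ _ _ _ _), fval_fmul (LOK_fmul (LOK_fE _ _ _ _ _) _),
    fval_fmul (LOK_fneg (LOK_fsc (LOK_fG (LOK_fJ _ _ _) _ _ _) _)), fval_fE, fval_fJ,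
    Tr.ev] at h
  simp only [env, List.getD_cons_zero, List.getD_cons_succ, smul_mul_assoc, neg_mul] at h
  push_cast at h
  rw [kk, kk]
  simp only [sub_mul]
  linear_combination (norm := module) (1/18 : ℚ) • h

theorem B2_id (t s x y z : A) : (2 : ℚ) • kk t s t x y z + kk t t s x y z = 0 := by
  have h := fval_of_check (env [t, s, x, y, z]) Q0 (by norm_num) chk_B2 (by
    refine LOK_append (LOK_fsc (LOK_fmul (LOK_fE _ _ _ _ _) _) _) (LOK_append (LOK_fsc (LOK_fneg
      (LOK_fsc (LOK_fG (LOK_fJ _ _ _) _ _ _) _)) _) (LOK_append (LOK_fmul (LOK_fE _ _ _ _ _) _)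
      (LOK_fneg (LOK_fsc (LOK_fG (LOK_fJ _ _ _) _ _ _) _)))))
  simp only [tgt_B2, fval_append, fval_fneg, fval_fsc, fval_fG (LOK_fJ _ _ _),
    fval_fmul (LOK_fE _ _ _ _ _), fval_fE, fval_fJ, Tr.ev] at h
  simp only [env, List.getD_cons_zero, List.getD_cons_succ, smul_mul_assoc] at h
  push_cast at h
  rw [kk, kk]
  linear_combination (norm := module) (1/18 : ℚ) • h

theorem c11_id (x y u v w : A) : (2 : ℚ) • E2 (x * y) y u v w + kk y y x u v w = 0 := by
  have h := fval_of_check (env [x, y, u, v, w]) Q0 (by norm_num) chk_c11 (by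
    refine LOK_append (LOK_fsc (LOK_fE _ _ _ _ _) _) (LOK_append (LOK_fmul (LOK_fE _ _ _ _ _) _)
      (LOK_fneg (LOK_fsc (LOK_fG (LOK_fJ _ _ _) _ _ _) _))))
  simp only [tgt_c11, fval_append, fval_fneg, fval_fsc, fval_fG (LOK_fJ _ _ _),
    fval_fmul (LOK_fE _ _ _ _ _), fval_fE, fval_fJ, Tr.ev] at h
  simp only [env, List.getD_cons_zero, List.getD_cons_succ, smul_mul_assoc] at h
  push_cast at h
  rw [kk]
  linear_combination (norm := module) (1/18 : ℚ) • h

/-- `-18 φ_u(E_{tt}(x,y,z))` -/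
def EEx (u t x y z : A) : A :=
  (10 : ℚ) • (E2 u u x y z * t * t) + ((2 : ℚ) • (E2 u u x y t * z * t)
    + (6 : ℚ) • (E2 u u x y t * t * z)) + ((2 : ℚ) • (E2 u u y z t * x * t)
    + (6 : ℚ) • (E2 u u y z t * t * x)) + ((2 : ℚ) • (E2 u u z x t * y * t)
    + (6 : ℚ) • (E2 u u z x t * t * y))

theorem Comm_id (x y z t u : A) : EEx u t x y z = EEx t u x y z := by
  have h2 : ∀ e : ℕ → A, ∀ a b c d f p q : Tr, LOK e Q0 (fmul (fmul (fE a b c d f) p) q) :=
    fun e a b c d f p q => LOK_fmul (LOK_fmul (LOK_fE _ _ _ _ _) _) _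
  have h := fval_of_check (env [x, y, z, t, u]) Q0 (by norm_num) chk_Comm (by
    repeat' (first | exact h2 _ _ _ _ _ _ _ _ | refine LOK_append ?_ ?_ | refine LOK_fneg ?_ |
      refine LOK_fsc ?_ _))
  simp only [tgt_Comm, fval_append, fval_fneg, fval_fsc,
    fval_fmul (LOK_fE _ _ _ _ _), fval_fmul (LOK_fmul (LOK_fE _ _ _ _ _) _), fval_fE, Tr.ev] at h
  simp only [env, List.getD_cons_zero, List.getD_cons_succ, smul_mul_assoc] at h
  push_cast at h
  rw [EEx, EEx]
  linear_combination (norm := module) (-1/18 : ℚ) • h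

end Pool.Agent.H1.Mal
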