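import Pool.Agent.H1.Mal.IdentB
import Pool.Agent.H1.Mal.Formal3
import Pool.Agent.H1.Mal.Cert.P1
import Pool.Agent.H1.Mal.Cert.P2
import Pool.Agent.H1.Mal.Cert.P3
import Pool.Agent.H1.Mal.Cert.P4
import Pool.Agent.H1.Mal.Cert.P5
import Pool.Agent.H1.Mal.Cert.F6_01
import Pool.Agent.H1.Mal.Cert.F6_12
import Pool.Agent.H1.Mal.Cert.F6_03
import Pool.Agent.H1.Mal.Cert.F6_13
import Pool.Agent.H1.Mal.Cert.F6s_01
import Pool.Agent.H1.Mal.Cert.F6s_03
import Pool.Agent.H1.Mal.Cert.F6s_12
import Pool.Agent.H1.Mal.Cert.F7B1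
import Pool.Agent.H1.Mal.Cert.F7B2
import Pool.Agent.H1.Mal.Cert.F7Ra
import Pool.Agent.H1.Mal.Cert.F7Rc
import Pool.Agent.H1.Mal.Cert.F8a
import Pool.Agent.H1.Mal.Cert.F8d

/-!
# The identities in four letters
-/

set_option autoImplicit false
set_option linter.unusedSectionVars false
set_option linter.unusedSimpArgs false

namespace Pool.Agent.H1.Mal

variable {A : Type} [NonUnitalNonAssocRing A] [Module ℚ A] [IsScalarTower ℚ A A]
  [SMulCommClass ℚ A A] [IsMal A]
variable {a b c d : A} {Q : A → A → (A →ₗ[ℚ] A)}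

lemma l40 : L4 (Tr.v 0) := ⟨0, by norm_num, rfl⟩
lemma l41 : L4 (Tr.v 1) := ⟨1, by norm_num, rfl⟩
lemma l42 : L4 (Tr.v 2) := ⟨2, by norm_num, rfl⟩
lemma l43 : L4 (Tr.v 3) := ⟨3, by norm_num, rfl⟩

lemma LOK_fqi {e : ℕ → A} {l : List Tm} (h1 : LOK e Q l) (t u : Tr) (h : QOK e Q t u) :
    LOK e Q (fq l t u) := LOK_fq h1 t u h

section
variable (H : AllQ (env [a, b, c, d]) Q)
include H

theorem P1_id : (3 : ℚ) • (J a b c * (a * b)) + hh Q a b c a b = 0 := by
  have h := fval_of_check (env [a, b, c, d]) Q (by norm_num) chk_P1 (by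
    unfold tgt_P1
    repeat' (first
      | with_reducible exact l40 | with_reducible exact l41 | with_reducible exact l42
      | with_reducible exact l43
      | with_reducible exact LOK_fJ _ _ _ | with_reducible exact LOK_fg _ _ _ _
      | with_reducible refine LOK_fh' H ?_ ?_ ?_ ?_
      | with_reducible refine LOK_fB' H ?_ ?_ ?_ ?_ ?_ ?_
      | with_reducible refine LOK_fC H ?_ ?_ ?_ ?_ ?_ ?_
      | with_reducible refine LOK_fK H ?_ ?_ ?_ ?_ ?_
      | with_reducible refine LOK_fqi ?_ _ _ ?_
      | with_reducible refine AllQ.tok H ?_ ?_ ?_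
      | with_reducible refine AllQ.qok H ?_ ?_
      | with_reducible refine LOK_append ?_ ?_ | with_reducible refine LOK_fneg ?_
      | with_reducible refine LOK_fsc ?_ _ | with_reducible refine LOK_fmul ?_ _))
  simp only [tgt_P1, fval_append, fval_fneg, fval_fsc, fval_fmul (LOK_fJ _ _ _), fval_fJ, fval_fh,
    Tr.ev, env, List.getD_cons_zero, List.getD_cons_succ] at h
  push_cast at h
  exact h

theorem P2_id : (3 : ℚ) • (J a b c * (a * d)) + ((3 : ℚ) • Q a a (J b c d)
    + (-((3 : ℚ) • Q a b (J a c d)) + ((3 : ℚ) • Q a c (J a b d)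
    + (-((3 : ℚ) • Q a d (J a b c)) + (-((2 : ℚ) • hh Q a c d a b)
    + ((2 : ℚ) • hh Q a b d a c + -hh Q a b c a d)))))) = 0 := by
  have h := fval_of_check (env [a, b, c, d]) Q (by norm_num) chk_P2 (by
    unfold tgt_P2
    repeat' (first
      | with_reducible exact l40 | with_reducible exact l41 | with_reducible exact l42
      | with_reducible exact l43
      | with_reducible exact LOK_fJ _ _ _ | with_reducible exact LOK_fg _ _ _ _
      | with_reducible refine LOK_fh' H ?_ ?_ ?_ ?_
      | with_reducible refine LOK_fB' H ?_ ?_ ?_ ?_ ?_ ?_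
      | with_reducible refine LOK_fC H ?_ ?_ ?_ ?_ ?_ ?_
      | with_reducible refine LOK_fK H ?_ ?_ ?_ ?_ ?_
      | with_reducible refine LOK_fqi ?_ _ _ ?_
      | with_reducible refine AllQ.tok H ?_ ?_ ?_
      | with_reducible refine AllQ.qok H ?_ ?_
      | with_reducible refine LOK_append ?_ ?_ | with_reducible refine LOK_fneg ?_
      | with_reducible refine LOK_fsc ?_ _ | with_reducible refine LOK_fmul ?_ _))
  simp only [tgt_P2, fval_append, fval_fneg, fval_fsc, fval_fmul (LOK_fJ _ _ _), fval_fJ, fval_fh,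
    fval_fq, Tr.ev, env, List.getD_cons_zero, List.getD_cons_succ] at h
  push_cast at h
  exact h

theorem P3_id : gg a b c a * (b * c) + ((3 : ℚ) • Q (a * b) c (J a b c)
    + (Q a c (gg a b c b) + -Q a b (gg a b c c))) = 0 := by
  have h := fval_of_check (env [a, b, c, d]) Q (by norm_num) chk_P3 (by
    unfold tgt_P3
    repeat' (first
      | with_reducible exact l40 | with_reducible exact l41 | with_reducible exact l42
      | with_reducible exact l43
      | with_reducible exact LOK_fJ _ _ _ | with_reducible exact LOK_fg _ _ _ _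
      | with_reducible refine LOK_fh' H ?_ ?_ ?_ ?_
      | with_reducible refine LOK_fB' H ?_ ?_ ?_ ?_ ?_ ?_
      | with_reducible refine LOK_fC H ?_ ?_ ?_ ?_ ?_ ?_
      | with_reducible refine LOK_fK H ?_ ?_ ?_ ?_ ?_
      | with_reducible refine LOK_fqi ?_ _ _ ?_
      | with_reducible refine AllQ.tok H ?_ ?_ ?_
      | with_reducible refine AllQ.qok H ?_ ?_
      | with_reducible refine LOK_append ?_ ?_ | with_reducible refine LOK_fneg ?_
      | with_reducible refine LOK_fsc ?_ _ | with_reducible refine LOK_fmul ?_ _))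
  simp only [tgt_P3, fval_append, fval_fneg, fval_fsc, fval_fmul (LOK_fg _ _ _ _), fval_fJ, fval_fg,
    fval_fq, Tr.ev, env, List.getD_cons_zero, List.getD_cons_succ] at h
  push_cast at h
  exact h

theorem P4_id : gg a b c a * (b * d) + ((3 : ℚ) • Q (a * b) c (J a b d)
    + (-Q a b (gg b c d a) + ((2 : ℚ) • Q a a (gg b c d b) + (-Q a b (gg a c d b)
    + ((2 : ℚ) • Q a c (gg a b d b) + (-Q a b (gg a b d c) + (-Q a d (gg a b c b)
    + -BB Q a b c a b d))))))) = 0 := by
  have h := fval_of_check (env [a, b, c, d]) Q (by norm_num) chk_P4 (by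
    unfold tgt_P4
    repeat' (first
      | with_reducible exact l40 | with_reducible exact l41 | with_reducible exact l42
      | with_reducible exact l43
      | with_reducible exact LOK_fJ _ _ _ | with_reducible exact LOK_fg _ _ _ _
      | with_reducible refine LOK_fh' H ?_ ?_ ?_ ?_
      | with_reducible refine LOK_fB' H ?_ ?_ ?_ ?_ ?_ ?_
      | with_reducible refine LOK_fC H ?_ ?_ ?_ ?_ ?_ ?_
      | with_reducible refine LOK_fK H ?_ ?_ ?_ ?_ ?_
      | with_reducible refine LOK_fqi ?_ _ _ ?_
      | with_reducible refine AllQ.tok H ?_ ?_ ?_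
      | with_reducible refine AllQ.qok H ?_ ?_
      | with_reducible refine LOK_append ?_ ?_ | with_reducible refine LOK_fneg ?_
      | with_reducible refine LOK_fsc ?_ _ | with_reducible refine LOK_fmul ?_ _))
  simp only [tgt_P4, fval_append, fval_fneg, fval_fsc, fval_fmul (LOK_fg _ _ _ _), fval_fJ, fval_fg,
    fval_fB' H l40 l41 l42 l40,
    fval_fq, Tr.ev, env, List.getD_cons_zero, List.getD_cons_succ] at h
  push_cast at h
  exact h

theorem P5_id : hh Q a b c a d * (b * c) + (-((3 : ℚ) • Q c d (Q a b (J a b c)))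
    + ((3 : ℚ) • Q b d (Q a c (J a b c)) + (Q (a * b) c (gg b c d a)
    + (Q (a * c) d (gg a b c b) + (-Q (a * b) d (gg a b c c) + (-Q (a * b) c (gg a b c d)
    + (Q b c (hh Q a c d a b) + (-Q b b (hh Q a c d a c) + (Q a b (hh Q a c d b c)
    + (-Q c c (hh Q a b d a b) + (Q b c (hh Q a b d a c) + (-Q a c (hh Q a b d b c)
    + (2 : ℚ) • CC Q a b c d a b c)))))))))))) = 0 := by
  have h := fval_of_check (env [a, b, c, d]) Q (by norm_num) chk_P5 (by
    unfold tgt_P5
    repeat' (first
      | with_reducible exact l40 | with_reducible exact l41 | with_reducible exact l42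
      | with_reducible exact l43
      | with_reducible exact LOK_fJ _ _ _ | with_reducible exact LOK_fg _ _ _ _
      | with_reducible refine LOK_fh' H ?_ ?_ ?_ ?_
      | with_reducible refine LOK_fB' H ?_ ?_ ?_ ?_ ?_ ?_
      | with_reducible refine LOK_fC H ?_ ?_ ?_ ?_ ?_ ?_
      | with_reducible refine LOK_fK H ?_ ?_ ?_ ?_ ?_
      | with_reducible refine LOK_fqi ?_ _ _ ?_
      | with_reducible refine AllQ.tok H ?_ ?_ ?_
      | with_reducible refine AllQ.qok H ?_ ?_
      | with_reducible refine LOK_append ?_ ?_ | with_reducible refine LOK_fneg ?_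
      | with_reducible refine LOK_fsc ?_ _ | with_reducible refine LOK_fmul ?_ _))
  simp only [tgt_P5, fval_append, fval_fneg, fval_fsc,
    fval_fmul (LOK_fh' H l40 l41 l42 l40), fval_fJ, fval_fg, fval_fh,
    fval_fC H l40 l41 l42 l43 l40 l41,
    fval_fq, Tr.ev, env, List.getD_cons_zero, List.getD_cons_succ] at h
  push_cast at h
  exact h

theorem F6_01_id : BB Q a b c a b a = 0 := by
  have h := fval_of_check (env [a, b, c, d]) Q (by norm_num) chk_F6_01 (by
    unfold tgt_F6_01
    repeat' (first
      | with_reducible exact l40 | with_reducible exact l41 | with_reducible exact l42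
      | with_reducible exact l43
      | with_reducible exact LOK_fJ _ _ _ | with_reducible exact LOK_fg _ _ _ _
      | with_reducible refine LOK_fh' H ?_ ?_ ?_ ?_
      | with_reducible refine LOK_fB' H ?_ ?_ ?_ ?_ ?_ ?_
      | with_reducible refine LOK_fC H ?_ ?_ ?_ ?_ ?_ ?_
      | with_reducible refine LOK_fK H ?_ ?_ ?_ ?_ ?_
      | with_reducible refine LOK_fqi ?_ _ _ ?_
      | with_reducible refine AllQ.tok H ?_ ?_ ?_
      | with_reducible refine AllQ.qok H ?_ ?_
      | with_reducible refine LOK_append ?_ ?_ | with_reducible refine LOK_fneg ?_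
      | with_reducible refine LOK_fsc ?_ _ | with_reducible refine LOK_fmul ?_ _))
  simp only [tgt_F6_01, fval_fB' H l40 l41 l42 l40, Tr.ev, env, List.getD_cons_zero,
    List.getD_cons_succ] at h
  exact h

theorem F6_12_id : BB Q a b c b c a = 0 := by
  have h := fval_of_check (env [a, b, c, d]) Q (by norm_num) chk_F6_12 (by
    unfold tgt_F6_12
    repeat' (first
      | with_reducible exact l40 | with_reducible exact l41 | with_reducible exact l42
      | with_reducible exact l43
      | with_reducible exact LOK_fJ _ _ _ | with_reducible exact LOK_fg _ _ _ _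
      | with_reducible refine LOK_fh' H ?_ ?_ ?_ ?_
      | with_reducible refine LOK_fB' H ?_ ?_ ?_ ?_ ?_ ?_
      | with_reducible refine LOK_fC H ?_ ?_ ?_ ?_ ?_ ?_
      | with_reducible refine LOK_fK H ?_ ?_ ?_ ?_ ?_
      | with_reducible refine LOK_fqi ?_ _ _ ?_
      | with_reducible refine AllQ.tok H ?_ ?_ ?_
      | with_reducible refine AllQ.qok H ?_ ?_
      | with_reducible refine LOK_append ?_ ?_ | with_reducible refine LOK_fneg ?_
      | with_reducible refine LOK_fsc ?_ _ | with_reducible refine LOK_fmul ?_ _))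
  simp only [tgt_F6_12, fval_fB' H l40 l41 l42 l41, Tr.ev, env, List.getD_cons_zero,
    List.getD_cons_succ] at h
  exact h

theorem F6_03_id : BB Q a b c a d a = 0 := by
  have h := fval_of_check (env [a, b, c, d]) Q (by norm_num) chk_F6_03 (by
    unfold tgt_F6_03
    repeat' (first
      | with_reducible exact l40 | with_reducible exact l41 | with_reducible exact l42
      | with_reducible exact l43
      | with_reducible exact LOK_fJ _ _ _ | with_reducible exact LOK_fg _ _ _ _
      | with_reducible refine LOK_fh' H ?_ ?_ ?_ ?_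
      | with_reducible refine LOK_fB' H ?_ ?_ ?_ ?_ ?_ ?_
      | with_reducible refine LOK_fC H ?_ ?_ ?_ ?_ ?_ ?_
      | with_reducible refine LOK_fK H ?_ ?_ ?_ ?_ ?_
      | with_reducible refine LOK_fqi ?_ _ _ ?_
      | with_reducible refine AllQ.tok H ?_ ?_ ?_
      | with_reducible refine AllQ.qok H ?_ ?_
      | with_reducible refine LOK_append ?_ ?_ | with_reducible refine LOK_fneg ?_
      | with_reducible refine LOK_fsc ?_ _ | with_reducible refine LOK_fmul ?_ _))
  simp only [tgt_F6_03, fval_fB' H l40 l41 l42 l40, Tr.ev, env, List.getD_cons_zero,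
    List.getD_cons_succ] at h
  exact h

theorem F6_13_id : BB Q a b c b d a = 0 := by
  have h := fval_of_check (env [a, b, c, d]) Q (by norm_num) chk_F6_13 (by
    unfold tgt_F6_13
    repeat' (first
      | with_reducible exact l40 | with_reducible exact l41 | with_reducible exact l42
      | with_reducible exact l43
      | with_reducible exact LOK_fJ _ _ _ | with_reducible exact LOK_fg _ _ _ _
      | with_reducible refine LOK_fh' H ?_ ?_ ?_ ?_
      | with_reducible refine LOK_fB' H ?_ ?_ ?_ ?_ ?_ ?_
      | with_reducible refine LOK_fC H ?_ ?_ ?_ ?_ ?_ ?_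
      | with_reducible refine LOK_fK H ?_ ?_ ?_ ?_ ?_
      | with_reducible refine LOK_fqi ?_ _ _ ?_
      | with_reducible refine AllQ.tok H ?_ ?_ ?_
      | with_reducible refine AllQ.qok H ?_ ?_
      | with_reducible refine LOK_append ?_ ?_ | with_reducible refine LOK_fneg ?_
      | with_reducible refine LOK_fsc ?_ _ | with_reducible refine LOK_fmul ?_ _))
  simp only [tgt_F6_13, fval_fB' H l40 l41 l42 l41, Tr.ev, env, List.getD_cons_zero,
    List.getD_cons_succ] at h
  exact h

theorem F6s_01_id : BB Q a b c a b d + BB Q d b c a b a = 0 := by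
  have h := fval_of_check (env [a, b, c, d]) Q (by norm_num) chk_F6s_01 (by
    unfold tgt_F6s_01
    repeat' (first
      | with_reducible exact l40 | with_reducible exact l41 | with_reducible exact l42
      | with_reducible exact l43
      | with_reducible exact LOK_fJ _ _ _ | with_reducible exact LOK_fg _ _ _ _
      | with_reducible refine LOK_fh' H ?_ ?_ ?_ ?_
      | with_reducible refine LOK_fB' H ?_ ?_ ?_ ?_ ?_ ?_
      | with_reducible refine LOK_fC H ?_ ?_ ?_ ?_ ?_ ?_
      | with_reducible refine LOK_fK H ?_ ?_ ?_ ?_ ?_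
      | with_reducible refine LOK_fqi ?_ _ _ ?_
      | with_reducible refine AllQ.tok H ?_ ?_ ?_
      | with_reducible refine AllQ.qok H ?_ ?_
      | with_reducible refine LOK_append ?_ ?_ | with_reducible refine LOK_fneg ?_
      | with_reducible refine LOK_fsc ?_ _ | with_reducible refine LOK_fmul ?_ _))
  simp only [tgt_F6s_01, fval_append, fval_fB' H l40 l41 l42 l40, fval_fB' H l43 l41 l42 l40,
    Tr.ev, env, List.getD_cons_zero, List.getD_cons_succ] at h
  exact h

theorem F6s_03_id : BB Q a b c a d d + BB Q d b c a d a = 0 := by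
  have h := fval_of_check (env [a, b, c, d]) Q (by norm_num) chk_F6s_03 (by
    unfold tgt_F6s_03
    repeat' (first
      | with_reducible exact l40 | with_reducible exact l41 | with_reducible exact l42
      | with_reducible exact l43
      | with_reducible exact LOK_fJ _ _ _ | with_reducible exact LOK_fg _ _ _ _
      | with_reducible refine LOK_fh' H ?_ ?_ ?_ ?_
      | with_reducible refine LOK_fB' H ?_ ?_ ?_ ?_ ?_ ?_
      | with_reducible refine LOK_fC H ?_ ?_ ?_ ?_ ?_ ?_
      | with_reducible refine LOK_fK H ?_ ?_ ?_ ?_ ?_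
      | with_reducible refine LOK_fqi ?_ _ _ ?_
      | with_reducible refine AllQ.tok H ?_ ?_ ?_
      | with_reducible refine AllQ.qok H ?_ ?_
      | with_reducible refine LOK_append ?_ ?_ | with_reducible refine LOK_fneg ?_
      | with_reducible refine LOK_fsc ?_ _ | with_reducible refine LOK_fmul ?_ _))
  simp only [tgt_F6s_03, fval_append, fval_fB' H l40 l41 l42 l40, fval_fB' H l43 l41 l42 l40,
    Tr.ev, env, List.getD_cons_zero, List.getD_cons_succ] at h
  exact h

theorem F6s_12_id : BB Q a b c b c d + BB Q d b c b c a = 0 := by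
  have h := fval_of_check (env [a, b, c, d]) Q (by norm_num) chk_F6s_12 (by
    unfold tgt_F6s_12
    repeat' (first
      | with_reducible exact l40 | with_reducible exact l41 | with_reducible exact l42
      | with_reducible exact l43
      | with_reducible exact LOK_fJ _ _ _ | with_reducible exact LOK_fg _ _ _ _
      | with_reducible refine LOK_fh' H ?_ ?_ ?_ ?_
      | with_reducible refine LOK_fB' H ?_ ?_ ?_ ?_ ?_ ?_
      | with_reducible refine LOK_fC H ?_ ?_ ?_ ?_ ?_ ?_
      | with_reducible refine LOK_fK H ?_ ?_ ?_ ?_ ?_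
      | with_reducible refine LOK_fqi ?_ _ _ ?_
      | with_reducible refine AllQ.tok H ?_ ?_ ?_
      | with_reducible refine AllQ.qok H ?_ ?_
      | with_reducible refine LOK_append ?_ ?_ | with_reducible refine LOK_fneg ?_
      | with_reducible refine LOK_fsc ?_ _ | with_reducible refine LOK_fmul ?_ _))
  simp only [tgt_F6s_12, fval_append, fval_fB' H l40 l41 l42 l41, fval_fB' H l43 l41 l42 l41,
    Tr.ev, env, List.getD_cons_zero, List.getD_cons_succ] at h
  exact h

theorem F7B1_id : CC Q a b c d a b b = 0 := by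
  have h := fval_of_check (env [a, b, c, d]) Q (by norm_num) chk_F7B1 (by
    unfold tgt_F7B1
    repeat' (first
      | with_reducible exact l40 | with_reducible exact l41 | with_reducible exact l42
      | with_reducible exact l43
      | with_reducible exact LOK_fJ _ _ _ | with_reducible exact LOK_fg _ _ _ _
      | with_reducible refine LOK_fh' H ?_ ?_ ?_ ?_
      | with_reducible refine LOK_fB' H ?_ ?_ ?_ ?_ ?_ ?_
      | with_reducible refine LOK_fC H ?_ ?_ ?_ ?_ ?_ ?_
      | with_reducible refine LOK_fK H ?_ ?_ ?_ ?_ ?_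
      | with_reducible refine LOK_fqi ?_ _ _ ?_
      | with_reducible refine AllQ.tok H ?_ ?_ ?_
      | with_reducible refine AllQ.qok H ?_ ?_
      | with_reducible refine LOK_append ?_ ?_ | with_reducible refine LOK_fneg ?_
      | with_reducible refine LOK_fsc ?_ _ | with_reducible refine LOK_fmul ?_ _))
  simp only [tgt_F7B1, fval_fC H l40 l41 l42 l43 l40 l41, Tr.ev, env, List.getD_cons_zero,
    List.getD_cons_succ] at h
  exact h

theorem F7B2_id : CC Q a b c d a b c + CC Q a b c d a c b = 0 := by
  have h := fval_of_check (env [a, b, c, d]) Q (by norm_num) chk_F7B2 (by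
    unfold tgt_F7B2
    repeat' (first
      | with_reducible exact l40 | with_reducible exact l41 | with_reducible exact l42
      | with_reducible exact l43
      | with_reducible exact LOK_fJ _ _ _ | with_reducible exact LOK_fg _ _ _ _
      | with_reducible refine LOK_fh' H ?_ ?_ ?_ ?_
      | with_reducible refine LOK_fB' H ?_ ?_ ?_ ?_ ?_ ?_
      | with_reducible refine LOK_fC H ?_ ?_ ?_ ?_ ?_ ?_
      | with_reducible refine LOK_fK H ?_ ?_ ?_ ?_ ?_
      | with_reducible refine LOK_fqi ?_ _ _ ?_
      | with_reducible refine AllQ.tok H ?_ ?_ ?_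
      | with_reducible refine AllQ.qok H ?_ ?_
      | with_reducible refine LOK_append ?_ ?_ | with_reducible refine LOK_fneg ?_
      | with_reducible refine LOK_fsc ?_ _ | with_reducible refine LOK_fmul ?_ _))
  simp only [tgt_F7B2, fval_append, fval_fC H l40 l41 l42 l43 l40 l41,
    fval_fC H l40 l41 l42 l43 l40 l42, Tr.ev, env, List.getD_cons_zero, List.getD_cons_succ] at h
  exact h

theorem F7Ra_id : KK Q a b c d a = 0 := by
  have h := fval_of_check (env [a, b, c, d]) Q (by norm_num) chk_F7Ra (by
    unfold tgt_F7Ra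
    repeat' (first
      | with_reducible exact l40 | with_reducible exact l41 | with_reducible exact l42
      | with_reducible exact l43
      | with_reducible exact LOK_fJ _ _ _ | with_reducible exact LOK_fg _ _ _ _
      | with_reducible refine LOK_fh' H ?_ ?_ ?_ ?_
      | with_reducible refine LOK_fB' H ?_ ?_ ?_ ?_ ?_ ?_
      | with_reducible refine LOK_fC H ?_ ?_ ?_ ?_ ?_ ?_
      | with_reducible refine LOK_fK H ?_ ?_ ?_ ?_ ?_
      | with_reducible refine LOK_fqi ?_ _ _ ?_
      | with_reducible refine AllQ.tok H ?_ ?_ ?_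
      | with_reducible refine AllQ.qok H ?_ ?_
      | with_reducible refine LOK_append ?_ ?_ | with_reducible refine LOK_fneg ?_
      | with_reducible refine LOK_fsc ?_ _ | with_reducible refine LOK_fmul ?_ _))
  simp only [tgt_F7Ra, fval_fK, Tr.ev, env, List.getD_cons_zero, List.getD_cons_succ] at h
  exact h

theorem F7Rc_id : KK Q a b c d c + CC Q a b c d a b c = 0 := by
  have h := fval_of_check (env [a, b, c, d]) Q (by norm_num) chk_F7Rc (by
    unfold tgt_F7Rc
    repeat' (first
      | with_reducible exact l40 | with_reducible exact l41 | with_reducible exact l42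
      | with_reducible exact l43
      | with_reducible exact LOK_fJ _ _ _ | with_reducible exact LOK_fg _ _ _ _
      | with_reducible refine LOK_fh' H ?_ ?_ ?_ ?_
      | with_reducible refine LOK_fB' H ?_ ?_ ?_ ?_ ?_ ?_
      | with_reducible refine LOK_fC H ?_ ?_ ?_ ?_ ?_ ?_
      | with_reducible refine LOK_fK H ?_ ?_ ?_ ?_ ?_
      | with_reducible refine LOK_fqi ?_ _ _ ?_
      | with_reducible refine AllQ.tok H ?_ ?_ ?_
      | with_reducible refine AllQ.qok H ?_ ?_
      | with_reducible refine LOK_append ?_ ?_ | with_reducible refine LOK_fneg ?_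
      | with_reducible refine LOK_fsc ?_ _ | with_reducible refine LOK_fmul ?_ _))
  simp only [tgt_F7Rc, fval_append, fval_fK, fval_fC H l40 l41 l42 l43 l40 l41, Tr.ev, env,
    List.getD_cons_zero, List.getD_cons_succ] at h
  exact h

theorem F8a_id : CC Q a b c d a b c * a + (Q a a (BB Q a b c b c d) + (Q b a (BB Q a b c c a d)
    + Q c a (BB Q a b c a b d))) = 0 := by
  have h := fval_of_check (env [a, b, c, d]) Q (by norm_num) chk_F8a (by
    unfold tgt_F8a
    repeat' (first
      | with_reducible exact l40 | with_reducible exact l41 | with_reducible exact l42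
      | with_reducible exact l43
      | with_reducible exact LOK_fJ _ _ _ | with_reducible exact LOK_fg _ _ _ _
      | with_reducible refine LOK_fh' H ?_ ?_ ?_ ?_
      | with_reducible refine LOK_fB' H ?_ ?_ ?_ ?_ ?_ ?_
      | with_reducible refine LOK_fC H ?_ ?_ ?_ ?_ ?_ ?_
      | with_reducible refine LOK_fK H ?_ ?_ ?_ ?_ ?_
      | with_reducible refine LOK_fqi ?_ _ _ ?_
      | with_reducible refine AllQ.tok H ?_ ?_ ?_
      | with_reducible refine AllQ.qok H ?_ ?_
      | with_reducible refine LOK_append ?_ ?_ | with_reducible refine LOK_fneg ?_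
      | with_reducible refine LOK_fsc ?_ _ | with_reducible refine LOK_fmul ?_ _))
  simp only [tgt_F8a, fval_append, fval_fmul (LOK_fC H l40 l41 l42 l43 l40 l41),
    fval_fC H l40 l41 l42 l43 l40 l41, fval_fq,
    fval_fB' H l40 l41 l42 l40, fval_fB' H l40 l41 l42 l41, fval_fB' H l40 l41 l42 l42, Tr.ev, env,
    List.getD_cons_zero, List.getD_cons_succ] at h
  exact h

theorem F8d_id : CC Q a b c d a b c * d + (Q a d (BB Q a b c b c d) + (Q b d (BB Q a b c c a d)
    + Q c d (BB Q a b c a b d))) = 0 := by
  have h := fval_of_check (env [a, b, c, d]) Q (by norm_num) chk_F8d (by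
    unfold tgt_F8d
    repeat' (first
      | with_reducible exact l40 | with_reducible exact l41 | with_reducible exact l42
      | with_reducible exact l43
      | with_reducible exact LOK_fJ _ _ _ | with_reducible exact LOK_fg _ _ _ _
      | with_reducible refine LOK_fh' H ?_ ?_ ?_ ?_
      | with_reducible refine LOK_fB' H ?_ ?_ ?_ ?_ ?_ ?_
      | with_reducible refine LOK_fC H ?_ ?_ ?_ ?_ ?_ ?_
      | with_reducible refine LOK_fK H ?_ ?_ ?_ ?_ ?_
      | with_reducible refine LOK_fqi ?_ _ _ ?_
      | with_reducible refine AllQ.tok H ?_ ?_ ?_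
      | with_reducible refine AllQ.qok H ?_ ?_
      | with_reducible refine LOK_append ?_ ?_ | with_reducible refine LOK_fneg ?_
      | with_reducible refine LOK_fsc ?_ _ | with_reducible refine LOK_fmul ?_ _))
  simp only [tgt_F8d, fval_append, fval_fmul (LOK_fC H l40 l41 l42 l43 l40 l41),
    fval_fC H l40 l41 l42 l43 l40 l41, fval_fq,
    fval_fB' H l40 l41 l42 l40, fval_fB' H l40 l41 l42 l41, fval_fB' H l40 l41 l42 l42, Tr.ev, env,
    List.getD_cons_zero, List.getD_cons_succ] at h
  exact h

theorem F5d_id : hh Q a b c d d = 0 := by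
  have hc : check 3 1 (fsc 1 (fh (Tr.v 0) (Tr.v 1) (Tr.v 2) (Tr.v 3) (Tr.v 3))) [] = true := by
    decide +kernel
  have h := fval_of_check (env [a, b, c, d]) Q (by norm_num) hc (by
    repeat' (first
      | with_reducible exact l40 | with_reducible exact l41 | with_reducible exact l42
      | with_reducible exact l43
      | with_reducible exact LOK_fJ _ _ _ | with_reducible exact LOK_fg _ _ _ _
      | with_reducible refine LOK_fh' H ?_ ?_ ?_ ?_
      | with_reducible refine LOK_fB' H ?_ ?_ ?_ ?_ ?_ ?_
      | with_reducible refine LOK_fC H ?_ ?_ ?_ ?_ ?_ ?_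
      | with_reducible refine LOK_fK H ?_ ?_ ?_ ?_ ?_
      | with_reducible refine LOK_fqi ?_ _ _ ?_
      | with_reducible refine AllQ.tok H ?_ ?_ ?_
      | with_reducible refine AllQ.qok H ?_ ?_
      | with_reducible refine LOK_append ?_ ?_ | with_reducible refine LOK_fneg ?_
      | with_reducible refine LOK_fsc ?_ _ | with_reducible refine LOK_fmul ?_ _))
  simp only [fval_fh, Tr.ev, env, List.getD_cons_zero, List.getD_cons_succ] at h
  exact h

theorem F5a_id : hh Q a b c a a = 0 := by
  have hc : check 2 1 (fsc 1 (fh (Tr.v 0) (Tr.v 1) (Tr.v 2) (Tr.v 0) (Tr.v 0))) [] = true := by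
    decide +kernel
  have h := fval_of_check (env [a, b, c, d]) Q (by norm_num) hc (by
    repeat' (first
      | with_reducible exact l40 | with_reducible exact l41 | with_reducible exact l42
      | with_reducible exact l43
      | with_reducible exact LOK_fJ _ _ _ | with_reducible exact LOK_fg _ _ _ _
      | with_reducible refine LOK_fh' H ?_ ?_ ?_ ?_
      | with_reducible refine LOK_fB' H ?_ ?_ ?_ ?_ ?_ ?_
      | with_reducible refine LOK_fC H ?_ ?_ ?_ ?_ ?_ ?_
      | with_reducible refine LOK_fK H ?_ ?_ ?_ ?_ ?_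
      | with_reducible refine LOK_fqi ?_ _ _ ?_
      | with_reducible refine AllQ.tok H ?_ ?_ ?_
      | with_reducible refine AllQ.qok H ?_ ?_
      | with_reducible refine LOK_append ?_ ?_ | with_reducible refine LOK_fneg ?_
      | with_reducible refine LOK_fsc ?_ _ | with_reducible refine LOK_fmul ?_ _))
  simp only [fval_fh, Tr.ev, env, List.getD_cons_zero, List.getD_cons_succ] at h
  exact h

end

def tgt_F5g : List Tm :=
  (fsc 6 (fmul (fg (Tr.v 0) (Tr.v 1) (Tr.v 2) (Tr.v 3)) (Tr.v 4))) ++
  ((fsc 6 (fmul (fg (Tr.v 0) (Tr.v 1) (Tr.v 2) (Tr.v 4)) (Tr.v 3))) ++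
  ((fE (Tr.v 0) (Tr.v 3) (Tr.v 1) (Tr.v 2) (Tr.v 4)) ++
  ((fE (Tr.v 1) (Tr.v 3) (Tr.v 2) (Tr.v 0) (Tr.v 4)) ++
  ((fE (Tr.v 2) (Tr.v 3) (Tr.v 0) (Tr.v 1) (Tr.v 4)) ++
  ((fE (Tr.v 0) (Tr.v 4) (Tr.v 1) (Tr.v 2) (Tr.v 3)) ++
  ((fE (Tr.v 1) (Tr.v 4) (Tr.v 2) (Tr.v 0) (Tr.v 3)) ++
  (fE (Tr.v 2) (Tr.v 4) (Tr.v 0) (Tr.v 1) (Tr.v 3))))))))

theorem chk_F5g : check 3 0 (fsc 1 tgt_F5g) [] = true := by decide +kernel

theorem F5g_id (x y z v w : A) : gg x y z v * w + gg x y z w * v
    + (3 : ℚ) • (E2 x v y z w + E2 y v z x w + E2 z v x y w + E2 x w y z v + E2 y w z x v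
      + E2 z w x y v) = 0 := by
  have h := fval_of_check (env [x, y, z, v, w]) Q0 (by norm_num) chk_F5g (by
    unfold tgt_F5g
    repeat' (first | exact LOK_fE _ _ _ _ _ | exact LOK_fsc (LOK_fmul (LOK_fg _ _ _ _) _) _ |
      refine LOK_append ?_ ?_))
  simp only [tgt_F5g, fval_append, fval_fsc, fval_fmul (LOK_fg _ _ _ _), fval_fg, fval_fE,
    Tr.ev, env, List.getD_cons_zero, List.getD_cons_succ] at h
  push_cast at h
  linear_combination (norm := module) (1/6 : ℚ) • h

end Pool.Agent.H1.Mal
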