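import Pool.Agent.H1.Mal.IdentB

/-!
# Polarised identities
-/

set_option autoImplicit false
set_option linter.unusedSectionVars false
set_option linter.unusedSimpArgs false

namespace Pool.Agent.H1.Mal

variable {A : Type} [NonUnitalNonAssocRing A] [Module ℚ A] [IsScalarTower ℚ A A]
  [SMulCommClass ℚ A A]

lemma E2_pol (t u x y z : A) :
    E2 t u x y z = (1/2 : ℚ) • (E2 (t + u) (t + u) x y z - E2 t t x y z - E2 u u x y z) := by
  rw [E2_add_t, E2_add_u, E2_add_u, E2_symm u t]
  module

lemma G2_pol (t u n v : A) :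
    G2 t u n v = (1/2 : ℚ) • (G2 (t + u) (t + u) n v - G2 t t n v - G2 u u n v) := by
  rw [G2_add_t, G2_add_u, G2_add_u, G2_symm u t]
  module

lemma Lam_pol (t u x y z w : A) :
    Lam t u x y z w = (1/2 : ℚ) • (Lam (t + u) (t + u) x y z w - Lam t t x y z w
      - Lam u u x y z w) := by
  unfold Lam
  rw [E2_pol t u (x * y) z w, E2_pol t u (y * z) x w, E2_pol t u (z * x) y w,
    E2_pol t u x y (w * z), E2_pol t u y z (w * x), E2_pol t u z x (w * y)]
  module

lemma kk_pol (t u w x y z : A) :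
    kk t u w x y z = (1/2 : ℚ) • (kk (t + u) (t + u) w x y z - kk t t w x y z
      - kk u u w x y z) := by
  unfold kk
  rw [E2_pol t u x y z, G2_pol t u (J x y z) w]
  simp only [smul_mul_assoc, sub_mul]
  module

lemma kk_symm (t u w x y z : A) : kk t u w x y z = kk u t w x y z := by
  unfold kk; rw [E2_symm, G2_symm]

lemma kk_add_t (t t' u w x y z : A) :
    kk (t + t') u w x y z = kk t u w x y z + kk t' u w x y z := by
  unfold kk; rw [E2_add_t, G2_add_t, add_mul]; abel

lemma kk_smul_t (c : ℚ) (t u w x y z : A) : kk (c • t) u w x y z = c • kk t u w x y z := by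
  unfold kk; rw [E2_smul_t, G2_smul_t, smul_mul_assoc, smul_sub]

lemma kk_add_u (t u u' w x y z : A) :
    kk t (u + u') w x y z = kk t u w x y z + kk t u' w x y z := by
  rw [kk_symm, kk_add_t, kk_symm, kk_symm u' t]

lemma kk_smul_u (c : ℚ) (t u w x y z : A) : kk t (c • u) w x y z = c • kk t u w x y z := by
  rw [kk_symm, kk_smul_t, kk_symm]

lemma kk_add_w (t u w w' x y z : A) :
    kk t u (w + w') x y z = kk t u w x y z + kk t u w' x y z := by
  unfold kk; rw [G2_add_v, mul_add]; abel

lemma kk_smul_w (c : ℚ) (t u w x y z : A) : kk t u (c • w) x y z = c • kk t u w x y z := by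
  unfold kk; rw [G2_smul_v, mul_smul_comm, smul_sub]

lemma kk_add_x (t u w x x' y z : A) :
    kk t u w (x + x') y z = kk t u w x y z + kk t u w x' y z := by
  unfold kk; rw [E2_add_left, J_add_left, G2_add_n, add_mul]; abel

lemma kk_smul_x (c : ℚ) (t u w x y z : A) : kk t u w (c • x) y z = c • kk t u w x y z := by
  unfold kk; rw [E2_smul_left, J_smul_left, G2_smul_n, smul_mul_assoc, smul_sub]

lemma kk_cyc (t u w x y z : A) : kk t u w x y z = kk t u w y z x := by
  unfold kk; rw [E2_cyc, J_cyc]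

lemma kk_add_y (t u w x y y' z : A) :
    kk t u w x (y + y') z = kk t u w x y z + kk t u w x y' z := by
  rw [kk_cyc, kk_add_x, ← kk_cyc t u w x y z, ← kk_cyc t u w x y' z]

lemma kk_smul_y (c : ℚ) (t u w x y z : A) : kk t u w x (c • y) z = c • kk t u w x y z := by
  rw [kk_cyc, kk_smul_x, ← kk_cyc]

lemma kk_add_z (t u w x y z z' : A) :
    kk t u w x y (z + z') = kk t u w x y z + kk t u w x y z' := by
  rw [← kk_cyc, kk_add_x, kk_cyc, kk_cyc t u w z']

lemma kk_smul_z (c : ℚ) (t u w x y z : A) : kk t u w x y (c • z) = c • kk t u w x y z := by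
  rw [← kk_cyc, kk_smul_x, kk_cyc]

variable [IsMal A]

lemma E2_swap (t u x y z : A) : E2 t u x y z = -E2 t u y x z := by
  unfold E2 e3
  rw [J_swap x y z, J_swap x y t, J_swap x y u, J_swap y z t, J_swap y z u, J_swap z x t,
    J_swap z x u]
  simp only [neg_mul, smul_neg]
  module

lemma E2_self (t u x z : A) : E2 t u x x z = 0 := by
  have h := E2_swap t u x x z
  have h2 : (2 : ℚ) • E2 t u x x z = 0 := by
    rw [two_smul]; nth_rw 2 [h]; abel
  exact (smul_eq_zero.1 h2).resolve_left (by norm_num)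

lemma kk_swap (t u w x y z : A) : kk t u w x y z = -kk t u w y x z := by
  unfold kk; rw [E2_swap, J_swap, show (-J y x z : A) = (-1 : ℚ) • J y x z by module, G2_smul_n]
  simp only [neg_mul]
  module

theorem H4p (t u x y z : A) : E2 t u x y (x * z) = G2 t u (J x y z) x := by
  rw [E2_pol, G2_pol, H4_id, H4_id, H4_id]

theorem F1p (t u x y z : A) : E2 t u x y (x * z) = E2 t u x y z * x := by
  rw [E2_pol t u x y (x * z), E2_pol t u x y z, F1_id, F1_id, F1_id]
  simp only [smul_mul_assoc, sub_mul]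

theorem kk_alt (t u x y z : A) : kk t u x x y z = 0 := by
  unfold kk; rw [← F1p, H4p, sub_self]

/-- `kk` is alternating -/
theorem kk_swapw (t u w x y z : A) : kk t u w x y z = -kk t u x w y z := by
  have h := kk_alt t u (w + x) y z
  rw [kk_add_w, kk_add_x, kk_add_x, kk_alt, kk_alt, zero_add, add_zero] at h
  exact eq_neg_of_add_eq_zero_left h

theorem H3p (t u x y z w : A) :
    Lam t u x y z w
      = G2 t u (J x y z) w - G2 t u (J w y z) x - G2 t u (J w z x) y - G2 t u (J w x y) z := by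
  have h : ∀ t : A, Lam t t x y z w
      = G2 t t (J x y z) w - G2 t t (J w y z) x - G2 t t (J w z x) y - G2 t t (J w x y) z :=
    fun t => by rw [Lam, H3_id]
  rw [Lam_pol, h, h, h, G2_pol t u (J x y z) w, G2_pol t u (J w y z) x, G2_pol t u (J w z x) y,
    G2_pol t u (J w x y) z]
  module

theorem H1p (t u x y z w : A) :
    Lam t u x y (x * z) w + Lam t u x y z (w * x)
      = E2 t u (J x y z) x w + E2 t u x z (J w x y) := by
  have h := fun t : A => H1_id t x y z w
  rw [Lam_pol t u x y (x * z) w, Lam_pol t u x y z (w * x), E2_pol t u (J x y z) x w,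
    E2_pol t u x z (J w x y)]
  linear_combination (norm := module) (1/2 : ℚ) • h (t + u) - (1/2 : ℚ) • h t - (1/2 : ℚ) • h u

theorem H2p (t u a b c y z : A) :
    E2 t u (J a b c) y z = G2 t u (J a b c * y) z - G2 t u (J a b c) (y * z)
      - G2 t u (J a b c * z) y := by
  have h := fun t : A => H2_id t a b c y z
  rw [E2_pol, G2_pol t u (J a b c * y) z, G2_pol t u (J a b c) (y * z),
    G2_pol t u (J a b c * z) y, h, h, h]
  module

theorem H2n (t u : A) {n : A} (hn : n ∈ NN A) (y z : A) :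
    E2 t u n y z = G2 t u (n * y) z - G2 t u n (y * z) - G2 t u (n * z) y := by
  induction hn using Submodule.span_induction with
  | mem x hx => obtain ⟨a, b, c, rfl⟩ := hx; exact H2p t u a b c y z
  | zero =>
    have h1 := E2_smul_left 0 t u 0 y z
    have h2 := fun v => G2_smul_n 0 t u 0 v
    simp only [zero_smul] at h1 h2
    rw [h1, zero_mul, zero_mul, h2, h2, h2]; simp
  | add p q _ _ hp hq =>
    rw [E2_add_left, hp, hq, add_mul, add_mul, G2_add_n, G2_add_n, G2_add_n]; abel
  | smul c p _ hp =>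
    rw [E2_smul_left, hp, smul_mul_assoc, smul_mul_assoc, G2_smul_n, G2_smul_n, G2_smul_n]
    module

theorem K1p (t s u v y z : A) : kk t s (u * v) v y z + kk t s u v y z * v = 0 := by
  have h := fun t : A => K1_id t u v y z
  rw [kk_pol t s (u * v) v y z, kk_pol t s u v y z]
  simp only [smul_mul_assoc, sub_mul]
  linear_combination (norm := module) (1/2 : ℚ) • h (t + s) - (1/2 : ℚ) • h t - (1/2 : ℚ) • h s

/-- fully polarised K1 -/
theorem K1pp (t s u v v' y z : A) :
    kk t s (u * v) v' y z + kk t s (u * v') v y z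
      = -(kk t s u v y z * v') - kk t s u v' y z * v := by
  have h1 := K1p t s u v y z
  have h2 := K1p t s u v' y z
  have h3 := K1p t s u (v + v') y z
  rw [mul_add, kk_add_w, kk_add_x, kk_add_x, kk_add_x, mul_add, add_mul, add_mul] at h3
  linear_combination (norm := module) h3 - h1 - h2

/-! ### the polarised commutation identity -/

/-- `-18 ψ(E_{t,t'}(x,y,z))` where `ψ` is `⟨u,u'⟩` -/
def EEP (u u' t t' x y z : A) : A :=
  (5 : ℚ) • (E2 u u' x y z * t * t') + (5 : ℚ) • (E2 u u' x y z * t' * t)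
    + (E2 u u' x y t * z * t' + E2 u u' x y t' * z * t + (3 : ℚ) • (E2 u u' x y t * t' * z)
      + (3 : ℚ) • (E2 u u' x y t' * t * z))
    + (E2 u u' y z t * x * t' + E2 u u' y z t' * x * t + (3 : ℚ) • (E2 u u' y z t * t' * x)
      + (3 : ℚ) • (E2 u u' y z t' * t * x))
    + (E2 u u' z x t * y * t' + E2 u u' z x t' * y * t + (3 : ℚ) • (E2 u u' z x t * t' * y)
      + (3 : ℚ) • (E2 u u' z x t' * t * y))

lemma EEP_diag (u t x y z : A) : EEP u u t t x y z = EEx u t x y z := by
  unfold EEP EEx; module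

lemma EEP_symm_t (u u' t t' x y z : A) : EEP u u' t t' x y z = EEP u u' t' t x y z := by
  unfold EEP; abel

lemma EEP_symm_u (u u' t t' x y z : A) : EEP u u' t t' x y z = EEP u' u t t' x y z := by
  unfold EEP
  simp only [E2_symm u u']

lemma EEP_add_u (u u₁ u' t t' x y z : A) :
    EEP (u + u₁) u' t t' x y z = EEP u u' t t' x y z + EEP u₁ u' t t' x y z := by
  unfold EEP
  simp only [E2_add_t, add_mul]
  module

lemma EEP_add_t (u u' t t₁ t' x y z : A) :
    EEP u u' (t + t₁) t' x y z = EEP u u' t t' x y z + EEP u u' t₁ t' x y z := by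
  unfold EEP
  simp only [E2_add_right, add_mul, mul_add]
  module

lemma EEP_add_u' (u u' u₁ t t' x y z : A) :
    EEP u (u' + u₁) t t' x y z = EEP u u' t t' x y z + EEP u u₁ t t' x y z := by
  rw [EEP_symm_u, EEP_add_u, EEP_symm_u u' u, EEP_symm_u u₁ u]

lemma EEP_add_t' (u u' t t' t₁ x y z : A) :
    EEP u u' t (t' + t₁) x y z = EEP u u' t t' x y z + EEP u u' t t₁ x y z := by
  rw [EEP_symm_t, EEP_add_t, EEP_symm_t u u' t' t, EEP_symm_t u u' t₁ t]

theorem Comm1 (u t t' x y z : A) : EEP u u t t' x y z = EEP t t' u u x y z := by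
  have h : ∀ t : A, EEP u u t t x y z = EEP t t u u x y z := fun t => by
    rw [EEP_diag, EEP_diag, Comm_id]
  have h1 := h t
  have h2 := h t'
  have h3 := h (t + t')
  rw [EEP_add_t, EEP_add_t', EEP_add_t', EEP_add_u, EEP_add_u', EEP_add_u',
    EEP_symm_t u u t' t, EEP_symm_u t' t] at h3
  linear_combination (norm := module) (1/2 : ℚ) • h3 - (1/2 : ℚ) • h1 - (1/2 : ℚ) • h2

theorem CommP (u u' t t' x y z : A) : EEP u u' t t' x y z = EEP t t' u u' x y z := by
  have h1 := Comm1 u t t' x y z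
  have h2 := Comm1 u' t t' x y z
  have h3 := Comm1 (u + u') t t' x y z
  rw [EEP_add_t, EEP_add_t', EEP_add_t', EEP_add_u, EEP_add_u', EEP_add_u',
    EEP_symm_t t t' u' u, EEP_symm_u u' u] at h3
  linear_combination (norm := module) (1/2 : ℚ) • h3 - (1/2 : ℚ) • h1 - (1/2 : ℚ) • h2

end Pool.Agent.H1.Mal
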