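import Pool.Agent.H1.Mal.Slice

/-!
# Independence of the covariants over the ring of invariants
-/

set_option autoImplicit false
set_option linter.unusedSectionVars false
set_option linter.unusedSimpArgs false
set_option linter.unusedVariables false

namespace Pool.Agent.H1.Mal

open MvPolynomial

/-- evaluation with given values of the invariants -/
noncomputable def evQ (Q : Sym2 (Fin 4) → ℂ) : R0 →+* ℂ := eval₂Hom (algebraMap ℚ ℂ) Q
noncomputable def evQT (Q : Sym2 (Fin 4) → ℂ) (T : Fin 4 → ℂ) : S4 →+* ℂ := eval₂Hom (evQ Q) T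

lemma evS_eq (p : Pt) : evS p = evQT (qval p) (tval p) := rfl

lemma evQ_cont (r : R0) : Continuous fun Q : Sym2 (Fin 4) → ℂ => evQ Q r := by
  induction r using MvPolynomial.induction_on with
  | C c =>
    have : ∀ Q : Sym2 (Fin 4) → ℂ, evQ Q (C c) = algebraMap ℚ ℂ c := by
      intro Q; unfold evQ; rw [eval₂Hom_C]
    simp only [this]
    exact continuous_const
  | add p q hp hq => simp only [map_add]; exact hp.add hq
  | mul_X p i hp =>
    have : ∀ Q : Sym2 (Fin 4) → ℂ, evQ Q (X i) = Q i := by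
      intro Q; unfold evQ; rw [eval₂Hom_X']
    simp only [map_mul, this]
    exact hp.mul (continuous_apply i)

lemma evQT_cont (s : S4) (T : Fin 4 → ℂ) : Continuous fun Q : Sym2 (Fin 4) → ℂ => evQT Q T s := by
  induction s using MvPolynomial.induction_on with
  | C c =>
    have : ∀ Q : Sym2 (Fin 4) → ℂ, evQT Q T (C c) = evQ Q c := by
      intro Q; unfold evQT; rw [eval₂Hom_C]
    simp only [this]
    exact evQ_cont c
  | add p q hp hq => simp only [map_add]; exact hp.add hq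
  | mul_X p i hp =>
    have : ∀ Q : Sym2 (Fin 4) → ℂ, evQT Q T (X i) = T i := by
      intro Q; unfold evQT; rw [eval₂Hom_X']
    simp only [map_mul, this]
    exact hp.mul continuous_const

lemma dens (s : S4) (Q : Sym2 (Fin 4) → ℂ) (T : Fin 4 → ℂ) (i : Sym2 (Fin 4)) (y0 : ℂ)
    (h : ∀ y, y ≠ y0 → evQT (Function.update Q i y) T s = 0) : evQT Q T s = 0 := by
  have hc : Continuous fun y : ℂ => evQT (Function.update Q i y) T s :=
    (evQT_cont s T).comp (continuous_const.update i continuous_id)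
  have h2 : (fun y : ℂ => evQT (Function.update Q i y) T s) = fun _ => 0 :=
    Continuous.ext_on (dense_compl_singleton y0) hc continuous_const (fun y hy => h y hy)
  have := congrFun h2 (Q i)
  simpa using this

lemma evQ_inj {r : R0} (h : ∀ Q, evQ Q r = 0) : r = 0 := by
  have h1 : MvPolynomial.map (algebraMap ℚ ℂ) r = 0 := by
    refine MvPolynomial.funext fun Q => ?_
    rw [map_zero, MvPolynomial.eval_map]
    exact h Q
  exact MvPolynomial.map_injective (algebraMap ℚ ℂ) (algebraMap ℚ ℂ).injective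
    (by rw [h1, map_zero])

lemma evQT_inj {s : S4} (h : ∀ Q T, evQT Q T s = 0) : s = 0 := by
  ext1 m
  rw [coeff_zero]
  refine evQ_inj fun Q => ?_
  have h1 : MvPolynomial.map (evQ Q) s = 0 := by
    refine MvPolynomial.funext fun T => ?_
    rw [map_zero, MvPolynomial.eval_map]
    exact h Q T
  rw [← MvPolynomial.coeff_map, h1, coeff_zero]

lemma sq_root (z : ℂ) : ∃ w : ℂ, w * w = z := by
  obtain ⟨w, hw⟩ := IsAlgClosed.exists_pow_nat_eq z (n := 2) (by norm_num)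
  exact ⟨w, by rw [← hw]; ring⟩

/-- the invariants of a slice point -/
lemma slp_inv (Q : Sym2 (Fin 4) → ℂ) (T : Fin 4 → ℂ)
    (a0 b0 b1 c0 c1 c2 c3 d0 d1 d2 d3 d4 d5 d6 : ℂ)
    (h00 : Q s(0, 0) = a0 * a0) (h01 : Q s(0, 1) = a0 * b0) (h11 : Q s(1, 1) = b0 * b0 + b1 * b1)
    (h02 : Q s(0, 2) = a0 * c0) (h12 : Q s(1, 2) = b0 * c0 + b1 * c1)
    (h22 : Q s(2, 2) = c0 * c0 + c1 * c1 + c2 * c2 + c3 * c3)
    (h03 : Q s(0, 3) = a0 * d0) (h13 : Q s(1, 3) = b0 * d0 + b1 * d1)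
    (h23 : Q s(2, 3) = c0 * d0 + c1 * d1 + c2 * d2 + c3 * d3)
    (h33 : Q s(3, 3) = d0 * d0 + d1 * d1 + d2 * d2 + d3 * d3 + d4 * d4 + d5 * d5 + d6 * d6)
    (t3 : T 3 = a0 * b1 * c3) (t2 : T 2 = -(a0 * b1 * d3))
    (t1 : T 1 = a0 * (c1 * d3 + c2 * d6 - c3 * d1))
    (t0 : T 0 = -(b0 * (c1 * d3 + c2 * d6 - c3 * d1) + b1 * (-(c0 * d3) + c2 * d4 + c3 * d0))) :
    qval (slp a0 b0 b1 c0 c1 c2 c3 d0 d1 d2 d3 d4 d5 d6) = Q ∧
    tval (slp a0 b0 b1 c0 c1 c2 c3 d0 d1 d2 d3 d4 d5 d6) = T := by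
  constructor
  · funext s
    induction s using Sym2.ind with
    | _ i j =>
      have key : ∀ i j : Fin 4, dot (slp a0 b0 b1 c0 c1 c2 c3 d0 d1 d2 d3 d4 d5 d6 i)
          (slp a0 b0 b1 c0 c1 c2 c3 d0 d1 d2 d3 d4 d5 d6 j) = Q s(i, j) →
          dot (slp a0 b0 b1 c0 c1 c2 c3 d0 d1 d2 d3 d4 d5 d6 j)
          (slp a0 b0 b1 c0 c1 c2 c3 d0 d1 d2 d3 d4 d5 d6 i) = Q s(j, i) := by
        intro i j h
        rw [dot_comm, h, Sym2.eq_swap]
      show dot (slp a0 b0 b1 c0 c1 c2 c3 d0 d1 d2 d3 d4 d5 d6 i)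
          (slp a0 b0 b1 c0 c1 c2 c3 d0 d1 d2 d3 d4 d5 d6 j) = Q s(i, j)
      have e0 : slp a0 b0 b1 c0 c1 c2 c3 d0 d1 d2 d3 d4 d5 d6 0 = v7 a0 0 0 0 0 0 0 := rfl
      have e1 : slp a0 b0 b1 c0 c1 c2 c3 d0 d1 d2 d3 d4 d5 d6 1 = v7 b0 b1 0 0 0 0 0 := rfl
      have e2 : slp a0 b0 b1 c0 c1 c2 c3 d0 d1 d2 d3 d4 d5 d6 2 = v7 c0 c1 c2 c3 0 0 0 := rfl
      have e3 : slp a0 b0 b1 c0 c1 c2 c3 d0 d1 d2 d3 d4 d5 d6 3 = v7 d0 d1 d2 d3 d4 d5 d6 := rfl
      have k00 : dot (slp a0 b0 b1 c0 c1 c2 c3 d0 d1 d2 d3 d4 d5 d6 0)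
          (slp a0 b0 b1 c0 c1 c2 c3 d0 d1 d2 d3 d4 d5 d6 0) = Q s(0, 0) := by
        rw [e0, v7_dot, h00]; ring
      have k01 : dot (slp a0 b0 b1 c0 c1 c2 c3 d0 d1 d2 d3 d4 d5 d6 0)
          (slp a0 b0 b1 c0 c1 c2 c3 d0 d1 d2 d3 d4 d5 d6 1) = Q s(0, 1) := by
        rw [e0, e1, v7_dot, h01]; ring
      have k02 : dot (slp a0 b0 b1 c0 c1 c2 c3 d0 d1 d2 d3 d4 d5 d6 0)
          (slp a0 b0 b1 c0 c1 c2 c3 d0 d1 d2 d3 d4 d5 d6 2) = Q s(0, 2) := by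
        rw [e0, e2, v7_dot, h02]; ring
      have k03 : dot (slp a0 b0 b1 c0 c1 c2 c3 d0 d1 d2 d3 d4 d5 d6 0)
          (slp a0 b0 b1 c0 c1 c2 c3 d0 d1 d2 d3 d4 d5 d6 3) = Q s(0, 3) := by
        rw [e0, e3, v7_dot, h03]; ring
      have k11 : dot (slp a0 b0 b1 c0 c1 c2 c3 d0 d1 d2 d3 d4 d5 d6 1)
          (slp a0 b0 b1 c0 c1 c2 c3 d0 d1 d2 d3 d4 d5 d6 1) = Q s(1, 1) := by
        rw [e1, v7_dot, h11]; ring
      have k12 : dot (slp a0 b0 b1 c0 c1 c2 c3 d0 d1 d2 d3 d4 d5 d6 1)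
          (slp a0 b0 b1 c0 c1 c2 c3 d0 d1 d2 d3 d4 d5 d6 2) = Q s(1, 2) := by
        rw [e1, e2, v7_dot, h12]; ring
      have k13 : dot (slp a0 b0 b1 c0 c1 c2 c3 d0 d1 d2 d3 d4 d5 d6 1)
          (slp a0 b0 b1 c0 c1 c2 c3 d0 d1 d2 d3 d4 d5 d6 3) = Q s(1, 3) := by
        rw [e1, e3, v7_dot, h13]; ring
      have k22 : dot (slp a0 b0 b1 c0 c1 c2 c3 d0 d1 d2 d3 d4 d5 d6 2)
          (slp a0 b0 b1 c0 c1 c2 c3 d0 d1 d2 d3 d4 d5 d6 2) = Q s(2, 2) := by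
        rw [e2, v7_dot, h22]; ring
      have k23 : dot (slp a0 b0 b1 c0 c1 c2 c3 d0 d1 d2 d3 d4 d5 d6 2)
          (slp a0 b0 b1 c0 c1 c2 c3 d0 d1 d2 d3 d4 d5 d6 3) = Q s(2, 3) := by
        rw [e2, e3, v7_dot, h23]; ring
      have k33 : dot (slp a0 b0 b1 c0 c1 c2 c3 d0 d1 d2 d3 d4 d5 d6 3)
          (slp a0 b0 b1 c0 c1 c2 c3 d0 d1 d2 d3 d4 d5 d6 3) = Q s(3, 3) := by
        rw [e3, v7_dot, h33]
      clear e0 e1 e2 e3
      fin_cases i <;> fin_cases j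
      · exact k00
      · exact k01
      · exact k02
      · exact k03
      · exact key 0 1 k01
      · exact k11
      · exact k12
      · exact k13
      · exact key 0 2 k02
      · exact key 1 2 k12
      · exact k22
      · exact k23
      · exact key 0 3 k03
      · exact key 1 3 k13
      · exact key 2 3 k23
      · exact k33
  · funext l
    fin_cases l
    · show dot (v7 b0 b1 0 0 0 0 0 * v7 d0 d1 d2 d3 d4 d5 d6) (v7 c0 c1 c2 c3 0 0 0) = T 0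
      rw [v7_mul, v7_dot, t0]; ring
    · show dot (v7 a0 0 0 0 0 0 0 * v7 c0 c1 c2 c3 0 0 0) (v7 d0 d1 d2 d3 d4 d5 d6) = T 1
      rw [v7_mul, v7_dot, t1]; ring
    · show dot (v7 a0 0 0 0 0 0 0 * v7 d0 d1 d2 d3 d4 d5 d6) (v7 b0 b1 0 0 0 0 0) = T 2
      rw [v7_mul, v7_dot, t2]; ring
    · show dot (v7 a0 0 0 0 0 0 0 * v7 b0 b1 0 0 0 0 0) (v7 c0 c1 c2 c3 0 0 0) = T 3
      rw [v7_mul, v7_dot, t3]; ring

/-- value of the `J` part -/
noncomputable def valJ (p : Pt) (s : Fin 4 → S4) : O7 ℂ :=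
  ∑ l, evS p (s l) • J (p (tr l).1) (p (tr l).2.1) (p (tr l).2.2)

section main

variable {f : K10 → S4} {s : Fin 4 → S4} (h : ∀ p, val p f + valJ p s = 0)
include h

lemma indep1 (Q : Sym2 (Fin 4) → ℂ) (T : Fin 4 → ℂ) (h0 : Q s(0, 0) ≠ 0)
    (h1 : Q s(1, 1) ≠ Q s(0, 1) * Q s(0, 1) / Q s(0, 0)) :
    ∀ g : S4, ((∃ k, g = f k) ∨ ∃ l, g = s l) → evQT Q T g = 0 := by
  intro g hg
  obtain ⟨a0, ha0⟩ := sq_root (Q s(0, 0))
  have ha : a0 ≠ 0 := by rintro rfl; apply h0; rw [← ha0]; ring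
  obtain ⟨b0, hb0⟩ : ∃ b0, a0 * b0 = Q s(0, 1) := ⟨Q s(0, 1) / a0, by field_simp⟩
  obtain ⟨b1, hb1⟩ := sq_root (Q s(1, 1) - b0 * b0)
  have hb : b1 ≠ 0 := by
    rintro rfl
    apply h1
    rw [← hb0, ← ha0]
    have : Q s(1, 1) = b0 * b0 := by linear_combination -hb1
    rw [this]; field_simp
  obtain ⟨c0, hc0⟩ : ∃ c0, a0 * c0 = Q s(0, 2) := ⟨Q s(0, 2) / a0, by field_simp⟩
  obtain ⟨c1, hc1⟩ : ∃ c1, b0 * c0 + b1 * c1 = Q s(1, 2) :=
    ⟨(Q s(1, 2) - b0 * c0) / b1, by field_simp; ring⟩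
  obtain ⟨c3, hc3⟩ : ∃ c3, a0 * b1 * c3 = T 3 := ⟨T 3 / (a0 * b1), by field_simp⟩
  obtain ⟨d0, hd0⟩ : ∃ d0, a0 * d0 = Q s(0, 3) := ⟨Q s(0, 3) / a0, by field_simp⟩
  obtain ⟨d1, hd1⟩ : ∃ d1, b0 * d0 + b1 * d1 = Q s(1, 3) :=
    ⟨(Q s(1, 3) - b0 * d0) / b1, by field_simp; ring⟩
  obtain ⟨d3, hd3⟩ : ∃ d3, -(a0 * b1 * d3) = T 2 := ⟨-T 2 / (a0 * b1), by field_simp⟩
  refine dens g Q T s(2, 2) (c0 * c0 + c1 * c1 + c3 * c3) fun y hy => ?_
  obtain ⟨c2, hc2⟩ := sq_root (y - (c0 * c0 + c1 * c1 + c3 * c3))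
  have hc : c2 ≠ 0 := by
    rintro rfl
    apply hy
    linear_combination -hc2
  obtain ⟨d2, hd2⟩ : ∃ d2, c0 * d0 + c1 * d1 + c2 * d2 + c3 * d3 = Q s(2, 3) :=
    ⟨(Q s(2, 3) - c0 * d0 - c1 * d1 - c3 * d3) / c2, by field_simp; ring⟩
  obtain ⟨d6, hd6⟩ : ∃ d6, a0 * (c1 * d3 + c2 * d6 - c3 * d1) = T 1 :=
    ⟨(T 1 / a0 - c1 * d3 + c3 * d1) / c2, by field_simp; ring⟩
  obtain ⟨d4, hd4⟩ : ∃ d4, -(b0 * (c1 * d3 + c2 * d6 - c3 * d1)
      + b1 * (-(c0 * d3) + c2 * d4 + c3 * d0)) = T 0 :=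
    ⟨((-T 0 - b0 * (c1 * d3 + c2 * d6 - c3 * d1)) / b1 + c0 * d3 - c3 * d0) / c2, by
      field_simp; ring⟩
  refine dens g _ T s(3, 3) (d0 * d0 + d1 * d1 + d2 * d2 + d3 * d3 + d4 * d4 + d6 * d6)
    fun z hz => ?_
  obtain ⟨d5, hd5⟩ := sq_root (z - (d0 * d0 + d1 * d1 + d2 * d2 + d3 * d3 + d4 * d4 + d6 * d6))
  have hd : d5 ≠ 0 := by
    rintro rfl
    apply hz
    linear_combination -hd5
  have inv := fun d5' : ℂ => fun hd5' : d5' * d5' = d5 * d5 =>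
    slp_inv (Function.update (Function.update Q s(2, 2) y) s(3, 3) z) T
    a0 b0 b1 c0 c1 c2 c3 d0 d1 d2 d3 d4 d5' d6
    (by rw [Function.update_of_ne (by decide), Function.update_of_ne (by decide), ha0])
    (by rw [Function.update_of_ne (by decide), Function.update_of_ne (by decide), hb0])
    (by rw [Function.update_of_ne (by decide), Function.update_of_ne (by decide), hb1]; ring)
    (by rw [Function.update_of_ne (by decide), Function.update_of_ne (by decide), hc0])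
    (by rw [Function.update_of_ne (by decide), Function.update_of_ne (by decide), hc1])
    (by rw [Function.update_of_ne (by decide), Function.update_self]; linear_combination -hc2)
    (by rw [Function.update_of_ne (by decide), Function.update_of_ne (by decide), hd0])
    (by rw [Function.update_of_ne (by decide), Function.update_of_ne (by decide), hd1])
    (by rw [Function.update_of_ne (by decide), Function.update_of_ne (by decide), hd2])
    (by rw [Function.update_self]; linear_combination -hd5 - hd5')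
    hc3.symm hd3.symm hd6.symm hd4.symm
  have e1 := inv d5 rfl
  have e2 := inv (-d5) (by ring)
  set Q' := Function.update (Function.update Q s(2, 2) y) s(3, 3) z with hQ'
  have k1 := h (slp a0 b0 b1 c0 c1 c2 c3 d0 d1 d2 d3 d4 d5 d6)
  have k2 := h (slp a0 b0 b1 c0 c1 c2 c3 d0 d1 d2 d3 d4 (-d5) d6)
  unfold val valJ at k1 k2
  rw [evS_eq, e1.1, e1.2] at k1
  rw [evS_eq, e2.1, e2.2] at k2
  obtain ⟨r1, r2⟩ := slice_solve (fun k => evQT Q' T (f k)) (fun l => evQT Q' T (s l))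
    a0 b0 b1 c0 c1 c2 c3 d0 d1 d2 d3 d4 d5 d6 ha hb hc hd k1 k2
  rcases hg with ⟨k, rfl⟩ | ⟨l, rfl⟩
  · exact r1 k
  · exact r2 l

theorem indep : f = 0 ∧ s = 0 := by
  have key : ∀ g : S4, ((∃ k, g = f k) ∨ ∃ l, g = s l) → g = 0 := by
    intro g hg
    refine evQT_inj fun Q T => ?_
    refine dens g Q T s(0, 0) 0 fun y hy => ?_
    refine dens g _ T s(1, 1) (Q s(0, 1) * Q s(0, 1) / y) fun z hz => ?_
    refine indep1 h _ T ?_ ?_ g hg
    · rw [Function.update_of_ne (by decide), Function.update_self]; exact hy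
    · rw [Function.update_self, Function.update_of_ne (by decide : s(0, 1) ≠ s((1 : Fin 4), 1)),
        Function.update_of_ne (by decide : s(0, 1) ≠ s((0 : Fin 4), 0)),
        Function.update_of_ne (by decide : s(0, 0) ≠ s((1 : Fin 4), 1)), Function.update_self]
      exact hz
  exact ⟨funext fun k => key _ (Or.inl ⟨k, rfl⟩), funext fun l => key _ (Or.inr ⟨l, rfl⟩)⟩

end main

end Pool.Agent.H1.Mal
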