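import Pool.Agent.H1.Mal.Span

/-!
# The special elements span the Jacobian ideal
-/

set_option autoImplicit false
set_option linter.unusedSectionVars false
set_option linter.unusedSimpArgs false
set_option linter.unusedVariables false

namespace Pool.Agent.H1.Mal

open MvPolynomial

/-- right multiplication by `m` preserves `Sp` -/
def RC (m : M4) : Prop := ∀ n ∈ Sp, rm m n ∈ Sp

lemma rm_add (a b : M4) (n : Nn) : rm (a + b) n = rm a n + rm b n := by
  apply inN_inj; rw [map_add, inN_rm, inN_rm, inN_rm, mul_add]

lemma rm_smul (c : ℚ) (a : M4) (n : Nn) : rm (c • a) n = c • rm a n := by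
  apply inN_inj; rw [map_smul, inN_rm, inN_rm, mul_smul_comm]

lemma rm_neg (a : M4) (n : Nn) : rm (-a) n = -rm a n := by
  apply inN_inj; rw [map_neg, inN_rm, inN_rm, mul_neg]

lemma RC_neg {a : M4} (h : RC a) : RC (-a) := fun n hn => by
  rw [rm_neg]; exact Submodule.neg_mem _ (h n hn)

lemma RC_op {x y z : M4} (hx : RC x) (hy : RC y) (hz : RC z) (hyz : RC (y * z))
    (hxz : RC (x * z)) : RC (x * y * z) := by
  intro n hn
  have h : rm (x * y * z) n = rm z (rm y (rm x n)) - rm y (rm x (rm z n))
      - rm x (rm (y * z) n) - rm (x * z) (rm y n) := by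
    apply inN_inj
    simp only [map_sub, inN_rm]
    exact op_prod (inN n) x y z
  rw [h]
  exact Submodule.sub_mem _ (Submodule.sub_mem _ (Submodule.sub_mem _
    (hz _ (hy _ (hx _ hn))) (hy _ (hx _ (hz _ hn)))) (hx _ (hyz _ hn))) (hxz _ (hy _ hn))

lemma RC_mon (N : ℕ) : ∀ w : W4, w.length = N → RC (mon w) := by
  induction N using Nat.strong_induction_on with
  | _ N ih =>
    intro w hw
    have IH : ∀ v : W4, v.length < N → RC (mon v) := fun v hv => ih _ hv v rfl
    -- a product whose first factor is a product
    have key : ∀ x y b : W4, ((x * y) * b).length = N → RC (mon ((x * y) * b)) := by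
      intro x y b h
      rw [len_mul, len_mul] at h
      have h1 := x.length_pos
      have h2 := y.length_pos
      have h3 := b.length_pos
      rw [mon_mul, mon_mul]
      refine RC_op (IH x (by omega)) (IH y (by omega)) (IH b (by omega)) ?_ ?_
      · rw [← mon_mul]; exact IH _ (by rw [len_mul]; omega)
      · rw [← mon_mul]; exact IH _ (by rw [len_mul]; omega)
    cases w with
    | of i => exact fun n hn => rl_Sp i hn
    | mul a b =>
      cases a with
      | mul x y => exact key x y b hw
      | of i =>
        cases b with
        | mul x y =>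
          have h : mon (FreeMagma.mul (FreeMagma.of i) (FreeMagma.mul x y))
              = -mon ((x * y) * FreeMagma.of i) := by
            rw [mon_mul (x * y), anti (mon (x * y)) (mon (FreeMagma.of i)), neg_neg, ← mon_mul]
            rfl
          rw [h]
          refine RC_neg (key x y _ ?_)
          have h1 : (FreeMagma.mul (FreeMagma.of i) (FreeMagma.mul x y)).length
            = 1 + (x.length + y.length) := rfl
          rw [h1] at hw
          rw [len_mul, len_mul, len_of]; omega
        | of j =>
          intro n hn
          have h : rm (mon (FreeMagma.mul (FreeMagma.of i) (FreeMagma.of j))) n = rp i j n := by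
            apply inN_inj
            rw [inN_rm, inN_rp, show mon (FreeMagma.mul (FreeMagma.of i) (FreeMagma.of j))
              = gen i * gen j from mon_mul _ _]
          rw [h]
          exact rp_Sp i j hn

lemma mkJ_mem (N : ℕ) : ∀ a b c : W4, a.length + b.length + c.length = N →
    mkN (J (mon a) (mon b) (mon c)) (J_mem _ _ _) ∈ Sp := by
  induction N using Nat.strong_induction_on with
  | _ N ih =>
    intro a b c h
    have IH : ∀ a b c : W4, a.length + b.length + c.length < N →
      mkN (J (mon a) (mon b) (mon c)) (J_mem _ _ _) ∈ Sp := fun a b c h => ih _ h a b c rfl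
    have key : ∀ w x y z : W4, w.length + x.length + y.length + z.length = N →
        mkN (J (mon (w * x)) (mon y) (mon z)) (J_mem _ _ _) ∈ Sp := by
      intro w x y z h
      have h1 := w.length_pos
      have h2 := x.length_pos
      have h3 := y.length_pos
      have h4 := z.length_pos
      have e : mkN (J (mon (w * x)) (mon y) (mon z)) (J_mem _ _ _)
          = (1/3 : ℚ) • (rm (mon w) (mkN (J (mon x) (mon y) (mon z)) (J_mem _ _ _))
            - rm (mon x) (mkN (J (mon y) (mon z) (mon w)) (J_mem _ _ _))
            - (2 : ℚ) • rm (mon y) (mkN (J (mon z) (mon w) (mon x)) (J_mem _ _ _))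
            + (2 : ℚ) • rm (mon z) (mkN (J (mon w) (mon x) (mon y)) (J_mem _ _ _))) := by
        apply inN_inj
        simp only [map_sub, map_add, map_smul, inN_rm, inN_mk]
        rw [← J_prod, mon_mul]
        module
      rw [e]
      refine smulQ_mem (Submodule.add_mem _ (Submodule.sub_mem _ (Submodule.sub_mem _
        (RC_mon _ w rfl _ (IH _ _ _ (by omega))) (RC_mon _ x rfl _ (IH _ _ _ (by omega))))
        (smulQ_mem (RC_mon _ y rfl _ (IH _ _ _ (by omega))) _))
        (smulQ_mem (RC_mon _ z rfl _ (IH _ _ _ (by omega))) _)) _
    cases a with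
    | mul w x =>
      have h1 : (FreeMagma.mul w x).length = w.length + x.length := rfl
      exact key w x b c (by omega)
    | of i =>
      cases b with
      | mul w x =>
        have h1 : (FreeMagma.mul w x).length = w.length + x.length := rfl
        have e : mkN (J (mon (FreeMagma.of i)) (mon (FreeMagma.mul w x)) (mon c)) (J_mem _ _ _)
            = mkN (J (mon (w * x)) (mon c) (mon (FreeMagma.of i))) (J_mem _ _ _) := by
          apply inN_inj; rw [inN_mk, inN_mk, J_cyc]; rfl
        rw [e]
        exact key w x c _ (by omega)
      | of j =>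
        cases c with
        | mul w x =>
          have h1 : (FreeMagma.mul w x).length = w.length + x.length := rfl
          have e : mkN (J (mon (FreeMagma.of i)) (mon (FreeMagma.of j)) (mon (FreeMagma.mul w x)))
              (J_mem _ _ _)
              = mkN (J (mon (w * x)) (mon (FreeMagma.of i)) (mon (FreeMagma.of j)))
                (J_mem _ _ _) := by
            apply inN_inj; rw [inN_mk, inN_mk, ← J_cyc]; rfl
          rw [e]
          exact key w x _ _ (by omega)
        | of k => exact J_sp i j k

/-- every element of the Jacobian ideal is in the span -/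
theorem mem_Sp (n : Nn) : n ∈ Sp := by
  have h1 : ∀ x y z : M4, mkN (J x y z) (J_mem _ _ _) ∈ Sp := by
    have s1 : ∀ a b : W4, ∀ z : M4, mkN (J (mon a) (mon b) z) (J_mem _ _ _) ∈ Sp := by
      intro a b z
      induction z using FMal.ind with
      | hmon c => exact mkJ_mem _ a b c rfl
      | hzero =>
        have e : mkN (J (mon a) (mon b) 0) (J_mem _ _ _) = 0 := by
          apply inN_inj; rw [inN_mk, J_zero_right, map_zero]
        rw [e]; exact Submodule.zero_mem _
      | hadd x y hx hy =>
        have e : mkN (J (mon a) (mon b) (x + y)) (J_mem _ _ _)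
            = mkN (J (mon a) (mon b) x) (J_mem _ _ _) + mkN (J (mon a) (mon b) y) (J_mem _ _ _) := by
          apply inN_inj; rw [map_add, inN_mk, inN_mk, inN_mk, J_add_right]
        rw [e]; exact Submodule.add_mem _ hx hy
      | hsmul c x hx =>
        have e : mkN (J (mon a) (mon b) (c • x)) (J_mem _ _ _)
            = c • mkN (J (mon a) (mon b) x) (J_mem _ _ _) := by
          apply inN_inj; rw [map_smul, inN_mk, inN_mk, J_smul_right]
        rw [e]; exact smulQ_mem hx _
    have s2 : ∀ a : W4, ∀ y z : M4, mkN (J (mon a) y z) (J_mem _ _ _) ∈ Sp := by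
      intro a y z
      induction y using FMal.ind with
      | hmon c => exact s1 a c z
      | hzero =>
        have e : mkN (J (mon a) 0 z) (J_mem _ _ _) = 0 := by
          apply inN_inj; rw [inN_mk, J_zero_mid, map_zero]
        rw [e]; exact Submodule.zero_mem _
      | hadd x y hx hy =>
        have e : mkN (J (mon a) (x + y) z) (J_mem _ _ _)
            = mkN (J (mon a) x z) (J_mem _ _ _) + mkN (J (mon a) y z) (J_mem _ _ _) := by
          apply inN_inj; rw [map_add, inN_mk, inN_mk, inN_mk, J_add_mid]
        rw [e]; exact Submodule.add_mem _ hx hy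
      | hsmul c x hx =>
        have e : mkN (J (mon a) (c • x) z) (J_mem _ _ _)
            = c • mkN (J (mon a) x z) (J_mem _ _ _) := by
          apply inN_inj; rw [map_smul, inN_mk, inN_mk, J_smul_mid]
        rw [e]; exact smulQ_mem hx _
    intro w y z
    induction w using FMal.ind with
    | hmon c => exact s2 c y z
    | hzero =>
      have e : mkN (J 0 y z) (J_mem (0 : M4) _ _) = 0 := by
        apply inN_inj; rw [inN_mk, J_zero_left, map_zero]
      rw [e]; exact Submodule.zero_mem _
    | hadd x x' hx hy =>
      have e : mkN (J (x + x') y z) (J_mem _ _ _)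
          = mkN (J x y z) (J_mem _ _ _) + mkN (J x' y z) (J_mem _ _ _) := by
        apply inN_inj; rw [map_add, inN_mk, inN_mk, inN_mk, J_add_left]
      rw [e]; exact Submodule.add_mem _ hx hy
    | hsmul c x hx =>
      have e : mkN (J (c • x) y z) (J_mem _ _ _)
          = c • mkN (J x y z) (J_mem _ _ _) := by
        apply inN_inj; rw [map_smul, inN_mk, inN_mk, J_smul_left]
      rw [e]; exact smulQ_mem hx _
  have h2 : ∀ m : M4, ∀ hm : m ∈ NN M4, mkN m hm ∈ Sp := by
    intro m hm
    induction hm using Submodule.span_induction with
    | mem x hx =>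
      obtain ⟨a, b, c, rfl⟩ := hx
      exact h1 a b c
    | zero =>
      have e : mkN 0 (Submodule.zero_mem (NN M4)) = 0 := by
        apply inN_inj; rw [inN_mk, map_zero]
      rw [e]; exact Submodule.zero_mem _
    | add x y hx' hy' hx hy =>
      have e : mkN (x + y) (Submodule.add_mem _ hx' hy') = mkN x hx' + mkN y hy' := by
        apply inN_inj; rfl
      rw [e]; exact Submodule.add_mem _ hx hy
    | smul c x hx' hx =>
      have e : mkN (c • x) (Submodule.smul_mem _ c hx') = c • mkN x hx' := by
        apply inN_inj; rfl
      rw [e]; exact smulQ_mem hx _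
  exact h2 (inN n) (inN_mem n)

end Pool.Agent.H1.Mal
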