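import Pool.Agent.H1.Mal.Indep
import Pool.Agent.H1.Mal.Span2

/-!
# Elements of the Jacobian ideal with zero values lie in the free part
-/

set_option autoImplicit false
set_option linter.unusedSectionVars false
set_option linter.unusedSimpArgs false
set_option linter.unusedVariables false

namespace Pool.Agent.H1.Mal

open MvPolynomial

noncomputable def Gl (l : Fin 4) : P0 →ₗ[R0] Nn := Gam (tr l).1 (tr l).2.1 (tr l).2.2
noncomputable def Tl (l : Fin 4) : P0 →ₗ[R0] P0 := TT qx (tr l).1 (tr l).2.1 (tr l).2.2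

abbrev P4 : Type := K10 → S4

noncomputable abbrev io : P0 →ₗ[R0] P4 := iotaP (Fin 4) K10 R0

/-- all the maps `Γ_l` together -/
noncomputable def EG : (Fin 4 → P4) →ₗ[S4] Nn := ∑ l, extM (Gl l) ∘ₗ LinearMap.proj l

lemma EG_apply (f : Fin 4 → P4) : EG f = ∑ l, extM (Gl l) (f l) := by
  unfold EG
  rw [LinearMap.sum_apply]
  rfl

lemma EG_single (l : Fin 4) (g : P4) : EG (Pi.single l g) = extM (Gl l) g := by
  rw [EG_apply, Finset.sum_eq_single l]
  · rw [Pi.single_eq_same]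
  · intro j _ hj
    rw [Pi.single_eq_of_ne hj, map_zero]
  · intro h; exact absurd (Finset.mem_univ l) h

lemma Gl_EG (l : Fin 4) (p : P0) : Gl l p ∈ LinearMap.range EG :=
  ⟨Pi.single l (io p), by rw [EG_single, extM_iota]⟩

lemma Gam_EG (x y z : Fin 4) (p : P0) : Gam x y z p ∈ LinearMap.range EG := by
  refine alt3_P (P := fun x y z => Gam x y z p ∈ LinearMap.range EG) ?_ ?_ ?_ (Gl_EG 0 p)
    (Gl_EG 1 p) (Gl_EG 2 p) (Gl_EG 3 p) x y z
  · intro x y z h; rw [Gam_s12, LinearMap.neg_apply]; exact Submodule.neg_mem _ h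
  · intro x y z h; rw [Gam_s23, LinearMap.neg_apply]; exact Submodule.neg_mem _ h
  · intro x z
    have : Gam x x z = 0 := by
      refine LL_ext (fun w => ?_) (fun v w => ?_)
      · rw [Gam_e1, gn_self]; rfl
      · rw [Gam_e2, hn_self]; rfl
    rw [this]; exact Submodule.zero_mem _

theorem decomp (n : Nn) : ∃ (f : Fin 4 → P4) (a b : Nn), a ∈ Nf ∧ b ∈ SJ ∧ n = EG f + (a + b) := by
  have h : n ∈ LinearMap.range EG ⊔ (Nf ⊔ SJ) := by
    have h0 := mem_Sp n
    unfold Sp at h0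
    refine Submodule.span_le.2 ?_ h0
    rintro n (⟨x, y, z, rfl⟩ | ⟨x, y, z, w, rfl⟩ | ⟨x, y, z, v, w, rfl⟩ |
      ⟨x, y, z, v, w, m, rfl⟩ | ⟨x, y, z, m, v, w, k, rfl⟩)
    · exact Submodule.mem_sup_right (Submodule.mem_sup_right (Jn_mem _ _ _))
    · rw [← Gam_e1]; exact Submodule.mem_sup_left (Gam_EG _ _ _ _)
    · rw [← Gam_e2]; exact Submodule.mem_sup_left (Gam_EG _ _ _ _)
    · exact Submodule.mem_sup_right (Submodule.mem_sup_left (Bn_mem _ _ _ _ _ _))
    · exact Submodule.mem_sup_right (Submodule.mem_sup_left (Cn_mem _ _ _ _ _ _ _))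
  obtain ⟨e, ⟨f, rfl⟩, c, hc, rfl⟩ := Submodule.mem_sup.1 h
  obtain ⟨a, ha, b, hb, rfl⟩ := Submodule.mem_sup.1 hc
  exact ⟨f, a, b, ha, hb, rfl⟩

/-- the relations among vectors -/
noncomputable def Rf : Submodule R0 P0 := Submodule.span R0
  ({q | ∃ x y z u v w, q = bt x y z u (e2 R0 v w)} ∪
   {q | ∃ x y z u v w n, q = mmu qx n (bt x y z u (e2 R0 v w))})

noncomputable def Rs : Submodule S4 P4 := Submodule.span S4 (io '' Rf)

lemma io_mem {q : P0} (h : q ∈ Rf) : io q ∈ Rs := Submodule.subset_span ⟨q, h, rfl⟩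

lemma bt_Rf (x y z u v w : Fin 4) : bt x y z u (e2 R0 v w) ∈ Rf :=
  Submodule.subset_span (Or.inl ⟨x, y, z, u, v, w, rfl⟩)
lemma mbt_Rf (x y z u v w n : Fin 4) : mmu qx n (bt x y z u (e2 R0 v w)) ∈ Rf :=
  Submodule.subset_span (Or.inr ⟨x, y, z, u, v, w, n, rfl⟩)

/-- values of elements of `Nf` -/
lemma val_Nf {n : Nn} (h : n ∈ Nf) : ∃ F ∈ Rs, ∀ p, Vn p n = (9 : ℂ) • val p F := by
  unfold Nf at h
  induction h using Submodule.span_induction with
  | mem x hx =>
    rcases hx with ⟨k, rfl⟩ | ⟨k, rfl⟩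
    · refine ⟨io (bt 0 1 2 3 (e2 R0 (pr k).1 (pr k).2)), io_mem (bt_Rf _ _ _ _ _ _), fun p => ?_⟩
      rw [val_iota, ← Vn_Bm, Bm_e2]; rfl
    · refine ⟨io (mmu qx (tr k).2.2 (bt 0 1 2 3 (e2 R0 (tr k).1 (tr k).2.1))),
        io_mem (mbt_Rf _ _ _ _ _ _ _), fun p => ?_⟩
      rw [val_iota, ← Vn_Cn]; rfl
  | zero => exact ⟨0, Submodule.zero_mem _, fun p => by rw [Vn_zero, val_zero, smul_zero]⟩
  | add x y _ _ hx hy =>
    obtain ⟨F, hF, h1⟩ := hx
    obtain ⟨G, hG, h2⟩ := hy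
    exact ⟨F + G, Submodule.add_mem _ hF hG, fun p => by rw [Vn_add, h1, h2, val_add, smul_add]⟩
  | smul c x _ hx =>
    obtain ⟨F, hF, h1⟩ := hx
    exact ⟨c • F, Submodule.smul_mem _ _ hF, fun p => by
      rw [Vn_smul, h1, val_smul, smul_comm]⟩

/-- values of elements of `SJ` -/
lemma val_SJ {n : Nn} (h : n ∈ SJ) :
    ∃ s : Fin 4 → S4, n = ∑ l, s l • Jk l ∧ ∀ p, Vn p n = valJ p s := by
  unfold SJ at h
  obtain ⟨s, hs⟩ := (Submodule.mem_span_range_iff_exists_fun S4).1 h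
  refine ⟨s, hs.symm, fun p => ?_⟩
  have hsum : ∀ g : Fin 4 → Nn, Vn p (∑ l, g l) = ∑ l, Vn p (g l) := by
    intro g
    let φ : Nn →+ O7 ℂ := ⟨⟨Vn p, Vn_zero p⟩, Vn_add p⟩
    exact map_sum φ g Finset.univ
  rw [← hs, hsum]
  unfold valJ
  refine Finset.sum_congr rfl fun l _ => ?_
  rw [Vn_smul, Jk, Vn_Jn]

lemma nine_smul (p : Pt) (F : P4) : (9 : ℂ) • val p F = val p ((9 : S4) • F) := by
  rw [val_smul, map_ofNat]

/-- no Jacobian part -/
lemma noJ {n : Nn} (h : n ∈ Nf ⊔ SJ) (F : P4) (hF : ∀ p, Vn p n = val p F) : n ∈ Nf := by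
  obtain ⟨a, ha, b, hb, rfl⟩ := Submodule.mem_sup.1 h
  obtain ⟨Fa, _, h1⟩ := val_Nf ha
  obtain ⟨s, hs, h2⟩ := val_SJ hb
  have h3 : ∀ p, val p ((9 : S4) • Fa - F) + valJ p s = 0 := by
    intro p
    rw [val_sub, ← hF, Vn_add, h1, ← nine_smul, h2]; abel
  have h4 := (indep h3).2
  have hb0 : b = 0 := by
    rw [hs, h4]; simp
  rw [hb0, add_zero]; exact ha

lemma Vn_Gl (l : Fin 4) (p : Pt) (q : P0) :
    Vn p (Gl l q) = (9 : ℂ) • val p ((X l : S4) • io q - io (Tl l q)) := by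
  unfold Gl
  rw [Vn_Gam, val_sub, val_smul, val_iota, val_iota, evS_X]
  rfl

lemma h1a (l x y z u : Fin 4) (q : P0) : Gl l (bt x y z u q) ∈ Nf := by
  refine noJ (Gam_bt _ _ _ _ _ _ _ _) ((9 : S4) • ((X l : S4) • io (bt x y z u q)
    - io (Tl l (bt x y z u q)))) fun p => ?_
  rw [← nine_smul, ← Vn_Gl]

lemma h1b (l x y z u n : Fin 4) (q : P0) : Gl l (mmu qx n (bt x y z u q)) ∈ Nf := by
  have h := rl_Gam (tr l).1 (tr l).2.1 (tr l).2.2 n (bt x y z u q)
  have h2 : Gl l (mmu qx n (bt x y z u q)) = rl n (Gl l (bt x y z u q))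
      - (top3R (tr l).1 (tr l).2.1 (tr l).2.2 (cc n (bt x y z u q))
        - cc n (TT qx (tr l).1 (tr l).2.1 (tr l).2.2 (bt x y z u q)))
      - Bm (tr l).1 (tr l).2.1 (tr l).2.2 n (bt x y z u q) := by
    unfold Gl
    rw [h]; abel
  refine noJ ?_ ((9 : S4) • ((X l : S4) • io (mmu qx n (bt x y z u q))
    - io (Tl l (mmu qx n (bt x y z u q))))) fun p => ?_
  · rw [h2]
    exact Submodule.sub_mem _ (Submodule.sub_mem _ (rl_Nf _ (h1a _ _ _ _ _ _))
      (Submodule.mem_sup_right (Submodule.sub_mem _ (top3R_mem (cc_mem _ _) _ _ _)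
        (cc_mem _ _)))) (Submodule.mem_sup_left (Bm_mem _ _ _ _ _))
  · rw [← nine_smul, ← Vn_Gl]

lemma h1 (l : Fin 4) : ∀ p ∈ Rf, Gl l p ∈ Nf := by
  intro p hp
  unfold Rf at hp
  induction hp using Submodule.span_induction with
  | mem x hx =>
    rcases hx with ⟨x, y, z, u, v, w, rfl⟩ | ⟨x, y, z, u, v, w, n, rfl⟩
    · exact h1a _ _ _ _ _ _
    · exact h1b _ _ _ _ _ _ _
  | zero => rw [map_zero]; exact Submodule.zero_mem _
  | add x y _ _ hx hy => rw [map_add]; exact Submodule.add_mem _ hx hy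
  | smul c x _ hx => rw [map_smul]; exact smulR_mem hx c

/-- constant coefficients -/
lemma ct_mem {f : P4} (h : f ∈ Rs) : (fun k => constantCoeff (f k)) ∈ Rf := by
  unfold Rs at h
  induction h using Submodule.span_induction with
  | mem x hx =>
    obtain ⟨q, hq, rfl⟩ := hx
    have : (fun k => constantCoeff (io q k)) = q := by
      funext k
      show constantCoeff (C (q k)) = q k
      rw [constantCoeff_C]
    rw [this]; exact hq
  | zero =>
    have : (fun k => constantCoeff ((0 : P4) k)) = (0 : P0) := by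
      funext k
      rw [Pi.zero_apply, Pi.zero_apply, map_zero]
    rw [this]; exact Submodule.zero_mem _
  | add x y _ _ hx hy =>
    have : (fun k => constantCoeff ((x + y) k)) = (fun k => constantCoeff (x k))
        + (fun k => constantCoeff (y k)) := by
      funext k
      rw [Pi.add_apply, Pi.add_apply, map_add]
    rw [this]; exact Submodule.add_mem _ hx hy
  | smul c x _ hx =>
    have : (fun k => constantCoeff ((c • x) k)) = constantCoeff c
        • (fun k => constantCoeff (x k)) := by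
      funext k
      rw [Pi.smul_apply, Pi.smul_apply, smul_eq_mul, smul_eq_mul, map_mul]
    rw [this]; exact Submodule.smul_mem _ _ hx

lemma io_Rs {q : P0} (h : io q ∈ Rs) : q ∈ Rf := by
  have := ct_mem h
  have h2 : (fun k => constantCoeff (io q k)) = q := by
    funext k
    show constantCoeff (C (q k)) = q k
    rw [constantCoeff_C]
  rw [h2] at this
  exact this

lemma valJ_zero (p : Pt) : valJ p 0 = 0 := by
  unfold valJ; simp

lemma val_inj {F G : P4} (h : ∀ p, val p F = val p G) : F = G := by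
  have h2 : ∀ p, val p (F - G) + valJ p 0 = 0 := by
    intro p; rw [val_sub, h, valJ_zero, sub_self, add_zero]
  exact sub_eq_zero.1 (indep h2).1

lemma val9_inj {F G : P4} (h : ∀ p, (9 : ℂ) • val p F = (9 : ℂ) • val p G) : F = G := by
  refine val_inj fun p => ?_
  exact smul_right_injective _ (by norm_num : (9 : ℂ) ≠ 0) (h p)

lemma h1' (l : Fin 4) : ∀ p ∈ Rf, Tl l p ∈ Rf := by
  intro q hq
  obtain ⟨F, hF, h2⟩ := val_Nf (h1 l q hq)
  have h3 : (X l : S4) • io q - io (Tl l q) = F := val9_inj fun p => by rw [← Vn_Gl, h2]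
  have h4 : io (Tl l q) = (X l : S4) • io q - F := by rw [← h3]; abel
  exact io_Rs (by rw [h4]; exact Submodule.sub_mem _ (Submodule.smul_mem _ _ (io_mem hq)) hF)

lemma h3 (l m : Fin 4) (p : P0) : (X l : S4) • Gl m p + Gl l (Tl m p)
    - ((X m : S4) • Gl l p + Gl m (Tl l p)) ∈ Nf := by
  have h := kap_tr l m p
  have h2 : (X l : S4) • Gl m p + Gl l (Tl m p) - ((X m : S4) • Gl l p + Gl m (Tl l p))
      = kap (tr l).1 (tr l).2.1 (tr l).2.2 (tr m).1 (tr m).2.1 (tr m).2.2 p := by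
    rw [smulS_X, smulS_X]
    unfold kap Gl Tl
    abel
  rw [h2]; exact h

lemma h2 (l m : Fin 4) (p : P0) : Tl l (Tl m p) - Tl m (Tl l p) ∈ Rf := by
  obtain ⟨F, hF, hv⟩ := val_Nf (h3 m l p)
  have hk : io (Tl l (Tl m p) - Tl m (Tl l p)) = F := by
    refine val9_inj fun p' => ?_
    rw [← hv, Vn_sub, Vn_add, Vn_add, Vn_smul, Vn_smul, Vn_Gl, Vn_Gl, Vn_Gl, Vn_Gl, map_sub]
    simp only [val_sub, val_smul]
    module
  exact io_Rs (by rw [hk]; exact hF)

lemma Vn_ext (l : Fin 4) (p : Pt) (g : P4) : Vn p (extM (Gl l) g)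
    = (9 : ℂ) • val p ((X l : S4) • g - extM (io ∘ₗ Tl l) g) := by
  have hsumV : ∀ g : K10 → Nn, Vn p (∑ l, g l) = ∑ l, Vn p (g l) := by
    intro g
    let φ : Nn →+ O7 ℂ := ⟨⟨Vn p, Vn_zero p⟩, Vn_add p⟩
    exact map_sum φ g Finset.univ
  have hsumv : ∀ g : K10 → P4, val p (∑ l, g l) = ∑ l, val p (g l) := by
    intro g
    let φ : P4 →+ O7 ℂ := ⟨⟨val p, val_zero p⟩, val_add p⟩
    exact map_sum φ g Finset.univ
  have key : (X l : S4) • g - extM (io ∘ₗ Tl l) g
      = ∑ k, g k • ((X l : S4) • io (Pi.single k 1) - io (Tl l (Pi.single k 1))) := by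
    have hg : g = ∑ k, g k • io (Pi.single k (1 : R0)) := by
      funext j
      rw [Finset.sum_apply, Finset.sum_eq_single j]
      · rw [Pi.smul_apply, smul_eq_mul]
        show g j = g j * C ((Pi.single j (1 : R0) : P0) j)
        rw [Pi.single_eq_same, C_1, mul_one]
      · intro k _ hk
        rw [Pi.smul_apply, smul_eq_mul]
        show g k * C ((Pi.single k (1 : R0) : P0) j) = 0
        rw [Pi.single_eq_of_ne (Ne.symm hk), C_0, mul_zero]
      · intro h; exact absurd (Finset.mem_univ j) h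
    have hg' : (X l : S4) • g = ∑ k, g k • ((X l : S4) • io (Pi.single k (1 : R0))) := by
      conv_lhs => rw [hg]
      rw [Finset.smul_sum]
      refine Finset.sum_congr rfl fun k _ => ?_
      rw [smul_comm]
    rw [hg', extM, Fintype.linearCombination_apply, ← Finset.sum_sub_distrib]
    refine Finset.sum_congr rfl fun k _ => ?_
    rw [smul_sub]; rfl
  rw [key, hsumv, extM, Fintype.linearCombination_apply, hsumV, Finset.smul_sum]
  refine Finset.sum_congr rfl fun k _ => ?_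
  rw [Vn_smul, Vn_Gl, val_smul, smul_comm]

/-- **Main reduction**: elements with zero values lie in `Nf`. -/
theorem mem_Nf {n : Nn} (h : ∀ p, Vn p n = 0) : n ∈ Nf := by
  obtain ⟨f, a, b, ha, hb, rfl⟩ := decomp n
  obtain ⟨Fa, hFa, h1v⟩ := val_Nf ha
  obtain ⟨s, hs, h2v⟩ := val_SJ hb
  have hsumV : ∀ p, ∀ g : Fin 4 → Nn, Vn p (∑ l, g l) = ∑ l, Vn p (g l) := by
    intro p g
    let φ : Nn →+ O7 ℂ := ⟨⟨Vn p, Vn_zero p⟩, Vn_add p⟩
    exact map_sum φ g Finset.univ
  have hsumv : ∀ p, ∀ g : Fin 4 → P4, val p (∑ l, g l) = ∑ l, val p (g l) := by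
    intro p g
    let φ : P4 →+ O7 ℂ := ⟨⟨val p, val_zero p⟩, val_add p⟩
    exact map_sum φ g Finset.univ
  set D : P4 := ∑ l, ((X l : S4) • f l - extM (io ∘ₗ Tl l) (f l)) with hD
  have hE : ∀ p, Vn p (EG f) = (9 : ℂ) • val p D := by
    intro p
    rw [EG_apply, hsumV, hD, hsumv, Finset.smul_sum]
    refine Finset.sum_congr rfl fun l _ => ?_
    rw [Vn_ext]
  have hz : ∀ p, val p ((9 : S4) • (D + Fa)) + valJ p s = 0 := by
    intro p
    rw [← nine_smul, val_add, smul_add, ← hE, ← h1v, ← h2v, ← h p, Vn_add, Vn_add]; abel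
  obtain ⟨i1, i2⟩ := indep hz
  have hD0 : D + Fa = 0 := by
    rcases smul_eq_zero.1 i1 with h9 | h9
    · exact absurd h9 (by norm_num)
    · exact h9
  have hb0 : b = 0 := by rw [hs, i2]; simp
  have hDR : D ∈ Rs := by
    rw [eq_neg_of_add_eq_zero_left hD0]
    exact Submodule.neg_mem _ hFa
  have hmain := mod_main Gl Tl Nf Rf h1 h1' h2 h3 f hDR
  rw [hb0, add_zero]
  exact Submodule.add_mem _ (by rw [EG_apply]; exact hmain) ha

end Pool.Agent.H1.Mal
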