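import Mathlib

/-!
# The free module on `V ⊕ Λ²V`
-/

set_option autoImplicit false
set_option linter.unusedSectionVars false
set_option linter.unusedSimpArgs false

namespace Pool.Agent.H1.Mal

abbrev K10 : Type := Fin 4 ⊕ Fin 6

def pr : Fin 6 → Fin 4 × Fin 4 := ![(0, 1), (0, 2), (0, 3), (1, 2), (1, 3), (2, 3)]

variable {A : Type} [CommRing A]

/-- basis vectors of `V` -/
def e1 (A : Type) [CommRing A] (w : Fin 4) : K10 → A := Pi.single (Sum.inl w) 1

/-- basis vectors of `Λ²V` -/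
def eP (A : Type) [CommRing A] (k : Fin 6) : K10 → A := Pi.single (Sum.inr k) 1

def e2 (A : Type) [CommRing A] (i j : Fin 4) : K10 → A :=
  (![![0, eP A 0, eP A 1, eP A 2], ![-eP A 0, 0, eP A 3, eP A 4], ![-eP A 1, -eP A 3, 0, eP A 5],
    ![-eP A 2, -eP A 4, -eP A 5, 0]] : Fin 4 → Fin 4 → K10 → A) i j

lemma e2_self (i : Fin 4) : e2 A i i = 0 := by
  fin_cases i <;> rfl

lemma e2_swap (i j : Fin 4) : e2 A i j = -e2 A j i := by
  fin_cases i <;> fin_cases j <;> first | rfl | exact (neg_neg _).symm | exact neg_zero.symm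

lemma e2_pr (k : Fin 6) : e2 A (pr k).1 (pr k).2 = eP A k := by
  fin_cases k <;> rfl

variable {N : Type} [AddCommGroup N] [Module A N]

/-- linear map from its values -/
def LL (a : Fin 4 → N) (b : Fin 4 → Fin 4 → N) : (K10 → A) →ₗ[A] N :=
  Fintype.linearCombination A (Sum.elim a (fun k => b (pr k).1 (pr k).2))

lemma LL_e1 (a : Fin 4 → N) (b : Fin 4 → Fin 4 → N) (w : Fin 4) : LL a b (e1 A w) = a w := by
  unfold LL e1
  rw [Fintype.linearCombination_apply_single, one_smul]
  rfl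

lemma LL_eP (a : Fin 4 → N) (b : Fin 4 → Fin 4 → N) (k : Fin 6) :
    LL a b (eP A k) = b (pr k).1 (pr k).2 := by
  unfold LL eP
  rw [Fintype.linearCombination_apply_single, one_smul]
  rfl

lemma LL_e2 (a : Fin 4 → N) (b : Fin 4 → Fin 4 → N) (hb : ∀ v, b v v = 0)
    (hb' : ∀ v w, b v w = -b w v) (v w : Fin 4) : LL a b (e2 A v w) = b v w := by
  have key : ∀ k : Fin 6, LL a b (e2 A (pr k).1 (pr k).2) = b (pr k).1 (pr k).2 := by
    intro k; rw [e2_pr, LL_eP]
  have h0 := key 0
  have h1 := key 1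
  have h2 := key 2
  have h3 := key 3
  have h4 := key 4
  have h5 := key 5
  simp only [pr, Matrix.cons_val_zero, Matrix.cons_val_one, Matrix.cons_val, Fin.isValue] at *
  fin_cases v <;> fin_cases w <;>
    simp only [Fin.zero_eta, Fin.isValue, Fin.mk_one, Fin.reduceFinMk, e2_self, map_zero, hb,
      h0, h1, h2, h3, h4, h5] <;>
    rw [e2_swap, map_neg, hb'] <;> simp only [h0, h1, h2, h3, h4, h5]

/-- extensionality -/
lemma LL_ext {f g : (K10 → A) →ₗ[A] N} (h1 : ∀ w, f (e1 A w) = g (e1 A w))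
    (h2 : ∀ v w, f (e2 A v w) = g (e2 A v w)) : f = g := by
  refine LinearMap.pi_ext' fun k => ?_
  refine LinearMap.ext_ring ?_
  cases k with
  | inl w => exact h1 w
  | inr k =>
    have := h2 (pr k).1 (pr k).2
    rw [e2_pr] at this
    exact this

lemma K10_ind {P : (K10 → A) → Prop} (h1 : ∀ w, P (e1 A w)) (h2 : ∀ v w, P (e2 A v w))
    (hzero : P 0) (hadd : ∀ x y, P x → P y → P (x + y)) (hsmul : ∀ (c : A) x, P x → P (c • x))
    (x : K10 → A) : P x := by
  have hx : x = ∑ k, x k • (Pi.single k (1 : A) : K10 → A) := by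
    ext j; simp [Finset.sum_apply, Pi.single_apply]
  rw [hx]
  refine Finset.sum_induction _ P hadd hzero fun k _ => hsmul _ _ ?_
  cases k with
  | inl w => exact h1 w
  | inr k =>
    have := h2 (pr k).1 (pr k).2
    rw [e2_pr] at this
    exact this

section maps

variable (q : Fin 4 → Fin 4 → A)

/-- values of `T_{xyz}` on `V` -/
def T1 (x y z w : Fin 4) : K10 → A := q x w • e2 A y z + q y w • e2 A z x + q z w • e2 A x y

/-- values of `T_{xyz}` on `Λ²V` -/
def T2 (x y z v w : Fin 4) : K10 → A :=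
  q x v • (q y w • e1 A z - q z w • e1 A y) + q y v • (q z w • e1 A x - q x w • e1 A z)
    + q z v • (q x w • e1 A y - q y w • e1 A x)

lemma T2_self (x y z v : Fin 4) : T2 q x y z v v = 0 := by
  unfold T2; module

lemma T2_swap (x y z v w : Fin 4) : T2 q x y z v w = -T2 q x y z w v := by
  unfold T2; module

/-- the operator `T_{xyz}` -/
def TT (x y z : Fin 4) : (K10 → A) →ₗ[A] (K10 → A) := LL (T1 q x y z) (T2 q x y z)

lemma TT_e1 (x y z w : Fin 4) : TT q x y z (e1 A w)
    = q x w • e2 A y z + q y w • e2 A z x + q z w • e2 A x y := LL_e1 _ _ _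

lemma TT_e2 (x y z v w : Fin 4) : TT q x y z (e2 A v w)
    = q x v • (q y w • e1 A z - q z w • e1 A y) + q y v • (q z w • e1 A x - q x w • e1 A z)
    + q z v • (q x w • e1 A y - q y w • e1 A x) :=
  LL_e2 _ _ (T2_self q x y z) (T2_swap q x y z) _ _

/-- right multiplication by a letter, modulo `χ` -/
def mmu (u : Fin 4) : (K10 → A) →ₗ[A] (K10 → A) :=
  LL (fun w => e2 A w u) (fun v w => q v u • e1 A w - q w u • e1 A v)

lemma mmu_e1 (u w : Fin 4) : mmu q u (e1 A w) = e2 A w u := LL_e1 _ _ _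

lemma mmu_e2 (u v w : Fin 4) : mmu q u (e2 A v w) = q v u • e1 A w - q w u • e1 A v :=
  LL_e2 (fun w => e2 A w u) (fun v w => q v u • e1 A w - q w u • e1 A v)
    (fun _ => sub_self _) (fun v w => by abel) v w

/-- the defect of commutation -/
def bet (x y z u : Fin 4) : (K10 → A) →ₗ[A] (K10 → A) :=
  TT q x y z ∘ₗ mmu q u - mmu q u ∘ₗ TT q x y z

lemma bet_e1 (x y z u w : Fin 4) : bet q x y z u (e1 A w) = 0 := by
  simp only [bet, LinearMap.sub_apply, LinearMap.comp_apply, TT_e1, mmu_e1, TT_e2, map_add,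
    map_smul, mmu_e2]
  module

end maps

end Pool.Agent.H1.Mal
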