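import Pool.Agent.H1.Mal.IdentP
import Pool.Agent.H1.Mal.Free

/-!
# Vanishing of `kk` on the free Malcev algebra of rank four
-/

set_option autoImplicit false
set_option linter.unusedSectionVars false
set_option linter.unusedSimpArgs false

namespace Pool.Agent.H1.Mal

abbrev M4 : Type := FMal (Fin 4)
abbrev W4 : Type := FreeMagma (Fin 4)

lemma self_neg {A : Type} [AddCommGroup A] [Module ℚ A] {a : A} (h : a = -a) : a = 0 := by
  have h2 : (2 : ℚ) • a = 0 := by
    rw [two_smul]; nth_rw 2 [h]; abel
  exact (smul_eq_zero.1 h2).resolve_left (by norm_num)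

lemma len_mul (u v : W4) : (u * v).length = u.length + v.length := rfl
lemma len_of (i : Fin 4) : (FreeMagma.of i).length = 1 := rfl

/-- the value of `kk` on monomials -/
noncomputable def KK4 (t s : M4) (w x y z : W4) : M4 := kk t s (mon w) (mon x) (mon y) (mon z)

lemma KK4_s1 (t s : M4) (w x y z : W4) : KK4 t s w x y z = -KK4 t s x w y z := kk_swapw _ _ _ _ _ _
lemma KK4_s2 (t s : M4) (w x y z : W4) : KK4 t s w x y z = -KK4 t s w y x z := kk_swap _ _ _ _ _ _
lemma KK4_s3 (t s : M4) (w x y z : W4) : KK4 t s w x y z = -KK4 t s w x z y := by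
  unfold KK4
  rw [kk_cyc, kk_cyc t s (mon w) (mon y), kk_swap]

lemma KK4_m (t s : M4) (u v x y z : W4) : KK4 t s (u * v) x y z = -KK4 t s (v * u) x y z := by
  unfold KK4
  rw [mon_mul, mon_mul, anti (mon u) (mon v), show (-(mon v * mon u) : M4)
    = (-1 : ℚ) • (mon v * mon u) by module, kk_smul_w]
  module

lemma KK4_23 (t s : M4) (u v x y z : W4) (h1 : KK4 t s u v y z = 0) (h2 : KK4 t s u x y z = 0) :
    KK4 t s (u * v) x y z = -KK4 t s (u * x) v y z := by
  have h := K1pp t s (mon u) (mon v) (mon x) (mon y) (mon z)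
  have h1' : kk t s (mon u) (mon v) (mon y) (mon z) = 0 := h1
  have h2' : kk t s (mon u) (mon x) (mon y) (mon z) = 0 := h2
  rw [h1', h2', zero_mul, zero_mul, neg_zero, sub_zero, ← mon_mul, ← mon_mul] at h
  exact eq_neg_of_add_eq_zero_left h

section step
variable {t s : M4} {N : ℕ}
  (IH : ∀ w x y z : W4, w.length + x.length + y.length + z.length < N → KK4 t s w x y z = 0)
include IH

lemma F23 {u v x y z : W4} (h : u.length + v.length + x.length + y.length + z.length = N) :
    KK4 t s (u * v) x y z = -KK4 t s (u * x) v y z := by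
  have := v.length_pos
  have := x.length_pos
  exact KK4_23 t s u v x y z (IH _ _ _ _ (by omega)) (IH _ _ _ _ (by omega))

lemma Ft14 {u v x y z : W4} (h : u.length + v.length + x.length + y.length + z.length = N) :
    KK4 t s (u * v) x y z = -KK4 t s (y * v) x u z := by
  rw [KK4_m t s u v, F23 IH (by omega), KK4_s2 t s (v * x) u y z, F23 IH (by omega),
    KK4_m t s v y, neg_neg, neg_neg]

lemma Ft25 {u v x y z : W4} (h : u.length + v.length + x.length + y.length + z.length = N) :
    KK4 t s (u * v) x y z = -KK4 t s (u * z) x y v := by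
  rw [F23 IH (by omega), KK4_s2 t s (u * x) v y z, KK4_s3 t s (u * x) y v z,
    KK4_s2 t s (u * x) y z v, F23 IH (by omega), neg_neg, neg_neg]

lemma fA1 {u v p q y z : W4}
    (h : u.length + v.length + p.length + q.length + y.length + z.length = N) :
    KK4 t s (u * v) (p * q) y z = -KK4 t s (p * v) (u * q) y z := by
  have e : ∀ a b : W4, (a * b).length = a.length + b.length := fun _ _ => rfl
  rw [Ft14 IH (by rw [e]; omega), KK4_s1 t s (y * v) (p * q) u z, Ft14 IH (by rw [e]; omega),
    KK4_s1 t s (u * q) (y * v) p z, Ft14 IH (by rw [e]; omega)]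
  simp only [neg_neg]

lemma fA2 {u v p q y z : W4}
    (h : u.length + v.length + p.length + q.length + y.length + z.length = N) :
    KK4 t s (u * v) (p * q) y z = -KK4 t s (u * q) (p * v) y z := by
  rw [KK4_m t s u v, KK4_s1 t s (v * u), KK4_m t s p q, KK4_s1 t s (q * p), fA1 IH (by omega),
    KK4_m t s q u, KK4_s1 t s (u * q) (v * p), KK4_m t s v p, KK4_s1 t s (p * v)]
  simp only [neg_neg]

lemma fA0 {u v p q y z : W4}
    (h : u.length + v.length + p.length + q.length + y.length + z.length = N) :
    KK4 t s (u * v) (p * q) y z = 0 := by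
  apply self_neg
  nth_rw 1 [fA1 IH h]
  rw [fA2 IH (by omega), neg_neg, KK4_s1]

/-- third argument is a product -/
lemma A3 {u v p q y z : W4}
    (h : u.length + v.length + (p * q).length + y.length + z.length = N) :
    KK4 t s (u * v) (p * q) y z = 0 := by
  rw [len_mul] at h
  exact fA0 IH (by omega)

lemma A2 {u p q x y z : W4}
    (h : u.length + (p * q).length + x.length + y.length + z.length = N) :
    KK4 t s (u * (p * q)) x y z = 0 := by
  rw [F23 IH (by omega), A3 IH (by omega), neg_zero]

lemma A1 {v p q x y z : W4}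
    (h : (p * q).length + v.length + x.length + y.length + z.length = N) :
    KK4 t s ((p * q) * v) x y z = 0 := by
  rw [KK4_m, A2 IH (by omega), neg_zero]

lemma A4 {u v x p q z : W4}
    (h : u.length + v.length + x.length + (p * q).length + z.length = N) :
    KK4 t s (u * v) x (p * q) z = 0 := by
  rw [KK4_s2, A3 IH (by omega), neg_zero]

lemma A5 {u v x y p q : W4}
    (h : u.length + v.length + x.length + y.length + (p * q).length = N) :
    KK4 t s (u * v) x y (p * q) = 0 := by
  rw [KK4_s3, A4 IH (by omega), neg_zero]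

lemma Fof (a b c d e : Fin 4) (h : 5 = N) :
    KK4 t s (FreeMagma.of a * FreeMagma.of b) (FreeMagma.of c) (FreeMagma.of d) (FreeMagma.of e)
      = 0 := by
  have hl : ∀ a b c d e : Fin 4, (FreeMagma.of a).length + (FreeMagma.of b).length
    + (FreeMagma.of c).length + (FreeMagma.of d).length + (FreeMagma.of e).length = N := by
    intro a b c d e; simp only [len_of]; omega
  have e12 : ∀ a c d e : Fin 4, KK4 t s (FreeMagma.of a * FreeMagma.of a) (FreeMagma.of c)
      (FreeMagma.of d) (FreeMagma.of e) = 0 := fun a c d e => self_neg (KK4_m _ _ _ _ _ _ _)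
  have e23 : ∀ a b d e : Fin 4, KK4 t s (FreeMagma.of a * FreeMagma.of b) (FreeMagma.of b)
      (FreeMagma.of d) (FreeMagma.of e) = 0 := fun a b d e => self_neg (F23 IH (hl _ _ _ _ _))
  have e34 : ∀ a b c e : Fin 4, KK4 t s (FreeMagma.of a * FreeMagma.of b) (FreeMagma.of c)
      (FreeMagma.of c) (FreeMagma.of e) = 0 := fun a b c e => self_neg (KK4_s2 _ _ _ _ _ _)
  have e45 : ∀ a b c d : Fin 4, KK4 t s (FreeMagma.of a * FreeMagma.of b) (FreeMagma.of c)
      (FreeMagma.of d) (FreeMagma.of d) = 0 := fun a b c d => self_neg (KK4_s3 _ _ _ _ _ _)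
  have e13 : ∀ a b d e : Fin 4, KK4 t s (FreeMagma.of a * FreeMagma.of b) (FreeMagma.of a)
      (FreeMagma.of d) (FreeMagma.of e) = 0 := fun a b d e => by
    rw [F23 IH (hl _ _ _ _ _), e12, neg_zero]
  have e24 : ∀ a b c e : Fin 4, KK4 t s (FreeMagma.of a * FreeMagma.of b) (FreeMagma.of c)
      (FreeMagma.of b) (FreeMagma.of e) = 0 := fun a b c e => by
    rw [KK4_s2, e23, neg_zero]
  have e35 : ∀ a b c d : Fin 4, KK4 t s (FreeMagma.of a * FreeMagma.of b) (FreeMagma.of c)
      (FreeMagma.of d) (FreeMagma.of c) = 0 := fun a b c d => by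
    rw [KK4_s3, e34, neg_zero]
  have e14 : ∀ a b c e : Fin 4, KK4 t s (FreeMagma.of a * FreeMagma.of b) (FreeMagma.of c)
      (FreeMagma.of a) (FreeMagma.of e) = 0 := fun a b c e => by
    rw [KK4_s2, e13, neg_zero]
  have e25 : ∀ a b c d : Fin 4, KK4 t s (FreeMagma.of a * FreeMagma.of b) (FreeMagma.of c)
      (FreeMagma.of d) (FreeMagma.of b) = 0 := fun a b c d => by
    rw [KK4_s3, e24, neg_zero]
  have e15 : ∀ a b c d : Fin 4, KK4 t s (FreeMagma.of a * FreeMagma.of b) (FreeMagma.of c)
      (FreeMagma.of d) (FreeMagma.of a) = 0 := fun a b c d => by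
    rw [KK4_s3, e14, neg_zero]
  have hp : a = b ∨ a = c ∨ a = d ∨ a = e ∨ b = c ∨ b = d ∨ b = e ∨ c = d ∨ c = e ∨ d = e := by
    revert a b c d e; decide
  rcases hp with rfl | rfl | rfl | rfl | rfl | rfl | rfl | rfl | rfl | rfl
  · exact e12 _ _ _ _
  · exact e13 _ _ _ _
  · exact e14 _ _ _ _
  · exact e15 _ _ _ _
  · exact e23 _ _ _ _
  · exact e24 _ _ _ _
  · exact e25 _ _ _ _
  · exact e34 _ _ _ _
  · exact e35 _ _ _ _
  · exact e45 _ _ _ _

lemma Fprod (u v x y z : W4)
    (h : u.length + v.length + x.length + y.length + z.length = N) :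
    KK4 t s (u * v) x y z = 0 := by
  cases u with
  | mul a b => exact A1 IH h
  | of a =>
    cases v with
    | mul a b => exact A2 IH h
    | of b =>
      cases x with
      | mul a b => exact A3 IH h
      | of c =>
        cases y with
        | mul a b => exact A4 IH h
        | of d =>
          cases z with
          | mul a b => exact A5 IH h
          | of e => exact Fof IH a b c d e (by simpa only [len_of] using h)

end step

lemma base4 {t s : M4} {i : Fin 4}
    (hb : ∀ a b c : Fin 4, KK4 t s (FreeMagma.of i) (FreeMagma.of a) (FreeMagma.of b)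
      (FreeMagma.of c) = 0) (a b c d : Fin 4) :
    KK4 t s (FreeMagma.of a) (FreeMagma.of b) (FreeMagma.of c) (FreeMagma.of d) = 0 := by
  have h : a = i ∨ b = i ∨ c = i ∨ d = i ∨ a = b ∨ a = c ∨ a = d ∨ b = c ∨ b = d ∨ c = d := by
    clear hb; revert a b c d i; decide
  have e12 : ∀ a c d : Fin 4, KK4 t s (FreeMagma.of a) (FreeMagma.of a) (FreeMagma.of c)
      (FreeMagma.of d) = 0 := fun a c d => self_neg (KK4_s1 _ _ _ _ _ _)
  have e23 : ∀ a c d : Fin 4, KK4 t s (FreeMagma.of a) (FreeMagma.of c) (FreeMagma.of c)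
      (FreeMagma.of d) = 0 := fun a c d => self_neg (KK4_s2 _ _ _ _ _ _)
  have e34 : ∀ a c d : Fin 4, KK4 t s (FreeMagma.of a) (FreeMagma.of c) (FreeMagma.of d)
      (FreeMagma.of d) = 0 := fun a c d => self_neg (KK4_s3 _ _ _ _ _ _)
  rcases h with rfl | rfl | rfl | rfl | rfl | rfl | rfl | rfl | rfl | rfl
  · exact hb _ _ _
  · rw [KK4_s1, hb, neg_zero]
  · rw [KK4_s2, KK4_s1, hb, neg_zero, neg_zero]
  · rw [KK4_s3, KK4_s2, KK4_s1, hb, neg_zero, neg_zero, neg_zero]
  · exact e12 _ _ _
  · rw [KK4_s2, e12, neg_zero]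
  · rw [KK4_s3, KK4_s2, e12, neg_zero, neg_zero]
  · exact e23 _ _ _
  · rw [KK4_s3, e23, neg_zero]
  · exact e34 _ _ _

theorem KK4_zero {t s : M4} {i : Fin 4}
    (hb : ∀ a b c : Fin 4, KK4 t s (FreeMagma.of i) (FreeMagma.of a) (FreeMagma.of b)
      (FreeMagma.of c) = 0) (N : ℕ) :
    ∀ w x y z : W4, w.length + x.length + y.length + z.length = N → KK4 t s w x y z = 0 := by
  induction N using Nat.strong_induction_on with
  | _ N ih =>
    have IH : ∀ w x y z : W4, w.length + x.length + y.length + z.length < N →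
        KK4 t s w x y z = 0 := fun w x y z h => ih _ h w x y z rfl
    intro w x y z h
    cases w with
    | mul a b =>
      refine Fprod IH a b x y z ?_
      have : (FreeMagma.mul a b).length = a.length + b.length := rfl
      omega
    | of a =>
      cases x with
      | mul p q =>
        rw [KK4_s1]
        have : (FreeMagma.mul p q).length = p.length + q.length := rfl
        rw [show KK4 t s (FreeMagma.mul p q) (FreeMagma.of a) y z = 0 from
          Fprod IH p q _ y z (by omega), neg_zero]
      | of b =>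
        cases y with
        | mul p q =>
          rw [KK4_s2, KK4_s1]
          have : (FreeMagma.mul p q).length = p.length + q.length := rfl
          rw [show KK4 t s (FreeMagma.mul p q) (FreeMagma.of a) (FreeMagma.of b) z = 0 from
            Fprod IH p q _ _ z (by omega), neg_zero, neg_zero]
        | of c =>
          cases z with
          | mul p q =>
            rw [KK4_s3, KK4_s2, KK4_s1]
            have : (FreeMagma.mul p q).length = p.length + q.length := rfl
            rw [show KK4 t s (FreeMagma.mul p q) (FreeMagma.of a) (FreeMagma.of b)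
              (FreeMagma.of c) = 0 from Fprod IH p q _ _ _ (by omega), neg_zero, neg_zero, neg_zero]
          | of d => exact base4 hb a b c d

theorem kk_zero_of_mon {t s : M4} (h : ∀ w x y z : W4, KK4 t s w x y z = 0) (w x y z : M4) :
    kk t s w x y z = 0 := by
  have h1 : ∀ w x y : W4, ∀ z : M4, kk t s (mon w) (mon x) (mon y) z = 0 := by
    intro w x y z
    induction z using FMal.ind with
    | hmon z => exact h w x y z
    | hzero =>
      have := kk_smul_z 0 t s (mon w) (mon x) (mon y) 0
      simpa using this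
    | hadd a b ha hb => rw [kk_add_z, ha, hb, add_zero]
    | hsmul c a ha => rw [kk_smul_z, ha, smul_zero]
  have h2 : ∀ w x : W4, ∀ y z : M4, kk t s (mon w) (mon x) y z = 0 := by
    intro w x y z
    induction y using FMal.ind with
    | hmon y => exact h1 w x y z
    | hzero =>
      have := kk_smul_y 0 t s (mon w) (mon x) 0 z
      simpa using this
    | hadd a b ha hb => rw [kk_add_y, ha, hb, add_zero]
    | hsmul c a ha => rw [kk_smul_y, ha, smul_zero]
  have h3 : ∀ w : W4, ∀ x y z : M4, kk t s (mon w) x y z = 0 := by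
    intro w x y z
    induction x using FMal.ind with
    | hmon x => exact h2 w x y z
    | hzero =>
      have := kk_smul_x 0 t s (mon w) 0 y z
      simpa using this
    | hadd a b ha hb => rw [kk_add_x, ha, hb, add_zero]
    | hsmul c a ha => rw [kk_smul_x, ha, smul_zero]
  induction w using FMal.ind with
  | hmon w => exact h3 w x y z
  | hzero =>
    have := kk_smul_w 0 t s 0 x y z
    simpa using this
  | hadd a b ha hb => rw [kk_add_w, ha, hb, add_zero]
  | hsmul c a ha => rw [kk_smul_w, ha, smul_zero]

theorem kk_gen_gen (i : Fin 4) (w x y z : M4) : kk (gen i) (gen i) w x y z = 0 := by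
  refine kk_zero_of_mon (fun w x y z => KK4_zero (i := i) ?_ _ w x y z rfl) w x y z
  intro a b c
  have h := B2_id (gen i) (gen i) (mon (FreeMagma.of a)) (mon (FreeMagma.of b))
    (mon (FreeMagma.of c))
  have h3 : (3 : ℚ) • KK4 (gen i) (gen i) (FreeMagma.of i) (FreeMagma.of a) (FreeMagma.of b)
      (FreeMagma.of c) = 0 := by
    unfold KK4
    rw [mon_of i]
    linear_combination (norm := module) h
  exact (smul_eq_zero.1 h3).resolve_left (by norm_num)

/-- The obstruction vanishes on the free Malcev algebra of rank four. -/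
theorem kk_gen (i : Fin 4) (s w x y z : M4) : kk (gen i) s w x y z = 0 := by
  refine kk_zero_of_mon (fun w x y z => KK4_zero (i := i) ?_ _ w x y z rfl) w x y z
  intro a b c
  have h := B2_id (gen i) s (mon (FreeMagma.of a)) (mon (FreeMagma.of b)) (mon (FreeMagma.of c))
  rw [kk_gen_gen, add_zero] at h
  exact (smul_eq_zero.1 h).resolve_left (by norm_num)

end Pool.Agent.H1.Mal
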