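import Pool.Agent.H1.Mal.Gener

/-!
# Identities of three-generated Malcev algebras hold modulo the Jacobian ideal
-/

set_option autoImplicit false
set_option linter.unusedSectionVars false
set_option linter.unusedSimpArgs false
set_option linter.unusedVariables false

namespace Pool.Agent.H1.Mal

/-! ### semidirect product with a derivation -/

section semi

variable {L : Type} [NonUnitalNonAssocRing L] [Module ℚ L] [IsScalarTower ℚ L L]
  [SMulCommClass ℚ L L]

/-- semidirect product -/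
def Semi (D : L →ₗ[ℚ] L) : Type := L × ℚ

variable (D : L →ₗ[ℚ] L)

instance : AddCommGroup (Semi D) := inferInstanceAs (AddCommGroup (L × ℚ))
instance : Module ℚ (Semi D) := inferInstanceAs (Module ℚ (L × ℚ))

def Semi.mk (x : L) (s : ℚ) : Semi D := (x, s)
def Semi.p1 (a : Semi D) : L := a.1
def Semi.p2 (a : Semi D) : ℚ := a.2

instance : Mul (Semi D) := ⟨fun a b =>
  Semi.mk D (a.p1 D * b.p1 D + b.p2 D • D (a.p1 D) - a.p2 D • D (b.p1 D)) 0⟩

variable {D}

lemma Semi.ext {a b : Semi D} (h1 : a.p1 D = b.p1 D) (h2 : a.p2 D = b.p2 D) : a = b :=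
  Prod.ext h1 h2

lemma Semi.p1_mul (a b : Semi D) :
    (a * b).p1 D = a.p1 D * b.p1 D + b.p2 D • D (a.p1 D) - a.p2 D • D (b.p1 D) := rfl
lemma Semi.p2_mul (a b : Semi D) : (a * b).p2 D = 0 := rfl
lemma Semi.p1_add (a b : Semi D) : (a + b).p1 D = a.p1 D + b.p1 D := rfl
lemma Semi.p2_add (a b : Semi D) : (a + b).p2 D = a.p2 D + b.p2 D := rfl
lemma Semi.p1_smul (c : ℚ) (b : Semi D) : (c • b).p1 D = c • b.p1 D := rfl
lemma Semi.p2_smul (c : ℚ) (b : Semi D) : (c • b).p2 D = c * b.p2 D := rfl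
lemma Semi.p1_zero : (0 : Semi D).p1 D = 0 := rfl
lemma Semi.p2_zero : (0 : Semi D).p2 D = 0 := rfl
lemma Semi.p1_mk (x : L) (s : ℚ) : (Semi.mk D x s).p1 D = x := rfl
lemma Semi.p2_mk (x : L) (s : ℚ) : (Semi.mk D x s).p2 D = s := rfl

instance : NonUnitalNonAssocRing (Semi D) :=
  { (inferInstance : AddCommGroup (Semi D)), (inferInstance : Mul (Semi D)) with
    left_distrib := by
      intro a b c
      apply Semi.ext
      · simp only [Semi.p1_mul, Semi.p1_add, Semi.p2_add, mul_add, map_add]; module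
      · simp only [Semi.p2_mul, Semi.p2_add, add_zero]
    right_distrib := by
      intro a b c
      apply Semi.ext
      · simp only [Semi.p1_mul, Semi.p1_add, Semi.p2_add, add_mul, map_add]; module
      · simp only [Semi.p2_mul, Semi.p2_add, add_zero]
    zero_mul := by
      intro a
      apply Semi.ext
      · simp only [Semi.p1_mul, Semi.p1_zero, Semi.p2_zero, zero_mul, map_zero]; module
      · simp only [Semi.p2_mul, Semi.p2_zero]
    mul_zero := by
      intro a
      apply Semi.ext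
      · simp only [Semi.p1_mul, Semi.p1_zero, Semi.p2_zero, mul_zero, map_zero]; module
      · simp only [Semi.p2_mul, Semi.p2_zero] }

instance : IsScalarTower ℚ (Semi D) (Semi D) := ⟨by
  intro c a b
  apply Semi.ext
  · simp only [smul_eq_mul, Semi.p1_mul, Semi.p1_smul, Semi.p2_smul, smul_mul_assoc, map_smul]
    module
  · simp only [smul_eq_mul, Semi.p2_mul, Semi.p2_smul, mul_zero]⟩

instance : SMulCommClass ℚ (Semi D) (Semi D) := ⟨by
  intro c a b
  apply Semi.ext
  · simp only [smul_eq_mul, Semi.p1_mul, Semi.p1_smul, Semi.p2_smul, mul_smul_comm, map_smul]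
  · simp only [smul_eq_mul, Semi.p2_mul, Semi.p2_smul, mul_zero]⟩

/-- Lie algebras -/
def IsLieAlg (L : Type) [NonUnitalNonAssocRing L] : Prop :=
  (∀ x : L, x * x = 0) ∧ ∀ x y z : L, J x y z = 0

lemma IsLieAlg.anti {L : Type} [NonUnitalNonAssocRing L] (h : IsLieAlg L) (x y : L) :
    x * y = -(y * x) := by
  have h1 := h.1 (x + y)
  rw [mul_add, add_mul, add_mul, h.1 x, h.1 y, zero_add, add_zero] at h1
  exact eq_neg_of_add_eq_zero_right h1

lemma IsLieAlg.isMal {L : Type} [NonUnitalNonAssocRing L] (h : IsLieAlg L) : IsMal L where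
  sq := h.1
  mal := by intro x y z; rw [h.2, h.2, zero_mul]

lemma Semi.isLie (hL : IsLieAlg L) (hD : ∀ a b, D (a * b) = D a * b + a * D b) :
    IsLieAlg (Semi D) := by
  constructor
  · intro a
    apply Semi.ext
    · simp only [Semi.p1_mul, hL.1, Semi.p1_zero]; module
    · simp only [Semi.p2_mul, Semi.p2_zero]
  · intro a b c
    apply Semi.ext
    · have h := hL.2 (a.p1 D) (b.p1 D) (c.p1 D)
      unfold J at h ⊢
      simp only [Semi.p1_add, Semi.p1_mul, Semi.p2_mul, map_add, map_sub, map_smul, hD, add_mul,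
        sub_mul, mul_add, mul_sub, smul_mul_assoc, mul_smul_comm, zero_smul, Semi.p1_zero]
      rw [hL.anti (D (b.p1 D)) (c.p1 D), hL.anti (D (a.p1 D)) (c.p1 D),
        hL.anti (D (a.p1 D)) (b.p1 D), hL.anti (D (c.p1 D)) (b.p1 D),
        hL.anti (D (b.p1 D)) (a.p1 D), hL.anti (D (c.p1 D)) (a.p1 D)]
      linear_combination (norm := module) h
    · simp only [J, Semi.p2_mul, Semi.p2_zero, Semi.p2_add, add_zero]

/-- the inclusion -/
def Semi.inc (D : L →ₗ[ℚ] L) : L →ₙₐ[ℚ] Semi D where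
  toFun x := Semi.mk D x 0
  map_smul' c x := by
    apply Semi.ext
    · rfl
    · exact (mul_zero c).symm
  map_zero' := rfl
  map_add' x y := by
    apply Semi.ext
    · rfl
    · exact (add_zero (0 : ℚ)).symm
  map_mul' x y := by
    apply Semi.ext
    · rw [Semi.p1_mul]
      simp only [Semi.p1_mk, Semi.p2_mk]
      module
    · rfl

lemma Semi.inc_inj {x : L} (h : Semi.inc D x = 0) : x = 0 := congrArg Prod.fst h

end semi

/-! ### the quotient by the Jacobian ideal -/

abbrev M4' : Type := FMal (Fin 4)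

/-- the Jacobian ideal as an ideal -/
noncomputable def nnI : Idl M4' where
  toSubmodule := NN M4'
  mul_left := fun a b hb => by
    show a * b ∈ NN M4'
    rw [anti]; exact Submodule.neg_mem _ (NN_mul hb a)
  mul_right := fun a b ha => NN_mul ha b

lemma nnI_lie : IsLieAlg nnI.Quo := by
  constructor
  · intro x
    obtain ⟨x, rfl⟩ := nnI.pr_surj x
    rw [← Idl.pr_mul, mul_self', map_zero]
  · intro x y z
    obtain ⟨x, rfl⟩ := nnI.pr_surj x
    obtain ⟨y, rfl⟩ := nnI.pr_surj y
    obtain ⟨z, rfl⟩ := nnI.pr_surj z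
    rw [← Idl.prH_apply, ← Idl.prH_apply, ← Idl.prH_apply, ← map_J, Idl.prH_apply,
      Idl.pr_eq_zero]
    exact J_mem _ _ _

/-- the weighted derivation -/
lemma exists_wder : ∃ D : nnI.Quo →ₗ[ℚ] nnI.Quo, (∀ a b, D (a * b) = D a * b + a * D b) ∧
    ∀ i : Fin 4, D (nnI.pr (gen i)) = ((i : ℕ) : ℚ) • nnI.pr (gen i) := by
  obtain ⟨D, h1, h2⟩ := exists_der (X := Fin 4) (fun i => ((i : ℕ) : ℚ) • gen i)
  have hJ : ∀ x y z, D (J x y z) = J (D x) y z + J x (D y) z + J x y (D z) := by
    intro x y z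
    unfold J
    simp only [map_add, h2, add_mul]
    abel
  have hN : ∀ n ∈ NN M4', D n ∈ NN M4' := by
    intro n hn
    induction hn using Submodule.span_induction with
    | mem x hx =>
      obtain ⟨a, b, c, rfl⟩ := hx
      rw [hJ]
      exact Submodule.add_mem _ (Submodule.add_mem _ (J_mem _ _ _) (J_mem _ _ _)) (J_mem _ _ _)
    | zero => rw [map_zero]; exact Submodule.zero_mem _
    | add p q _ _ hp hq => rw [map_add]; exact Submodule.add_mem _ hp hq
    | smul c p _ hp => rw [map_smul]; exact Submodule.smul_mem _ _ hp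
  let D' : nnI.Quo →ₗ[ℚ] nnI.Quo := Submodule.mapQ (NN M4') (NN M4') D hN
  have hD' : ∀ x, D' (nnI.pr x) = nnI.pr (D x) := fun x => rfl
  refine ⟨D', fun a b => ?_, fun i => ?_⟩
  · obtain ⟨a, rfl⟩ := nnI.pr_surj a
    obtain ⟨b, rfl⟩ := nnI.pr_surj b
    rw [← Idl.pr_mul, hD', hD', hD', h2, map_add, Idl.pr_mul, Idl.pr_mul]
  · rw [hD', h1, map_smul]

/-- part (b) -/
theorem lie_zero {f : FA ℕ} (hf : IdG 3 f) (v : ℕ → M4') : liftA v f ∈ NN M4' := by
  obtain ⟨D, hD, hg⟩ := exists_wder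
  have hLie := Semi.isLie nnI_lie hD
  have : IsMal (Semi D) := hLie.isMal
  let g : Fin 4 → Semi D := fun i => Semi.inc D (nnI.pr (gen i))
  let d : Semi D := Semi.mk D 0 1
  let y : Semi D := g 0 + g 1 + g 2 + g 3
  have hgd : ∀ i : Fin 4, g i * d = ((i : ℕ) : ℚ) • g i := by
    intro i
    apply Semi.ext
    · rw [Semi.p1_mul, Semi.p1_smul]
      show nnI.pr (gen i) * 0 + (1 : ℚ) • D (nnI.pr (gen i)) - (0 : ℚ) • D 0
        = ((i : ℕ) : ℚ) • nnI.pr (gen i)
      rw [mul_zero, hg, zero_smul, one_smul, zero_add, sub_zero]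
    · rw [Semi.p2_mul, Semi.p2_smul]
      exact (mul_zero _).symm
  let a : Fin 3 → Semi D := ![y, d, 0]
  have h3 : NonUnitalAlgebra.adjoin ℚ (Set.range a) = ⊤ := by
    set S := NonUnitalAlgebra.adjoin ℚ (Set.range a) with hS
    have hy : y ∈ S := NonUnitalAlgebra.subset_adjoin ℚ ⟨0, rfl⟩
    have hd : d ∈ S := NonUnitalAlgebra.subset_adjoin ℚ ⟨1, rfl⟩
    have y1 : y * d = (1 : ℚ) • g 1 + (2 : ℚ) • g 2 + (3 : ℚ) • g 3 := by
      show (g 0 + g 1 + g 2 + g 3) * d = _
      rw [add_mul, add_mul, add_mul, hgd, hgd, hgd, hgd]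
      simp
    have y2 : y * d * d = (1 : ℚ) • g 1 + (4 : ℚ) • g 2 + (9 : ℚ) • g 3 := by
      rw [y1, add_mul, add_mul, smul_mul_assoc, smul_mul_assoc, smul_mul_assoc, hgd, hgd, hgd,
        smul_smul, smul_smul, smul_smul]
      norm_num
    have y3 : y * d * d * d = (1 : ℚ) • g 1 + (8 : ℚ) • g 2 + (27 : ℚ) • g 3 := by
      rw [y2, add_mul, add_mul, smul_mul_assoc, smul_mul_assoc, smul_mul_assoc, hgd, hgd, hgd,
        smul_smul, smul_smul, smul_smul]
      norm_num
    have m1 : y * d ∈ S := mul_mem hy hd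
    have m2 : y * d * d ∈ S := mul_mem m1 hd
    have m3 : y * d * d * d ∈ S := mul_mem m2 hd
    have g3 : g 3 ∈ S := by
      have : g 3 = (1/6 : ℚ) • (y * d * d * d) - (1/2 : ℚ) • (y * d * d) + (1/3 : ℚ) • (y * d) := by
        rw [y3, y2, y1]; module
      rw [this]
      exact add_mem (sub_mem (SMulMemClass.smul_mem _ m3) (SMulMemClass.smul_mem _ m2))
        (SMulMemClass.smul_mem _ m1)
    have g2 : g 2 ∈ S := by
      have : g 2 = (1/2 : ℚ) • (y * d * d) - (1/2 : ℚ) • (y * d) - (3 : ℚ) • g 3 := by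
        rw [y2, y1]; module
      rw [this]
      exact sub_mem (sub_mem (SMulMemClass.smul_mem _ m2) (SMulMemClass.smul_mem _ m1))
        (SMulMemClass.smul_mem _ g3)
    have g1 : g 1 ∈ S := by
      have : g 1 = y * d - (2 : ℚ) • g 2 - (3 : ℚ) • g 3 := by
        rw [y1]; module
      rw [this]
      exact sub_mem (sub_mem m1 (SMulMemClass.smul_mem _ g2)) (SMulMemClass.smul_mem _ g3)
    have g0 : g 0 ∈ S := by
      have : g 0 = y - g 1 - g 2 - g 3 := by
        show g 0 = (g 0 + g 1 + g 2 + g 3) - g 1 - g 2 - g 3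
        abel
      rw [this]
      exact sub_mem (sub_mem (sub_mem hy g1) g2) g3
    have hgi : ∀ i : Fin 4, g i ∈ S := by
      intro i
      fin_cases i
      exacts [g0, g1, g2, g3]
    have hL : ∀ x : M4', Semi.inc D (nnI.pr x) ∈ S := by
      intro x
      induction x using FMal.ind with
      | hmon w =>
        induction w using FreeMagma.recOnMul with
        | ih1 i => exact hgi i
        | ih2 a b ha hb => rw [mon_mul, Idl.pr_mul, map_mul]; exact mul_mem ha hb
      | hzero => rw [map_zero, map_zero]; exact zero_mem _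
      | hadd x y hx hy => rw [map_add, map_add]; exact add_mem hx hy
      | hsmul c x hx => rw [map_smul, map_smul]; exact SMulMemClass.smul_mem _ hx
    rw [eq_top_iff]
    intro b _
    have hb : b = Semi.inc D (b.p1 D) + b.p2 D • d := by
      apply Semi.ext
      · rw [Semi.p1_add, Semi.p1_smul]
        show b.p1 D = b.p1 D + b.p2 D • (0 : nnI.Quo)
        rw [smul_zero, add_zero]
      · rw [Semi.p2_add, Semi.p2_smul]
        show b.p2 D = 0 + b.p2 D * 1
        ring
    rw [hb]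
    obtain ⟨x, hx⟩ := nnI.pr_surj (b.p1 D)
    rw [← hx]
    exact add_mem (hL x) (SMulMemClass.smul_mem _ hd)
  have h1 := hf (Semi D) a h3 (fun n => Semi.inc D (nnI.prH (v n)))
  have h2 := liftA_nat (Semi.inc D) (fun n => nnI.prH (v n)) f
  rw [h1] at h2
  have h4 := Semi.inc_inj h2
  have h5 := liftA_nat nnI.prH v f
  rw [h4] at h5
  exact nnI.pr_eq_zero.1 h5

end Pool.Agent.H1.Mal
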