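import Pool.Agent.H1.Mal.Basic

/-!
# A reflection procedure for identities `∑ cᵢ • J(aᵢ,bᵢ,dᵢ)·ops = 0` in Malcev algebras
-/

set_option autoImplicit false

namespace Pool.Agent.H1.Mal

/-- Nonassociative monomials in letters (letters are `< 8`). -/
inductive Tr : Type
  | v (n : ℕ) : Tr
  | m (a b : Tr) : Tr

/-- Accumulator: binary search tree of coefficients (positive and negative parts). -/
inductive Acc : Type
  | nil : Acc
  | node (l : Acc) (k p n : ℕ) (r : Acc) : Acc

/-- Add `p - n` at key `k`, in continuation-passing style. -/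
noncomputable def Acc.add (k p n : ℕ) (t : Acc) : (Acc → Bool) → Bool :=
  Acc.rec (motive := fun _ => (Acc → Bool) → Bool)
    (fun K => K (.node .nil k p n .nil))
    (fun l k' p' n' r ihl ihr K =>
      Bool.rec (motive := fun _ => Bool)
        (ihl (fun l' => K (.node l' k' p' n' r)))
        (Bool.rec (motive := fun _ => Bool)
          (ihr (fun r' => K (.node l k' p' n' r')))
          (K (.node l k' (Nat.add p' p) (Nat.add n' n) r))
          (Nat.beq k' k))
        (Nat.ble k' k))
    t

noncomputable def Acc.zero (t : Acc) : Bool :=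
  Acc.rec (motive := fun _ => Bool) true
    (fun _ _ p n _ ihl ihr =>
      Bool.rec (motive := fun _ => Bool) false (Bool.rec (motive := fun _ => Bool) false ihr ihl)
        (Nat.beq p n)) t

/-- The type of continuation-passing expansion functions. -/
abbrev EF : Type := List Tr → ℕ → ℕ → ℕ → Acc → (Acc → Bool) → Bool

noncomputable def expP (ih : EF) (ts : List Tr) (code p n : ℕ) (acc : Acc) (K : Acc → Bool)
    (x y b : Tr) : Bool :=
  ih (x :: y :: b :: ts) code p n acc fun acc =>
  ih (b :: x :: y :: ts) code n p acc fun acc =>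
  ih (.m y b :: x :: ts) code n p acc fun acc =>
  ih (y :: .m x b :: ts) code n p acc K

noncomputable def expL (ih : EF) (ts : List Tr) (code p n : ℕ) (acc : Acc) (K : Acc → Bool)
    (i j : ℕ) : Bool :=
  Bool.rec (motive := fun _ => Bool)
    (ih ts (Nat.add (Nat.mul code 64) (Nat.add (Nat.mul 8 (Nat.succ j)) i)) n p acc K)
    (Bool.rec (motive := fun _ => Bool)
      (ih ts (Nat.add (Nat.mul code 64) (Nat.add (Nat.mul 8 (Nat.succ i)) j)) p n acc K)
      (K acc)
      (Nat.beq i j))
    (Nat.ble i j)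

noncomputable def expM1 (ih : EF) (ts : List Tr) (code p n : ℕ) (acc : Acc) (K : Acc → Bool)
    (i : ℕ) (b : Tr) : Bool :=
  Tr.rec (motive := fun _ => Bool)
    (fun j => expL ih ts code p n acc K i j)
    (fun _ _ _ _ => ih (.m b (.v i) :: ts) code n p acc K)
    b

noncomputable def expM (ih : EF) (ts : List Tr) (code p n : ℕ) (acc : Acc) (K : Acc → Bool)
    (a b : Tr) : Bool :=
  Tr.rec (motive := fun _ => Bool)
    (fun i => expM1 ih ts code p n acc K i b)
    (fun x y _ _ => expP ih ts code p n acc K x y b)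
    a

noncomputable def expT (ih : EF) (ts : List Tr) (code p n : ℕ) (acc : Acc) (K : Acc → Bool)
    (t : Tr) : Bool :=
  Tr.rec (motive := fun _ => Bool)
    (fun i => ih ts (Nat.add (Nat.mul code 64) i) p n acc K)
    (fun a b _ _ => expM ih ts code p n acc K a b)
    t

noncomputable def expS (ih : EF) (ts : List Tr) (code p n : ℕ) (acc : Acc) (K : Acc → Bool) :
    Bool :=
  List.rec (motive := fun _ => Bool)
    (acc.add code p n K)
    (fun t ts _ => expT ih ts code p n acc K t)
    ts

/-- Rewrite a list of operators into tokens. -/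
noncomputable def expand (f : ℕ) : EF :=
  Nat.rec (motive := fun _ => EF)
    (fun _ _ _ _ _ _ => false)
    (fun _ ih => expS ih)
    f

/-- sorted Jacobian -/
noncomputable def jq (i j k : ℕ) (ops : List Tr) (p n : ℕ) (acc : Acc) (K : Acc → Bool) : Bool :=
  expand 60 ops (Nat.add 512 (Nat.add (Nat.mul 64 i) (Nat.add (Nat.mul 8 j) k))) p n acc K

/-- Jacobian of letters, `i < j`. -/
noncomputable def jl2 (i j k : ℕ) (ops : List Tr) (p n : ℕ) (acc : Acc) (K : Acc → Bool) : Bool :=
  Bool.rec (motive := fun _ => Bool)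
    (Bool.rec (motive := fun _ => Bool)
      (jq k i j ops p n acc K)
      (Bool.rec (motive := fun _ => Bool)
        (jq i k j ops n p acc K)
        (K acc)
        (Nat.beq i k))
      (Nat.ble i k))
    (Bool.rec (motive := fun _ => Bool)
      (jq i j k ops p n acc K)
      (K acc)
      (Nat.beq j k))
    (Nat.ble j k)

/-- Jacobian of letters. -/
noncomputable def jl (i j k : ℕ) (ops : List Tr) (p n : ℕ) (acc : Acc) (K : Acc → Bool) : Bool :=
  Bool.rec (motive := fun _ => Bool)
    (jl2 j i k ops n p acc K)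
    (Bool.rec (motive := fun _ => Bool)
      (jl2 i j k ops p n acc K)
      (K acc)
      (Nat.beq i j))
    (Nat.ble i j)

abbrev JF : Type := Tr → Tr → Tr → List Tr → ℕ → ℕ → Acc → (Acc → Bool) → Bool

noncomputable def redP (ih : JF) (w x y z : Tr) (ops : List Tr) (p n : ℕ) (acc : Acc)
    (K : Acc → Bool) : Bool :=
  ih x y z (w :: ops) p n acc fun acc =>
  ih y z w (x :: ops) n p acc fun acc =>
  ih z w x (y :: ops) (Nat.mul 2 n) (Nat.mul 2 p) acc fun acc =>
  ih w x y (z :: ops) (Nat.mul 2 p) (Nat.mul 2 n) acc K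

noncomputable def red3 (s : ℕ) (ih : JF) (i j : ℕ) (a b d : Tr) (ops : List Tr) (p n : ℕ)
    (acc : Acc) (K : Acc → Bool) : Bool :=
  Tr.rec (motive := fun _ => Bool)
    (fun k => jl i j k ops (Nat.mul s p) (Nat.mul s n) acc K)
    (fun w x _ _ => redP ih w x a b ops p n acc K) d

noncomputable def red2 (s : ℕ) (ih : JF) (i : ℕ) (a b d : Tr) (ops : List Tr) (p n : ℕ)
    (acc : Acc) (K : Acc → Bool) : Bool :=
  Tr.rec (motive := fun _ => Bool)
    (fun j => red3 s ih i j a b d ops p n acc K)
    (fun w x _ _ => redP ih w x d a ops p n acc K) b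

noncomputable def red1 (s : ℕ) (ih : JF) (a b d : Tr) (ops : List Tr) (p n : ℕ)
    (acc : Acc) (K : Acc → Bool) : Bool :=
  Tr.rec (motive := fun _ => Bool)
    (fun i => red2 s ih i a b d ops p n acc K)
    (fun w x _ _ => redP ih w x b d ops p n acc K) a

/-- Adds `3 ^ f * c * J(a,b,d)·ops`. -/
noncomputable def redJ (f : ℕ) : JF :=
  Nat.rec (motive := fun _ => JF)
    (red1 1 (fun _ _ _ _ _ _ _ _ => false))
    (fun f ih => red1 (Nat.pow 3 (Nat.succ f)) ih)
    f

/-- Certificate entries. -/
inductive Ce : Type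
  | cyc (p n : ℕ) (a b d : Tr) (suf : List Tr) : Ce
  | flipA (p n : ℕ) (a b d : Tr) (pre : List Tr) (x y z : Tr) (suf : List Tr) : Ce
  | flipB (p n : ℕ) (a b d : Tr) (pre : List Tr) (x y : Tr) (suf : List Tr) : Ce

/-- Target entries: `(p - n) • Q_{qs}(J(a,b,d)·ops)`. -/
inductive Tm : Type
  | mk (p n : ℕ) (qs : List (Tr × Tr)) (a b d : Tr) (ops : List Tr) : Tm

noncomputable def runE (F : ℕ) (e : Ce) (acc : Acc) (K : Acc → Bool) : Bool :=
  Ce.rec (motive := fun _ => Bool)
    (fun p n a b d suf =>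
      redJ F a b d suf p n acc fun acc => redJ F b d a suf n p acc K)
    (fun p n a b d pre x y z suf =>
      redJ F a b d (pre ++ .m (.m x y) z :: suf) p n acc fun acc =>
      redJ F a b d (pre ++ .m (.m y x) z :: suf) p n acc K)
    (fun p n a b d pre x y suf =>
      redJ F a b d (pre ++ .m x y :: suf) p n acc fun acc =>
      redJ F a b d (pre ++ .m y x :: suf) p n acc K)
    e

noncomputable def runC (F : ℕ) (l : List Ce) : Acc → (Acc → Bool) → Bool :=
  List.rec (motive := fun _ => Acc → (Acc → Bool) → Bool)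
    (fun acc K => K acc)
    (fun e _ ih acc K => runE F e acc fun acc => ih acc K) l

noncomputable def qstep3 (ih : JF) (t u x y z : Tr) (ops : List Tr) (p n : ℕ) (acc : Acc)
    (K : Acc → Bool) : Bool :=
  ih x y t (z :: u :: ops) n p acc fun acc =>
  ih x y u (z :: t :: ops) n p acc fun acc =>
  ih x y t (u :: z :: ops) (Nat.mul 3 n) (Nat.mul 3 p) acc fun acc =>
  ih x y u (t :: z :: ops) (Nat.mul 3 n) (Nat.mul 3 p) acc K

/-- Adds `18 * Q_{t,u}`. -/
noncomputable def qstep (ih : JF) (t u a b d : Tr) (ops : List Tr) (p n : ℕ) (acc : Acc)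
    (K : Acc → Bool) : Bool :=
  ih a b d (t :: u :: ops) (Nat.mul 5 n) (Nat.mul 5 p) acc fun acc =>
  ih a b d (u :: t :: ops) (Nat.mul 5 n) (Nat.mul 5 p) acc fun acc =>
  qstep3 ih t u a b d ops p n acc fun acc =>
  qstep3 ih t u b d a ops p n acc fun acc =>
  qstep3 ih t u d a b ops p n acc K

/-- Adds `18 ^ g * 3 ^ F * (p - n) • Q_{qs}(J(a,b,d)·ops)`. -/
noncomputable def runQ (F g : ℕ) : List (Tr × Tr) → JF :=
  Nat.rec (motive := fun _ => List (Tr × Tr) → JF)
    (fun qs => List.rec (motive := fun _ => JF) (redJ F) (fun _ _ _ _ _ _ _ _ _ _ _ => false) qs)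
    (fun g ih qs => List.rec (motive := fun _ => JF)
      (fun a b d ops p n acc K =>
        ih [] a b d ops (Nat.mul 18 p) (Nat.mul 18 n) acc K)
      (fun q qs _ => qstep (ih qs) q.1 q.2) qs)
    g

noncomputable def runT (F g : ℕ) (l : List Tm) : Acc → (Acc → Bool) → Bool :=
  List.rec (motive := fun _ => Acc → (Acc → Bool) → Bool)
    (fun acc K => K acc)
    (fun t _ ih acc K =>
      Tm.rec (motive := fun _ => Bool)
        (fun p n qs a b d ops => runQ F g qs a b d ops p n acc fun acc => ih acc K) t) l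

def Tr.okb : Tr → Bool
  | .v n => Nat.ble n 7
  | .m a b => a.okb && b.okb

def Tm.okb : Tm → Bool
  | .mk _ _ qs a b d ops =>
    qs.all (fun q => q.1.okb && q.2.okb) && a.okb && b.okb && d.okb && ops.all Tr.okb

def Ce.okb : Ce → Bool
  | .cyc _ _ a b d suf => a.okb && b.okb && d.okb && suf.all Tr.okb
  | .flipA _ _ a b d pre x y z suf =>
    a.okb && b.okb && d.okb && pre.all Tr.okb && x.okb && y.okb && z.okb && suf.all Tr.okb
  | .flipB _ _ a b d pre x y suf =>
    a.okb && b.okb && d.okb && pre.all Tr.okb && x.okb && y.okb && suf.all Tr.okb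

noncomputable def check (F g : ℕ) (target : List Tm) (cert : List Ce) : Bool :=
  target.all Tm.okb && (cert.all Ce.okb &&
    runT F g target .nil fun acc => runC F cert acc Acc.zero)

end Pool.Agent.H1.Mal
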