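import Mathlib

/-!
# Commuting operators, and an extension argument for modules over polynomial rings
-/

set_option autoImplicit false
set_option linter.unusedSectionVars false

namespace Pool.Agent.H1.Mal

open MvPolynomial

/-- a commuting family of endomorphisms gives an action of the polynomial ring -/
theorem exists_action {ι R E : Type} [CommRing R] [AddCommGroup E] [Module R E]
    (T : ι → Module.End R E) (h : ∀ i j, T i * T j = T j * T i) :
    ∃ φ : MvPolynomial ι R →ₐ[R] Module.End R E, ∀ i, φ (X i) = T i := by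
  have hc : ∀ a ∈ Set.range T, ∀ b ∈ Set.range T, a * b = b * a := by
    rintro _ ⟨i, rfl⟩ _ ⟨j, rfl⟩; exact h i j
  let _ : CommRing (Algebra.adjoin R (Set.range T)) := Algebra.adjoinCommRingOfComm R hc
  let g : ι → Algebra.adjoin R (Set.range T) := fun i =>
    ⟨T i, Algebra.subset_adjoin ⟨i, rfl⟩⟩
  let ψ : MvPolynomial ι R →ₐ[R] Algebra.adjoin R (Set.range T) := aeval g
  refine ⟨(Algebra.adjoin R (Set.range T)).val.comp ψ, fun i => ?_⟩
  show ((ψ (X i) : Algebra.adjoin R (Set.range T)) : Module.End R E) = T i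
  rw [show ψ (X i) = g i from aeval_X g i]

section ModA

variable {ι κ R N : Type} [Fintype ι] [Fintype κ] [DecidableEq κ] [CommRing R] [AddCommGroup N]
  [Module (MvPolynomial ι R) N] [Module R N] [IsScalarTower R (MvPolynomial ι R) N]

/-- base change of vectors -/
noncomputable def iotaP (ι κ R : Type) [CommRing R] : (κ → R) →ₗ[R] (κ → MvPolynomial ι R) where
  toFun p k := C (p k)
  map_add' p q := by ext1 k; simp
  map_smul' c p := by ext1 k; simp [MvPolynomial.smul_eq_C_mul]

/-- extension of scalars of a linear map into a module over the polynomial ring -/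
noncomputable def extM (G : (κ → R) →ₗ[R] N) : (κ → MvPolynomial ι R) →ₗ[MvPolynomial ι R] N :=
  Fintype.linearCombination (MvPolynomial ι R) (fun k => G (Pi.single k 1))

lemma extM_iota (G : (κ → R) →ₗ[R] N) (p : κ → R) : extM G (iotaP ι κ R p) = G p := by
  have h : p = ∑ k, p k • Pi.single k (1 : R) := by
    ext j; simp [Finset.sum_apply, Pi.single_apply]
  conv_rhs => rw [h]
  rw [map_sum, extM, Fintype.linearCombination_apply]
  refine Finset.sum_congr rfl fun k _ => ?_
  rw [map_smul, ← IsScalarTower.algebraMap_smul (MvPolynomial ι R) (p k)]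
  rfl

/-- the main abstract statement -/
theorem mod_main (G : ι → (κ → R) →ₗ[R] N) (T : ι → (κ → R) →ₗ[R] (κ → R))
    (Nf : Submodule (MvPolynomial ι R) N) (Rf : Submodule R (κ → R))
    (h1 : ∀ l, ∀ p ∈ Rf, G l p ∈ Nf) (h1' : ∀ l, ∀ p ∈ Rf, T l p ∈ Rf)
    (h2 : ∀ l m p, T l (T m p) - T m (T l p) ∈ Rf)
    (h3 : ∀ l m p, (X l : MvPolynomial ι R) • G m p + G l (T m p)
      - ((X m : MvPolynomial ι R) • G l p + G m (T l p)) ∈ Nf)
    (f : ι → κ → MvPolynomial ι R)
    (hf : ∑ l, ((X l : MvPolynomial ι R) • f l - extM (iotaP ι κ R ∘ₗ T l) (f l))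
      ∈ Submodule.span (MvPolynomial ι R) ((iotaP ι κ R) '' Rf)) :
    ∑ l, extM (G l) (f l) ∈ Nf := by
  -- quotients
  let Nb := N ⧸ Nf
  let Pb := (κ → R) ⧸ Rf
  let NfR : Submodule R N := Nf.restrictScalars R
  let mkN : N →ₗ[MvPolynomial ι R] Nb := Nf.mkQ
  let mkP : (κ → R) →ₗ[R] Pb := Rf.mkQ
  let Gb : ι → Pb →ₗ[R] Nb := fun l => Rf.liftQ ((mkN.restrictScalars R) ∘ₗ G l) (by
    intro p hp
    rw [LinearMap.mem_ker, LinearMap.comp_apply, LinearMap.restrictScalars_apply]
    exact (Submodule.Quotient.mk_eq_zero _).2 (h1 l p hp))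
  have hGb : ∀ l p, Gb l (mkP p) = mkN (G l p) := fun l p => rfl
  let Tb : ι → Pb →ₗ[R] Pb := fun l => Rf.mapQ Rf (T l) (fun p hp => h1' l p hp)
  have hTb : ∀ l p, Tb l (mkP p) = mkP (T l p) := fun l p => rfl
  let xN : ι → Nb →ₗ[R] Nb := fun l =>
    { toFun := fun n => (X l : MvPolynomial ι R) • n
      map_add' := fun a b => smul_add _ a b
      map_smul' := fun c a => by
        rw [RingHom.id_apply, ← IsScalarTower.algebraMap_smul (MvPolynomial ι R) c a,
          ← IsScalarTower.algebraMap_smul (MvPolynomial ι R) c, smul_smul, smul_smul, mul_comm] }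
  have hxN : ∀ l n, xN l n = (X l : MvPolynomial ι R) • n := fun _ _ => rfl
  let t : ι → Module.End R (Nb × Pb) := fun l =>
    LinearMap.prod (xN l ∘ₗ LinearMap.fst R Nb Pb + Gb l ∘ₗ LinearMap.snd R Nb Pb)
      (Tb l ∘ₗ LinearMap.snd R Nb Pb)
  have ht : ∀ l n p, t l (n, p) = ((X l : MvPolynomial ι R) • n + Gb l p, Tb l p) :=
    fun l n p => rfl
  have hcomm : ∀ l m, t l * t m = t m * t l := by
    intro l m
    refine LinearMap.ext ?_
    rintro ⟨n, p⟩
    obtain ⟨p, rfl⟩ := Rf.mkQ_surjective p
    change t l (t m (n, mkP p)) = t m (t l (n, mkP p))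
    rw [ht, ht, ht, ht, hTb, hTb, hTb, hTb, hGb, hGb, hGb, hGb]
    refine Prod.ext ?_ ?_
    · show (X l : MvPolynomial ι R) • ((X m : MvPolynomial ι R) • n + mkN (G m p)) + mkN (G l (T m p))
        = (X m : MvPolynomial ι R) • ((X l : MvPolynomial ι R) • n + mkN (G l p))
          + mkN (G m (T l p))
      have h := h3 l m p
      have h' : mkN ((X l : MvPolynomial ι R) • G m p + G l (T m p))
          = mkN ((X m : MvPolynomial ι R) • G l p + G m (T l p)) := by
        rw [← sub_eq_zero, ← map_sub]
        exact (Submodule.Quotient.mk_eq_zero _).2 h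
      rw [map_add, map_add, map_smul, map_smul] at h'
      rw [smul_add, smul_add, add_assoc, add_assoc, h', smul_comm]
    · show mkP (T l (T m p)) = mkP (T m (T l p))
      rw [← sub_eq_zero, ← map_sub]
      exact (Submodule.Quotient.mk_eq_zero _).2 (h2 l m p)
  obtain ⟨φ, hφ⟩ := exists_action t hcomm
  -- action on the first component
  have hφ1 : ∀ (s : MvPolynomial ι R) (n : Nb), φ s (n, 0) = (s • n, 0) := by
    intro s
    induction s using MvPolynomial.induction_on with
    | C c =>
      intro n
      rw [show (C c : MvPolynomial ι R) = algebraMap R _ c from rfl, AlgHom.commutes,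
        Module.algebraMap_end_apply]
      refine Prod.ext ?_ (smul_zero _)
      show c • n = algebraMap R (MvPolynomial ι R) c • n
      rw [IsScalarTower.algebraMap_smul]
    | add p q hp hq =>
      intro n
      rw [map_add, LinearMap.add_apply, hp, hq, add_smul]
      simp
    | mul_X p i hp =>
      intro n
      rw [map_mul, Module.End.mul_apply, hφ, ht, map_zero, map_zero, add_zero, hp, mul_smul]
  -- the map Φ
  let Φ : (κ → MvPolynomial ι R) → Nb × Pb := fun f =>
    ∑ k, φ (f k) ((0 : Nb), mkP (Pi.single k 1))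
  have hΦadd : ∀ f g, Φ (f + g) = Φ f + Φ g := by
    intro f g
    show ∑ k, φ ((f + g) k) _ = _
    simp only [Pi.add_apply, map_add, LinearMap.add_apply, Finset.sum_add_distrib]
    rfl
  have hΦsmul : ∀ (s : MvPolynomial ι R) f, Φ (s • f) = φ s (Φ f) := by
    intro s f
    show ∑ k, φ ((s • f) k) _ = φ s (∑ k, φ (f k) _)
    rw [map_sum]
    refine Finset.sum_congr rfl fun k _ => ?_
    rw [Pi.smul_apply, smul_eq_mul, map_mul, Module.End.mul_apply]
  have hΦiota : ∀ p : κ → R, Φ (iotaP ι κ R p) = (0, mkP p) := by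
    intro p
    show ∑ k, φ (C (p k)) _ = _
    have h : p = ∑ k, p k • Pi.single k (1 : R) := by
      ext j; simp [Finset.sum_apply, Pi.single_apply]
    conv_rhs => rw [h]
    rw [map_sum]
    have h0 : ((0 : Nb), ∑ k, mkP (p k • Pi.single k (1 : R)))
        = ∑ k, ((0 : Nb), mkP (p k • Pi.single k (1 : R))) := by
      refine Prod.ext ?_ ?_
      · simp [Prod.fst_sum]
      · simp [Prod.snd_sum]
    rw [h0]
    refine Finset.sum_congr rfl fun k _ => ?_
    rw [show (C (p k) : MvPolynomial ι R) = algebraMap R _ (p k) from rfl, AlgHom.commutes,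
      Module.algebraMap_end_apply, map_smul]
    refine Prod.ext (smul_zero _) rfl
  have hΦzero : ∀ f ∈ Submodule.span (MvPolynomial ι R) ((iotaP ι κ R) '' Rf), Φ f = 0 := by
    intro f hf
    induction hf using Submodule.span_induction with
    | mem x hx =>
      obtain ⟨p, hp, rfl⟩ := hx
      rw [hΦiota]
      refine Prod.ext rfl ?_
      exact (Submodule.Quotient.mk_eq_zero _).2 hp
    | zero => have := hΦsmul 0 0; rw [zero_smul, map_zero] at this; simpa using this
    | add p q _ _ hp hq => rw [hΦadd, hp, hq, add_zero]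
    | smul c p _ hp => rw [hΦsmul, hp, map_zero]
  have hΦD : ∀ l (f : κ → MvPolynomial ι R),
      Φ ((X l : MvPolynomial ι R) • f - extM (iotaP ι κ R ∘ₗ T l) f)
        = (mkN (extM (G l) f), 0) := by
    intro l f
    have hneg : ∀ g, Φ (-g) = -Φ g := by
      intro g
      have := hΦsmul (-1) g
      rw [neg_one_smul, map_neg, map_one] at this
      simpa using this
    have h : f = ∑ k, f k • Pi.single k (1 : MvPolynomial ι R) := by
      ext j; simp [Finset.sum_apply, Pi.single_apply]
    have hsum : ∀ (g : κ → (κ → MvPolynomial ι R)), Φ (∑ k, g k) = ∑ k, Φ (g k) := by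
      intro g
      let ΦA : (κ → MvPolynomial ι R) →+ Nb × Pb :=
        { toFun := Φ, map_zero' := by
            have := hΦsmul 0 0; rw [zero_smul, map_zero] at this; simpa using this
          map_add' := hΦadd }
      exact map_sum ΦA g Finset.univ
    have key : (X l : MvPolynomial ι R) • f - extM (iotaP ι κ R ∘ₗ T l) f
        = ∑ k, f k • ((X l : MvPolynomial ι R) • Pi.single k (1 : MvPolynomial ι R)
          - iotaP ι κ R (T l (Pi.single k 1))) := by
      conv_lhs => rw [h]
      rw [map_sum, Finset.smul_sum, ← Finset.sum_sub_distrib]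
      refine Finset.sum_congr rfl fun k _ => ?_
      rw [map_smul, smul_sub, smul_comm]
      congr 2
      rw [extM, Fintype.linearCombination_apply_single, one_smul]
      rfl
    rw [key, hsum]
    have hk : ∀ k, Φ (f k • ((X l : MvPolynomial ι R) • Pi.single k (1 : MvPolynomial ι R)
          - iotaP ι κ R (T l (Pi.single k 1)))) = (f k • mkN (G l (Pi.single k 1)), 0) := by
      intro k
      have h1 : Pi.single k (1 : MvPolynomial ι R) = iotaP ι κ R (Pi.single k 1) := by
        ext1 j
        show _ = C (Pi.single (M := fun _ => R) k 1 j)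
        by_cases hj : j = k
        · subst hj; simp
        · simp [Pi.single_eq_of_ne hj]
      rw [hΦsmul, sub_eq_add_neg, hΦadd, hneg, hΦiota, hΦsmul, h1, hΦiota, hφ, ht, smul_zero,
        zero_add, hTb, hGb]
      have : ((mkN (G l (Pi.single k 1)), mkP (T l (Pi.single k 1))) : Nb × Pb)
          + -(0, mkP (T l (Pi.single k 1))) = (mkN (G l (Pi.single k 1)), 0) := by
        refine Prod.ext ?_ ?_
        · simp
        · simp
      rw [this, hφ1]
    simp only [hk]
    refine Prod.ext ?_ ?_
    · rw [Prod.fst_sum, extM, Fintype.linearCombination_apply, map_sum]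
      refine Finset.sum_congr rfl fun k _ => ?_
      rw [map_smul]
    · rw [Prod.snd_sum]; simp
  have hfin := hΦzero _ hf
  have hsum2 : ∀ (g : ι → (κ → MvPolynomial ι R)), Φ (∑ k, g k) = ∑ k, Φ (g k) := by
    intro g
    let ΦA : (κ → MvPolynomial ι R) →+ Nb × Pb :=
      { toFun := Φ, map_zero' := by
          have := hΦsmul 0 0; rw [zero_smul, map_zero] at this; simpa using this
        map_add' := hΦadd }
    exact map_sum ΦA g Finset.univ
  rw [hsum2] at hfin
  simp only [hΦD] at hfin
  have hfst := congrArg Prod.fst hfin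
  rw [Prod.fst_sum] at hfst
  have : mkN (∑ l, extM (G l) (f l)) = 0 := by
    rw [map_sum]; exact hfst
  exact (Submodule.Quotient.mk_eq_zero _).1 this

end ModA

end Pool.Agent.H1.Mal
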