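import Pool.Agent.H1.Mal.NMod
import Pool.Agent.H1.Mal.IdentC

/-!
# The special elements of the Jacobian ideal, indexed by letters
-/

set_option autoImplicit false
set_option linter.unusedSectionVars false
set_option linter.unusedSimpArgs false

namespace Pool.Agent.H1.Mal

open MvPolynomial

lemma allQ4 (a b c d : Fin 4) :
    AllQ (env [(gen a : M4), gen b, gen c, gen d]) Qc where
  q := by
    intro i j hi hj
    have h : ∀ i < 4, ∃ k : Fin 4, env [(gen a : M4), gen b, gen c, gen d] i = gen k := by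
      intro i hi
      interval_cases i
      · exact ⟨a, rfl⟩
      · exact ⟨b, rfl⟩
      · exact ⟨c, rfl⟩
      · exact ⟨d, rfl⟩
    obtain ⟨k, hk⟩ := h i hi
    obtain ⟨l, hl⟩ := h j hj
    rw [hk, hl]
    exact isQ_gen _ _
  t := by
    intro i j m hi hj hm
    have h : ∀ i < 4, ∃ k : Fin 4, env [(gen a : M4), gen b, gen c, gen d] i = gen k := by
      intro i hi
      interval_cases i
      · exact ⟨a, rfl⟩
      · exact ⟨b, rfl⟩
      · exact ⟨c, rfl⟩
      · exact ⟨d, rfl⟩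
    obtain ⟨k, hk⟩ := h i hi
    obtain ⟨l, hl⟩ := h j hj
    obtain ⟨p, hp⟩ := h m hm
    rw [hk, hl, hp]
    exact isQ_gen3 _ _ _

/-- right multiplication by a letter -/
noncomputable def rl (u : Fin 4) : Nn →ₗ[S4] Nn := rm (gen u)

lemma inN_rl (u : Fin 4) (n : Nn) : inN (rl u n) = inN n * gen u := rfl

noncomputable def Jn (x y z : Fin 4) : Nn := mkN (J (gen x) (gen y) (gen z)) (J_mem _ _ _)

lemma inN_Jn (x y z : Fin 4) : inN (Jn x y z) = J (gen x) (gen y) (gen z) := rfl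

noncomputable def gn (x y z w : Fin 4) : Nn :=
  (2 : ℚ) • rl w (Jn x y z) + rl x (Jn y z w) - rl y (Jn z w x) + rl z (Jn w x y)

lemma inN_gn (x y z w : Fin 4) : inN (gn x y z w) = gg (gen x) (gen y) (gen z) (gen w) := by
  unfold gn gg
  simp only [map_add, map_sub, map_smul, inN_rl, inN_Jn]

noncomputable def hn (x y z v w : Fin 4) : Nn :=
  rl w (gn x y z v) + (3 : ℚ) • (qx x v • Jn y z w + qx y v • Jn z x w + qx z v • Jn x y w)

lemma inN_hn (x y z v w : Fin 4) :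
    inN (hn x y z v w) = hh Qc (gen x) (gen y) (gen z) (gen v) (gen w) := by
  unfold hn hh
  simp only [map_add, map_sub, map_smul, inN_rl, inN_Jn, inN_gn, inN_qx]

noncomputable def Bn (x y z v w u : Fin 4) : Nn :=
  rl u (hn x y z v w) - (3 : ℚ) • top3R x y z (Jn v w u) - qx v u • gn x y z w
    + qx w u • gn x y z v

lemma inN_Bn (x y z v w u : Fin 4) :
    inN (Bn x y z v w u) = BB Qc (gen x) (gen y) (gen z) (gen v) (gen w) (gen u) := by
  unfold Bn BB
  simp only [map_add, map_sub, map_smul, inN_rl, inN_Jn, inN_gn, inN_hn, inN_qx, inN_top3R]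

/-- minors -/
noncomputable def mn (p r v w : Fin 4) : R0 := qx r w * qx p v - qx r v * qx p w

lemma inN_mn (p r v w : Fin 4) (n : Nn) :
    inN (mn p r v w • n) = MM Qc (inN n) (gen p) (gen r) (gen v) (gen w) := by
  unfold mn MM
  rw [sub_smul, mul_smul, mul_smul, map_sub, inN_qx, inN_qx, inN_qx, inN_qx]

noncomputable def Cn (x y z u v w n : Fin 4) : Nn :=
  rl n (Bn x y z v w u) + (3 : ℚ) • (mn x y v w • Jn z u n + mn y z v w • Jn x u n
    + mn z x v w • Jn y u n + mn x u v w • Jn y z n + mn y u v w • Jn z x n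
    + mn z u v w • Jn x y n)

lemma inN_Cn (x y z u v w n : Fin 4) : inN (Cn x y z u v w n)
    = CC Qc (gen x) (gen y) (gen z) (gen u) (gen v) (gen w) (gen n) := by
  unfold Cn CC
  simp only [map_add, map_sub, map_smul, inN_rl, inN_Jn, inN_Bn, inN_mn]

noncomputable def Kh (p r l n w : Fin 4) : Nn :=
  top3R p r l (gn p r n w) - (qx p w • hn p r n r l + qx r w • hn p r n l p
    + qx l w • hn p r n p r)

noncomputable def Kn (p r l n w : Fin 4) : Nn := Kh p r l n w - Kh p r n l w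

lemma inN_Kn (p r l n w : Fin 4) : inN (Kn p r l n w)
    = KK Qc (gen p) (gen r) (gen l) (gen n) (gen w) := by
  unfold Kn Kh KK KKh
  simp only [map_add, map_sub, map_smul, inN_gn, inN_hn, inN_qx, inN_top3R]

/-! ### alternation of the elements -/

lemma Jn_s12 (x y z : Fin 4) : Jn x y z = -Jn y x z := by
  apply inN_inj; rw [map_neg, inN_Jn, inN_Jn, J_swap]
lemma Jn_s23 (x y z : Fin 4) : Jn x y z = -Jn x z y := by
  apply inN_inj; rw [map_neg, inN_Jn, inN_Jn, J_swap']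
lemma Jn_cyc (x y z : Fin 4) : Jn x y z = Jn y z x := by
  apply inN_inj; rw [inN_Jn, inN_Jn, J_cyc]
lemma Jn_self (x z : Fin 4) : Jn x x z = 0 := by
  apply inN_inj; rw [map_zero, inN_Jn, J_self]
lemma Jn_self' (x z : Fin 4) : Jn x z z = 0 := by
  apply inN_inj; rw [map_zero, inN_Jn, J_self']
lemma Jn_self'' (x z : Fin 4) : Jn x z x = 0 := by
  apply inN_inj; rw [map_zero, inN_Jn, J_self'']

lemma top3R_s12 (x y z : Fin 4) (n : Nn) : top3R x y z n = -top3R y x z n := by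
  apply inN_inj
  rw [map_neg, inN_top3R, inN_top3R, Qc3_swap12 x y z (inN_mem n)]

lemma top3R_s23 (x y z : Fin 4) (n : Nn) : top3R x y z n = -top3R x z y n := by
  apply inN_inj
  rw [map_neg, inN_top3R, inN_top3R, Qc3_swap23 x y z (inN_mem n)]

lemma nn_self_neg {a : Nn} (h : a = -a) : a = 0 := by
  have h2 : (2 : ℚ) • a = 0 := by
    rw [two_smul]; nth_rw 2 [h]; abel
  exact (smul_eq_zero.1 h2).resolve_left (by norm_num)

lemma Jn_bca (a b c : Fin 4) : Jn b c a = Jn a b c := (Jn_cyc a b c).symm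
lemma Jn_cab (a b c : Fin 4) : Jn c a b = Jn a b c := Jn_cyc c a b
lemma Jn_bac (a b c : Fin 4) : Jn b a c = -Jn a b c := Jn_s12 b a c
lemma Jn_acb (a b c : Fin 4) : Jn a c b = -Jn a b c := Jn_s23 a c b
lemma Jn_cba (a b c : Fin 4) : Jn c b a = -Jn a b c := by rw [Jn_s12, Jn_bca]

lemma gn_s12 (x y z w : Fin 4) : gn x y z w = -gn y x z w := by
  unfold gn
  simp only [
    Jn_bca x y z, Jn_cab x y z, Jn_bac x y z, Jn_acb x y z, Jn_cba x y z, Jn_bca x y w,
    Jn_cab x y w, Jn_bac x y w, Jn_acb x y w, Jn_cba x y w, Jn_bca x z w, Jn_cab x z w,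
    Jn_bac x z w, Jn_acb x z w, Jn_cba x z w, Jn_bca y z w, Jn_cab y z w, Jn_bac y z w,
    Jn_acb y z w, Jn_cba y z w, map_neg, smul_neg]
  module

lemma gn_s23 (x y z w : Fin 4) : gn x y z w = -gn x z y w := by
  unfold gn
  simp only [
    Jn_bca x y z, Jn_cab x y z, Jn_bac x y z, Jn_acb x y z, Jn_cba x y z, Jn_bca x y w,
    Jn_cab x y w, Jn_bac x y w, Jn_acb x y w, Jn_cba x y w, Jn_bca x z w, Jn_cab x z w,
    Jn_bac x z w, Jn_acb x z w, Jn_cba x z w, Jn_bca y z w, Jn_cab y z w, Jn_bac y z w,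
    Jn_acb y z w, Jn_cba y z w, map_neg, smul_neg]
  module

lemma hn_s12 (x y z v w : Fin 4) : hn x y z v w = -hn y x z v w := by
  unfold hn
  rw [gn_s12 x y z v]
  simp only [
    Jn_bca x y z, Jn_cab x y z, Jn_bac x y z, Jn_acb x y z, Jn_cba x y z, Jn_bca x y v,
    Jn_cab x y v, Jn_bac x y v, Jn_acb x y v, Jn_cba x y v, Jn_bca x y w, Jn_cab x y w,
    Jn_bac x y w, Jn_acb x y w, Jn_cba x y w, Jn_bca x z v, Jn_cab x z v, Jn_bac x z v,
    Jn_acb x z v, Jn_cba x z v, Jn_bca x z w, Jn_cab x z w, Jn_bac x z w, Jn_acb x z w,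
    Jn_cba x z w, Jn_bca x v w, Jn_cab x v w, Jn_bac x v w, Jn_acb x v w, Jn_cba x v w,
    Jn_bca y z v, Jn_cab y z v, Jn_bac y z v, Jn_acb y z v, Jn_cba y z v, Jn_bca y z w,
    Jn_cab y z w, Jn_bac y z w, Jn_acb y z w, Jn_cba y z w, Jn_bca y v w, Jn_cab y v w,
    Jn_bac y v w, Jn_acb y v w, Jn_cba y v w, Jn_bca z v w, Jn_cab z v w, Jn_bac z v w,
    Jn_acb z v w, Jn_cba z v w, map_neg, smul_neg]
  module

lemma hn_s23 (x y z v w : Fin 4) : hn x y z v w = -hn x z y v w := by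
  unfold hn
  rw [gn_s23 x y z v]
  simp only [
    Jn_bca x y z, Jn_cab x y z, Jn_bac x y z, Jn_acb x y z, Jn_cba x y z, Jn_bca x y v,
    Jn_cab x y v, Jn_bac x y v, Jn_acb x y v, Jn_cba x y v, Jn_bca x y w, Jn_cab x y w,
    Jn_bac x y w, Jn_acb x y w, Jn_cba x y w, Jn_bca x z v, Jn_cab x z v, Jn_bac x z v,
    Jn_acb x z v, Jn_cba x z v, Jn_bca x z w, Jn_cab x z w, Jn_bac x z w, Jn_acb x z w,
    Jn_cba x z w, Jn_bca x v w, Jn_cab x v w, Jn_bac x v w, Jn_acb x v w, Jn_cba x v w,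
    Jn_bca y z v, Jn_cab y z v, Jn_bac y z v, Jn_acb y z v, Jn_cba y z v, Jn_bca y z w,
    Jn_cab y z w, Jn_bac y z w, Jn_acb y z w, Jn_cba y z w, Jn_bca y v w, Jn_cab y v w,
    Jn_bac y v w, Jn_acb y v w, Jn_cba y v w, Jn_bca z v w, Jn_cab z v w, Jn_bac z v w,
    Jn_acb z v w, Jn_cba z v w, map_neg, smul_neg]
  module

lemma gn_self (x z w : Fin 4) : gn x x z w = 0 := nn_self_neg (gn_s12 x x z w)
lemma gn_self' (x z w : Fin 4) : gn x z z w = 0 := nn_self_neg (gn_s23 x z z w)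
lemma hn_self (x z v w : Fin 4) : hn x x z v w = 0 := nn_self_neg (hn_s12 x x z v w)
lemma hn_self' (x z v w : Fin 4) : hn x z z v w = 0 := nn_self_neg (hn_s23 x z z v w)

lemma hn_vv (x y z v : Fin 4) : hn x y z v v = 0 := by
  apply inN_inj
  rw [inN_hn, map_zero]
  exact F5d_id (allQ4 x y z v)

lemma hn_vw (x y z v w : Fin 4) : hn x y z v w = -hn x y z w v := by
  rw [eq_neg_iff_add_eq_zero]
  apply inN_inj
  rw [map_add, inN_hn, inN_hn, map_zero]
  have h := F5g_id (gen x : M4) (gen y) (gen z) (gen v) (gen w)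
  unfold hh
  rw [(isQ_gen x v).J, (isQ_gen y v).J, (isQ_gen z v).J, (isQ_gen x w).J, (isQ_gen y w).J,
    (isQ_gen z w).J]
  linear_combination (norm := module) h

end Pool.Agent.H1.Mal
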