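import Pool.Agent.H1.Mal.NFacts

/-!
# The special elements of the Jacobian ideal, indexed by letters, continued
-/

set_option autoImplicit false
set_option linter.unusedSectionVars false
set_option linter.unusedSimpArgs false

namespace Pool.Agent.H1.Mal

open MvPolynomial

lemma Bn_s12 (x y z v w u : Fin 4) : Bn x y z v w u = -Bn y x z v w u := by
  unfold Bn
  rw [hn_s12 x y z, gn_s12 x y z w, gn_s12 x y z v, top3R_s12 x y z]
  simp only [map_neg, smul_neg]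
  module

lemma Bn_s23 (x y z v w u : Fin 4) : Bn x y z v w u = -Bn x z y v w u := by
  unfold Bn
  rw [hn_s23 x y z, gn_s23 x y z w, gn_s23 x y z v, top3R_s23 x y z]
  simp only [map_neg, smul_neg]
  module

lemma Bn_vw (x y z v w u : Fin 4) : Bn x y z v w u = -Bn x y z w v u := by
  unfold Bn
  rw [hn_vw x y z v w, Jn_s12 v w u]
  simp only [map_neg, smul_neg]
  module

lemma Bn_vv (x y z v u : Fin 4) : Bn x y z v v u = 0 := nn_self_neg (Bn_vw x y z v v u)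
lemma Bn_xx (x z v w u : Fin 4) : Bn x x z v w u = 0 := nn_self_neg (Bn_s12 x x z v w u)
lemma Bn_yy (x z v w u : Fin 4) : Bn x z z v w u = 0 := nn_self_neg (Bn_s23 x z z v w u)
lemma Bn_xz (x y v w u : Fin 4) : Bn x y x v w u = 0 := by
  rw [Bn_s12, Bn_yy, neg_zero]

lemma Bn_f03 (x y z t : Fin 4) : Bn x y z x t x = 0 := by
  apply inN_inj; rw [inN_Bn, map_zero]; exact F6_03_id (allQ4 x y z t)

lemma Bn_f13 (x y z t : Fin 4) : Bn x y z y t x = 0 := by
  apply inN_inj; rw [inN_Bn, map_zero]; exact F6_13_id (allQ4 x y z t)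

theorem Bn_x (x y z v w : Fin 4) : Bn x y z v w x = 0 := by
  by_cases h1 : v = x
  · subst h1; exact Bn_f03 _ _ _ _
  by_cases h2 : w = x
  · subst h2; rw [Bn_vw, Bn_f03, neg_zero]
  by_cases h3 : v = y
  · subst h3; exact Bn_f13 _ _ _ _
  by_cases h4 : w = y
  · subst h4; rw [Bn_vw, Bn_f13, neg_zero]
  by_cases h5 : v = z
  · subst h5; rw [Bn_s23, Bn_f13, neg_zero]
  by_cases h6 : w = z
  · subst h6; rw [Bn_s23, Bn_vw, Bn_f13, neg_zero, neg_zero]
  by_cases h7 : v = w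
  · subst h7; exact Bn_vv _ _ _ _ _
  have h : x = y ∨ x = z ∨ y = z := by
    revert x y z v w; decide
  rcases h with rfl | rfl | rfl
  · exact Bn_xx _ _ _ _ _
  · exact Bn_xz _ _ _ _ _
  · exact Bn_yy _ _ _ _ _

theorem Bn_y (x y z v w : Fin 4) : Bn x y z v w y = 0 := by rw [Bn_s12, Bn_x, neg_zero]
theorem Bn_z (x y z v w : Fin 4) : Bn x y z v w z = 0 := by rw [Bn_s23, Bn_y, neg_zero]

lemma Bn_g01 (x y z u : Fin 4) : Bn x y z x y u = -Bn u y z x y x := by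
  rw [eq_neg_iff_add_eq_zero]
  apply inN_inj; rw [map_add, inN_Bn, inN_Bn, map_zero]; exact F6s_01_id (allQ4 x y z u)

lemma Bn_g03 (x y z u : Fin 4) : Bn x y z x u u = -Bn u y z x u x := by
  rw [eq_neg_iff_add_eq_zero]
  apply inN_inj; rw [map_add, inN_Bn, inN_Bn, map_zero]; exact F6s_03_id (allQ4 x y z u)

lemma Bn_g12 (x y z u : Fin 4) : Bn x y z y z u = -Bn u y z y z x := by
  rw [eq_neg_iff_add_eq_zero]
  apply inN_inj; rw [map_add, inN_Bn, inN_Bn, map_zero]; exact F6s_12_id (allQ4 x y z u)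

lemma Bn_g02 (x y z u : Fin 4) : Bn x y z x z u = -Bn u y z x z x := by
  rw [Bn_s23, Bn_g01, Bn_s23 u z y, neg_neg]

lemma Bn_g31 (x y z u : Fin 4) : Bn x y z u y u = -Bn u y z u y x := by
  rw [Bn_g01 u y z x, neg_neg]

lemma Bn_g32 (x y z u : Fin 4) : Bn x y z u z u = -Bn u y z u z x := by
  rw [Bn_g02 u y z x, neg_neg]

theorem Bn_s14 (x y z v w u : Fin 4) : Bn x y z v w u = -Bn u y z v w x := by
  have hsw : ∀ v w : Fin 4, Bn x y z w v u = -Bn u y z w v x → Bn x y z v w u = -Bn u y z v w x := by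
    intro v w h
    rw [Bn_vw, h, Bn_vw u y z v w]
  by_cases h0 : v = w
  · subst h0; rw [Bn_vv, Bn_vv, neg_zero]
  by_cases hxy : x = y
  · subst hxy; rw [Bn_xx, Bn_y, neg_zero]
  by_cases hxz : x = z
  · subst hxz; rw [Bn_xz, Bn_z, neg_zero]
  by_cases hyz : y = z
  · subst hyz; rw [Bn_yy, Bn_yy, neg_zero]
  by_cases hux : u = x
  · subst hux; rw [Bn_x, neg_zero]
  by_cases huy : u = y
  · subst huy; rw [Bn_xx, Bn_y, neg_zero]
  by_cases huz : u = z
  · subst huz; rw [Bn_xz, Bn_z, neg_zero]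
  have hv : v = x ∨ v = y ∨ v = z ∨ v = u := by
    clear hsw h0 w; revert x y z u v; decide
  have hw : w = x ∨ w = y ∨ w = z ∨ w = u := by
    clear hv hsw h0 v; revert x y z u w; decide
  rcases hv with rfl | rfl | rfl | rfl
  · rcases hw with rfl | rfl | rfl | rfl
    · exact absurd rfl h0
    · exact Bn_g01 _ _ _ _
    · exact Bn_g02 _ _ _ _
    · exact Bn_g03 _ _ _ _
  · rcases hw with rfl | rfl | rfl | rfl
    · exact hsw _ _ (Bn_g01 _ _ _ _)
    · exact absurd rfl h0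
    · exact Bn_g12 _ _ _ _
    · exact hsw _ _ (Bn_g31 _ _ _ _)
  · rcases hw with rfl | rfl | rfl | rfl
    · exact hsw _ _ (Bn_g02 _ _ _ _)
    · exact hsw _ _ (Bn_g12 _ _ _ _)
    · exact absurd rfl h0
    · exact hsw _ _ (Bn_g32 _ _ _ _)
  · rcases hw with rfl | rfl | rfl | rfl
    · exact hsw _ _ (Bn_g03 _ _ _ _)
    · exact Bn_g31 _ _ _ _
    · exact Bn_g32 _ _ _ _
    · exact absurd rfl h0

theorem Bn_s34 (x y z v w u : Fin 4) : Bn x y z v w u = -Bn x y u v w z := by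
  rw [Bn_s23, Bn_s12, Bn_s14, Bn_s12 u x y, Bn_s23 x u y]
  simp only [neg_neg]

/-! ### the elements `Cn` -/

lemma Cn_s12 (x y z u v w n : Fin 4) : Cn x y z u v w n = -Cn y x z u v w n := by
  unfold Cn mn
  rw [Bn_s12 x y z]
  simp only [
    Jn_bca x y z, Jn_cab x y z, Jn_bac x y z, Jn_acb x y z, Jn_cba x y z, Jn_bca x y u,
    Jn_cab x y u, Jn_bac x y u, Jn_acb x y u, Jn_cba x y u, Jn_bca x y n, Jn_cab x y n,
    Jn_bac x y n, Jn_acb x y n, Jn_cba x y n, Jn_bca x z u, Jn_cab x z u, Jn_bac x z u,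
    Jn_acb x z u, Jn_cba x z u, Jn_bca x z n, Jn_cab x z n, Jn_bac x z n, Jn_acb x z n,
    Jn_cba x z n, Jn_bca x u n, Jn_cab x u n, Jn_bac x u n, Jn_acb x u n, Jn_cba x u n,
    Jn_bca y z u, Jn_cab y z u, Jn_bac y z u, Jn_acb y z u, Jn_cba y z u, Jn_bca y z n,
    Jn_cab y z n, Jn_bac y z n, Jn_acb y z n, Jn_cba y z n, Jn_bca y u n, Jn_cab y u n,
    Jn_bac y u n, Jn_acb y u n, Jn_cba y u n, Jn_bca z u n, Jn_cab z u n, Jn_bac z u n,
    Jn_acb z u n, Jn_cba z u n, map_neg, smul_neg]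
  module

lemma Cn_s23 (x y z u v w n : Fin 4) : Cn x y z u v w n = -Cn x z y u v w n := by
  unfold Cn mn
  rw [Bn_s23 x y z]
  simp only [
    Jn_bca x y z, Jn_cab x y z, Jn_bac x y z, Jn_acb x y z, Jn_cba x y z, Jn_bca x y u,
    Jn_cab x y u, Jn_bac x y u, Jn_acb x y u, Jn_cba x y u, Jn_bca x y n, Jn_cab x y n,
    Jn_bac x y n, Jn_acb x y n, Jn_cba x y n, Jn_bca x z u, Jn_cab x z u, Jn_bac x z u,
    Jn_acb x z u, Jn_cba x z u, Jn_bca x z n, Jn_cab x z n, Jn_bac x z n, Jn_acb x z n,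
    Jn_cba x z n, Jn_bca x u n, Jn_cab x u n, Jn_bac x u n, Jn_acb x u n, Jn_cba x u n,
    Jn_bca y z u, Jn_cab y z u, Jn_bac y z u, Jn_acb y z u, Jn_cba y z u, Jn_bca y z n,
    Jn_cab y z n, Jn_bac y z n, Jn_acb y z n, Jn_cba y z n, Jn_bca y u n, Jn_cab y u n,
    Jn_bac y u n, Jn_acb y u n, Jn_cba y u n, Jn_bca z u n, Jn_cab z u n, Jn_bac z u n,
    Jn_acb z u n, Jn_cba z u n, map_neg, smul_neg]
  module

lemma Cn_s34 (x y z u v w n : Fin 4) : Cn x y z u v w n = -Cn x y u z v w n := by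
  unfold Cn mn
  rw [Bn_s34 x y z]
  simp only [
    Jn_bca x y z, Jn_cab x y z, Jn_bac x y z, Jn_acb x y z, Jn_cba x y z, Jn_bca x y u,
    Jn_cab x y u, Jn_bac x y u, Jn_acb x y u, Jn_cba x y u, Jn_bca x y n, Jn_cab x y n,
    Jn_bac x y n, Jn_acb x y n, Jn_cba x y n, Jn_bca x z u, Jn_cab x z u, Jn_bac x z u,
    Jn_acb x z u, Jn_cba x z u, Jn_bca x z n, Jn_cab x z n, Jn_bac x z n, Jn_acb x z n,
    Jn_cba x z n, Jn_bca x u n, Jn_cab x u n, Jn_bac x u n, Jn_acb x u n, Jn_cba x u n,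
    Jn_bca y z u, Jn_cab y z u, Jn_bac y z u, Jn_acb y z u, Jn_cba y z u, Jn_bca y z n,
    Jn_cab y z n, Jn_bac y z n, Jn_acb y z n, Jn_cba y z n, Jn_bca y u n, Jn_cab y u n,
    Jn_bac y u n, Jn_acb y u n, Jn_cba y u n, Jn_bca z u n, Jn_cab z u n, Jn_bac z u n,
    Jn_acb z u n, Jn_cba z u n, map_neg, smul_neg]
  module

lemma Cn_vw (x y z u v w n : Fin 4) : Cn x y z u v w n = -Cn x y z u w v n := by
  unfold Cn mn
  rw [Bn_vw x y z v w]
  simp only [map_neg, smul_neg]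
  module

lemma Cn_12 (x z u v w n : Fin 4) : Cn x x z u v w n = 0 := nn_self_neg (Cn_s12 _ _ _ _ _ _ _)
lemma Cn_23 (x z u v w n : Fin 4) : Cn x z z u v w n = 0 := nn_self_neg (Cn_s23 _ _ _ _ _ _ _)
lemma Cn_34 (x z u v w n : Fin 4) : Cn x z u u v w n = 0 := nn_self_neg (Cn_s34 _ _ _ _ _ _ _)
lemma Cn_13 (x z u v w n : Fin 4) : Cn x z x u v w n = 0 := by rw [Cn_s23, Cn_12, neg_zero]
lemma Cn_24 (x z u v w n : Fin 4) : Cn x z u z v w n = 0 := by rw [Cn_s34, Cn_23, neg_zero]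
lemma Cn_14 (x z u v w n : Fin 4) : Cn x z u x v w n = 0 := by rw [Cn_s34, Cn_13, neg_zero]

lemma Cn_B1 (a b c d : Fin 4) : Cn a b c d a b b = 0 := by
  apply inN_inj; rw [inN_Cn, map_zero]; exact F7B1_id (allQ4 a b c d)

lemma Cn_B2 (a b c d : Fin 4) : Cn a b c d a b c = -Cn a b c d a c b := by
  rw [eq_neg_iff_add_eq_zero]
  apply inN_inj; rw [map_add, inN_Cn, inN_Cn, map_zero]; exact F7B2_id (allQ4 a b c d)

lemma Kn_a (a b c d : Fin 4) : Kn a b c d a = 0 := by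
  apply inN_inj; rw [inN_Kn, map_zero]; exact F7Ra_id (allQ4 a b c d)

lemma Kn_c (a b c d : Fin 4) : Kn a b c d c = -Cn a b c d a b c := by
  rw [eq_neg_iff_add_eq_zero]
  apply inN_inj; rw [map_add, inN_Kn, inN_Cn, map_zero]; exact F7Rc_id (allQ4 a b c d)

lemma Cn_a (a b c d : Fin 4) : rl a (Cn a b c d a b c) = -(qx a a • Bn a b c b c d
    + qx b a • Bn a b c c a d + qx c a • Bn a b c a b d) := by
  rw [eq_neg_iff_add_eq_zero]
  apply inN_inj
  have h := F8a_id (allQ4 a b c d)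
  simp only [map_add, inN_rl, inN_Cn, inN_qx, inN_Bn, map_zero]
  rw [← h, add_assoc (Qc _ _ _)]

lemma Cn_d (a b c d : Fin 4) : rl d (Cn a b c d a b c) = -(qx a d • Bn a b c b c d
    + qx b d • Bn a b c c a d + qx c d • Bn a b c a b d) := by
  rw [eq_neg_iff_add_eq_zero]
  apply inN_inj
  have h := F8d_id (allQ4 a b c d)
  simp only [map_add, inN_rl, inN_Cn, inN_qx, inN_Bn, map_zero]
  rw [← h, add_assoc (Qc _ _ _)]

end Pool.Agent.H1.Mal
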