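import Pool.Agent.H1.Mal.O7
import Pool.Agent.H1.Mal.Formal3

/-!
# Evaluation of the special elements in the cross product algebra
-/

set_option autoImplicit false
set_option linter.unusedSectionVars false
set_option linter.unusedSimpArgs false

namespace Pool.Agent.H1.Mal

variable {R : Type} [CommRing R] [Algebra ℚ R]

instance : Module ℚ (O7 R) := inferInstanceAs (Module ℚ (Fin 7 → R))
instance : IsScalarTower ℚ R (O7 R) := inferInstanceAs (IsScalarTower ℚ R (Fin 7 → R))

instance : IsScalarTower ℚ (O7 R) (O7 R) := ⟨by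
  intro c a b
  rw [← algebraMap_smul R c a, ← algebraMap_smul R c (a • b), smul_assoc]⟩

instance : SMulCommClass ℚ (O7 R) (O7 R) := ⟨by
  intro c a b
  rw [← algebraMap_smul R c b, ← algebraMap_smul R c (a • b), smul_comm]⟩

lemma rule1 (x y z : O7 R) : x * y * z = dot x z • y - dot y z • x + (1/3 : ℚ) • J x y z := by
  have h := cross1 x y z
  have h3 : ∀ v : O7 R, (3 : R) • v = (3 : ℚ) • v := by
    intro v
    rw [← algebraMap_smul R (3 : ℚ) v, map_ofNat]
  rw [h3, h3, h3] at h
  have h4 : x * y * z = (1/3 : ℚ) • ((3 : ℚ) • (x * y * z)) := by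
    rw [smul_smul]; norm_num
  rw [h4, h, smul_add, smul_sub, smul_smul, smul_smul]
  norm_num

lemma rule2 (x y z w : O7 R) : J x y z * w = (3 : ℚ) • (dot (y * z) w • x + dot (z * x) w • y
    + dot (x * y) w • z - dot x w • (y * z) - dot y w • (z * x) - dot z w • (x * y)) := by
  rw [cross2, ← algebraMap_smul R (3 : ℚ), map_ofNat]

lemma dot_bc_a (a b c : O7 R) : dot (b * c) a = dot (a * b) c := (dot_mul_cyc a b c).symm
lemma dot_ac_b (a b c : O7 R) : dot (a * c) b = -dot (a * b) c := by
  rw [dot_mul_swap, dot_mul_cyc]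
lemma J_bca (a b c : O7 R) : J b c a = J a b c := (J_cyc a b c).symm
lemma J_cab (a b c : O7 R) : J c a b = J a b c := J_cyc c a b
lemma J_bac (a b c : O7 R) : J b a c = -J a b c := J_swap b a c
lemma J_acb (a b c : O7 R) : J a c b = -J a b c := J_swap' a c b
lemma J_cba (a b c : O7 R) : J c b a = -J a b c := by rw [J_cyc, J_swap]

lemma E2_O7 (t u x y z : O7 R) : E2 t u x y z = dot t u • J x y z := by
  unfold E2 e3
  simp only [rule2, rule1, add_mul, sub_mul, smul_mul_assoc, smul_add, smul_sub, neg_mul, smul_neg]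
  simp only [
    anti y x, dot_comm y x, anti z x, dot_comm z x, anti z y, dot_comm z y, anti t x,
    dot_comm t x, anti t y, dot_comm t y, anti t z, dot_comm t z, anti u x, dot_comm u x,
    anti u y, dot_comm u y, anti u z, dot_comm u z, anti u t, dot_comm u t, dot_bc_a x y z,
    dot_ac_b x y z, J_bca x y z, J_cab x y z, J_bac x y z, J_acb x y z, J_cba x y z,
    dot_bc_a x y t, dot_ac_b x y t, J_bca x y t, J_cab x y t, J_bac x y t, J_acb x y t,
    J_cba x y t, dot_bc_a x y u, dot_ac_b x y u, J_bca x y u, J_cab x y u, J_bac x y u,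
    J_acb x y u, J_cba x y u, dot_bc_a x z t, dot_ac_b x z t, J_bca x z t, J_cab x z t,
    J_bac x z t, J_acb x z t, J_cba x z t, dot_bc_a x z u, dot_ac_b x z u, J_bca x z u,
    J_cab x z u, J_bac x z u, J_acb x z u, J_cba x z u, dot_bc_a x t u, dot_ac_b x t u,
    J_bca x t u, J_cab x t u, J_bac x t u, J_acb x t u, J_cba x t u, dot_bc_a y z t,
    dot_ac_b y z t, J_bca y z t, J_cab y z t, J_bac y z t, J_acb y z t, J_cba y z t,
    dot_bc_a y z u, dot_ac_b y z u, J_bca y z u, J_cab y z u, J_bac y z u, J_acb y z u,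
    J_cba y z u, dot_bc_a y t u, dot_ac_b y t u, J_bca y t u, J_cab y t u, J_bac y t u,
    J_acb y t u, J_cba y t u, dot_bc_a z t u, dot_ac_b z t u, J_bca z t u, J_cab z t u,
    J_bac z t u, J_acb z t u, J_cba z t u, dot_neg_left, neg_smul, smul_neg, neg_mul]
  have hk : (algebraMap ℚ R) (-1 / 18) * (algebraMap ℚ R) (1 / 3) * 54 = -1 := by
    rw [← map_ofNat (algebraMap ℚ R) 54, ← map_mul, ← map_mul, ← map_one (algebraMap ℚ R),
      ← map_neg]
    norm_num
  match_scalars <;> simp only [map_ofNat, Algebra.cast] <;>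
    first | ring1 | linear_combination (-dot t u) * hk

lemma gg_O7 (x y z w : O7 R) : gg x y z w = (9 : ℚ) • (dot (x * y) z • w - dot x w • (y * z)
    - dot y w • (z * x) - dot z w • (x * y)) := by
  unfold gg
  simp only [rule2, smul_add, smul_sub, neg_mul, smul_neg]
  simp only [
    anti y x, dot_comm y x, anti z x, dot_comm z x, anti z y, dot_comm z y, anti w x,
    dot_comm w x, anti w y, dot_comm w y, anti w z, dot_comm w z, dot_bc_a x y z,
    dot_ac_b x y z, J_bca x y z, J_cab x y z, J_bac x y z, J_acb x y z, J_cba x y z,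
    dot_bc_a x y w, dot_ac_b x y w, J_bca x y w, J_cab x y w, J_bac x y w, J_acb x y w,
    J_cba x y w, dot_bc_a x z w, dot_ac_b x z w, J_bca x z w, J_cab x z w, J_bac x z w,
    J_acb x z w, J_cba x z w, dot_bc_a y z w, dot_ac_b y z w, J_bca y z w, J_cab y z w,
    J_bac y z w, J_acb y z w, J_cba y z w, dot_neg_left, neg_smul, smul_neg, neg_mul]
  match_scalars <;> simp only [map_ofNat] <;> ring

end Pool.Agent.H1.Mal
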