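import Pool.Agent.H1.Mal.QOps
import Pool.Agent.H1.Mal.ModA
import Pool.Agent.H1.Mal.O7E

/-!
# The module structure on the Jacobian ideal
-/

set_option autoImplicit false
set_option linter.unusedSectionVars false
set_option linter.unusedSimpArgs false

namespace Pool.Agent.H1.Mal

open MvPolynomial

abbrev R0 : Type := MvPolynomial (Sym2 (Fin 4)) ℚ
abbrev S4 : Type := MvPolynomial (Fin 4) R0

/-- the Jacobian ideal of the free Malcev algebra of rank four, as a type -/
def Nn : Type := ↥(NN M4)

noncomputable instance : AddCommGroup Nn := inferInstanceAs (AddCommGroup ↥(NN M4))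
noncomputable instance : Module ℚ Nn := inferInstanceAs (Module ℚ ↥(NN M4))

/-- the inclusion -/
noncomputable def inN : Nn →ₗ[ℚ] M4 := (NN M4).subtype

lemma inN_mem (n : Nn) : inN n ∈ NN M4 := n.2

lemma inN_inj {a b : Nn} (h : inN a = inN b) : a = b := Subtype.ext h

/-- construct an element -/
def mkN (n : M4) (h : n ∈ NN M4) : Nn := ⟨n, h⟩

lemma inN_mk (n : M4) (h : n ∈ NN M4) : inN (mkN n h) = n := rfl

/-- restriction of a good operator -/
noncomputable def opN (t u : M4) (φ : M4 →ₗ[ℚ] M4) (h : IsQ t u φ) : Module.End ℚ Nn :=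
  φ.restrict (fun _ hn => h.mem hn)

lemma inN_opN (t u : M4) (φ : M4 →ₗ[ℚ] M4) (h : IsQ t u φ) (n : Nn) :
    inN (opN t u φ h n) = φ (inN n) := rfl

lemma opN_comm (t u : M4) (φ : M4 →ₗ[ℚ] M4) (h : IsQ t u φ) (t' u' : M4) (ψ : M4 →ₗ[ℚ] M4)
    (h' : IsQ t' u' ψ) : opN t u φ h * opN t' u' ψ h' = opN t' u' ψ h' * opN t u φ h := by
  ext n
  apply inN_inj
  rw [Module.End.mul_apply, Module.End.mul_apply]
  rw [inN_opN, inN_opN, inN_opN, inN_opN]
  exact h'.comm h (inN_mem n)

/-- `q_{ij}` -/
noncomputable def qop (i j : Fin 4) : Module.End ℚ Nn := opN _ _ _ (isQ_gen i j)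

lemma qop_symm (i j : Fin 4) : qop i j = qop j i := by
  ext n
  apply inN_inj
  exact Qc_symm i j (inN_mem n)

noncomputable def qS (s : Sym2 (Fin 4)) : Module.End ℚ Nn := Sym2.lift ⟨qop, qop_symm⟩ s

lemma qS_mk (i j : Fin 4) : qS s(i, j) = qop i j := rfl

lemma qS_comm (s s' : Sym2 (Fin 4)) : qS s * qS s' = qS s' * qS s := by
  induction s using Sym2.ind with
  | _ i j =>
    induction s' using Sym2.ind with
    | _ i' j' => exact opN_comm _ _ _ (isQ_gen i j) _ _ _ (isQ_gen i' j')

/-- action of `R0` -/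
noncomputable def actR : R0 →ₐ[ℚ] Module.End ℚ Nn := (exists_action qS qS_comm).choose

lemma actR_X (s : Sym2 (Fin 4)) : actR (X s) = qS s := (exists_action qS qS_comm).choose_spec s

noncomputable instance : Module R0 Nn := Module.compHom Nn (actR : R0 →+* Module.End ℚ Nn)

lemma smulR_def (r : R0) (n : Nn) : r • n = actR r n := rfl

instance : IsScalarTower ℚ R0 Nn := ⟨by
  intro c r n
  rw [smulR_def, smulR_def, map_smul]; rfl⟩

/-- the variables -/
noncomputable def qx (i j : Fin 4) : R0 := X s(i, j)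

lemma qx_symm (i j : Fin 4) : qx i j = qx j i := by unfold qx; rw [Sym2.eq_swap]

lemma inN_qx (i j : Fin 4) (n : Nn) : inN (qx i j • n) = Qc (gen i) (gen j) (inN n) := by
  rw [smulR_def, qx, actR_X, qS_mk]; rfl

/-- an additive map commuting with all `q` commutes with `R0` -/
lemma R0_linear (f : Nn →ₗ[ℚ] Nn) (h : ∀ i j n, f (qop i j n) = qop i j (f n)) (r : R0) (n : Nn) :
    f (r • n) = r • f n := by
  induction r using MvPolynomial.induction_on generalizing n with
  | C c =>
    have : ∀ m : Nn, (C c : R0) • m = c • m := by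
      intro m
      rw [smulR_def, show (C c : R0) = algebraMap ℚ R0 c from rfl, AlgHom.commutes]; rfl
    rw [this, this, map_smul]
  | add p q hp hq => rw [add_smul, add_smul, map_add, hp, hq]
  | mul_X p s hp =>
    rw [mul_smul, mul_smul, hp]
    congr 1
    rw [smulR_def, smulR_def, actR_X]
    induction s using Sym2.ind with
    | _ i j => exact h i j n

/-- the triple complementary to a letter -/
def tr : Fin 4 → Fin 4 × Fin 4 × Fin 4 := ![(1, 3, 2), (0, 2, 3), (0, 3, 1), (0, 1, 2)]

/-- `τ_{ijk}` -/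
noncomputable def top3 (i j k : Fin 4) : Module.End ℚ Nn := opN _ _ _ (isQ_gen3 i j k)

/-- `τ_{ijk}` is `R0`-linear -/
noncomputable def top3R (i j k : Fin 4) : Module.End R0 Nn where
  toFun n := top3 i j k n
  map_add' a b := map_add _ a b
  map_smul' r n := R0_linear (top3 i j k) (fun a b m => by
    have := opN_comm _ _ _ (isQ_gen3 i j k) _ _ _ (isQ_gen a b)
    exact LinearMap.congr_fun this m) r n

lemma inN_top3R (i j k : Fin 4) (n : Nn) :
    inN (top3R i j k n) = Qc (gen i * gen j) (gen k) (inN n) := rfl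

noncomputable def tS (l : Fin 4) : Module.End R0 Nn := top3R (tr l).1 (tr l).2.1 (tr l).2.2

lemma tS_comm (l m : Fin 4) : tS l * tS m = tS m * tS l := by
  refine LinearMap.ext fun n => ?_
  have := opN_comm _ _ _ (isQ_gen3 (tr l).1 (tr l).2.1 (tr l).2.2) _ _ _
    (isQ_gen3 (tr m).1 (tr m).2.1 (tr m).2.2)
  exact LinearMap.congr_fun this n

noncomputable def actS : S4 →ₐ[R0] Module.End R0 Nn := (exists_action tS tS_comm).choose

lemma actS_X (l : Fin 4) : actS (X l) = tS l := (exists_action tS tS_comm).choose_spec l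

noncomputable instance : Module S4 Nn := Module.compHom Nn (actS : S4 →+* Module.End R0 Nn)

lemma smulS_def (s : S4) (n : Nn) : s • n = actS s n := rfl

instance : IsScalarTower R0 S4 Nn := ⟨by
  intro r s n
  rw [smulS_def, smulS_def, map_smul]; rfl⟩

lemma smulS_C (r : R0) (n : Nn) : (C r : S4) • n = r • n := by
  rw [smulS_def, show (C r : S4) = algebraMap R0 S4 r from rfl, AlgHom.commutes]; rfl

lemma smulS_X (l : Fin 4) (n : Nn) :
    (X l : S4) • n = top3R (tr l).1 (tr l).2.1 (tr l).2.2 n := by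
  rw [smulS_def, actS_X]; rfl

/-- an additive map commuting with all `q` and `τ` is `S4`-linear -/
lemma S4_linear (f : Nn →ₗ[ℚ] Nn) (h : ∀ i j n, f (qop i j n) = qop i j (f n))
    (h3 : ∀ i j k n, f (top3R i j k n) = top3R i j k (f n)) (s : S4) (n : Nn) :
    f (s • n) = s • f n := by
  induction s using MvPolynomial.induction_on generalizing n with
  | C c => rw [smulS_C, smulS_C, R0_linear f h]
  | add p q hp hq => rw [add_smul, add_smul, map_add, hp, hq]
  | mul_X p s hp =>
    rw [mul_smul, mul_smul, hp]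
    congr 1
    rw [smulS_X, smulS_X, h3]

/-- right multiplication on the ideal -/
noncomputable def rmQ (w : M4) : Nn →ₗ[ℚ] Nn :=
  (Rm w).restrict (fun _ hn => NN_mul hn w)

lemma inN_rmQ (w : M4) (n : Nn) : inN (rmQ w n) = inN n * w := rfl

/-- right multiplication, `S4`-linear -/
noncomputable def rm (w : M4) : Nn →ₗ[S4] Nn where
  toFun n := rmQ w n
  map_add' a b := map_add _ a b
  map_smul' s n := S4_linear (rmQ w)
    (fun i j n => by
      apply inN_inj
      rw [inN_rmQ]
      exact ((isQ_gen i j).lin _ (inN_mem n) w).symm)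
    (fun i j k n => by
      apply inN_inj
      rw [inN_rmQ]
      exact ((isQ_gen3 i j k).lin _ (inN_mem n) w).symm) s n

lemma inN_rm (w : M4) (n : Nn) : inN (rm w n) = inN n * w := rfl

end Pool.Agent.H1.Mal
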