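import Pool.Agent.H1.Mal.NFacts2
import Pool.Agent.H1.Mal.K10
import Pool.Agent.H1.Mal.Alt

/-!
# The maps `Γ` and their commutation relations
-/

set_option autoImplicit false
set_option linter.unusedSectionVars false
set_option linter.unusedSimpArgs false

namespace Pool.Agent.H1.Mal

open MvPolynomial

abbrev P0 : Type := K10 → R0

lemma rl_smulR (u : Fin 4) (r : R0) (n : Nn) : rl u (r • n) = r • rl u n := by
  rw [← smulS_C, ← smulS_C, map_smul]

lemma rl_smulQ (u : Fin 4) (r : ℚ) (n : Nn) : rl u (r • n) = r • rl u n := by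
  apply inN_inj
  rw [inN_rl, map_smul, map_smul, inN_rl, smul_mul_assoc]

lemma rl_top3R (u x y z : Fin 4) (n : Nn) : rl u (top3R x y z n) = top3R x y z (rl u n) := by
  apply inN_inj
  rw [inN_rl, inN_top3R, inN_top3R, inN_rl]
  exact ((isQ_gen3 x y z).lin _ (inN_mem n) _).symm

noncomputable def Gam (x y z : Fin 4) : P0 →ₗ[R0] Nn := LL (gn x y z) (hn x y z)

lemma Gam_e1 (x y z w : Fin 4) : Gam x y z (e1 R0 w) = gn x y z w := LL_e1 _ _ _
lemma Gam_e2 (x y z v w : Fin 4) : Gam x y z (e2 R0 v w) = hn x y z v w :=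
  LL_e2 _ _ (hn_vv x y z) (hn_vw x y z) _ _

noncomputable def cc (u : Fin 4) : P0 →ₗ[R0] Nn :=
  LL (fun _ => (0 : Nn)) (fun v w => (3 : ℚ) • Jn v w u)

lemma cc_e1 (u w : Fin 4) : cc u (e1 R0 w) = 0 := LL_e1 (A := R0) (fun _ => (0 : Nn)) _ _
lemma cc_e2 (u v w : Fin 4) : cc u (e2 R0 v w) = (3 : ℚ) • Jn v w u :=
  LL_e2 (fun _ => (0 : Nn)) (fun v w => (3 : ℚ) • Jn v w u)
    (fun v => by rw [Jn_self, smul_zero]) (fun v w => by rw [Jn_s12, smul_neg]) v w

noncomputable def Bm (x y z u : Fin 4) : P0 →ₗ[R0] Nn :=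
  LL (fun _ => (0 : Nn)) (fun v w => Bn x y z v w u)

lemma Bm_e1 (x y z u w : Fin 4) : Bm x y z u (e1 R0 w) = 0 :=
  LL_e1 (A := R0) (fun _ => (0 : Nn)) _ _
lemma Bm_e2 (x y z u v w : Fin 4) : Bm x y z u (e2 R0 v w) = Bn x y z v w u :=
  LL_e2 (fun _ => (0 : Nn)) (fun v w => Bn x y z v w u) (fun v => Bn_vv _ _ _ _ _)
    (fun v w => Bn_vw _ _ _ _ _ _) v w

/-- multiplication of `Γ(p)` by a letter -/
theorem rl_Gam (x y z u : Fin 4) (p : P0) : rl u (Gam x y z p) = Gam x y z (mmu qx u p)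
    + (top3R x y z (cc u p) - cc u (TT qx x y z p)) + Bm x y z u p := by
  induction p using K10_ind with
  | h1 w =>
    rw [Gam_e1, mmu_e1, Gam_e2, cc_e1, map_zero, TT_e1, Bm_e1]
    simp only [map_add, map_smul, cc_e2]
    rw [hn]
    module
  | h2 v w =>
    rw [Gam_e2, mmu_e2, cc_e2, TT_e2, Bm_e2]
    simp only [map_add, map_sub, map_smul, cc_e1, Gam_e1, smul_zero]
    rw [Bn, show top3R x y z ((3 : ℚ) • Jn v w u) = (3 : ℚ) • top3R x y z (Jn v w u) from
      LinearMap.map_smul_of_tower _ _ _]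
    module
  | hzero => simp
  | hadd p q hp hq =>
    simp only [map_add, hp, hq]; abel
  | hsmul r p hp =>
    simp only [map_smul, rl_smulR, hp]
    module

/-- the commutation defect -/
noncomputable def kap (x y z x' y' z' : Fin 4) (p : P0) : Nn :=
  (top3R x y z (Gam x' y' z' p) - Gam x' y' z' (TT qx x y z p))
    - (top3R x' y' z' (Gam x y z p) - Gam x y z (TT qx x' y' z' p))

lemma kap_add (x y z x' y' z' : Fin 4) (p q : P0) :
    kap x y z x' y' z' (p + q) = kap x y z x' y' z' p + kap x y z x' y' z' q := by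
  simp only [kap, map_add]; abel

lemma kap_smul (x y z x' y' z' : Fin 4) (r : R0) (p : P0) :
    kap x y z x' y' z' (r • p) = r • kap x y z x' y' z' p := by
  simp only [kap, map_smul]; module

lemma kap_anti (x y z x' y' z' : Fin 4) (p : P0) :
    kap x y z x' y' z' p = -kap x' y' z' x y z p := by
  simp only [kap]; abel

lemma top3R_comm (x y z x' y' z' : Fin 4) (n : Nn) :
    top3R x y z (top3R x' y' z' n) = top3R x' y' z' (top3R x y z n) :=
  LinearMap.congr_fun (opN_comm _ _ _ (isQ_gen3 x y z) _ _ _ (isQ_gen3 x' y' z')) n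

theorem rl_kap (x y z x' y' z' u : Fin 4) (p : P0) : rl u (kap x y z x' y' z' p)
    = kap x y z x' y' z' (mmu qx u p) + (Gam x' y' z' (bet qx x y z u p)
      - Gam x y z (bet qx x' y' z' u p))
      + cc u (TT qx x' y' z' (TT qx x y z p) - TT qx x y z (TT qx x' y' z' p))
      + (top3R x y z (Bm x' y' z' u p) - Bm x' y' z' u (TT qx x y z p))
      - (top3R x' y' z' (Bm x y z u p) - Bm x y z u (TT qx x' y' z' p)) := by
  unfold kap
  simp only [map_sub, rl_top3R, rl_Gam, map_add, bet, LinearMap.sub_apply, LinearMap.comp_apply]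
  rw [top3R_comm x y z x' y' z' (cc u p)]
  abel

end Pool.Agent.H1.Mal
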