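import Pool.Agent.H1.Mal.NRel

/-!
# The free submodule, and membership statements
-/

set_option autoImplicit false
set_option linter.unusedSectionVars false
set_option linter.unusedSimpArgs false
set_option linter.unusedVariables false

namespace Pool.Agent.H1.Mal

open MvPolynomial

noncomputable def Bk (k : Fin 6) : Nn := Bn 0 1 2 (pr k).1 (pr k).2 3
noncomputable def Ck (l : Fin 4) : Nn := Cn 0 1 2 3 (tr l).1 (tr l).2.1 (tr l).2.2
noncomputable def Jk (l : Fin 4) : Nn := Jn (tr l).1 (tr l).2.1 (tr l).2.2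

noncomputable def Nf : Submodule S4 Nn := Submodule.span S4 (Set.range Bk ∪ Set.range Ck)
noncomputable def SJ : Submodule S4 Nn := Submodule.span S4 (Set.range Jk)

lemma Bk_mem (k : Fin 6) : Bk k ∈ Nf := Submodule.subset_span (Or.inl ⟨k, rfl⟩)
lemma Ck_mem (k : Fin 4) : Ck k ∈ Nf := Submodule.subset_span (Or.inr ⟨k, rfl⟩)
lemma Jk_mem (k : Fin 4) : Jk k ∈ SJ := Submodule.subset_span ⟨k, rfl⟩

lemma e2_cases (v w : Fin 4) :
    e2 R0 v w = 0 ∨ (∃ k, e2 R0 v w = eP R0 k) ∨ ∃ k, e2 R0 v w = -eP R0 k := by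
  fin_cases v <;> fin_cases w
  · exact Or.inl rfl
  · exact Or.inr (Or.inl ⟨0, rfl⟩)
  · exact Or.inr (Or.inl ⟨1, rfl⟩)
  · exact Or.inr (Or.inl ⟨2, rfl⟩)
  · exact Or.inr (Or.inr ⟨0, rfl⟩)
  · exact Or.inl rfl
  · exact Or.inr (Or.inl ⟨3, rfl⟩)
  · exact Or.inr (Or.inl ⟨4, rfl⟩)
  · exact Or.inr (Or.inr ⟨1, rfl⟩)
  · exact Or.inr (Or.inr ⟨3, rfl⟩)
  · exact Or.inl rfl
  · exact Or.inr (Or.inl ⟨5, rfl⟩)
  · exact Or.inr (Or.inr ⟨2, rfl⟩)
  · exact Or.inr (Or.inr ⟨4, rfl⟩)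
  · exact Or.inr (Or.inr ⟨5, rfl⟩)
  · exact Or.inl rfl

lemma Bm_eP (k : Fin 6) : Bm 0 1 2 3 (eP R0 k) = Bk k := by
  rw [← e2_pr, Bm_e2]; rfl

lemma Bn_mem0 (v w : Fin 4) : Bn 0 1 2 v w 3 ∈ Nf := by
  rw [← Bm_e2]
  rcases e2_cases v w with h | ⟨k, h⟩ | ⟨k, h⟩
  · rw [h, map_zero]; exact Submodule.zero_mem _
  · rw [h, Bm_eP]; exact Bk_mem k
  · rw [h, map_neg, Bm_eP]; exact Submodule.neg_mem _ (Bk_mem k)

lemma dist0123 : Dist4 0 1 2 3 := by decide

theorem Bn_mem (x y z v w u : Fin 4) : Bn x y z v w u ∈ Nf := by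
  refine alt4_all (P := fun x y z u => Bn x y z v w u ∈ Nf) ?_ ?_ ?_ ?_ dist0123 (Bn_mem0 v w)
    x y z u
  · intro x y z u h; rw [Bn_s12]; exact Submodule.neg_mem _ h
  · intro x y z u h; rw [Bn_s23]; exact Submodule.neg_mem _ h
  · intro x y z u h; rw [Bn_s34]; exact Submodule.neg_mem _ h
  · intro x z u; rw [Bn_xx]; exact Submodule.zero_mem _

lemma ex_dist2 (v w : Fin 4) (h : v ≠ w) : ∃ c d, Dist4 v w c d := by
  revert v w; decide

lemma ex_dist3 (v w n : Fin 4) (h : v ≠ w) (h2 : v ≠ n) (h3 : w ≠ n) : ∃ d, Dist4 v w n d := by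
  revert v w n; decide

lemma Cn_self (x y z u v n : Fin 4) : Cn x y z u v v n = 0 := nn_self_neg (Cn_vw _ _ _ _ _ _ _)

lemma Cn_ww (x y z u v w : Fin 4) : Cn x y z u v w w = 0 := by
  by_cases h : v = w
  · subst h; exact Cn_self _ _ _ _ _ _
  obtain ⟨c, d, hd⟩ := ex_dist2 v w h
  refine alt4_all (P := fun x y z u => Cn x y z u v w w = 0) ?_ ?_ ?_ ?_ hd (Cn_B1 v w c d)
    x y z u
  · intro x y z u h; rw [Cn_s12, h, neg_zero]
  · intro x y z u h; rw [Cn_s23, h, neg_zero]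
  · intro x y z u h; rw [Cn_s34, h, neg_zero]
  · intro x z u; exact Cn_12 _ _ _ _ _ _

lemma Cn_wn (x y z u v w n : Fin 4) : Cn x y z u v w n = -Cn x y z u v n w := by
  by_cases h3 : w = n
  · subst h3; rw [Cn_ww, neg_zero]
  by_cases h1 : v = w
  · subst h1; rw [Cn_self, Cn_vw, Cn_ww, neg_zero, neg_zero]
  by_cases h2 : v = n
  · subst h2; rw [Cn_self, Cn_vw, Cn_ww]
  obtain ⟨d, hd⟩ := ex_dist3 v w n h1 h2 h3
  refine alt4_all (P := fun x y z u => Cn x y z u v w n = -Cn x y z u v n w) ?_ ?_ ?_ ?_ hd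
    (Cn_B2 v w n d) x y z u
  · intro x y z u h; rw [Cn_s12, h, Cn_s12 y x z u v n w]
  · intro x y z u h; rw [Cn_s23, h, Cn_s23 x z y u v n w]
  · intro x y z u h; rw [Cn_s34, h, Cn_s34 x y u z v n w]
  · intro x z u; rw [Cn_12, Cn_12, neg_zero]

theorem Cn_mem (x y z u v w n : Fin 4) : Cn x y z u v w n ∈ Nf := by
  have h0 : Cn 0 1 2 3 v w n ∈ Nf := by
    refine alt3_P (P := fun v w n => Cn 0 1 2 3 v w n ∈ Nf) ?_ ?_ ?_ (Ck_mem 0) (Ck_mem 1)
      (Ck_mem 2) (Ck_mem 3) v w n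
    · intro x y z h; rw [Cn_vw]; exact Submodule.neg_mem _ h
    · intro x y z h; rw [Cn_wn]; exact Submodule.neg_mem _ h
    · intro x z; rw [Cn_self]; exact Submodule.zero_mem _
  refine alt4_all (P := fun x y z u => Cn x y z u v w n ∈ Nf) ?_ ?_ ?_ ?_ dist0123 h0
    x y z u
  · intro x y z u h; rw [Cn_s12]; exact Submodule.neg_mem _ h
  · intro x y z u h; rw [Cn_s23]; exact Submodule.neg_mem _ h
  · intro x y z u h; rw [Cn_s34]; exact Submodule.neg_mem _ h
  · intro x z u; rw [Cn_12]; exact Submodule.zero_mem _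

theorem Jn_mem (x y z : Fin 4) : Jn x y z ∈ SJ := by
  refine alt3_P (P := fun v w n => Jn v w n ∈ SJ) ?_ ?_ ?_ (Jk_mem 0) (Jk_mem 1)
      (Jk_mem 2) (Jk_mem 3) x y z
  · intro x y z h; rw [Jn_s12]; exact Submodule.neg_mem _ h
  · intro x y z h; rw [Jn_s23]; exact Submodule.neg_mem _ h
  · intro x z; rw [Jn_self]; exact Submodule.zero_mem _

/-- scalars of `R0` and of `ℚ` -/
lemma smulR_mem {p : Submodule S4 Nn} {n : Nn} (h : n ∈ p) (r : R0) : r • n ∈ p := by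
  rw [← smulS_C]; exact p.smul_mem _ h

lemma smulQ_eq (c : ℚ) (n : Nn) : c • n = (C (C c) : S4) • n := by
  rw [smulS_C, smulR_def, show (C c : R0) = algebraMap ℚ R0 c from rfl, AlgHom.commutes]; rfl

lemma smulQ_mem {p : Submodule S4 Nn} {n : Nn} (h : n ∈ p) (c : ℚ) : c • n ∈ p := by
  rw [smulQ_eq]; exact p.smul_mem _ h

/-- every `τ_{xyz}` is given by an element of `S4` -/
lemma exists_tau (x y z : Fin 4) : ∃ s : S4, ∀ n : Nn, top3R x y z n = s • n := by
  refine alt3_P (P := fun x y z => ∃ s : S4, ∀ n : Nn, top3R x y z n = s • n) ?_ ?_ ?_ ?_ ?_ ?_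
    ?_ x y z
  · rintro x y z ⟨s, hs⟩; exact ⟨-s, fun n => by rw [top3R_s12, hs, neg_smul]⟩
  · rintro x y z ⟨s, hs⟩; exact ⟨-s, fun n => by rw [top3R_s23, hs, neg_smul]⟩
  · intro x z
    exact ⟨0, fun n => by rw [zero_smul]; exact nn_self_neg (top3R_s12 x x z n)⟩
  · exact ⟨X 0, fun n => (smulS_X 0 n).symm⟩
  · exact ⟨X 1, fun n => (smulS_X 1 n).symm⟩
  · exact ⟨X 2, fun n => (smulS_X 2 n).symm⟩
  · exact ⟨X 3, fun n => (smulS_X 3 n).symm⟩

lemma top3R_mem {p : Submodule S4 Nn} {n : Nn} (h : n ∈ p) (x y z : Fin 4) :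
    top3R x y z n ∈ p := by
  obtain ⟨s, hs⟩ := exists_tau x y z
  rw [hs]; exact p.smul_mem _ h

/-- multiplication of the elements `Cn` by letters -/
theorem rl_Cn_mem (s x y z u v w n : Fin 4) : rl s (Cn x y z u v w n) ∈ Nf := by
  by_cases h1 : v = w
  · subst h1; rw [Cn_self, map_zero]; exact Submodule.zero_mem _
  by_cases h2 : v = n
  · subst h2; rw [Cn_vw, Cn_ww, neg_zero, map_zero]; exact Submodule.zero_mem _
  by_cases h3 : w = n
  · subst h3; rw [Cn_ww, map_zero]; exact Submodule.zero_mem _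
  obtain ⟨d, hd⟩ := ex_dist3 v w n h1 h2 h3
  have ha : ∀ a b c d : Fin 4, rl a (Cn a b c d a b c) ∈ Nf := by
    intro a b c d
    rw [Cn_a]
    exact Submodule.neg_mem _ (Submodule.add_mem _ (Submodule.add_mem _
      (smulR_mem (Bn_mem _ _ _ _ _ _) _) (smulR_mem (Bn_mem _ _ _ _ _ _) _))
      (smulR_mem (Bn_mem _ _ _ _ _ _) _))
  have hdd : ∀ a b c d : Fin 4, rl d (Cn a b c d a b c) ∈ Nf := by
    intro a b c d
    rw [Cn_d]
    exact Submodule.neg_mem _ (Submodule.add_mem _ (Submodule.add_mem _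
      (smulR_mem (Bn_mem _ _ _ _ _ _) _) (smulR_mem (Bn_mem _ _ _ _ _ _) _))
      (smulR_mem (Bn_mem _ _ _ _ _ _) _))
  have hrep : rl s (Cn v w n d v w n) ∈ Nf := by
    have hs : s = v ∨ s = w ∨ s = n ∨ s = d := by
      clear ha hdd h1 h2 h3; revert s v w n d; decide
    rcases hs with rfl | rfl | rfl | rfl
    · exact ha _ _ _ _
    · rw [Cn_s12, Cn_vw, neg_neg]; exact ha _ _ _ _
    · have : Cn v w s d v w s = Cn s w v d s w v := by
        rw [Cn_s12, Cn_s23, Cn_s12, Cn_vw, Cn_wn, Cn_vw]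
        simp only [neg_neg]
      rw [this]; exact ha _ _ _ _
    · exact hdd _ _ _ _
  refine alt4_all (P := fun x y z u => rl s (Cn x y z u v w n) ∈ Nf) ?_ ?_ ?_ ?_ hd hrep
    x y z u
  · intro x y z u h; rw [Cn_s12, map_neg]; exact Submodule.neg_mem _ h
  · intro x y z u h; rw [Cn_s23, map_neg]; exact Submodule.neg_mem _ h
  · intro x y z u h; rw [Cn_s34, map_neg]; exact Submodule.neg_mem _ h
  · intro x z u; rw [Cn_12, map_zero]; exact Submodule.zero_mem _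

/-- multiplication of the elements `Bn` by letters -/
theorem rl_Bn_mem (s x y z v w u : Fin 4) : rl s (Bn x y z v w u) ∈ Nf ⊔ SJ := by
  have h := Cn x y z u v w s
  have h1 : rl s (Bn x y z v w u) = Cn x y z u v w s - (3 : ℚ) • (mn x y v w • Jn z u s
    + mn y z v w • Jn x u s + mn z x v w • Jn y u s + mn x u v w • Jn y z s
    + mn y u v w • Jn z x s + mn z u v w • Jn x y s) := by
    unfold Cn; abel
  rw [h1]
  have hJ : ∀ (r : R0) (a b c : Fin 4), r • Jn a b c ∈ SJ := fun r a b c => smulR_mem (Jn_mem _ _ _) r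
  refine Submodule.sub_mem _ (Submodule.mem_sup_left (Cn_mem _ _ _ _ _ _ _))
    (Submodule.mem_sup_right (smulQ_mem ?_ _))
  exact Submodule.add_mem _ (Submodule.add_mem _ (Submodule.add_mem _ (Submodule.add_mem _
    (Submodule.add_mem _ (hJ _ _ _ _) (hJ _ _ _ _)) (hJ _ _ _ _)) (hJ _ _ _ _)) (hJ _ _ _ _))
    (hJ _ _ _ _)

theorem rl_Nf (s : Fin 4) {n : Nn} (h : n ∈ Nf) : rl s n ∈ Nf ⊔ SJ := by
  unfold Nf at h
  induction h using Submodule.span_induction with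
  | mem x hx =>
    rcases hx with ⟨k, rfl⟩ | ⟨k, rfl⟩
    · exact rl_Bn_mem _ _ _ _ _ _ _
    · exact Submodule.mem_sup_left (rl_Cn_mem _ _ _ _ _ _ _ _)
  | zero => rw [map_zero]; exact Submodule.zero_mem _
  | add x y _ _ hx hy => rw [map_add]; exact Submodule.add_mem _ hx hy
  | smul c x _ hx => rw [map_smul]; exact Submodule.smul_mem _ _ hx

lemma cc_mem (u : Fin 4) (p : P0) : cc u p ∈ SJ := by
  induction p using K10_ind with
  | h1 w => rw [cc_e1]; exact Submodule.zero_mem _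
  | h2 v w => rw [cc_e2]; exact smulQ_mem (Jn_mem _ _ _) _
  | hzero => rw [map_zero]; exact Submodule.zero_mem _
  | hadd p q hp hq => rw [map_add]; exact Submodule.add_mem _ hp hq
  | hsmul r p hp => rw [map_smul]; exact smulR_mem hp r

lemma Bm_mem (x y z u : Fin 4) (p : P0) : Bm x y z u p ∈ Nf := by
  induction p using K10_ind with
  | h1 w => rw [Bm_e1]; exact Submodule.zero_mem _
  | h2 v w => rw [Bm_e2]; exact Bn_mem _ _ _ _ _ _
  | hzero => rw [map_zero]; exact Submodule.zero_mem _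
  | hadd p q hp hq => rw [map_add]; exact Submodule.add_mem _ hp hq
  | hsmul r p hp => rw [map_smul]; exact smulR_mem hp r

/-! ### alternation of `Gam`, `TT`, `kap` -/

lemma Gam_s12 (x y z : Fin 4) : Gam x y z = -Gam y x z := by
  refine LL_ext (fun w => ?_) (fun v w => ?_)
  · rw [LinearMap.neg_apply, Gam_e1, Gam_e1, gn_s12]
  · rw [LinearMap.neg_apply, Gam_e2, Gam_e2, hn_s12]

lemma Gam_s23 (x y z : Fin 4) : Gam x y z = -Gam x z y := by
  refine LL_ext (fun w => ?_) (fun v w => ?_)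
  · rw [LinearMap.neg_apply, Gam_e1, Gam_e1, gn_s23]
  · rw [LinearMap.neg_apply, Gam_e2, Gam_e2, hn_s23]

lemma TT_s12 (x y z : Fin 4) : TT qx x y z = -TT qx y x z := by
  refine LL_ext (fun w => ?_) (fun v w => ?_)
  · rw [LinearMap.neg_apply, TT_e1, TT_e1, e2_swap z x, e2_swap x y, e2_swap y z]; module
  · rw [LinearMap.neg_apply, TT_e2, TT_e2]; module

lemma TT_s23 (x y z : Fin 4) : TT qx x y z = -TT qx x z y := by
  refine LL_ext (fun w => ?_) (fun v w => ?_)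
  · rw [LinearMap.neg_apply, TT_e1, TT_e1, e2_swap z x, e2_swap x y, e2_swap y z]; module
  · rw [LinearMap.neg_apply, TT_e2, TT_e2]; module

lemma kap_s12 (x y z x' y' z' : Fin 4) (p : P0) :
    kap x y z x' y' z' p = -kap y x z x' y' z' p := by
  unfold kap
  rw [Gam_s12 x y z, TT_s12 x y z, top3R_s12 x y z]
  simp only [LinearMap.neg_apply, map_neg]
  abel

lemma kap_s23 (x y z x' y' z' : Fin 4) (p : P0) :
    kap x y z x' y' z' p = -kap x z y x' y' z' p := by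
  unfold kap
  rw [Gam_s23 x y z, TT_s23 x y z, top3R_s23 x y z]
  simp only [LinearMap.neg_apply, map_neg]
  abel

lemma kap_s45 (x y z x' y' z' : Fin 4) (p : P0) :
    kap x y z x' y' z' p = -kap x y z y' x' z' p := by
  rw [kap_anti, kap_s12, kap_anti y' x' z']; abel

lemma kap_s56 (x y z x' y' z' : Fin 4) (p : P0) :
    kap x y z x' y' z' p = -kap x y z x' z' y' p := by
  rw [kap_anti, kap_s23, kap_anti x' z' y']; abel

/-! ### the second relation -/

lemma kap_e1 (p r l n w : Fin 4) : kap p r l p r n (e1 R0 w) = Kn p r l n w := by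
  unfold kap Kn Kh
  rw [Gam_e1, Gam_e1, TT_e1, TT_e1]
  simp only [map_add, map_smul, Gam_e2]

lemma Kh_sym (p r l n w : Fin 4) : Kh r p l n w = Kh p r l n w := by
  unfold Kh
  rw [top3R_s12 r p l, gn_s12 r p n w, hn_s12 r p n p l, hn_s12 r p n l r, hn_s12 r p n r p,
    hn_vw p r n p l, hn_vw p r n l r, hn_vw p r n r p]
  simp only [map_neg, neg_neg]
  module

lemma Kn_sym (p r l n w : Fin 4) : Kn r p l n w = Kn p r l n w := by
  unfold Kn; rw [Kh_sym p r l n w, Kh_sym p r n l w]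

lemma Kn_flip (p r l n w : Fin 4) : Kn p r l n w = -Kn p r n l w := by
  unfold Kn; abel

theorem Kn_mem {p r l n : Fin 4} (hd : Dist4 p r l n) (w : Fin 4) :
    Kn p r l n w ∈ Nf ∧ ∀ u, rl u (Kn p r l n w) ∈ Nf := by
  have hw : w = p ∨ w = r ∨ w = l ∨ w = n := by
    revert p r l n w; decide
  rcases hw with rfl | rfl | rfl | rfl
  · rw [Kn_a]; exact ⟨Submodule.zero_mem _, fun u => by rw [map_zero]; exact Submodule.zero_mem _⟩
  · rw [← Kn_sym, Kn_a]
    exact ⟨Submodule.zero_mem _, fun u => by rw [map_zero]; exact Submodule.zero_mem _⟩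
  · rw [Kn_c]
    exact ⟨Submodule.neg_mem _ (Cn_mem _ _ _ _ _ _ _), fun u => by
      rw [map_neg]; exact Submodule.neg_mem _ (rl_Cn_mem _ _ _ _ _ _ _ _)⟩
  · rw [Kn_flip, Kn_c, neg_neg]
    exact ⟨Cn_mem _ _ _ _ _ _ _, fun u => rl_Cn_mem _ _ _ _ _ _ _ _⟩

lemma cc_TT_TT (u x y z x' y' z' w : Fin 4) :
    cc u (TT qx x' y' z' (TT qx x y z (e1 R0 w))) = 0 := by
  rw [TT_e1]
  simp only [map_add, map_sub, map_smul, TT_e2, cc_e1, smul_zero, sub_self, add_zero]

/-- relation (R2) for basic pairs of triples -/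
theorem kap_mem0 {p r l n : Fin 4} (hd : Dist4 p r l n) (q : P0) : kap p r l p r n q ∈ Nf := by
  induction q using K10_ind with
  | h1 w => rw [kap_e1]; exact (Kn_mem hd w).1
  | h2 v w =>
    have h := rl_kap p r l p r n w (e1 R0 v)
    rw [mmu_e1, bet_e1, bet_e1, map_zero, map_zero, sub_zero, add_zero, map_sub, cc_TT_TT,
      cc_TT_TT, sub_zero, add_zero, Bm_e1, Bm_e1, map_zero, map_zero] at h
    have h2 : kap p r l p r n (e2 R0 v w) = rl w (kap p r l p r n (e1 R0 v))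
        + Bm p r n w (TT qx p r l (e1 R0 v)) - Bm p r l w (TT qx p r n (e1 R0 v)) := by
      rw [h]; abel
    rw [h2, kap_e1]
    exact Submodule.sub_mem _ (Submodule.add_mem _ ((Kn_mem hd v).2 w) (Bm_mem _ _ _ _ _))
      (Bm_mem _ _ _ _ _)
  | hzero =>
    have := kap_smul p r l p r n 0 0
    rw [zero_smul, zero_smul] at this
    rw [this]; exact Submodule.zero_mem _
  | hadd p q hp hq => rw [kap_add]; exact Submodule.add_mem _ hp hq
  | hsmul r p hp => rw [kap_smul]; exact smulR_mem hp r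

end Pool.Agent.H1.Mal
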