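import Pool.Agent.H1.Mal.NRel2

/-!
# The relations for the maps `Γ`
-/

set_option autoImplicit false
set_option linter.unusedSectionVars false
set_option linter.unusedSimpArgs false
set_option linter.unusedVariables false

namespace Pool.Agent.H1.Mal

open MvPolynomial

noncomputable abbrev bt (x y z u : Fin 4) : P0 →ₗ[R0] P0 := bet qx x y z u

lemma bt_s12 (x y z u : Fin 4) : bt x y z u = -bt y x z u := by
  unfold bt bet
  rw [TT_s12 x y z, LinearMap.neg_comp, LinearMap.comp_neg]; abel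

lemma bt_s23 (x y z u : Fin 4) : bt x y z u = -bt x z y u := by
  unfold bt bet
  rw [TT_s23 x y z, LinearMap.neg_comp, LinearMap.comp_neg]; abel

lemma bt_s34 (x y z u : Fin 4) : bt x y z u = -bt x y u z := by
  refine LL_ext (fun w => ?_) (fun v w => ?_)
  · rw [LinearMap.neg_apply, bt, bt, bet_e1, bet_e1, neg_zero]
  · simp only [bt, bet, LinearMap.neg_apply, LinearMap.sub_apply, LinearMap.comp_apply, mmu_e2,
      TT_e2, map_add, map_sub, map_smul, TT_e1, mmu_e1]
    rw [qx_symm v u, qx_symm w u, qx_symm v z, qx_symm w z, e2_swap z x, e2_swap u x,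
      e2_swap u z]
    module

lemma bt_12 (x z u : Fin 4) : bt x x z u = 0 := by
  have h := bt_s12 x x z u
  have h2 : (2 : R0) • bt x x z u = 0 := by
    rw [two_smul]; nth_rw 2 [h]; abel
  exact (smul_eq_zero.1 h2).resolve_left two_ne_zero

lemma bt_alt {p : Submodule S4 Nn} (f : P0 →ₗ[R0] Nn) (q : P0) {a b c d : Fin 4}
    (hd : Dist4 a b c d) (h : f (bt a b c d q) ∈ p) (x y z u : Fin 4) : f (bt x y z u q) ∈ p := by
  refine alt4_all (P := fun x y z u => f (bt x y z u q) ∈ p) ?_ ?_ ?_ ?_ hd h x y z u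
  · intro x y z u h
    rw [bt_s12, LinearMap.neg_apply, map_neg]; exact Submodule.neg_mem _ h
  · intro x y z u h
    rw [bt_s23, LinearMap.neg_apply, map_neg]; exact Submodule.neg_mem _ h
  · intro x y z u h
    rw [bt_s34, LinearMap.neg_apply, map_neg]; exact Submodule.neg_mem _ h
  · intro x z u
    rw [bt_12, LinearMap.zero_apply, map_zero]; exact Submodule.zero_mem _

lemma Bm_x (x y z : Fin 4) : Bm x y z x = 0 := by
  refine LL_ext (fun w => ?_) (fun v w => ?_)
  · rw [Bm_e1]; rfl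
  · rw [Bm_e2, Bn_x]; rfl

lemma Bm_y (x y z : Fin 4) : Bm x y z y = 0 := by
  refine LL_ext (fun w => ?_) (fun v w => ?_)
  · rw [Bm_e1]; rfl
  · rw [Bm_e2, Bn_y]; rfl

lemma Bm_z (x y z : Fin 4) : Bm x y z z = 0 := by
  refine LL_ext (fun w => ?_) (fun v w => ?_)
  · rw [Bm_e1]; rfl
  · rw [Bm_e2, Bn_z]; rfl

lemma bt_14 (x y z : Fin 4) : bt x y z x = 0 := by
  rw [bt_s34, bt_s23, bt_12, neg_zero, neg_zero]

/-- `Γ_X(β_{Y,u}(p))` for `X = (p,r,l)`, `Y = (p,r,n)` and `u = l` -/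
theorem Gam_bt0 {p r l n : Fin 4} (hd : Dist4 p r l n) (q : P0) :
    Gam p r l (bt p r n l q) ∈ Nf ⊔ SJ := by
  have h := rl_kap p r l p r n l q
  have hb : bt p r l l q = 0 := by
    have : bt p r l l = 0 := by
      have h := bt_s34 p r l l
      have h2 : (2 : R0) • bt p r l l = 0 := by
        rw [two_smul]; nth_rw 2 [h]; abel
      exact (smul_eq_zero.1 h2).resolve_left two_ne_zero
    rw [this]; rfl
  have hb' : bet qx p r l l q = 0 := hb
  rw [hb', map_zero, zero_sub, Bm_z, LinearMap.zero_apply, LinearMap.zero_apply, map_zero] at h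
  have h2 : Gam p r l (bt p r n l q) = kap p r l p r n (mmu qx l q) - rl l (kap p r l p r n q)
      + cc l (TT qx p r n (TT qx p r l q) - TT qx p r l (TT qx p r n q))
      + (top3R p r l (Bm p r n l q) - Bm p r n l (TT qx p r l q)) := by
    rw [h]
    show Gam p r l (bet qx p r n l q) = _
    abel
  rw [h2]
  refine Submodule.add_mem _ (Submodule.add_mem _ (Submodule.sub_mem _
    (Submodule.mem_sup_left (kap_mem0 hd _)) (rl_Nf _ (kap_mem0 hd _)))
    (Submodule.mem_sup_right (cc_mem _ _))) (Submodule.mem_sup_left (Submodule.sub_mem _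
    (top3R_mem (Bm_mem _ _ _ _ _) _ _ _) (Bm_mem _ _ _ _ _)))

theorem Gam_bt (a b c x y z u : Fin 4) (q : P0) : Gam a b c (bt x y z u q) ∈ Nf ⊔ SJ := by
  refine alt3_P (P := fun a b c => Gam a b c (bt x y z u q) ∈ Nf ⊔ SJ) ?_ ?_ ?_ ?_ ?_ ?_ ?_ a b c
  · intro a b c h
    rw [Gam_s12, LinearMap.neg_apply]; exact Submodule.neg_mem _ h
  · intro a b c h
    rw [Gam_s23, LinearMap.neg_apply]; exact Submodule.neg_mem _ h
  · intro a b
    have : Gam a a b = 0 := by
      refine LL_ext (fun w => ?_) (fun v w => ?_)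
      · rw [Gam_e1, gn_self]; rfl
      · rw [Gam_e2, hn_self]; rfl
    rw [this]; exact Submodule.zero_mem _
  · exact bt_alt _ q (a := 1) (b := 3) (c := 0) (d := 2) (by decide)
      (Gam_bt0 (p := 1) (r := 3) (l := 2) (n := 0) (by decide) q) x y z u
  · exact bt_alt _ q (a := 0) (b := 2) (c := 1) (d := 3) (by decide)
      (Gam_bt0 (p := 0) (r := 2) (l := 3) (n := 1) (by decide) q) x y z u
  · exact bt_alt _ q (a := 0) (b := 3) (c := 2) (d := 1) (by decide)
      (Gam_bt0 (p := 0) (r := 3) (l := 1) (n := 2) (by decide) q) x y z u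
  · exact bt_alt _ q (a := 0) (b := 1) (c := 3) (d := 2) (by decide)
      (Gam_bt0 (p := 0) (r := 1) (l := 2) (n := 3) (by decide) q) x y z u

/-- relation (R2) for the four basic triples -/
theorem kap_tr (l m : Fin 4) (q : P0) : kap (tr l).1 (tr l).2.1 (tr l).2.2
    (tr m).1 (tr m).2.1 (tr m).2.2 q ∈ Nf := by
  have hself : ∀ l : Fin 4, kap (tr l).1 (tr l).2.1 (tr l).2.2
      (tr l).1 (tr l).2.1 (tr l).2.2 q ∈ Nf := by
    intro l
    rw [nn_self_neg (kap_anti _ _ _ _ _ _ q)]; exact Submodule.zero_mem _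
  have hsym : ∀ l m : Fin 4, kap (tr l).1 (tr l).2.1 (tr l).2.2
      (tr m).1 (tr m).2.1 (tr m).2.2 q ∈ Nf → kap (tr m).1 (tr m).2.1 (tr m).2.2
      (tr l).1 (tr l).2.1 (tr l).2.2 q ∈ Nf := by
    intro l m h
    rw [kap_anti]; exact Submodule.neg_mem _ h
  -- tr 0 = (1,3,2), tr 1 = (0,2,3), tr 2 = (0,3,1), tr 3 = (0,1,2)
  have h01 : kap 1 3 2 0 2 3 q ∈ Nf := by
    rw [kap_s23, kap_s12, kap_s23, kap_s45, kap_s56]
    simp only [neg_neg]
    exact Submodule.neg_mem _ (kap_mem0 (p := 2) (r := 3) (l := 1) (n := 0) (by decide) q)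
  have h02 : kap 1 3 2 0 3 1 q ∈ Nf := by
    rw [kap_s56, kap_s45, kap_s56]
    simp only [neg_neg]
    exact Submodule.neg_mem _ (kap_mem0 (p := 1) (r := 3) (l := 2) (n := 0) (by decide) q)
  have h03 : kap 1 3 2 0 1 2 q ∈ Nf := by
    rw [kap_s23, kap_s45, kap_s56]
    simp only [neg_neg]
    exact Submodule.neg_mem _ (kap_mem0 (p := 1) (r := 2) (l := 3) (n := 0) (by decide) q)
  have h12 : kap 0 2 3 0 3 1 q ∈ Nf := by
    rw [kap_s23]
    exact Submodule.neg_mem _ (kap_mem0 (p := 0) (r := 3) (l := 2) (n := 1) (by decide) q)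
  have h13 : kap 0 2 3 0 1 2 q ∈ Nf := by
    rw [kap_s56]
    exact Submodule.neg_mem _ (kap_mem0 (p := 0) (r := 2) (l := 3) (n := 1) (by decide) q)
  have h23 : kap 0 3 1 0 1 2 q ∈ Nf := by
    rw [kap_s23]
    exact Submodule.neg_mem _ (kap_mem0 (p := 0) (r := 1) (l := 3) (n := 2) (by decide) q)
  fin_cases l <;> fin_cases m
  · exact hself 0
  · exact h01
  · exact h02
  · exact h03
  · exact hsym 0 1 h01
  · exact hself 1
  · exact h12
  · exact h13
  · exact hsym 0 2 h02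
  · exact hsym 1 2 h12
  · exact hself 2
  · exact h23
  · exact hsym 0 3 h03
  · exact hsym 1 3 h13
  · exact hsym 2 3 h23
  · exact hself 3

end Pool.Agent.H1.Mal
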