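import Pool.Agent.H1.Mal.Defs

/-!
# The seven-dimensional cross product algebra
-/

set_option autoImplicit false
set_option linter.unusedSectionVars false
set_option linter.unusedSimpArgs false

namespace Pool.Agent.H1.Mal

/-- the seven-dimensional cross product algebra -/
def O7 (R : Type) : Type := Fin 7 → R

variable {R : Type} [CommRing R]

instance : AddCommGroup (O7 R) := inferInstanceAs (AddCommGroup (Fin 7 → R))
instance : Module R (O7 R) := inferInstanceAs (Module R (Fin 7 → R))

instance : Mul (O7 R) := ⟨fun x y k => x (k+1) * y (k+3) - x (k+3) * y (k+1)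
  + (x (k+2) * y (k+6) - x (k+6) * y (k+2)) + (x (k+4) * y (k+5) - x (k+5) * y (k+4))⟩

lemma O7.mul_app (x y : O7 R) (k : Fin 7) : (x * y) k = x (k+1) * y (k+3) - x (k+3) * y (k+1)
  + (x (k+2) * y (k+6) - x (k+6) * y (k+2)) + (x (k+4) * y (k+5) - x (k+5) * y (k+4)) := rfl
lemma O7.add_app (x y : O7 R) (k : Fin 7) : (x + y) k = x k + y k := rfl
lemma O7.sub_app (x y : O7 R) (k : Fin 7) : (x - y) k = x k - y k := rfl
lemma O7.neg_app (x : O7 R) (k : Fin 7) : (-x) k = -x k := rfl
lemma O7.smul_app (c : R) (x : O7 R) (k : Fin 7) : (c • x) k = c * x k := rfl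
lemma O7.zero_app (k : Fin 7) : (0 : O7 R) k = 0 := rfl

lemma O7.ext {x y : O7 R} (h : ∀ k, x k = y k) : x = y := funext h

instance : NonUnitalNonAssocRing (O7 R) :=
  { (inferInstance : AddCommGroup (O7 R)), (inferInstance : Mul (O7 R)) with
    left_distrib := by
      intro a b c
      apply O7.ext; intro k
      simp only [O7.mul_app, O7.add_app]; ring
    right_distrib := by
      intro a b c
      apply O7.ext; intro k
      simp only [O7.mul_app, O7.add_app]; ring
    zero_mul := by
      intro a
      apply O7.ext; intro k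
      simp only [O7.mul_app, O7.zero_app]; ring
    mul_zero := by
      intro a
      apply O7.ext; intro k
      simp only [O7.mul_app, O7.zero_app]; ring }

instance : IsScalarTower R (O7 R) (O7 R) := ⟨by
  intro c a b
  apply O7.ext; intro k
  simp only [smul_eq_mul, O7.mul_app, O7.smul_app]; ring⟩

instance : SMulCommClass R (O7 R) (O7 R) := ⟨by
  intro c a b
  apply O7.ext; intro k
  simp only [smul_eq_mul, O7.mul_app, O7.smul_app]; ring⟩

/-- scalar product -/
def dot (x y : O7 R) : R := x 0 * y 0 + x 1 * y 1 + x 2 * y 2 + x 3 * y 3 + x 4 * y 4 + x 5 * y 5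
  + x 6 * y 6

set_option maxHeartbeats 4000000 in
lemma cross1 (x y z : O7 R) : (3 : R) • (x * y * z) = (3 : R) • (dot x z • y) - (3 : R) • (dot y z • x)
    + J x y z := by
  unfold J dot
  apply O7.ext; intro k
  fin_cases k <;>
  · simp only [O7.smul_app, O7.add_app, O7.sub_app, O7.mul_app, Fin.reduceFinMk, Fin.zero_eta,
      Fin.mk_one, Fin.isValue, Fin.reduceAdd]
    ring

set_option maxHeartbeats 4000000 in
lemma cross2 (x y z w : O7 R) : J x y z * w = (3 : R) • (dot (y * z) w • x + dot (z * x) w • y
    + dot (x * y) w • z - dot x w • (y * z) - dot y w • (z * x) - dot z w • (x * y)) := by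
  unfold J dot
  apply O7.ext; intro k
  fin_cases k <;>
  · simp only [O7.smul_app, O7.add_app, O7.sub_app, O7.mul_app, Fin.reduceFinMk, Fin.zero_eta,
      Fin.mk_one, Fin.isValue, Fin.reduceAdd]
    ring

instance : IsMal (O7 R) where
  sq := by
    intro x
    apply O7.ext; intro k
    simp only [O7.mul_app, O7.zero_app]; ring
  mal := by
    intro x y z
    unfold J
    apply O7.ext; intro k
    fin_cases k <;>
    · simp only [O7.add_app, O7.mul_app, Fin.reduceFinMk, Fin.zero_eta,
        Fin.mk_one, Fin.isValue, Fin.reduceAdd]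
      ring

lemma dot_comm (x y : O7 R) : dot x y = dot y x := by unfold dot; ring
lemma dot_add_left (x x' y : O7 R) : dot (x + x') y = dot x y + dot x' y := by
  unfold dot; simp only [O7.add_app]; ring
lemma dot_sub_left (x x' y : O7 R) : dot (x - x') y = dot x y - dot x' y := by
  unfold dot; simp only [O7.sub_app]; ring
lemma dot_neg_left (x y : O7 R) : dot (-x) y = -dot x y := by
  unfold dot; simp only [O7.neg_app]; ring
lemma dot_smul_left (c : R) (x y : O7 R) : dot (c • x) y = c * dot x y := by
  unfold dot; simp only [O7.smul_app]; ring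
lemma dot_add_right (x y y' : O7 R) : dot x (y + y') = dot x y + dot x y' := by
  unfold dot; simp only [O7.add_app]; ring
lemma dot_smul_right (c : R) (x y : O7 R) : dot x (c • y) = c * dot x y := by
  unfold dot; simp only [O7.smul_app]; ring

lemma dot_mul_cyc (x y z : O7 R) : dot (x * y) z = dot (y * z) x := by
  unfold dot
  simp only [O7.mul_app, Fin.isValue, Fin.reduceAdd, zero_add]
  ring

lemma dot_mul_swap (x y z : O7 R) : dot (x * y) z = -dot (y * x) z := by
  unfold dot
  simp only [O7.mul_app, Fin.isValue, Fin.reduceAdd, zero_add]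
  ring

end Pool.Agent.H1.Mal
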