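import Pool.Agent.H1.Mal.Deg

/-!
# Existence of the operators `φ`
-/

set_option autoImplicit false
set_option linter.unusedSectionVars false
set_option linter.unusedSimpArgs false

namespace Pool.Agent.H1.Mal

variable {X : Type}

/-- `n ↦ G2 t u n v` -/
def G2l {A : Type} [NonUnitalNonAssocRing A] [Module ℚ A] [IsScalarTower ℚ A A]
    [SMulCommClass ℚ A A] (t u v : A) : A →ₗ[ℚ] A where
  toFun n := G2 t u n v
  map_add' a b := G2_add_n t u a b v
  map_smul' c a := G2_smul_n c t u a v

lemma G2l_apply {A : Type} [NonUnitalNonAssocRing A] [Module ℚ A] [IsScalarTower ℚ A A]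
    [SMulCommClass ℚ A A] (t u v n : A) : G2l t u v n = G2 t u n v := rfl

theorem exists_phi {i j : ℕ} {t u : FMal X} (ht : Hom X i t) (hu : Hom X j u) :
    ∃ φ : FMal X →ₗ[ℚ] FMal X, (∀ x y z, φ (J x y z) = E2 t u x y z) ∧
      ∀ n ∈ NN (FMal X), ∀ w, φ (n * w) = G2 t u n w := by
  obtain ⟨b, hg, hm, hJ⟩ := exists_crossed (dAct (FMal X)) (dOm t u) (dual_ok t u)
    (fun v => -(G2l t u (gen v)))
  have hm' : ∀ a c w, b (a * c) w = -b a (w * c) + b c (w * a) + E2 t u a c w := by
    intro a c w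
    rw [hm]
    simp only [LinearMap.add_apply, LinearMap.sub_apply, dAct_apply, dOm_apply]
    abel
  have hJ' : ∀ x y z w, b (J x y z) w = -b x (J w y z) - b y (J w z x) - b z (J w x y)
      + Lam t u x y z w := by
    intro x y z w
    rw [hJ]
    simp only [LinearMap.add_apply, jp_dAct, jom_dual]
    abel
  -- values on the Jacobian ideal
  have c1 : ∀ x, ∀ n ∈ NN (FMal X), b x n = -G2 t u n x := by
    have hmul : ∀ x y : FMal X, (∀ n ∈ NN (FMal X), b x n = -G2 t u n x) →
        (∀ n ∈ NN (FMal X), b y n = -G2 t u n y) →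
        ∀ n ∈ NN (FMal X), b (x * y) n = -G2 t u n (x * y) := by
      intro x y hx hy n hn
      rw [hm', hx _ (NN_mul hn _), hy _ (NN_mul hn _), ← E2_cyc, H2n t u hn x y]
      abel
    intro x
    induction x using FMal.ind with
    | hmon w =>
      induction w using FreeMagma.recOnMul with
      | ih1 v => intro n _; rw [mon_of, hg]; rfl
      | ih2 a c ha hc => rw [mon_mul]; exact hmul _ _ ha hc
    | hzero =>
      intro n _
      have := G2_smul_v 0 t u n 0
      rw [map_zero, LinearMap.zero_apply]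
      simpa using this
    | hadd x y hx hy =>
      intro n hn
      rw [map_add, LinearMap.add_apply, hx n hn, hy n hn, G2_add_v]; abel
    | hsmul c x hx =>
      intro n hn
      rw [map_smul, LinearMap.smul_apply, hx n hn, G2_smul_v]; module
  have c2 : ∀ n ∈ NN (FMal X), ∀ w, b n w = G2 t u n w := by
    intro n hn w
    induction hn using Submodule.span_induction with
    | mem x hx =>
      obtain ⟨x, y, z, rfl⟩ := hx
      rw [hJ', c1 x _ (J_mem _ _ _), c1 y _ (J_mem _ _ _), c1 z _ (J_mem _ _ _), H3p]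
      abel
    | zero =>
      have := G2_smul_n 0 t u 0 w
      rw [map_zero, LinearMap.zero_apply]
      simpa using this.symm
    | add p q _ _ hp hq => rw [map_add, LinearMap.add_apply, hp, hq, G2_add_n]
    | smul c p _ hp => rw [map_smul, LinearMap.smul_apply, hp, G2_smul_n]
  -- the second cocycle
  let om : FMal X →ₗ[ℚ] FMal X →ₗ[ℚ] FMal X :=
    LinearMap.mk₂ ℚ (fun x w => b x (DD X w) - b w (DD X x))
      (fun x y w => by simp only [map_add, LinearMap.add_apply]; abel)
      (fun c x w => by simp only [map_smul, LinearMap.smul_apply, smul_sub])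
      (fun x y w => by simp only [map_add, LinearMap.add_apply]; abel)
      (fun c x w => by simp only [map_smul, LinearMap.smul_apply, smul_sub])
  have hom : ∀ x w, om x w = b x (DD X w) - b w (DD X x) := fun _ _ => rfl
  have homn : ∀ n ∈ NN (FMal X), ∀ w,
      om n w = DD X (G2 t u n w) - ((i + j : ℕ) : ℚ) • G2 t u n w := by
    intro n hn w
    rw [hom, c2 n hn, c1 w _ (DD_NN hn), DD_G2 ht hu]
    push_cast
    module
  have hjom : ∀ x y z, jom (0 : FMal X →ₗ[ℚ] FMal X →ₗ[ℚ] FMal X) om x y z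
      = DD X (E2 t u x y z) - ((i + j : ℕ) : ℚ) • E2 t u x y z := by
    intro x y z
    have h1 : DD X (E2 t u x y z) - ((i + j : ℕ) : ℚ) • E2 t u x y z
        = E2 t u x y (DD X z) + E2 t u y z (DD X x) + E2 t u z x (DD X y) := by
      rw [DD_E2 ht hu, E2_cyc t u (DD X x) y z, ← E2_cyc t u z x (DD X y)]
      push_cast
      module
    rw [h1]
    unfold jom
    simp only [LinearMap.zero_apply, hom, hm', DD_mul, map_add]
    rw [anti (DD X z) y, anti (DD X x) z, anti (DD X y) x]
    simp only [map_neg]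
    abel
  have ok2 : ExOK (0 : FMal X →ₗ[ℚ] FMal X →ₗ[ℚ] FMal X) om := by
    have hjp : ∀ p y z, jp (0 : FMal X →ₗ[ℚ] FMal X →ₗ[ℚ] FMal X) p y z = 0 := by
      intro p y z; simp [jp]
    refine ⟨fun x => by rw [hom, sub_self], ?_, ?_, ?_, ?_⟩
    · intro p x y z; simp [hjp]
    · intro p x z; simp [hjp]
    · intro p x y; simp [hjp]
    · intro x y z
      rw [hjp, hjom, H4p, homn _ (J_mem _ _ _)]
      simp
  obtain ⟨f, -, hfm, hfJ⟩ := exists_crossed (0 : FMal X →ₗ[ℚ] FMal X →ₗ[ℚ] FMal X) om ok2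
    (fun _ => (0 : FMal X))
  obtain ⟨L, hL⟩ := exists_linv (X := X) (k := i + j + 1) (s := i + j) (by omega)
  refine ⟨L ∘ₗ f, ?_, ?_⟩
  · intro x y z
    rw [LinearMap.comp_apply, hfJ, hjom]
    have hjp : ∀ p y z, jp (0 : FMal X →ₗ[ℚ] FMal X →ₗ[ℚ] FMal X) p y z = 0 := by
      intro p y z; simp [jp]
    rw [hjp, hjp, hjp, zero_add, zero_add, zero_add]
    exact hL _ (E2_Gr ht.g hu.g _ _ _)
  · intro n hn w
    rw [LinearMap.comp_apply, hfm, homn n hn]
    simp only [LinearMap.zero_apply, sub_zero, zero_add]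
    exact hL _ (G2_Gr ht.g hu.g _ _)

end Pool.Agent.H1.Mal
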