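import Pool.Agent.H1.Mal.Phi
import Pool.Agent.H1.Mal.KZero
import Pool.Agent.H1.Mal.Formal3

/-!
# The commuting operators on the Jacobian ideal of the free Malcev algebra of rank four
-/

set_option autoImplicit false
set_option linter.unusedSectionVars false
set_option linter.unusedSimpArgs false

namespace Pool.Agent.H1.Mal

section general

variable {A : Type} [NonUnitalNonAssocRing A] [Module ℚ A] [IsScalarTower ℚ A A]
  [SMulCommClass ℚ A A] [IsMal A]

lemma IsQ.symm {t u : A} {φ : A →ₗ[ℚ] A} (h : IsQ t u φ) : IsQ u t φ :=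
  ⟨fun x y z => by rw [h.J, E2_symm], h.lin⟩

lemma IsQ.unique {t u : A} {φ ψ : A →ₗ[ℚ] A} (h : IsQ t u φ) (h' : IsQ t u ψ) {n : A}
    (hn : n ∈ NN A) : φ n = ψ n := by
  induction hn using Submodule.span_induction with
  | mem x hx => obtain ⟨x, y, z, rfl⟩ := hx; rw [h.J, h'.J]
  | zero => rw [map_zero, map_zero]
  | add p q _ _ hp hq => rw [map_add, map_add, hp, hq]
  | smul c p _ hp => rw [map_smul, map_smul, hp]

lemma IsQ.E2 {u u' : A} {ψ : A →ₗ[ℚ] A} (h : IsQ u u' ψ) (t t' x y z : A) :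
    ψ (E2 t t' x y z) = (-1/18 : ℚ) • EEP u u' t t' x y z := by
  have h2 : ∀ a b c d e : A, ψ (Mal.J a b c * d * e) = Mal.E2 u u' a b c * d * e := by
    intro a b c d e
    rw [h.lin _ (NN_mul (J_mem _ _ _) _), h.lin _ (J_mem _ _ _), h.J]
  unfold Mal.E2 e3 EEP
  simp only [map_smul, map_add, h2]

lemma IsQ.comm {t t' u u' : A} {φ ψ : A →ₗ[ℚ] A} (h : IsQ t t' φ) (h' : IsQ u u' ψ) {n : A}
    (hn : n ∈ NN A) : ψ (φ n) = φ (ψ n) := by
  induction hn using Submodule.span_induction with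
  | mem x hx => obtain ⟨x, y, z, rfl⟩ := hx; rw [h.J, h'.J, h'.E2, h.E2, CommP]
  | zero => rw [map_zero, map_zero, map_zero]
  | add p q _ _ hp hq => rw [map_add, map_add, map_add, map_add, hp, hq]
  | smul c p _ hp => rw [map_smul, map_smul, map_smul, map_smul, hp]

open Classical in
/-- a choice of the operator `⟨t,u⟩` -/
noncomputable def Qc (t u : A) : A →ₗ[ℚ] A := if h : ∃ φ, IsQ t u φ then h.choose else 0

lemma Qc_spec {t u : A} (h : ∃ φ, IsQ t u φ) : IsQ t u (Qc t u) := by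
  unfold Qc; rw [dif_pos h]; exact h.choose_spec

end general

lemma isQ_exists (i : Fin 4) {j : ℕ} {u : M4} (hu : Hom (Fin 4) j u) : ∃ φ, IsQ (gen i) u φ := by
  obtain ⟨φ, h1, h2⟩ := exists_phi (Hom.gen i) hu
  refine ⟨φ, h1, fun n hn w => ?_⟩
  rw [h2 n hn]
  induction hn using Submodule.span_induction with
  | mem x hx =>
    obtain ⟨x, y, z, rfl⟩ := hx
    rw [h1]
    have := kk_gen i u w x y z
    unfold kk at this
    exact (sub_eq_zero.1 this).symm
  | zero =>
    have := G2_smul_n 0 (gen i) u 0 w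
    rw [map_zero, zero_mul]
    simpa using this
  | add p q _ _ hp hq => rw [map_add, add_mul, G2_add_n, hp, hq]
  | smul c p _ hp => rw [map_smul, smul_mul_assoc, G2_smul_n, hp]

lemma isQ_gen (i j : Fin 4) : IsQ (gen i : M4) (gen j) (Qc (gen i) (gen j)) :=
  Qc_spec (isQ_exists i (Hom.gen j))

lemma isQ_gen3 (i j k : Fin 4) : IsQ (gen i * gen j : M4) (gen k) (Qc (gen i * gen j) (gen k)) := by
  obtain ⟨φ, h⟩ := isQ_exists k ((Hom.gen i).mul (Hom.gen j))
  exact Qc_spec ⟨φ, h.symm⟩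

/-- environment of letters -/
noncomputable def lets (s : Fin 4 → Fin 4) (n : ℕ) : M4 := if h : n < 4 then gen (s ⟨n, h⟩) else 0

lemma allQ_lets (s : Fin 4 → Fin 4) : AllQ (lets s) Qc where
  q := by
    intro i j hi hj
    simp only [lets, dif_pos hi, dif_pos hj]
    exact isQ_gen _ _
  t := by
    intro i j k hi hj hk
    simp only [lets, dif_pos hi, dif_pos hj, dif_pos hk]
    exact isQ_gen3 _ _ _

lemma kk_sum2 (j k : Fin 4) (w x y z : M4) :
    kk (gen j + gen k) (gen j + gen k) w x y z = 0 := by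
  rw [kk_add_t, kk_gen, kk_gen, add_zero]

lemma E2_self3 (x : M4) (j : Fin 4) (u v w : M4) : E2 (x * gen j) (gen j) u v w = 0 := by
  have h := c11_id x (gen j) u v w
  rw [kk_gen, add_zero] at h
  exact (smul_eq_zero.1 h).resolve_left (by norm_num)

lemma E2_skew3 (x : M4) (j k : Fin 4) (u v w : M4) :
    E2 (x * gen j) (gen k) u v w = -E2 (x * gen k) (gen j) u v w := by
  have h := c11_id x (gen j + gen k) u v w
  rw [kk_sum2, add_zero, mul_add, E2_add_t, E2_add_u, E2_add_u, E2_self3, E2_self3, zero_add,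
    add_zero] at h
  exact eq_neg_of_add_eq_zero_left ((smul_eq_zero.1 h).resolve_left (by norm_num))

lemma Qc_symm (i j : Fin 4) {n : M4} (hn : n ∈ NN M4) :
    Qc (gen i) (gen j) n = Qc (gen j) (gen i) n :=
  (isQ_gen i j).unique (isQ_gen j i).symm hn

lemma Qc3_swap12 (i j k : Fin 4) {n : M4} (hn : n ∈ NN M4) :
    Qc (gen i * gen j) (gen k) n = -Qc (gen j * gen i) (gen k) n := by
  have h : IsQ (gen i * gen j : M4) (gen k) (-Qc (gen j * gen i) (gen k)) := by
    have h' := isQ_gen3 j i k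
    refine ⟨fun x y z => ?_, fun n hn w => ?_⟩
    · rw [LinearMap.neg_apply, h'.J, anti (gen i) (gen j),
        show (-(gen j * gen i) : M4) = (-1 : ℚ) • (gen j * gen i) by module, E2_smul_t]
      module
    · rw [LinearMap.neg_apply, LinearMap.neg_apply, h'.lin n hn, neg_mul]
  rw [(isQ_gen3 i j k).unique h hn, LinearMap.neg_apply]

lemma Qc3_swap23 (i j k : Fin 4) {n : M4} (hn : n ∈ NN M4) :
    Qc (gen i * gen j) (gen k) n = -Qc (gen i * gen k) (gen j) n := by
  have h : IsQ (gen i * gen j : M4) (gen k) (-Qc (gen i * gen k) (gen j)) := by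
    have h' := isQ_gen3 i k j
    refine ⟨fun x y z => ?_, fun n hn w => ?_⟩
    · rw [LinearMap.neg_apply, h'.J, E2_skew3 (gen i) j k]
    · rw [LinearMap.neg_apply, LinearMap.neg_apply, h'.lin n hn, neg_mul]
  rw [(isQ_gen3 i j k).unique h hn, LinearMap.neg_apply]

end Pool.Agent.H1.Mal
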