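import Pool.Agent.H1.Mal.Val

/-!
# Independence at the points of a slice
-/

set_option autoImplicit false
set_option linter.unusedSectionVars false
set_option linter.unusedSimpArgs false
set_option linter.unusedVariables false

namespace Pool.Agent.H1.Mal

/-- vectors by coordinates -/
def v7 (x0 x1 x2 x3 x4 x5 x6 : ℂ) : O7 ℂ := (![x0, x1, x2, x3, x4, x5, x6] : Fin 7 → ℂ)

lemma v7_mul (x0 x1 x2 x3 x4 x5 x6 y0 y1 y2 y3 y4 y5 y6 : ℂ) :
    v7 x0 x1 x2 x3 x4 x5 x6 * v7 y0 y1 y2 y3 y4 y5 y6 = v7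
      (x1 * y3 - x3 * y1 + (x2 * y6 - x6 * y2) + (x4 * y5 - x5 * y4))
      (x2 * y4 - x4 * y2 + (x3 * y0 - x0 * y3) + (x5 * y6 - x6 * y5))
      (x3 * y5 - x5 * y3 + (x4 * y1 - x1 * y4) + (x6 * y0 - x0 * y6))
      (x4 * y6 - x6 * y4 + (x5 * y2 - x2 * y5) + (x0 * y1 - x1 * y0))
      (x5 * y0 - x0 * y5 + (x6 * y3 - x3 * y6) + (x1 * y2 - x2 * y1))
      (x6 * y1 - x1 * y6 + (x0 * y4 - x4 * y0) + (x2 * y3 - x3 * y2))
      (x0 * y2 - x2 * y0 + (x1 * y5 - x5 * y1) + (x3 * y4 - x4 * y3)) := by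
  apply O7.ext; intro k
  fin_cases k <;> rfl

lemma v7_add (x0 x1 x2 x3 x4 x5 x6 y0 y1 y2 y3 y4 y5 y6 : ℂ) :
    v7 x0 x1 x2 x3 x4 x5 x6 + v7 y0 y1 y2 y3 y4 y5 y6 = v7 (x0 + y0) (x1 + y1) (x2 + y2) (x3 + y3) (x4 + y4) (x5 + y5) (x6 + y6) := by
  apply O7.ext; intro k
  fin_cases k <;> rfl

lemma v7_smul (c x0 x1 x2 x3 x4 x5 x6 : ℂ) :
    c • v7 x0 x1 x2 x3 x4 x5 x6 = v7 (c * x0) (c * x1) (c * x2) (c * x3) (c * x4) (c * x5) (c * x6) := by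
  apply O7.ext; intro k
  fin_cases k <;> rfl

lemma v7_zero {x0 x1 x2 x3 x4 x5 x6 : ℂ} (h : v7 x0 x1 x2 x3 x4 x5 x6 = 0) :
    x0 = 0 ∧ x1 = 0 ∧ x2 = 0 ∧ x3 = 0 ∧ x4 = 0 ∧ x5 = 0 ∧ x6 = 0 :=
  ⟨congrFun h 0, congrFun h 1, congrFun h 2, congrFun h 3, congrFun h 4, congrFun h 5,
    congrFun h 6⟩

lemma v7_dot (x0 x1 x2 x3 x4 x5 x6 y0 y1 y2 y3 y4 y5 y6 : ℂ) :
    dot (v7 x0 x1 x2 x3 x4 x5 x6) (v7 y0 y1 y2 y3 y4 y5 y6) = x0 * y0 + x1 * y1 + x2 * y2 + x3 * y3 + x4 * y4 + x5 * y5 + x6 * y6 := rfl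

/-- points of the slice -/
def slp (a0 b0 b1 c0 c1 c2 c3 d0 d1 d2 d3 d4 d5 d6 : ℂ) : Pt :=
  ![v7 a0 0 0 0 0 0 0, v7 b0 b1 0 0 0 0 0, v7 c0 c1 c2 c3 0 0 0, v7 d0 d1 d2 d3 d4 d5 d6]

/-- the linear combination -/
noncomputable def lcm' (F : K10 → ℂ) (s : Fin 4 → ℂ) (p : Pt) : O7 ℂ :=
  (∑ k, F k • wv p k) + ∑ l, s l • J (p (tr l).1) (p (tr l).2.1) (p (tr l).2.2)

lemma lcm_exp (F : K10 → ℂ) (s : Fin 4 → ℂ) (p : Pt) : lcm' F s p
    = F (Sum.inl 0) • p 0 + F (Sum.inl 1) • p 1 + F (Sum.inl 2) • p 2 + F (Sum.inl 3) • p 3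
      + F (Sum.inr 0) • (p 0 * p 1) + F (Sum.inr 1) • (p 0 * p 2) + F (Sum.inr 2) • (p 0 * p 3)
      + F (Sum.inr 3) • (p 1 * p 2) + F (Sum.inr 4) • (p 1 * p 3) + F (Sum.inr 5) • (p 2 * p 3)
      + s 0 • J (p 1) (p 3) (p 2) + s 1 • J (p 0) (p 2) (p 3) + s 2 • J (p 0) (p 3) (p 1)
      + s 3 • J (p 0) (p 1) (p 2) := by
  unfold lcm'
  rw [Fintype.sum_sum_type, Fin.sum_univ_four, Fin.sum_univ_six, Fin.sum_univ_four]
  simp only [wv, Sum.elim_inl, Sum.elim_inr, pr, tr, Matrix.cons_val_zero, Matrix.cons_val_one,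
    Matrix.cons_val, Fin.isValue]
  abel

set_option maxHeartbeats 4000000 in
theorem slice_solve (F : K10 → ℂ) (s : Fin 4 → ℂ)
    (a0 b0 b1 c0 c1 c2 c3 d0 d1 d2 d3 d4 d5 d6 : ℂ)
    (ha : a0 ≠ 0) (hb : b1 ≠ 0) (hc : c2 ≠ 0) (hd : d5 ≠ 0)
    (h : lcm' F s (slp a0 b0 b1 c0 c1 c2 c3 d0 d1 d2 d3 d4 d5 d6) = 0)
    (h' : lcm' F s (slp a0 b0 b1 c0 c1 c2 c3 d0 d1 d2 d3 d4 (-d5) d6) = 0) :
    (∀ k, F k = 0) ∧ ∀ l, s l = 0 := by
  rw [lcm_exp] at h h'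
  simp only [slp, J, Matrix.cons_val_zero, Matrix.cons_val_one,
    Matrix.cons_val, Fin.isValue, v7_mul, v7_add, v7_smul] at h h'
  obtain ⟨h0, h1, h2, h3, h4, h5, h6⟩ := v7_zero h
  obtain ⟨k0, k1, k2, k3, k4, k5, k6⟩ := v7_zero h'
  clear h h'
  have eFd : F (Sum.inl 3) = 0 := by
    have : d5 * F (Sum.inl 3) = 0 := by linear_combination (1/2) * h5 - (1/2) * k5
    exact (mul_eq_zero.1 this).resolve_left hd
  have eP5 : F (Sum.inr 5) = 0 := by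
    have : (d5 * c2) * F (Sum.inr 5) = 0 := by linear_combination (-1/2) * h3 + (1/2) * k3
    exact (mul_eq_zero.1 this).resolve_left (mul_ne_zero hd hc)
  have es0 : s 0 = 0 := by
    have : (d5 * b1 * c2) * s 0 = 0 := by linear_combination (-1/6) * h0 + (1/6) * k0
    exact (mul_eq_zero.1 this).resolve_left (mul_ne_zero (mul_ne_zero hd hb) hc)
  rw [eFd, eP5, es0] at h0 h1 h2 h3 h4 h5 h6 k0 k1 k2 k3 k4 k5 k6
  have es1 : s 1 = 0 := by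
    have : (d5 * a0 * c2) * s 1 = 0 := by linear_combination (-1/6) * h1 + (1/6) * k1
    exact (mul_eq_zero.1 this).resolve_left (mul_ne_zero (mul_ne_zero hd ha) hc)
  rw [es1] at h0 h1 h2 h3 h4 h5 h6 k0 k1 k2 k3 k4 k5 k6
  have eP4 : F (Sum.inr 4) = 0 := by
    have : (d5 * b1) * F (Sum.inr 4) = 0 := by linear_combination (1/2) * h6 - (1/2) * k6
    exact (mul_eq_zero.1 this).resolve_left (mul_ne_zero hd hb)
  rw [eP4] at h0 h1 h2 h3 h4 h5 h6 k0 k1 k2 k3 k4 k5 k6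
  have eP2 : F (Sum.inr 2) = 0 := by
    have : (d5 * a0) * F (Sum.inr 2) = 0 := by linear_combination (-1/2) * h4 + (1/2) * k4
    exact (mul_eq_zero.1 this).resolve_left (mul_ne_zero hd ha)
  have es2 : s 2 = 0 := by
    have : (d5 * a0 * b1) * s 2 = 0 := by linear_combination (-1/6) * h2 + (1/6) * k2
    exact (mul_eq_zero.1 this).resolve_left (mul_ne_zero (mul_ne_zero hd ha) hb)
  rw [eP2, es2] at h0 h1 h2 h3 h4 h5 h6 k0 k1 k2 k3 k4 k5 k6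
  have es3 : s 3 = 0 := by
    have : (a0 * b1 * c2) * s 3 = 0 := by linear_combination (-1/3) * h5
    exact (mul_eq_zero.1 this).resolve_left (mul_ne_zero (mul_ne_zero ha hb) hc)
  have eP3 : F (Sum.inr 3) = 0 := by
    have : (b1 * c2) * F (Sum.inr 3) = 0 := by linear_combination h4
    exact (mul_eq_zero.1 this).resolve_left (mul_ne_zero hb hc)
  rw [es3, eP3] at h0 h1 h2 h3 h4 h5 h6 k0 k1 k2 k3 k4 k5 k6
  have eFc : F (Sum.inl 2) = 0 := by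
    have : c2 * F (Sum.inl 2) = 0 := by linear_combination h2
    exact (mul_eq_zero.1 this).resolve_left hc
  have eP1 : F (Sum.inr 1) = 0 := by
    have : (a0 * c2) * F (Sum.inr 1) = 0 := by linear_combination h6
    exact (mul_eq_zero.1 this).resolve_left (mul_ne_zero ha hc)
  rw [eFc, eP1] at h0 h1 h2 h3 h4 h5 h6 k0 k1 k2 k3 k4 k5 k6
  have eP0 : F (Sum.inr 0) = 0 := by
    have : (a0 * b1) * F (Sum.inr 0) = 0 := by linear_combination h3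
    exact (mul_eq_zero.1 this).resolve_left (mul_ne_zero ha hb)
  have eFb : F (Sum.inl 1) = 0 := by
    have : b1 * F (Sum.inl 1) = 0 := by linear_combination h1
    exact (mul_eq_zero.1 this).resolve_left hb
  rw [eP0, eFb] at h0 h1 h2 h3 h4 h5 h6 k0 k1 k2 k3 k4 k5 k6
  have eFa : F (Sum.inl 0) = 0 := by
    have : a0 * F (Sum.inl 0) = 0 := by linear_combination h0
    exact (mul_eq_zero.1 this).resolve_left ha
  constructor
  · intro k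
    rcases k with k | k
    · fin_cases k
      · exact eFa
      · exact eFb
      · exact eFc
      · exact eFd
    · fin_cases k
      · exact eP0
      · exact eP1
      · exact eP2
      · exact eP3
      · exact eP4
      · exact eP5
  · intro l
    fin_cases l
    · exact es0
    · exact es1
    · exact es2
    · exact es3

end Pool.Agent.H1.Mal
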