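import Pool.Agent.H1.Mal.Machine

/-!
# Soundness of the reflection procedure
-/

set_option autoImplicit false

namespace Pool.Agent.H1.Mal

variable {A : Type} [NonUnitalNonAssocRing A]

def Tr.ev (e : ℕ → A) : Tr → A
  | .v n => e n
  | .m a b => a.ev e * b.ev e

def opv (e : ℕ → A) (x : A) : List Tr → A
  | [] => x
  | t :: ts => opv e (x * t.ev e) ts

lemma opv_add (e : ℕ → A) (ts : List Tr) : ∀ x y : A, opv e (x + y) ts = opv e x ts + opv e y ts := by
  induction ts with
  | nil => intro x y; rfl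
  | cons t ts ih => intro x y; simp only [opv, add_mul, ih]

lemma opv_zero (e : ℕ → A) (ts : List Tr) : opv e (0 : A) ts = 0 := by
  induction ts with
  | nil => rfl
  | cons t ts ih => simp only [opv, zero_mul, ih]

lemma opv_neg (e : ℕ → A) (ts : List Tr) : ∀ x : A, opv e (-x) ts = -opv e x ts := by
  induction ts with
  | nil => intro x; rfl
  | cons t ts ih => intro x; simp only [opv, neg_mul, ih]

lemma opv_sub (e : ℕ → A) (ts : List Tr) (x y : A) :
    opv e (x - y) ts = opv e x ts - opv e y ts := by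
  rw [sub_eq_add_neg, opv_add, opv_neg, sub_eq_add_neg]

lemma opv_zsmul (e : ℕ → A) (ts : List Tr) (c : ℤ) : ∀ x : A,
    opv e (c • x) ts = c • opv e x ts := by
  induction ts with
  | nil => intro x; rfl
  | cons t ts ih => intro x; simp only [opv, smul_mul_assoc, ih]

lemma opv_append (e : ℕ → A) (ts us : List Tr) : ∀ x : A,
    opv e x (ts ++ us) = opv e (opv e x ts) us := by
  induction ts with
  | nil => intro x; rfl
  | cons t ts ih => intro x; simp only [opv, List.cons_append, ih]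

/-- letters are `< 8` -/
def Tr.ok : Tr → Prop
  | .v n => n < 8
  | .m a b => a.ok ∧ b.ok

def okL (ts : List Tr) : Prop := ∀ t ∈ ts, t.ok

lemma okL_cons {t : Tr} {ts : List Tr} : okL (t :: ts) ↔ t.ok ∧ okL ts := by
  simp [okL]

lemma okL_append {ts us : List Tr} : okL (ts ++ us) ↔ okL ts ∧ okL us := by
  simp only [okL, List.mem_append]
  constructor
  · intro h; exact ⟨fun t ht => h t (Or.inl ht), fun t ht => h t (Or.inr ht)⟩
  · rintro ⟨h1, h2⟩ t (ht | ht)
    · exact h1 t ht
    · exact h2 t ht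

/-- value of a token -/
def tokv (e : ℕ → A) (t : ℕ) : A :=
  if t < 8 then e t else e (t / 8 - 1) * e (t % 8)

/-- value of a code -/
def dec (e : ℕ → A) (n : ℕ) : A :=
  if _h : n < 4096 then J (e ((n - 512) / 64)) (e (n / 8 % 8)) (e (n % 8))
  else dec e (n / 64) * tokv e (n % 64)
termination_by n
decreasing_by omega

lemma dec_snoc (e : ℕ → A) (c t : ℕ) (hc : 512 ≤ c) (ht : t < 64) :
    dec e (c * 64 + t) = dec e c * tokv e t := by
  rw [dec]
  have h1 : ¬ (c * 64 + t < 4096) := by omega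
  have h2 : (c * 64 + t) / 64 = c := by omega
  have h3 : (c * 64 + t) % 64 = t := by omega
  rw [dif_neg h1, h2, h3]

lemma dec_base (e : ℕ → A) (i j k : ℕ) (hi : i < 8) (hj : j < 8) (hk : k < 8) :
    dec e (512 + (64 * i + (8 * j + k))) = J (e i) (e j) (e k) := by
  rw [dec]
  have h1 : 512 + (64 * i + (8 * j + k)) < 4096 := by omega
  have h2 : (512 + (64 * i + (8 * j + k)) - 512) / 64 = i := by omega
  have h3 : (512 + (64 * i + (8 * j + k))) / 8 % 8 = j := by omega
  have h4 : (512 + (64 * i + (8 * j + k))) % 8 = k := by omega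
  rw [dif_pos h1, h2, h3, h4]

def Acc.sum (F : ℕ → A) : Acc → A
  | .nil => 0
  | .node l k p n r => l.sum F + ((p : ℤ) - n) • F k + r.sum F

lemma brec_true {a b : Bool} {c : Bool}
    (h : Bool.rec (motive := fun _ => Bool) a b c = true) :
    (c = false ∧ a = true) ∨ (c = true ∧ b = true) := by
  cases c
  · exact Or.inl ⟨rfl, h⟩
  · exact Or.inr ⟨rfl, h⟩

lemma add_sound (F : ℕ → A) (k p n : ℕ) (t : Acc) : ∀ K : Acc → Bool, t.add k p n K = true →
    ∃ t' : Acc, t'.sum F = t.sum F + ((p : ℤ) - n) • F k ∧ K t' = true := by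
  induction t with
  | nil =>
    intro K h
    exact ⟨_, by simp [Acc.sum], h⟩
  | node l k' p' n' r ihl ihr =>
    intro K h
    rcases brec_true h with ⟨h1, h2⟩ | ⟨h1, h2⟩
    · obtain ⟨l', e1, e2⟩ := ihl _ h2
      exact ⟨_, by simp only [Acc.sum, e1]; abel, e2⟩
    · rcases brec_true h2 with ⟨h3, h4⟩ | ⟨h3, h4⟩
      · obtain ⟨r', e1, e2⟩ := ihr _ h4
        exact ⟨_, by simp only [Acc.sum, e1]; abel, e2⟩
      · have hk : k' = k := Nat.eq_of_beq_eq_true h3
        subst hk
        refine ⟨_, ?_, h4⟩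
        simp only [Acc.sum, Nat.add_eq, Nat.cast_add, sub_smul, add_smul]
        abel

lemma zero_sound (F : ℕ → A) (t : Acc) : t.zero = true → t.sum F = 0 := by
  induction t with
  | nil => intro _; rfl
  | node l k p n r ihl ihr =>
    intro h
    rcases brec_true h with ⟨_, h2⟩ | ⟨h1, h2⟩
    · cases h2
    · rcases brec_true h2 with ⟨_, h4⟩ | ⟨h3, h4⟩
      · cases h4
      · have hpn : p = n := Nat.eq_of_beq_eq_true h1
        simp only [Acc.sum, ihl h3, ihr h4, hpn, sub_self, zero_smul, add_zero]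

/-- specification of `EF` functions -/
def EFok (e : ℕ → A) (ih : EF) : Prop :=
  ∀ (ts : List Tr) (code p n : ℕ) (acc : Acc) (K : Acc → Bool), okL ts → 512 ≤ code →
    ih ts code p n acc K = true →
    ∃ acc' : Acc, acc'.sum (dec e) = acc.sum (dec e) + ((p : ℤ) - n) • opv e (dec e code) ts ∧
      K acc' = true

section
variable [IsMal A] [Module ℚ A]

lemma expP_sound (e : ℕ → A) (ih : EF) (hih : EFok e ih) (ts : List Tr) (code p n : ℕ) (acc : Acc)
    (K : Acc → Bool) (x y b : Tr) (hts : okL ts) (hx : x.ok) (hy : y.ok) (hb : b.ok)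
    (hc : 512 ≤ code) (h : expP ih ts code p n acc K x y b = true) :
    ∃ acc' : Acc, acc'.sum (dec e) = acc.sum (dec e)
      + ((p : ℤ) - n) • opv e (dec e code) (.m (.m x y) b :: ts) ∧ K acc' = true := by
  unfold expP at h
  obtain ⟨a1, h1, h⟩ := hih _ _ _ _ _ _ (by simp [okL_cons, *]) hc h
  obtain ⟨a2, h2, h⟩ := hih _ _ _ _ _ _ (by simp [okL_cons, *]) hc h
  obtain ⟨a3, h3, h⟩ := hih _ _ _ _ _ _ (by simp [okL_cons, Tr.ok, *]) hc h
  obtain ⟨a4, h4, h⟩ := hih _ _ _ _ _ _ (by simp [okL_cons, Tr.ok, *]) hc h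
  refine ⟨a4, ?_, h⟩
  rw [h4, h3, h2, h1]
  simp only [opv, Tr.ev]
  rw [op_prod]
  simp only [opv_sub, smul_sub, sub_smul]
  abel

lemma expL_sound (e : ℕ → A) (ih : EF) (hih : EFok e ih) (ts : List Tr) (code p n : ℕ) (acc : Acc)
    (K : Acc → Bool) (i j : ℕ) (hts : okL ts) (hi : i < 8) (hj : j < 8)
    (hc : 512 ≤ code) (h : expL ih ts code p n acc K i j = true) :
    ∃ acc' : Acc, acc'.sum (dec e) = acc.sum (dec e)
      + ((p : ℤ) - n) • opv e (dec e code) (.m (.v i) (.v j) :: ts) ∧ K acc' = true := by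
  unfold expL at h
  rcases brec_true h with ⟨h1, h2⟩ | ⟨h1, h2⟩
  · have hji : j < i := by
      by_contra hh
      rw [Nat.ble_eq_true_of_le (by omega)] at h1
      cases h1
    obtain ⟨a1, e1, h⟩ := hih _ _ _ _ _ _ hts
      (by show 512 ≤ code * 64 + _; omega) h2
    refine ⟨a1, ?_, h⟩
    rw [e1]
    simp only [opv, Tr.ev, Nat.add_eq, Nat.mul_eq, Nat.succ_eq_add_one]
    rw [dec_snoc e code (8 * (j + 1) + i) hc (by omega)]
    have ht : tokv e (8 * (j + 1) + i) = e j * e i := by
      unfold tokv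
      rw [if_neg (by omega)]
      congr 2 <;> omega
    rw [ht, anti (e i) (e j), mul_neg, opv_neg, smul_neg, sub_smul, sub_smul]
    abel
  · rcases brec_true h2 with ⟨h3, h4⟩ | ⟨h3, h4⟩
    · have hij : i < j := by
        have h5 := Nat.le_of_ble_eq_true h1
        rcases Nat.lt_or_eq_of_le h5 with h6 | h6
        · exact h6
        · subst h6; simp at h3
      obtain ⟨a1, e1, h⟩ := hih _ _ _ _ _ _ hts
        (by show 512 ≤ code * 64 + _; omega) h4
      refine ⟨a1, ?_, h⟩
      rw [e1]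
      simp only [opv, Tr.ev, Nat.add_eq, Nat.mul_eq, Nat.succ_eq_add_one]
      rw [dec_snoc e code (8 * (i + 1) + j) hc (by omega)]
      have ht : tokv e (8 * (i + 1) + j) = e i * e j := by
        unfold tokv
        rw [if_neg (by omega)]
        congr 2 <;> omega
      rw [ht]
    · have hij : i = j := Nat.eq_of_beq_eq_true h3
      subst hij
      refine ⟨acc, ?_, h4⟩
      simp only [opv, Tr.ev, mul_self', mul_zero, opv_zero, smul_zero, add_zero]

lemma expM1_sound (e : ℕ → A) (ih : EF) (hih : EFok e ih) (ts : List Tr) (code p n : ℕ) (acc : Acc)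
    (K : Acc → Bool) (i : ℕ) (b : Tr) (hts : okL ts) (hi : i < 8) (hb : b.ok)
    (hc : 512 ≤ code) (h : expM1 ih ts code p n acc K i b = true) :
    ∃ acc' : Acc, acc'.sum (dec e) = acc.sum (dec e)
      + ((p : ℤ) - n) • opv e (dec e code) (.m (.v i) b :: ts) ∧ K acc' = true := by
  cases b with
  | v j => exact expL_sound e ih hih ts code p n acc K i j hts hi hb hc h
  | m x y =>
    obtain ⟨a1, h1, h⟩ := hih _ _ _ _ _ _ (by simpa [okL_cons, Tr.ok, hts, hi] using hb) hc h
    refine ⟨a1, ?_, h⟩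
    rw [h1]
    simp only [opv, Tr.ev]
    rw [anti (e i) (x.ev e * y.ev e), mul_neg, opv_neg, smul_neg, sub_smul, sub_smul]
    abel

lemma expM_sound (e : ℕ → A) (ih : EF) (hih : EFok e ih) (ts : List Tr) (code p n : ℕ) (acc : Acc)
    (K : Acc → Bool) (a b : Tr) (hts : okL ts) (ha : a.ok) (hb : b.ok)
    (hc : 512 ≤ code) (h : expM ih ts code p n acc K a b = true) :
    ∃ acc' : Acc, acc'.sum (dec e) = acc.sum (dec e)
      + ((p : ℤ) - n) • opv e (dec e code) (.m a b :: ts) ∧ K acc' = true := by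
  cases a with
  | v i => exact expM1_sound e ih hih ts code p n acc K i b hts ha hb hc h
  | m x y => exact expP_sound e ih hih ts code p n acc K x y b hts ha.1 ha.2 hb hc h

lemma expS_sound (e : ℕ → A) (ih : EF) (hih : EFok e ih) : EFok e (expS ih) := by
  intro ts code p n acc K hts hc h
  cases ts with
  | nil =>
    obtain ⟨a, h1, h2⟩ := add_sound (dec e) code p n acc K h
    exact ⟨a, h1, h2⟩
  | cons t ts =>
    rw [okL_cons] at hts
    cases t with
    | v i =>
      have hi : i < 8 := hts.1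
      obtain ⟨a1, h1, h⟩ := hih _ _ _ _ _ _ hts.2 (by show 512 ≤ code * 64 + _; omega) h
      refine ⟨a1, ?_, h⟩
      rw [h1]
      simp only [opv, Tr.ev, Nat.add_eq, Nat.mul_eq]
      rw [dec_snoc e code i hc (by omega)]
      have ht : tokv e i = e i := by
        unfold tokv; rw [if_pos hi]
      rw [ht]
    | m a b => exact expM_sound e ih hih ts code p n acc K a b hts.2 hts.1.1 hts.1.2 hc h

lemma expand_sound (e : ℕ → A) (f : ℕ) : EFok e (expand f) := by
  induction f with
  | zero => intro ts code p n acc K _ _ h; cases h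
  | succ f ih => exact expS_sound e _ ih

/-- specification for Jacobians of letters -/
lemma jq_sound (e : ℕ → A) (i j k : ℕ) (ops : List Tr) (p n : ℕ) (acc : Acc)
    (K : Acc → Bool) (hi : i < 8) (hj : j < 8) (hk : k < 8) (hops : okL ops)
    (h : jq i j k ops p n acc K = true) :
    ∃ acc' : Acc, acc'.sum (dec e) = acc.sum (dec e)
      + ((p : ℤ) - n) • opv e (J (e i) (e j) (e k)) ops ∧ K acc' = true := by
  obtain ⟨a, h1, h2⟩ := expand_sound e 60 _ _ _ _ _ _ hops
    (by show 512 ≤ 512 + _; omega) h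
  refine ⟨a, ?_, h2⟩
  rw [h1]
  simp only [Nat.add_eq, Nat.mul_eq]
  rw [dec_base e i j k hi hj hk]

lemma jl2_sound (e : ℕ → A) (i j k : ℕ) (ops : List Tr) (p n : ℕ) (acc : Acc)
    (K : Acc → Bool) (hi : i < 8) (hj : j < 8) (hk : k < 8) (hops : okL ops)
    (h : jl2 i j k ops p n acc K = true) :
    ∃ acc' : Acc, acc'.sum (dec e) = acc.sum (dec e)
      + ((p : ℤ) - n) • opv e (J (e i) (e j) (e k)) ops ∧ K acc' = true := by
  unfold jl2 at h
  rcases brec_true h with ⟨h1, h2⟩ | ⟨h1, h2⟩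
  · rcases brec_true h2 with ⟨h3, h4⟩ | ⟨h3, h4⟩
    · obtain ⟨a, h5, h6⟩ := jq_sound e k i j ops p n acc K hk hi hj hops h4
      refine ⟨a, ?_, h6⟩
      rw [h5, J_cyc (e k)]
    · rcases brec_true h4 with ⟨h5, h6⟩ | ⟨h5, h6⟩
      · obtain ⟨a, h7, h8⟩ := jq_sound e i k j ops n p acc K hi hk hj hops h6
        refine ⟨a, ?_, h8⟩
        rw [h7, J_swap' (e i) (e j), opv_neg, smul_neg, sub_smul, sub_smul]
        abel
      · have hik : i = k := Nat.eq_of_beq_eq_true h5
        subst hik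
        refine ⟨acc, ?_, h6⟩
        rw [J_self'', opv_zero, smul_zero, add_zero]
  · rcases brec_true h2 with ⟨h3, h4⟩ | ⟨h3, h4⟩
    · exact jq_sound e i j k ops p n acc K hi hj hk hops h4
    · have hjk : j = k := Nat.eq_of_beq_eq_true h3
      subst hjk
      refine ⟨acc, ?_, h4⟩
      rw [J_self', opv_zero, smul_zero, add_zero]

lemma jl_sound (e : ℕ → A) (i j k : ℕ) (ops : List Tr) (p n : ℕ) (acc : Acc)
    (K : Acc → Bool) (hi : i < 8) (hj : j < 8) (hk : k < 8) (hops : okL ops)
    (h : jl i j k ops p n acc K = true) :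
    ∃ acc' : Acc, acc'.sum (dec e) = acc.sum (dec e)
      + ((p : ℤ) - n) • opv e (J (e i) (e j) (e k)) ops ∧ K acc' = true := by
  unfold jl at h
  rcases brec_true h with ⟨h1, h2⟩ | ⟨h1, h2⟩
  · obtain ⟨a, h5, h6⟩ := jl2_sound e j i k ops n p acc K hj hi hk hops h2
    refine ⟨a, ?_, h6⟩
    rw [h5, J_swap (e i) (e j), opv_neg, smul_neg, sub_smul, sub_smul]
    abel
  · rcases brec_true h2 with ⟨h3, h4⟩ | ⟨h3, h4⟩
    · exact jl2_sound e i j k ops p n acc K hi hj hk hops h4
    · have hij : i = j := Nat.eq_of_beq_eq_true h3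
      subst hij
      refine ⟨acc, ?_, h4⟩
      rw [J_self, opv_zero, smul_zero, add_zero]

/-- specification of `JF` functions: they add `s * (p - n) * J(a,b,d)·ops` -/
def JFok (e : ℕ → A) (s : ℕ) (ih : JF) : Prop :=
  ∀ (a b d : Tr) (ops : List Tr) (p n : ℕ) (acc : Acc) (K : Acc → Bool), a.ok → b.ok → d.ok →
    okL ops → ih a b d ops p n acc K = true →
    ∃ acc' : Acc, acc'.sum (dec e) = acc.sum (dec e)
      + (((s : ℤ) * p) - (s : ℤ) * n) • opv e (J (a.ev e) (b.ev e) (d.ev e)) ops ∧ K acc' = true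

lemma J_prod' (w x y z : A) :
    (3 : ℤ) • J (w * x) y z
      = J x y z * w - J y z w * x - (2 : ℤ) • (J z w x * y) + (2 : ℤ) • (J w x y * z) := by
  have h := J_prod w x y z
  have h3 : ∀ a : A, (3 : ℚ) • a = (3 : ℤ) • a := fun a => by
    rw [← Int.cast_smul_eq_zsmul ℚ]; norm_num
  have h2 : ∀ a : A, (2 : ℚ) • a = (2 : ℤ) • a := fun a => by
    rw [← Int.cast_smul_eq_zsmul ℚ]; norm_num
  rw [h3, h2, h2] at h
  exact h

lemma redP_sound (e : ℕ → A) (s : ℕ) (ih : JF) (hih : JFok e s ih) (w x y z : Tr)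
    (ops : List Tr) (p n : ℕ) (acc : Acc)
    (K : Acc → Bool) (hw : w.ok) (hx : x.ok) (hy : y.ok) (hz : z.ok) (hops : okL ops)
    (h : redP ih w x y z ops p n acc K = true) :
    ∃ acc' : Acc, acc'.sum (dec e) = acc.sum (dec e)
      + ((((3 * s : ℕ) : ℤ) * p) - ((3 * s : ℕ) : ℤ) * n) •
        opv e (J (w.ev e * x.ev e) (y.ev e) (z.ev e)) ops ∧ K acc' = true := by
  unfold redP at h
  obtain ⟨a1, h1, h⟩ := hih _ _ _ _ _ _ _ _ hx hy hz (by simp [okL_cons, *]) h
  obtain ⟨a2, h2, h⟩ := hih _ _ _ _ _ _ _ _ hy hz hw (by simp [okL_cons, *]) h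
  obtain ⟨a3, h3, h⟩ := hih _ _ _ _ _ _ _ _ hz hw hx (by simp [okL_cons, *]) h
  obtain ⟨a4, h4, h⟩ := hih _ _ _ _ _ _ _ _ hw hx hy (by simp [okL_cons, *]) h
  refine ⟨a4, ?_, h⟩
  have key : ((((3 * s : ℕ) : ℤ) * p) - ((3 * s : ℕ) : ℤ) * n) •
        opv e (J (w.ev e * x.ev e) (y.ev e) (z.ev e)) ops
      = ((s : ℤ) * p - s * n) • opv e ((3 : ℤ) • J (w.ev e * x.ev e) (y.ev e) (z.ev e)) ops := by
    rw [opv_zsmul, smul_smul]
    congr 1
    push_cast
    ring
  rw [key, J_prod', h4, h3, h2, h1]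
  simp only [opv, opv_sub, opv_add, opv_zsmul, Nat.mul_eq]
  push_cast
  module

lemma red_sound (e : ℕ → A) (s : ℕ) (ih : JF) (hih : JFok e s ih) :
    JFok e (3 * s) (red1 (3 * s) ih) := by
  intro a b d ops p n acc K ha hb hd hops h
  cases a with
  | v i =>
    cases b with
    | v j =>
      cases d with
      | v k =>
        obtain ⟨a, h1, h2⟩ := jl_sound e i j k ops _ _ acc K ha hb hd hops h
        refine ⟨a, ?_, h2⟩
        rw [h1]
        simp only [Tr.ev, Nat.mul_eq]
        push_cast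
        rfl
      | m w x =>
        obtain ⟨a, h1, h2⟩ := redP_sound e s ih hih w x (.v i) (.v j) ops p n acc K hd.1 hd.2 ha hb
          hops h
        refine ⟨a, ?_, h2⟩
        rw [h1]
        simp only [Tr.ev]
        rw [J_cyc (w.ev e * x.ev e)]
    | m w x =>
      obtain ⟨a, h1, h2⟩ := redP_sound e s ih hih w x d (.v i) ops p n acc K hb.1 hb.2 hd ha
        hops h
      refine ⟨a, ?_, h2⟩
      rw [h1]
      simp only [Tr.ev]
      rw [J_cyc (e i)]
  | m w x =>
    obtain ⟨a, h1, h2⟩ := redP_sound e s ih hih w x b d ops p n acc K ha.1 ha.2 hb hd hops h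
    exact ⟨a, h1, h2⟩

lemma redJ_sound (e : ℕ → A) (f : ℕ) : JFok e (3 ^ f) (redJ f) := by
  induction f with
  | zero =>
    intro a b d ops p n acc K ha hb hd hops h
    cases a with
    | v i =>
      cases b with
      | v j =>
        cases d with
        | v k =>
          obtain ⟨a, h1, h2⟩ := jl_sound e i j k ops _ _ acc K ha hb hd hops h
          refine ⟨a, ?_, h2⟩
          rw [h1]
          simp only [Tr.ev, Nat.mul_eq]
          push_cast
          simp
        | m w x =>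
          exfalso
          change redP (fun _ _ _ _ _ _ _ _ => false) w x (.v i) (.v j) ops p n acc K = true at h
          cases h
      | m w x =>
        exfalso
        change redP (fun _ _ _ _ _ _ _ _ => false) w x d (.v i) ops p n acc K = true at h
        cases h
    | m w x =>
      exfalso
      change redP (fun _ _ _ _ _ _ _ _ => false) w x b d ops p n acc K = true at h
      cases h
  | succ f ih =>
    have h := red_sound e (3 ^ f) (redJ f) ih
    rw [pow_succ, mul_comm]
    have hh : redJ (f + 1) = red1 (3 * 3 ^ f) (redJ f) := by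
      show red1 (Nat.pow 3 (Nat.succ f)) (redJ f) = _
      have : Nat.pow 3 (Nat.succ f) = 3 * 3 ^ f := by
        show 3 ^ (f + 1) = _
        rw [pow_succ, mul_comm]
      rw [this]
    rw [hh]
    exact h

end

end Pool.Agent.H1.Mal
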