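import Pool.Agent.H1.Mal.NRel3

/-!
# The Jacobian ideal is generated by the special elements
-/

set_option autoImplicit false
set_option linter.unusedSectionVars false
set_option linter.unusedSimpArgs false
set_option linter.unusedVariables false

namespace Pool.Agent.H1.Mal

open MvPolynomial

def G5 : Set Nn := {n | (∃ x y z, n = Jn x y z) ∨ (∃ x y z w, n = gn x y z w) ∨
  (∃ x y z v w, n = hn x y z v w) ∨ (∃ x y z v w u, n = Bn x y z v w u) ∨
  (∃ x y z u v w m, n = Cn x y z u v w m)}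

/-- the span of the special elements -/
noncomputable def Sp : Submodule S4 Nn := Submodule.span S4 G5

lemma J_sp (x y z : Fin 4) : Jn x y z ∈ Sp := Submodule.subset_span (Or.inl ⟨x, y, z, rfl⟩)
lemma g_sp (x y z w : Fin 4) : gn x y z w ∈ Sp :=
  Submodule.subset_span (Or.inr (Or.inl ⟨x, y, z, w, rfl⟩))
lemma h_sp (x y z v w : Fin 4) : hn x y z v w ∈ Sp :=
  Submodule.subset_span (Or.inr (Or.inr (Or.inl ⟨x, y, z, v, w, rfl⟩)))
lemma B_sp (x y z v w u : Fin 4) : Bn x y z v w u ∈ Sp :=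
  Submodule.subset_span (Or.inr (Or.inr (Or.inr (Or.inl ⟨x, y, z, v, w, u, rfl⟩))))
lemma C_sp (x y z u v w m : Fin 4) : Cn x y z u v w m ∈ Sp :=
  Submodule.subset_span (Or.inr (Or.inr (Or.inr (Or.inr ⟨x, y, z, u, v, w, m, rfl⟩))))

lemma Nf_le : Nf ≤ Sp := by
  unfold Nf
  rw [Submodule.span_le]
  rintro x (⟨k, rfl⟩ | ⟨k, rfl⟩)
  · exact B_sp _ _ _ _ _ _
  · exact C_sp _ _ _ _ _ _ _

lemma SJ_le : SJ ≤ Sp := by
  unfold SJ
  rw [Submodule.span_le]
  rintro x ⟨k, rfl⟩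
  exact J_sp _ _ _

/-! ### letters -/

lemma rl_Jn (x y z w : Fin 4) : rl w (Jn x y z)
    = (1/3 : ℚ) • (gn y z w x - gn z w x y + gn w x y z) := by
  unfold gn
  simp only [
    Jn_bca x y z, Jn_cab x y z, Jn_bac x y z, Jn_acb x y z, Jn_cba x y z,
    Jn_bca x y w, Jn_cab x y w, Jn_bac x y w, Jn_acb x y w, Jn_cba x y w,
    Jn_bca x z w, Jn_cab x z w, Jn_bac x z w, Jn_acb x z w, Jn_cba x z w,
    Jn_bca y z w, Jn_cab y z w, Jn_bac y z w, Jn_acb y z w, Jn_cba y z w, map_neg, smul_neg]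
  module

lemma rl_gn (x y z v w : Fin 4) : rl w (gn x y z v) = hn x y z v w
    - (3 : ℚ) • (qx x v • Jn y z w + qx y v • Jn z x w + qx z v • Jn x y w) := by
  unfold hn; abel

lemma rl_hn (x y z v w u : Fin 4) : rl u (hn x y z v w) = Bn x y z v w u
    + (3 : ℚ) • top3R x y z (Jn v w u) + qx v u • gn x y z w - qx w u • gn x y z v := by
  unfold Bn; abel

lemma rl_Bn (x y z u v w s : Fin 4) : rl s (Bn x y z v w u) = Cn x y z u v w s
    - (3 : ℚ) • (mn x y v w • Jn z u s + mn y z v w • Jn x u s + mn z x v w • Jn y u s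
      + mn x u v w • Jn y z s + mn y u v w • Jn z x s + mn z u v w • Jn x y s) := by
  unfold Cn; abel

theorem rl_Sp (u : Fin 4) {n : Nn} (h : n ∈ Sp) : rl u n ∈ Sp := by
  unfold Sp at h
  induction h using Submodule.span_induction with
  | mem x hx =>
    rcases hx with ⟨x, y, z, rfl⟩ | ⟨x, y, z, w, rfl⟩ | ⟨x, y, z, v, w, rfl⟩ |
      ⟨x, y, z, v, w, m, rfl⟩ | ⟨x, y, z, m, v, w, k, rfl⟩
    · rw [rl_Jn]
      exact smulQ_mem (Submodule.add_mem _ (Submodule.sub_mem _ (g_sp _ _ _ _) (g_sp _ _ _ _))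
        (g_sp _ _ _ _)) _
    · rw [rl_gn]
      exact Submodule.sub_mem _ (h_sp _ _ _ _ _) (smulQ_mem (Submodule.add_mem _
        (Submodule.add_mem _ (smulR_mem (J_sp _ _ _) _) (smulR_mem (J_sp _ _ _) _))
        (smulR_mem (J_sp _ _ _) _)) _)
    · rw [rl_hn]
      exact Submodule.sub_mem _ (Submodule.add_mem _ (Submodule.add_mem _ (B_sp _ _ _ _ _ _)
        (smulQ_mem (top3R_mem (J_sp _ _ _) _ _ _) _)) (smulR_mem (g_sp _ _ _ _) _))
        (smulR_mem (g_sp _ _ _ _) _)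
    · exact sup_le Nf_le SJ_le (rl_Bn_mem _ _ _ _ _ _ _)
    · exact Nf_le (rl_Cn_mem _ _ _ _ _ _ _ _)
  | zero => rw [map_zero]; exact Submodule.zero_mem _
  | add x y _ _ hx hy => rw [map_add]; exact Submodule.add_mem _ hx hy
  | smul c x _ hx => rw [map_smul]; exact Submodule.smul_mem _ _ hx

/-! ### pairs of letters -/

/-- right multiplication by a product of two letters -/
noncomputable def rp (a b : Fin 4) : Nn →ₗ[S4] Nn := rm (gen a * gen b)

lemma inN_rp (a b : Fin 4) (n : Nn) : inN (rp a b n) = inN n * (gen a * gen b) := rfl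

lemma rp_swap (a b : Fin 4) (n : Nn) : rp a b n = -rp b a n := by
  apply inN_inj
  rw [map_neg, inN_rp, inN_rp, anti (gen a) (gen b), mul_neg]

lemma rp_self (a : Fin 4) (n : Nn) : rp a a n = 0 := nn_self_neg (rp_swap a a n)

lemma rp_smulR (a b : Fin 4) (r : R0) (n : Nn) : rp a b (r • n) = r • rp a b n := by
  rw [← smulS_C, ← smulS_C, map_smul]

lemma rp_smulQ (a b : Fin 4) (r : ℚ) (n : Nn) : rp a b (r • n) = r • rp a b n := by
  rw [smulQ_eq, smulQ_eq, map_smul]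

lemma rp_top3R (a b x y z : Fin 4) (n : Nn) : rp a b (top3R x y z n) = top3R x y z (rp a b n) := by
  obtain ⟨s, hs⟩ := exists_tau x y z
  rw [hs, hs, map_smul]

lemma G2_eq (t s : Fin 4) {n : M4} (hn : n ∈ NN M4) (w : M4) :
    G2 (gen t) (gen s) n w = Qc (gen t) (gen s) n * w := by
  induction hn using Submodule.span_induction with
  | mem x hx =>
    obtain ⟨x, y, z, rfl⟩ := hx
    rw [(isQ_gen t s).J]
    have := kk_gen t (gen s) w x y z
    unfold kk at this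
    exact (sub_eq_zero.1 this).symm
  | zero =>
    have := G2_smul_n 0 (gen t : M4) (gen s) 0 w
    rw [map_zero, zero_mul]
    simpa using this
  | add p q _ _ hp hq => rw [map_add, add_mul, G2_add_n, hp, hq]
  | smul c p _ hp => rw [map_smul, smul_mul_assoc, G2_smul_n, hp]

lemma pair_id (t w s : Fin 4) (n : Nn) :
    rp w s (rl t n) + rp w t (rl s n) = (3 : ℚ) • (qx t s • rl w n)
      + (1/2 : ℚ) • (rl w (rl s (rl t n)) + rl w (rl t (rl s n)) - rl s (rl w (rl t n))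
      - rl t (rl w (rl s n))) + (3/2 : ℚ) • (rl s (rl t (rl w n)) + rl t (rl s (rl w n))) := by
  apply inN_inj
  simp only [map_add, map_sub, map_smul, inN_rl, inN_rp, inN_qx]
  have h := G2_eq t s (inN_mem n) (gen w)
  have hl := (isQ_gen t s).lin _ (inN_mem n) (gen w)
  rw [hl, ← h]
  unfold G2
  rw [op_prod (inN n) (gen w) (gen t) (gen s), op_prod (inN n) (gen w) (gen s) (gen t),
    anti (gen s : M4) (gen t), mul_neg, neg_mul]
  module

/-- `(nt)(ws) ∈ Sp` -/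
def PQ (n : Nn) (t w s : Fin 4) : Prop := rp w s (rl t n) ∈ Sp

lemma pair_mem {n : Nn} (hn : n ∈ Sp) (t w s : Fin 4) :
    rp w s (rl t n) + rp w t (rl s n) ∈ Sp := by
  rw [pair_id]
  have h1 := fun a => rl_Sp a hn
  have h2 := fun a b => rl_Sp a (h1 b)
  have h3 := fun a b c => rl_Sp a (h2 b c)
  exact Submodule.add_mem _ (Submodule.add_mem _ (smulQ_mem (smulR_mem (h1 _) _) _)
    (smulQ_mem (Submodule.sub_mem _ (Submodule.sub_mem _ (Submodule.add_mem _ (h3 _ _ _)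
      (h3 _ _ _)) (h3 _ _ _)) (h3 _ _ _)) _)) (smulQ_mem (Submodule.add_mem _ (h3 _ _ _)
      (h3 _ _ _)) _)

lemma PQ_s13 {n : Nn} (hn : n ∈ Sp) {t w s : Fin 4} (h : PQ n t w s) : PQ n s w t := by
  have := Submodule.sub_mem _ (pair_mem hn t w s) h
  rw [add_sub_cancel_left] at this
  exact this

lemma PQ_s23 {n : Nn} {t w s : Fin 4} (h : PQ n t w s) : PQ n t s w := by
  unfold PQ at *
  rw [rp_swap]; exact Submodule.neg_mem _ h

lemma PQ_s12 {n : Nn} (hn : n ∈ Sp) {t w s : Fin 4} (h : PQ n t w s) : PQ n w t s :=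
  PQ_s23 (PQ_s13 hn (PQ_s23 h))

lemma PQ_t {n : Nn} (hn : n ∈ Sp) (t w : Fin 4) : PQ n t w t := by
  have := pair_mem hn t w t
  have h2 := smulQ_mem this (1/2 : ℚ)
  have h3 : (1/2 : ℚ) • (rp w t (rl t n) + rp w t (rl t n)) = rp w t (rl t n) := by module
  rw [h3] at h2
  exact h2

lemma PQ_heq {n : Nn} (hn : n ∈ Sp) (t w : Fin 4) : PQ n t t w := PQ_s23 (PQ_t hn t w)

/-- all pairs at once -/
def PP (n : Nn) : Prop := ∀ a b, rp a b n ∈ Sp

lemma PP_add {m n : Nn} (hm : PP m) (hn : PP n) : PP (m + n) := fun a b => by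
  rw [map_add]; exact Submodule.add_mem _ (hm a b) (hn a b)
lemma PP_neg {n : Nn} (hn : PP n) : PP (-n) := fun a b => by
  rw [map_neg]; exact Submodule.neg_mem _ (hn a b)
lemma PP_sub {m n : Nn} (hm : PP m) (hn : PP n) : PP (m - n) := fun a b => by
  rw [map_sub]; exact Submodule.sub_mem _ (hm a b) (hn a b)
lemma PP_zero : PP 0 := fun a b => by rw [map_zero]; exact Submodule.zero_mem _
lemma PP_smulR {n : Nn} (hn : PP n) (r : R0) : PP (r • n) := fun a b => by
  rw [rp_smulR]; exact smulR_mem (hn a b) r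
lemma PP_smulQ {n : Nn} (hn : PP n) (r : ℚ) : PP (r • n) := fun a b => by
  rw [rp_smulQ]; exact smulQ_mem (hn a b) r
lemma PP_top3R {n : Nn} (hn : PP n) (x y z : Fin 4) : PP (top3R x y z n) := fun a b => by
  rw [rp_top3R]; exact top3R_mem (hn a b) x y z
lemma PP_smul {n : Nn} (hn : PP n) (s : S4) : PP (s • n) := fun a b => by
  rw [map_smul]; exact Submodule.smul_mem _ _ (hn a b)

/-- step 1 -/
lemma P2n (a b c d : Fin 4) : rp a d (Jn a b c) ∈ Sp := by
  have h : (3 : ℚ) • rp a d (Jn a b c) = -((3 : ℚ) • (qx a a • Jn b c d)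
    + (-((3 : ℚ) • (qx a b • Jn a c d)) + ((3 : ℚ) • (qx a c • Jn a b d)
    + (-((3 : ℚ) • (qx a d • Jn a b c)) + (-((2 : ℚ) • hn a c d a b)
    + ((2 : ℚ) • hn a b d a c + -hn a b c a d)))))) := by
    rw [eq_neg_iff_add_eq_zero]
    apply inN_inj
    simp only [map_add, map_neg, map_smul, inN_rp, inN_Jn, inN_hn, inN_qx, map_zero]
    exact P2_id (allQ4 a b c d)
  have h2 : rp a d (Jn a b c) = (1/3 : ℚ) • ((3 : ℚ) • rp a d (Jn a b c)) := by module
  rw [h2, h]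
  have hJ : ∀ (r : R0) (a b c : Fin 4), (3 : ℚ) • (r • Jn a b c) ∈ Sp :=
    fun r a b c => smulQ_mem (smulR_mem (J_sp _ _ _) r) _
  exact smulQ_mem (Submodule.neg_mem _ (Submodule.add_mem _ (hJ _ _ _ _) (Submodule.add_mem _
    (Submodule.neg_mem _ (hJ _ _ _ _)) (Submodule.add_mem _ (hJ _ _ _ _) (Submodule.add_mem _
    (Submodule.neg_mem _ (hJ _ _ _ _)) (Submodule.add_mem _ (Submodule.neg_mem _
    (smulQ_mem (h_sp _ _ _ _ _) _)) (Submodule.add_mem _ (smulQ_mem (h_sp _ _ _ _ _) _)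
    (Submodule.neg_mem _ (h_sp _ _ _ _ _))))))))) _

theorem PP_J (x y z : Fin 4) : PP (Jn x y z) := by
  intro a b
  have hl : ∀ a b : Fin 4, (a = x ∨ a = y ∨ a = z) → rp a b (Jn x y z) ∈ Sp := by
    rintro a b (rfl | rfl | rfl)
    · exact P2n _ _ _ _
    · rw [Jn_cyc]; exact P2n _ _ _ _
    · rw [Jn_cyc, Jn_cyc]; exact P2n _ _ _ _
  by_cases ha : a = x ∨ a = y ∨ a = z
  · exact hl a b ha
  by_cases hb : b = x ∨ b = y ∨ b = z
  · rw [rp_swap]; exact Submodule.neg_mem _ (hl b a hb)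
  by_cases hab : a = b
  · subst hab; rw [rp_self]; exact Submodule.zero_mem _
  have : x = y ∨ x = z ∨ y = z := by
    clear hl; revert x y z a b; decide
  rcases this with rfl | rfl | rfl
  · rw [Jn_self, map_zero]; exact Submodule.zero_mem _
  · rw [Jn_self'', map_zero]; exact Submodule.zero_mem _
  · rw [Jn_self', map_zero]; exact Submodule.zero_mem _

lemma out_unique (x y z t w : Fin 4) (h1 : x ≠ y) (h2 : x ≠ z) (h3 : y ≠ z)
    (ht : ¬(t = x ∨ t = y ∨ t = z)) (hw : ¬(w = x ∨ w = y ∨ w = z)) : t = w := by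
  revert x y z t w; decide

lemma dist_perm (x y z d : Fin 4) (h : Dist4 x y z d) : Dist4 x d y z := by
  revert x y z d; decide

/-- step 2 -/
lemma P4n (a b c d : Fin 4) : PQ (Jn a b c) a b d := by
  have h : rp b d (gn a b c a) = -((3 : ℚ) • top3R a b c (Jn a b d)
    + (-(qx a b • gn b c d a) + ((2 : ℚ) • (qx a a • gn b c d b) + (-(qx a b • gn a c d b)
    + ((2 : ℚ) • (qx a c • gn a b d b) + (-(qx a b • gn a b d c) + (-(qx a d • gn a b c b)
    + -Bn a b c a b d))))))) := by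
    rw [eq_neg_iff_add_eq_zero]
    apply inN_inj
    simp only [map_add, map_neg, map_smul, inN_rp, inN_Jn, inN_gn, inN_Bn, inN_qx, map_zero,
      inN_top3R]
    exact P4_id (allQ4 a b c d)
  have h2 : gn a b c a = (3 : ℚ) • rl a (Jn a b c) := by
    unfold gn
    rw [Jn_self', Jn_self, ← Jn_cyc a b c, map_zero, map_zero]; module
  have h3 : rp b d (rl a (Jn a b c)) = (1/3 : ℚ) • rp b d (gn a b c a) := by
    rw [h2, rp_smulQ]; module
  unfold PQ
  rw [h3, h]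
  have hg : ∀ (r : R0) (a b c d : Fin 4), r • gn a b c d ∈ Sp :=
    fun r a b c d => smulR_mem (g_sp _ _ _ _) r
  exact smulQ_mem (Submodule.neg_mem _ (Submodule.add_mem _ (smulQ_mem (top3R_mem (J_sp _ _ _)
    _ _ _) _) (Submodule.add_mem _ (Submodule.neg_mem _ (hg _ _ _ _ _)) (Submodule.add_mem _
    (smulQ_mem (hg _ _ _ _ _) _) (Submodule.add_mem _ (Submodule.neg_mem _ (hg _ _ _ _ _))
    (Submodule.add_mem _ (smulQ_mem (hg _ _ _ _ _) _) (Submodule.add_mem _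
    (Submodule.neg_mem _ (hg _ _ _ _ _)) (Submodule.add_mem _ (Submodule.neg_mem _
    (hg _ _ _ _ _)) (Submodule.neg_mem _ (B_sp _ _ _ _ _ _)))))))))) _

theorem PQ_J (x y z t w s : Fin 4) : PQ (Jn x y z) t w s := by
  have hz : ∀ {n : Nn}, n = 0 → PQ n t w s := by
    rintro n rfl
    unfold PQ
    rw [map_zero, map_zero]; exact Submodule.zero_mem _
  by_cases e1 : x = y
  · subst e1; exact hz (Jn_self _ _)
  by_cases e2 : x = z
  · subst e2; exact hz (Jn_self'' _ _)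
  by_cases e3 : y = z
  · subst e3; exact hz (Jn_self' _ _)
  clear hz
  have hJ := J_sp x y z
  have h1 : ∀ d, PQ (Jn x y z) x y d := fun d => P4n _ _ _ _
  have h2 : ∀ d, PQ (Jn x y z) y z d := fun d => by rw [Jn_cyc]; exact P4n _ _ _ _
  have h3 : ∀ d, PQ (Jn x y z) z x d := fun d => by rw [Jn_cyc, Jn_cyc]; exact P4n _ _ _ _
  have hp : ∀ t w d : Fin 4, (t = x ∨ t = y ∨ t = z) → (w = x ∨ w = y ∨ w = z) →
      PQ (Jn x y z) t w d := by
    rintro t w d (rfl | rfl | rfl) (rfl | rfl | rfl)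
    · exact PQ_heq hJ _ _
    · exact h1 d
    · exact PQ_s12 hJ (h3 d)
    · exact PQ_s12 hJ (h1 d)
    · exact PQ_heq hJ _ _
    · exact h2 d
    · exact h3 d
    · exact PQ_s12 hJ (h2 d)
    · exact PQ_heq hJ _ _
  by_cases f1 : t = w
  · subst f1; exact PQ_heq hJ _ _
  by_cases f2 : t = s
  · subst f2; exact PQ_t hJ _ _
  by_cases f3 : w = s
  · subst f3; unfold PQ; rw [rp_self]; exact Submodule.zero_mem _
  have hd : ((t = x ∨ t = y ∨ t = z) ∧ (w = x ∨ w = y ∨ w = z)) ∨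
      ((t = x ∨ t = y ∨ t = z) ∧ (s = x ∨ s = y ∨ s = z)) ∨
      ((w = x ∨ w = y ∨ w = z) ∧ (s = x ∨ s = y ∨ s = z)) := by
    by_cases ht : t = x ∨ t = y ∨ t = z
    · by_cases hw : w = x ∨ w = y ∨ w = z
      · exact Or.inl ⟨ht, hw⟩
      · by_cases hs : s = x ∨ s = y ∨ s = z
        · exact Or.inr (Or.inl ⟨ht, hs⟩)
        · exact absurd (out_unique x y z w s e1 e2 e3 hw hs) f3
    · by_cases hw : w = x ∨ w = y ∨ w = z
      · by_cases hs : s = x ∨ s = y ∨ s = z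
        · exact Or.inr (Or.inr ⟨hw, hs⟩)
        · exact absurd (out_unique x y z t s e1 e2 e3 ht hs) f2
      · exact absurd (out_unique x y z t w e1 e2 e3 ht hw) f1
  rcases hd with ⟨ha, hb⟩ | ⟨ha, hb⟩ | ⟨ha, hb⟩
  · exact hp _ _ _ ha hb
  · exact PQ_s23 (hp _ _ _ ha hb)
  · exact PQ_s12 hJ (PQ_s23 (hp _ _ _ ha hb))

/-- step 3 -/
theorem PP_g (x y z w : Fin 4) : PP (gn x y z w) := by
  unfold gn
  have h : ∀ x y z w, PP (rl w (Jn x y z)) := fun x y z w a b => PQ_J x y z w a b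
  exact PP_add (PP_sub (PP_add (PP_smulQ (h _ _ _ _) _) (h _ _ _ _)) (h _ _ _ _)) (h _ _ _ _)

/-- step 4 -/
lemma P5n (a b c d : Fin 4) : rp b c (hn a b c a d) ∈ Sp := by
  have h : rp b c (hn a b c a d) = -(-((3 : ℚ) • (qx c d • (qx a b • Jn a b c)))
    + ((3 : ℚ) • (qx b d • (qx a c • Jn a b c)) + (top3R a b c (gn b c d a)
    + (top3R a c d (gn a b c b) + (-top3R a b d (gn a b c c) + (-top3R a b c (gn a b c d)
    + (qx b c • hn a c d a b + (-(qx b b • hn a c d a c) + (qx a b • hn a c d b c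
    + (-(qx c c • hn a b d a b) + (qx b c • hn a b d a c + (-(qx a c • hn a b d b c)
    + (2 : ℚ) • Cn a b c d a b c)))))))))))) := by
    rw [eq_neg_iff_add_eq_zero]
    apply inN_inj
    simp only [map_add, map_neg, map_smul, inN_rp, inN_Jn, inN_gn, inN_hn, inN_Cn, inN_qx,
      map_zero, inN_top3R]
    exact P5_id (allQ4 a b c d)
  rw [h]
  have hh : ∀ (r : R0) (a b c d e : Fin 4), r • hn a b c d e ∈ Sp :=
    fun r a b c d e => smulR_mem (h_sp _ _ _ _ _) r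
  have ht : ∀ (x y z a b c d : Fin 4), top3R x y z (gn a b c d) ∈ Sp :=
    fun x y z a b c d => top3R_mem (g_sp _ _ _ _) _ _ _
  have hJ : ∀ (r s : R0) (a b c : Fin 4), (3 : ℚ) • (r • (s • Jn a b c)) ∈ Sp :=
    fun r s a b c => smulQ_mem (smulR_mem (smulR_mem (J_sp _ _ _) s) r) _
  have ng : ∀ {n : Nn}, n ∈ Sp → -n ∈ Sp := fun h => Submodule.neg_mem _ h
  have ad : ∀ {n m : Nn}, n ∈ Sp → m ∈ Sp → n + m ∈ Sp := fun h h' => Submodule.add_mem _ h h'
  exact ng (ad (ng (hJ _ _ _ _ _)) (ad (hJ _ _ _ _ _) (ad (ht _ _ _ _ _ _ _)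
    (ad (ht _ _ _ _ _ _ _) (ad (ng (ht _ _ _ _ _ _ _)) (ad (ng (ht _ _ _ _ _ _ _))
    (ad (hh _ _ _ _ _ _) (ad (ng (hh _ _ _ _ _ _)) (ad (hh _ _ _ _ _ _)
    (ad (ng (hh _ _ _ _ _ _)) (ad (hh _ _ _ _ _ _) (ad (ng (hh _ _ _ _ _ _))
    (smulQ_mem (C_sp _ _ _ _ _ _ _) _)))))))))))))

theorem PP_h (x y z v w : Fin 4) : PP (hn x y z v w) := by
  intro u s
  have hz : ∀ {n : Nn}, n = 0 → rp u s n ∈ Sp := by
    rintro n rfl
    rw [map_zero]; exact Submodule.zero_mem _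
  by_cases e1 : x = y
  · subst e1; exact hz (hn_self _ _ _ _)
  by_cases e3 : y = z
  · subst e3; exact hz (hn_self' _ _ _ _)
  by_cases e2 : x = z
  · subst e2; exact hz (by rw [hn_s12, hn_self', neg_zero])
  clear hz
  obtain ⟨d, hd⟩ := ex_dist3 x y z e1 e2 e3
  have hJ : ∀ v w, PP ((3 : ℚ) • (qx x v • Jn y z w + qx y v • Jn z x w + qx z v • Jn x y w)) :=
    fun v w => PP_smulQ (PP_add (PP_add (PP_smulR (PP_J _ _ _) _) (PP_smulR (PP_J _ _ _) _))
      (PP_smulR (PP_J _ _ _) _)) _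
  -- equivalence with PQ
  have e12 : ∀ {v w u s : Fin 4}, rp u s (hn x y z v w) ∈ Sp → PQ (gn x y z v) w u s := by
    intro v w u s h
    unfold PQ
    rw [rl_gn, map_sub]
    exact Submodule.sub_mem _ h (hJ _ _ _ _)
  have e21 : ∀ {v w u s : Fin 4}, PQ (gn x y z v) w u s → rp u s (hn x y z v w) ∈ Sp := by
    intro v w u s h
    have h1 : hn x y z v w = rl w (gn x y z v)
      + (3 : ℚ) • (qx x v • Jn y z w + qx y v • Jn z x w + qx z v • Jn x y w) := rfl
    rw [h1, map_add]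
    exact Submodule.add_mem _ h (hJ _ _ _ _)
  refine alt4_all (P := fun v w u s => rp u s (hn x y z v w) ∈ Sp) ?_ ?_ ?_ ?_
    (a := x) (b := d) (c := y) (d := z) (dist_perm _ _ _ _ hd) (P5n x y z d) v w u s
  · intro v w u s h
    rw [hn_vw, map_neg]; exact Submodule.neg_mem _ h
  · intro v w u s h
    exact e21 (PQ_s12 (g_sp _ _ _ _) (e12 h))
  · intro v w u s h
    rw [rp_swap]; exact Submodule.neg_mem _ h
  · intro v u s
    rw [hn_vv, map_zero]; exact Submodule.zero_mem _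

/-- step 5 -/
theorem PQ_h (x y z v v' t w s : Fin 4) : PQ (hn x y z v v') t w s := by
  have hz : ∀ {n : Nn}, n = 0 → PQ n t w s := by
    rintro n rfl
    unfold PQ
    rw [map_zero, map_zero]; exact Submodule.zero_mem _
  by_cases e1 : x = y
  · subst e1; exact hz (hn_self _ _ _ _)
  by_cases e3 : y = z
  · subst e3; exact hz (hn_self' _ _ _ _)
  by_cases e2 : x = z
  · subst e2; exact hz (by rw [hn_s12, hn_self', neg_zero])
  clear hz
  have hh := h_sp x y z v v'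
  have hp : ∀ t w s : Fin 4, (t = x ∨ t = y ∨ t = z) → PQ (hn x y z v v') t w s := by
    intro t w s ht
    have hB : Bn x y z v v' t = 0 := by
      rcases ht with rfl | rfl | rfl
      · exact Bn_x _ _ _ _ _
      · exact Bn_y _ _ _ _ _
      · exact Bn_z _ _ _ _ _
    unfold PQ
    rw [rl_hn, hB, zero_add]
    exact (PP_sub (PP_add (PP_smulQ (PP_top3R (PP_J _ _ _) _ _ _) _) (PP_smulR (PP_g _ _ _ _) _))
      (PP_smulR (PP_g _ _ _ _) _)) w s
  by_cases f1 : t = w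
  · subst f1; exact PQ_heq hh _ _
  by_cases f2 : t = s
  · subst f2; exact PQ_t hh _ _
  have hd : (t = x ∨ t = y ∨ t = z) ∨ (w = x ∨ w = y ∨ w = z) := by
    by_cases ht : t = x ∨ t = y ∨ t = z
    · exact Or.inl ht
    · by_cases hw : w = x ∨ w = y ∨ w = z
      · exact Or.inr hw
      · exact absurd (out_unique x y z t w e1 e2 e3 ht hw) f1
  rcases hd with ha | ha
  · exact hp _ _ _ ha
  · exact PQ_s12 hh (hp _ _ _ ha)

theorem PP_B (x y z v w u : Fin 4) : PP (Bn x y z v w u) := by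
  unfold Bn
  have h : PP (rl u (hn x y z v w)) := fun a b => PQ_h x y z v w u a b
  exact PP_add (PP_sub (PP_sub h (PP_smulQ (PP_top3R (PP_J _ _ _) _ _ _) _))
    (PP_smulR (PP_g _ _ _ _) _)) (PP_smulR (PP_g _ _ _ _) _)

/-- step 6 -/
theorem PQ_B (x y z v w u t a b : Fin 4) : PQ (Bn x y z v w u) t a b := by
  have hz : ∀ {n : Nn}, n = 0 → PQ n t a b := by
    rintro n rfl
    unfold PQ
    rw [map_zero, map_zero]; exact Submodule.zero_mem _
  by_cases e1 : v = w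
  · subst e1; exact hz (Bn_vv _ _ _ _ _)
  clear hz
  have hB := B_sp x y z v w u
  have hp : ∀ t a b : Fin 4, (t = v ∨ t = w) → PQ (Bn x y z v w u) t a b := by
    intro t a b ht
    have hC : Cn x y z u v w t = 0 := by
      rcases ht with rfl | rfl
      · rw [Cn_vw, Cn_ww, neg_zero]
      · exact Cn_ww _ _ _ _ _ _
    unfold PQ
    rw [rl_Bn, hC, zero_sub]
    exact (PP_neg (PP_smulQ (PP_add (PP_add (PP_add (PP_add (PP_add (PP_smulR (PP_J _ _ _) _)
      (PP_smulR (PP_J _ _ _) _)) (PP_smulR (PP_J _ _ _) _)) (PP_smulR (PP_J _ _ _) _))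
      (PP_smulR (PP_J _ _ _) _)) (PP_smulR (PP_J _ _ _) _)) _)) a b
  by_cases f1 : t = a
  · subst f1; exact PQ_heq hB _ _
  by_cases f2 : t = b
  · subst f2; exact PQ_t hB _ _
  by_cases f3 : a = b
  · subst f3; unfold PQ; rw [rp_self]; exact Submodule.zero_mem _
  have hd : (t = v ∨ t = w) ∨ (a = v ∨ a = w) ∨ (b = v ∨ b = w) := by
    clear hp hB; revert v w t a b; decide
  rcases hd with ha | ha | ha
  · exact hp _ _ _ ha
  · exact PQ_s12 hB (hp _ _ _ ha)
  · exact PQ_s13 hB (hp _ _ _ ha)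

theorem PP_C (x y z u v w m : Fin 4) : PP (Cn x y z u v w m) := by
  unfold Cn
  have h : PP (rl m (Bn x y z v w u)) := fun a b => PQ_B x y z v w u m a b
  exact PP_add h (PP_smulQ (PP_add (PP_add (PP_add (PP_add (PP_add (PP_smulR (PP_J _ _ _) _)
      (PP_smulR (PP_J _ _ _) _)) (PP_smulR (PP_J _ _ _) _)) (PP_smulR (PP_J _ _ _) _))
      (PP_smulR (PP_J _ _ _) _)) (PP_smulR (PP_J _ _ _) _)) _)

theorem rp_Sp (a b : Fin 4) {n : Nn} (h : n ∈ Sp) : rp a b n ∈ Sp := by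
  unfold Sp at h
  induction h using Submodule.span_induction with
  | mem x hx =>
    rcases hx with ⟨x, y, z, rfl⟩ | ⟨x, y, z, w, rfl⟩ | ⟨x, y, z, v, w, rfl⟩ |
      ⟨x, y, z, v, w, m, rfl⟩ | ⟨x, y, z, m, v, w, k, rfl⟩
    · exact PP_J _ _ _ a b
    · exact PP_g _ _ _ _ a b
    · exact PP_h _ _ _ _ _ a b
    · exact PP_B _ _ _ _ _ _ a b
    · exact PP_C _ _ _ _ _ _ _ a b
  | zero => rw [map_zero]; exact Submodule.zero_mem _
  | add x y _ _ hx hy => rw [map_add]; exact Submodule.add_mem _ hx hy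
  | smul c x _ hx => rw [map_smul]; exact Submodule.smul_mem _ _ hx

end Pool.Agent.H1.Mal
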