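import Pool.Agent.H1.Mal.NRel3

/-!
# Evaluation in the cross product algebra
-/

set_option autoImplicit false
set_option linter.unusedSectionVars false
set_option linter.unusedSimpArgs false
set_option linter.unusedVariables false

namespace Pool.Agent.H1.Mal

open MvPolynomial

abbrev Pt : Type := Fin 4 → O7 ℂ

/-- evaluation at a point -/
noncomputable def ev (p : Pt) : M4 →ₙₐ[ℚ] O7 ℂ := lift p

lemma ev_gen (p : Pt) (i : Fin 4) : ev p (gen i) = p i := lift_gen _ _

/-- values of the `q_{ij}` -/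
noncomputable def qval (p : Pt) (s : Sym2 (Fin 4)) : ℂ :=
  Sym2.lift ⟨fun i j => dot (p i) (p j), fun i j => dot_comm _ _⟩ s

/-- values of the `τ_l` -/
noncomputable def tval (p : Pt) (l : Fin 4) : ℂ := dot (p (tr l).1 * p (tr l).2.1) (p (tr l).2.2)

noncomputable def evR (p : Pt) : R0 →+* ℂ := eval₂Hom (algebraMap ℚ ℂ) (qval p)
noncomputable def evS (p : Pt) : S4 →+* ℂ := eval₂Hom (evR p) (tval p)

lemma evR_qx (p : Pt) (i j : Fin 4) : evR p (qx i j) = dot (p i) (p j) := by
  unfold evR qx; rw [eval₂Hom_X']; rfl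
lemma evR_C (p : Pt) (c : ℚ) : evR p (C c) = (c : ℂ) := by
  unfold evR; rw [eval₂Hom_C]; rfl
lemma evS_C (p : Pt) (r : R0) : evS p (C r) = evR p r := by unfold evS; rw [eval₂Hom_C]
lemma evS_X (p : Pt) (l : Fin 4) : evS p (X l) = tval p l := by unfold evS; rw [eval₂Hom_X']

section mapE

variable {A B : Type} [NonUnitalNonAssocRing A] [NonUnitalNonAssocRing B]
    [Module ℚ A] [Module ℚ B]

lemma map_e3 (f : A →ₙₐ[ℚ] B) (t u x y z : A) :
    f (e3 t u x y z) = e3 (f t) (f u) (f x) (f y) (f z) := by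
  unfold e3
  simp only [map_add, map_smul, map_mul, map_J]

lemma map_E2 (f : A →ₙₐ[ℚ] B) (t u x y z : A) :
    f (E2 t u x y z) = E2 (f t) (f u) (f x) (f y) (f z) := by
  unfold E2
  simp only [map_add, map_smul, map_mul, map_J, map_e3]

lemma map_gg (f : A →ₙₐ[ℚ] B) (x y z w : A) :
    f (gg x y z w) = gg (f x) (f y) (f z) (f w) := by
  unfold gg
  simp only [map_add, map_sub, map_smul, map_mul, map_J]

end mapE

lemma smulQC (c : ℚ) (v : O7 ℂ) : c • v = (c : ℂ) • v := by
  rw [← algebraMap_smul ℂ c v]; rfl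

lemma ev_Q {t u : M4} {φ : M4 →ₗ[ℚ] M4} (h : IsQ t u φ) (p : Pt) {n : M4} (hn : n ∈ NN M4) :
    ev p (φ n) = dot (ev p t) (ev p u) • ev p n := by
  induction hn using Submodule.span_induction with
  | mem x hx =>
    obtain ⟨x, y, z, rfl⟩ := hx
    rw [h.J, map_E2, E2_O7, map_J]
  | zero => rw [map_zero, map_zero, smul_zero]
  | add x y _ _ hx hy => rw [map_add, map_add, map_add, hx, hy, smul_add]
  | smul c x _ hx => rw [map_smul, map_smul, map_smul, hx, smul_comm]

/-- value of an element of the Jacobian ideal -/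
noncomputable def Vn (p : Pt) (n : Nn) : O7 ℂ := ev p (inN n)

lemma Vn_add (p : Pt) (a b : Nn) : Vn p (a + b) = Vn p a + Vn p b := by
  unfold Vn; rw [map_add, map_add]
lemma Vn_zero (p : Pt) : Vn p 0 = 0 := by unfold Vn; rw [map_zero, map_zero]
lemma Vn_neg (p : Pt) (a : Nn) : Vn p (-a) = -Vn p a := by unfold Vn; rw [map_neg, map_neg]
lemma Vn_sub (p : Pt) (a b : Nn) : Vn p (a - b) = Vn p a - Vn p b := by
  unfold Vn; rw [map_sub, map_sub]
lemma Vn_smulQ (p : Pt) (c : ℚ) (a : Nn) : Vn p (c • a) = (c : ℂ) • Vn p a := by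
  unfold Vn; rw [map_smul, map_smul, smulQC]

lemma Vn_qop (p : Pt) (i j : Fin 4) (n : Nn) :
    Vn p (qop i j n) = dot (p i) (p j) • Vn p n := by
  have := ev_Q (isQ_gen i j) p (inN_mem n)
  rw [ev_gen, ev_gen] at this
  exact this

lemma Vn_top3R (p : Pt) (x y z : Fin 4) (n : Nn) :
    Vn p (top3R x y z n) = dot (p x * p y) (p z) • Vn p n := by
  have := ev_Q (isQ_gen3 x y z) p (inN_mem n)
  rw [map_mul, ev_gen, ev_gen, ev_gen] at this
  exact this

lemma Vn_smulR (p : Pt) (r : R0) (n : Nn) : Vn p (r • n) = evR p r • Vn p n := by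
  induction r using MvPolynomial.induction_on generalizing n with
  | C c =>
    have : (C c : R0) • n = c • n := by
      rw [smulR_def, show (C c : R0) = algebraMap ℚ R0 c from rfl, AlgHom.commutes]; rfl
    rw [this, Vn_smulQ, evR_C]
  | add p q hp hq => rw [add_smul, Vn_add, hp, hq, map_add, add_smul]
  | mul_X q s hq =>
    rw [mul_smul, hq, map_mul, mul_smul]
    congr 1
    rw [smulR_def, actR_X]
    induction s using Sym2.ind with
    | _ i j =>
      rw [qS_mk, Vn_qop]
      congr 1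
      unfold evR
      rw [eval₂Hom_X']; rfl

lemma Vn_smul (p : Pt) (s : S4) (n : Nn) : Vn p (s • n) = evS p s • Vn p n := by
  induction s using MvPolynomial.induction_on generalizing n with
  | C c => rw [smulS_C, Vn_smulR, evS_C]
  | add p q hp hq => rw [add_smul, Vn_add, hp, hq, map_add, add_smul]
  | mul_X q s hq => rw [mul_smul, hq, map_mul, mul_smul, smulS_X, Vn_top3R, evS_X]; rfl

lemma Vn_rl (p : Pt) (u : Fin 4) (n : Nn) : Vn p (rl u n) = Vn p n * p u := by
  unfold Vn; rw [inN_rl, map_mul, ev_gen]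

lemma Vn_Jn (p : Pt) (x y z : Fin 4) : Vn p (Jn x y z) = J (p x) (p y) (p z) := by
  unfold Vn; rw [inN_Jn, map_J, ev_gen, ev_gen, ev_gen]

/-! ### values of vectors -/

noncomputable def wv (p : Pt) : K10 → O7 ℂ := Sum.elim p (fun k => p (pr k).1 * p (pr k).2)

/-- value of a vector over `S4` -/
noncomputable def val (p : Pt) (f : K10 → S4) : O7 ℂ := ∑ k, evS p (f k) • wv p k

lemma val_add (p : Pt) (f g : K10 → S4) : val p (f + g) = val p f + val p g := by
  unfold val; simp only [Pi.add_apply, map_add, add_smul, Finset.sum_add_distrib]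
lemma val_smul (p : Pt) (s : S4) (f : K10 → S4) : val p (s • f) = evS p s • val p f := by
  unfold val; simp only [Pi.smul_apply, smul_eq_mul, map_mul, mul_smul, Finset.smul_sum]
lemma val_zero (p : Pt) : val p 0 = 0 := by unfold val; simp
lemma val_neg (p : Pt) (f : K10 → S4) : val p (-f) = -val p f := by
  unfold val; simp only [Pi.neg_apply, map_neg, neg_smul, Finset.sum_neg_distrib]
lemma val_sub (p : Pt) (f g : K10 → S4) : val p (f - g) = val p f - val p g := by
  rw [sub_eq_add_neg, val_add, val_neg, sub_eq_add_neg]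

/-- value of a vector over `R0` -/
noncomputable def valR (p : Pt) (q : P0) : O7 ℂ := ∑ k, evR p (q k) • wv p k

lemma val_iota (p : Pt) (q : P0) : val p (iotaP (Fin 4) K10 R0 q) = valR p q := by
  unfold val valR; refine Finset.sum_congr rfl fun k _ => ?_
  show evS p (C (q k)) • _ = _
  rw [evS_C]

lemma valR_add (p : Pt) (f g : P0) : valR p (f + g) = valR p f + valR p g := by
  unfold valR; simp only [Pi.add_apply, map_add, add_smul, Finset.sum_add_distrib]
lemma valR_smul (p : Pt) (s : R0) (f : P0) : valR p (s • f) = evR p s • valR p f := by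
  unfold valR; simp only [Pi.smul_apply, smul_eq_mul, map_mul, mul_smul, Finset.smul_sum]
lemma valR_zero (p : Pt) : valR p 0 = 0 := by unfold valR; simp
lemma valR_neg (p : Pt) (f : P0) : valR p (-f) = -valR p f := by
  unfold valR; simp only [Pi.neg_apply, map_neg, neg_smul, Finset.sum_neg_distrib]
lemma valR_sub (p : Pt) (f g : P0) : valR p (f - g) = valR p f - valR p g := by
  rw [sub_eq_add_neg, valR_add, valR_neg, sub_eq_add_neg]

lemma valR_single (p : Pt) (k : K10) : valR p (Pi.single k 1) = wv p k := by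
  unfold valR
  rw [Finset.sum_eq_single k]
  · rw [Pi.single_eq_same, map_one, one_smul]
  · intro j _ hj
    rw [Pi.single_eq_of_ne hj, map_zero, zero_smul]
  · intro h; exact absurd (Finset.mem_univ k) h

lemma valR_e1 (p : Pt) (w : Fin 4) : valR p (e1 R0 w) = p w := valR_single p (Sum.inl w)

lemma valR_eP (p : Pt) (k : Fin 6) : valR p (eP R0 k) = p (pr k).1 * p (pr k).2 :=
  valR_single p (Sum.inr k)

lemma valR_e2 (p : Pt) (v w : Fin 4) : valR p (e2 R0 v w) = p v * p w := by
  have hs : ∀ v w : Fin 4, valR p (e2 R0 v w) = p v * p w → valR p (e2 R0 w v) = p w * p v := by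
    intro v w h
    rw [e2_swap, valR_neg, h, anti (p w) (p v)]
  have hk : ∀ k : Fin 6, valR p (e2 R0 (pr k).1 (pr k).2) = p (pr k).1 * p (pr k).2 := by
    intro k; rw [e2_pr, valR_eP]
  have h0 : ∀ v : Fin 4, valR p (e2 R0 v v) = p v * p v := by
    intro v; rw [e2_self, valR_zero, mul_self']
  fin_cases v <;> fin_cases w
  · exact h0 0
  · exact hk 0
  · exact hk 1
  · exact hk 2
  · exact hs _ _ (hk 0)
  · exact h0 1
  · exact hk 3
  · exact hk 4
  · exact hs _ _ (hk 1)
  · exact hs _ _ (hk 3)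
  · exact h0 2
  · exact hk 5
  · exact hs _ _ (hk 2)
  · exact hs _ _ (hk 4)
  · exact hs _ _ (hk 5)
  · exact h0 3

lemma valR_ind {f g : P0 → O7 ℂ} (p : Pt) (hf : ∀ a b, f (a + b) = f a + f b)
    (hf' : ∀ (r : R0) a, f (r • a) = evR p r • f a) (hg : ∀ a b, g (a + b) = g a + g b)
    (hg' : ∀ (r : R0) a, g (r • a) = evR p r • g a) (h1 : ∀ w, f (e1 R0 w) = g (e1 R0 w))
    (h2 : ∀ v w, f (e2 R0 v w) = g (e2 R0 v w)) (q : P0) : f q = g q := by
  induction q using K10_ind with
  | h1 w => exact h1 w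
  | h2 v w => exact h2 v w
  | hzero =>
    have a := hf' 0 0
    have b := hg' 0 0
    rw [zero_smul, map_zero, zero_smul] at a b
    rw [a, b]
  | hadd x y hx hy => rw [hf, hg, hx, hy]
  | hsmul r x hx => rw [hf', hg', hx]

/-- multiplication by a letter -/
lemma valR_mul (p : Pt) (u : Fin 4) (q : P0) :
    valR p q * p u = valR p (mmu qx u q) + (1/9 : ℂ) • Vn p (cc u q) := by
  refine valR_ind (f := fun q => valR p q * p u)
    (g := fun q => valR p (mmu qx u q) + (1/9 : ℂ) • Vn p (cc u q)) p ?_ ?_ ?_ ?_ ?_ ?_ q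
  · intro a b; simp only [valR_add, add_mul]
  · intro r a; simp only [valR_smul, smul_mul_assoc]
  · intro a b; simp only [map_add, valR_add, Vn_add, smul_add]; abel
  · intro r a; simp only [map_smul, valR_smul, Vn_smulR, smul_add, smul_comm (1/9 : ℂ)]
  · intro w
    simp only [valR_e1, mmu_e1, valR_e2, cc_e1, Vn_zero, smul_zero, add_zero]
  · intro v w
    simp only [valR_e2, mmu_e2, cc_e2, Vn_smulQ, Vn_Jn, valR_sub, valR_smul, valR_e1, evR_qx]
    rw [rule1, smulQC, smul_smul]
    norm_num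

/-- values of `Γ` -/
theorem Vn_Gam (p : Pt) (x y z : Fin 4) (q : P0) :
    Vn p (Gam x y z q) = (9 : ℂ) • (dot (p x * p y) (p z) • valR p q - valR p (TT qx x y z q)) := by
  have hg : ∀ w : Fin 4, Vn p (gn x y z w)
      = (9 : ℂ) • (dot (p x * p y) (p z) • p w - valR p (TT qx x y z (e1 R0 w))) := by
    intro w
    rw [TT_e1]
    simp only [valR_add, valR_smul, valR_e2, evR_qx]
    unfold Vn
    rw [inN_gn, map_gg, ev_gen, ev_gen, ev_gen, ev_gen, gg_O7, smulQC]
    push_cast
    congr 1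
    abel
  refine valR_ind (f := fun q => Vn p (Gam x y z q))
    (g := fun q => (9 : ℂ) • (dot (p x * p y) (p z) • valR p q - valR p (TT qx x y z q)))
    p ?_ ?_ ?_ ?_ ?_ ?_ q
  · intro a b; simp only [map_add, Vn_add]
  · intro r a; simp only [map_smul, Vn_smulR]
  · intro a b; simp only [map_add, valR_add, smul_add, smul_sub]; abel
  · intro r a
    simp only [map_smul, valR_smul, smul_sub]
    rw [smul_comm (dot (p x * p y) (p z)), smul_comm (9 : ℂ) (evR p r),
      smul_comm (9 : ℂ) (evR p r)]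
  · intro w
    simp only [Gam_e1, valR_e1]
    exact hg w
  · intro v w
    simp only [Gam_e2, valR_e2]
    have h1 : hn x y z v w = rl w (gn x y z v) + cc w (TT qx x y z (e1 R0 v)) := by
      rw [TT_e1]
      simp only [map_add, map_smul, cc_e2]
      unfold hn
      module
    have h2 : TT qx x y z (e2 R0 v w) = mmu qx w (TT qx x y z (e1 R0 v)) := by
      have := bet_e1 qx x y z w v
      unfold bet at this
      rw [LinearMap.sub_apply, LinearMap.comp_apply, LinearMap.comp_apply, mmu_e1,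
        sub_eq_zero] at this
      exact this
    rw [h1, Vn_add, Vn_rl, hg, h2, smul_mul_assoc, sub_mul, smul_mul_assoc, valR_mul, smul_sub,
      smul_add, smul_smul (9 : ℂ) (1/9 : ℂ)]
    norm_num
    module

/-- values of the elements `B` -/
theorem Vn_Bm (p : Pt) (x y z u : Fin 4) (q : P0) :
    Vn p (Bm x y z u q) = (9 : ℂ) • valR p (bt x y z u q) := by
  have h := congrArg (Vn p) (rl_Gam x y z u q)
  rw [Vn_rl, Vn_add, Vn_add, Vn_sub, Vn_top3R, Vn_Gam, Vn_Gam, smul_mul_assoc, sub_mul,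
    smul_mul_assoc, valR_mul, valR_mul] at h
  have h2 : bt x y z u q = TT qx x y z (mmu qx u q) - mmu qx u (TT qx x y z q) := rfl
  rw [h2, valR_sub]
  linear_combination (norm := module) -h

lemma bt_e2 (x y z u v w : Fin 4) : bt x y z u (e2 R0 v w)
    = -(mn x y v w • e2 R0 z u + mn y z v w • e2 R0 x u + mn z x v w • e2 R0 y u
      + mn x u v w • e2 R0 y z + mn y u v w • e2 R0 z x + mn z u v w • e2 R0 x y) := by
  unfold bt bet mn
  simp only [LinearMap.sub_apply, LinearMap.comp_apply, mmu_e2,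
      TT_e2, map_add, map_sub, map_smul, TT_e1, mmu_e1]
  rw [qx_symm v u, qx_symm w u]
  module

lemma Cn_eq (x y z u v w n : Fin 4) : Cn x y z u v w n
    = rl n (Bn x y z v w u) - cc n (bt x y z u (e2 R0 v w)) := by
  rw [bt_e2]
  simp only [map_neg, map_add, map_smul, cc_e2]
  unfold Cn
  module

theorem Vn_Cn (p : Pt) (x y z u v w n : Fin 4) : Vn p (Cn x y z u v w n)
    = (9 : ℂ) • valR p (mmu qx n (bt x y z u (e2 R0 v w))) := by
  rw [Cn_eq, Vn_sub, Vn_rl, ← Bm_e2, Vn_Bm, smul_mul_assoc, valR_mul]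
  module

end Pool.Agent.H1.Mal
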